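import Pool.Agent.Strip051.LC.E0.Ch.Te

/-! # Small rests: certificate X_t1a_c1_d_n_M_2 -/

set_option maxRecDepth 100000

namespace Pool.Agent.Strip051.LC.E0.Ch

open Pool.Agent.Strip051.PB

def x_t1a_c1_d_n_M_t33 : T :=
  (.b (.c (.a (.l 19) (.b (.c (.a (.c (.b (.l 0) (.l 19)) (.b (.l 0) (.l 19))) (.c (.b (.l 0) (.l
      0)) (.b (.l 0) (.l 0)))) (.a (.c (.b (.l 0) (.l 19)) (.b (.l 0) (.l 19))) (.c (.b (.l 0)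
      (.l 0)) (.b (.l 0) (.l 0))))) (.l 19))) (.a (.l 19) (.b (.c (.a (.c (.b (.l 0) (.l 19)) (.b
      (.l 0) (.l 19))) (.c (.b (.l 0) (.l 0)) (.b (.l 0) (.l 0)))) (.a (.c (.b (.l 0) (.l 19))
      (.b (.l 0) (.l 19))) (.c (.b (.l 0) (.l 0)) (.b (.l 0) (.l 0))))) (.l 19)))) (.l 19))

theorem x_t1a_c1_d_n_M_h33 : chk3 (onCell 0 6442450944 0 3758096384 0 34359739 T_t1a_c1_d_n) x_t1a_c1_d_n_M_t33 68 34 5 = true := by decide +kernel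

def x_t1a_c1_d_n_M_t34 : T :=
  (.b (.c (.a (.c (.b (.l 0) (.a (.b (.c (.a (.l 19) (.l 0)) (.a (.l 19) (.l 0))) (.l 19)) (.b
      (.l 0) (.l 19)))) (.b (.l 0) (.a (.b (.c (.a (.l 19) (.l 0)) (.a (.l 19) (.l 0))) (.l 19))
      (.b (.l 0) (.l 19))))) (.c (.b (.l 0) (.a (.l 0) (.l 0))) (.b (.l 0) (.a (.l 0) (.l 0)))))
      (.a (.c (.b (.l 0) (.a (.b (.c (.a (.l 19) (.l 0)) (.a (.l 19) (.l 0))) (.l 19)) (.b (.l 0)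
      (.l 19)))) (.b (.l 0) (.a (.b (.c (.a (.l 19) (.l 0)) (.a (.l 19) (.l 0))) (.l 19)) (.b (.l
      0) (.l 19))))) (.c (.b (.l 0) (.a (.l 0) (.l 0))) (.b (.l 0) (.a (.l 0) (.l 0)))))) (.c (.a
      (.l 19) (.b (.c (.a (.l 19) (.b (.l 0) (.l 19))) (.a (.l 19) (.b (.l 0) (.l 19)))) (.l
      19))) (.a (.l 19) (.b (.c (.a (.l 19) (.b (.l 0) (.l 19))) (.a (.l 19) (.b (.l 0) (.l
      19)))) (.l 19)))))

theorem x_t1a_c1_d_n_M_h34 : chk3 (onCell 0 6442450944 0 3758096384 0 34359739 T_t1a_c1_d_n) x_t1a_c1_d_n_M_t34 69 34 5 = true := by decide +kernel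

def x_t1a_c1_d_n_M_t35 : T :=
  (.l 19)

theorem x_t1a_c1_d_n_M_h35 : chk3 (onCell 0 6442450944 0 3758096384 0 34359739 T_t1a_c1_d_n) x_t1a_c1_d_n_M_t35 34 35 2 = true := by decide +kernel

def x_t1a_c1_d_n_M_t36 : T :=
  (.c (.a (.l 0) (.l 0)) (.a (.l 0) (.l 0)))

theorem x_t1a_c1_d_n_M_h36 : chk3 (onCell 0 6442450944 0 3758096384 0 34359739 T_t1a_c1_d_n) x_t1a_c1_d_n_M_t36 70 68 4 = true := by decide +kernel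

def x_t1a_c1_d_n_M_t37 : T :=
  (.a (.b (.c (.a (.b (.l 0) (.c (.a (.b (.l 0) (.l 19)) (.l 0)) (.a (.b (.l 0) (.l 19)) (.l
      0)))) (.l 0)) (.a (.b (.l 0) (.c (.a (.b (.l 0) (.l 19)) (.l 0)) (.a (.b (.l 0) (.l 19))
      (.l 0)))) (.l 0))) (.c (.a (.l 19) (.b (.c (.a (.l 19) (.b (.l 0) (.l 19))) (.a (.l 19) (.b
      (.l 0) (.l 19)))) (.l 19))) (.a (.l 19) (.b (.c (.a (.l 19) (.b (.l 0) (.l 19))) (.a (.l
      19) (.b (.l 0) (.l 19)))) (.l 19))))) (.l 10))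

theorem x_t1a_c1_d_n_M_h37 : chk3 (onCell 0 6442450944 0 3758096384 0 34359739 T_t1a_c1_d_n) x_t1a_c1_d_n_M_t37 70 69 8 = true := by decide +kernel

def x_t1a_c1_d_n_M_t38 : T :=
  (.a (.b (.c (.a (.b (.l 0) (.c (.a (.b (.l 0) (.l 19)) (.l 0)) (.a (.b (.l 0) (.l 19)) (.l
      0)))) (.l 0)) (.a (.b (.l 0) (.c (.a (.b (.l 0) (.l 19)) (.l 0)) (.a (.b (.l 0) (.l 19))
      (.l 0)))) (.l 0))) (.c (.a (.l 19) (.b (.c (.a (.l 19) (.b (.l 0) (.l 19))) (.a (.l 19) (.b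
      (.l 0) (.l 19)))) (.l 19))) (.a (.l 19) (.b (.c (.a (.l 19) (.b (.l 0) (.l 19))) (.a (.l
      19) (.b (.l 0) (.l 19)))) (.l 19))))) (.l 10))

theorem x_t1a_c1_d_n_M_h38 : chk3 (onCell 0 6442450944 0 3758096384 0 34359739 T_t1a_c1_d_n) x_t1a_c1_d_n_M_t38 70 69 9 = true := by decide +kernel

def x_t1a_c1_d_n_M_t39 : T :=
  (.c (.b (.l 0) (.a (.b (.l 0) (.l 10)) (.l 0))) (.b (.l 0) (.a (.b (.l 0) (.l 10)) (.l 0))))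

theorem x_t1a_c1_d_n_M_h39 : chk3 (onCell 0 6442450944 0 3758096384 0 34359739 T_t1a_c1_d_n) x_t1a_c1_d_n_M_t39 71 34 4 = true := by decide +kernel

def x_t1a_c1_d_n_M_t40 : T :=
  (.c (.a (.l 0) (.l 0)) (.a (.l 0) (.l 0)))

theorem x_t1a_c1_d_n_M_h40 : chk3 (onCell 0 6442450944 0 3758096384 0 34359739 T_t1a_c1_d_n) x_t1a_c1_d_n_M_t40 70 68 5 = true := by decide +kernel

def x_t1a_c1_d_n_M_t41 : T :=
  (.a (.b (.c (.a (.b (.l 0) (.c (.a (.b (.l 0) (.l 19)) (.l 0)) (.a (.b (.l 0) (.l 19)) (.l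
      0)))) (.l 0)) (.a (.b (.l 0) (.c (.a (.b (.l 0) (.l 19)) (.l 0)) (.a (.b (.l 0) (.l 19))
      (.l 0)))) (.l 0))) (.c (.a (.l 19) (.b (.c (.a (.l 19) (.b (.l 0) (.l 19))) (.a (.l 19) (.l
      0))) (.l 19))) (.a (.l 19) (.b (.c (.a (.l 19) (.l 0)) (.a (.l 19) (.l 0))) (.l 19))))) (.l
      10))

theorem x_t1a_c1_d_n_M_h41 : chk3 (onCell 0 6442450944 0 3758096384 0 34359739 T_t1a_c1_d_n) x_t1a_c1_d_n_M_t41 70 69 10 = true := by decide +kernel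

def x_t1a_c1_d_n_M_t42 : T :=
  (.a (.b (.c (.a (.b (.l 0) (.c (.a (.b (.l 0) (.l 19)) (.l 0)) (.a (.b (.l 0) (.l 19)) (.l
      0)))) (.l 0)) (.a (.b (.l 0) (.c (.a (.b (.l 0) (.l 19)) (.l 0)) (.a (.b (.l 0) (.l 19))
      (.l 0)))) (.l 0))) (.c (.a (.l 19) (.b (.c (.a (.l 19) (.l 0)) (.a (.l 19) (.l 0))) (.l
      19))) (.a (.l 19) (.b (.c (.a (.b (.l 0) (.l 19)) (.l 0)) (.a (.b (.l 0) (.l 19)) (.l 0)))
      (.l 19))))) (.l 10))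

theorem x_t1a_c1_d_n_M_h42 : chk3 (onCell 0 6442450944 0 3758096384 0 34359739 T_t1a_c1_d_n) x_t1a_c1_d_n_M_t42 70 69 11 = true := by decide +kernel

def x_t1a_c1_d_n_M_t43 : T :=
  (.c (.b (.l 0) (.a (.b (.l 0) (.l 10)) (.l 0))) (.b (.l 0) (.a (.b (.l 0) (.l 10)) (.l 0))))

theorem x_t1a_c1_d_n_M_h43 : chk3 (onCell 0 6442450944 0 3758096384 0 34359739 T_t1a_c1_d_n) x_t1a_c1_d_n_M_t43 71 34 5 = true := by decide +kernel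

def x_t1a_c1_d_n_M_t44 : T :=
  (.c (.a (.b (.c (.a (.l 19) (.l 10)) (.a (.l 19) (.l 10))) (.l 19)) (.l 10)) (.a (.b (.c (.a
      (.l 19) (.l 10)) (.a (.l 19) (.l 10))) (.l 19)) (.l 10)))

theorem x_t1a_c1_d_n_M_h44 : chk3 (onCell 0 6442450944 0 3758096384 0 34359739 T_t1a_c1_d_n) x_t1a_c1_d_n_M_t44 35 35 2 = true := by decide +kernel

def x_t1a_c1_d_n_M_t45 : T :=
  (.b (.c (.a (.l 19) (.b (.c (.a (.c (.b (.l 0) (.l 19)) (.b (.l 0) (.l 19))) (.c (.b (.l 0) (.l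
      0)) (.b (.l 0) (.l 0)))) (.a (.c (.b (.l 0) (.l 19)) (.b (.l 0) (.l 19))) (.c (.b (.l 0)
      (.l 0)) (.b (.l 0) (.l 0))))) (.l 19))) (.a (.l 19) (.b (.c (.a (.c (.b (.l 0) (.l 19)) (.b
      (.l 0) (.l 19))) (.c (.b (.l 0) (.l 0)) (.b (.l 0) (.l 0)))) (.a (.c (.b (.l 0) (.l 19))
      (.b (.l 0) (.l 19))) (.c (.b (.l 0) (.l 0)) (.b (.l 0) (.l 0))))) (.l 19)))) (.l 19))

theorem x_t1a_c1_d_n_M_h45 : chk3 (onCell 0 6442450944 0 3758096384 0 34359739 T_t1a_c1_d_n) x_t1a_c1_d_n_M_t45 68 34 6 = true := by decide +kernel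

def x_t1a_c1_d_n_M_t46 : T :=
  (.c (.a (.c (.b (.l 0) (.a (.b (.c (.a (.l 19) (.l 0)) (.a (.l 19) (.l 0))) (.l 19)) (.b (.l 0)
      (.l 19)))) (.b (.l 0) (.a (.b (.c (.a (.l 19) (.l 0)) (.a (.l 19) (.l 0))) (.l 19)) (.b (.l
      0) (.c (.l 19) (.a (.l 19) (.l 0))))))) (.c (.b (.l 0) (.a (.l 0) (.l 0))) (.b (.l 0) (.a
      (.l 0) (.l 0))))) (.a (.b (.l 0) (.c (.a (.b (.c (.a (.l 19) (.l 0)) (.a (.l 19) (.l 0)))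
      (.l 19)) (.b (.l 0) (.c (.a (.l 19) (.l 0)) (.a (.l 19) (.l 0))))) (.a (.b (.c (.a (.l 19)
      (.l 0)) (.a (.l 19) (.l 0))) (.l 19)) (.b (.l 0) (.c (.a (.l 19) (.l 0)) (.a (.l 19) (.l
      0))))))) (.c (.b (.l 0) (.a (.l 0) (.l 0))) (.b (.l 0) (.a (.l 0) (.l 0))))))

theorem x_t1a_c1_d_n_M_h46 : chk3 (onCell 0 6442450944 0 3758096384 0 34359739 T_t1a_c1_d_n) x_t1a_c1_d_n_M_t46 69 68 6 = true := by decide +kernel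

def x_t1a_c1_d_n_M_t47 : T :=
  (.c (.a (.l 19) (.b (.c (.a (.l 19) (.b (.l 0) (.l 19))) (.a (.l 19) (.b (.l 0) (.l 19)))) (.l
      19))) (.a (.l 19) (.b (.c (.a (.l 19) (.b (.l 0) (.l 19))) (.a (.l 19) (.b (.l 0) (.l
      19)))) (.l 19))))

theorem x_t1a_c1_d_n_M_h47 : chk3 (onCell 0 6442450944 0 3758096384 0 34359739 T_t1a_c1_d_n) x_t1a_c1_d_n_M_t47 69 69 6 = true := by decide +kernel

def x_t1a_c1_d_n_M_t48 : T :=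
  (.b (.c (.a (.l 19) (.b (.c (.a (.c (.b (.l 0) (.l 19)) (.b (.l 0) (.l 19))) (.c (.b (.l 0) (.l
      0)) (.b (.l 0) (.l 0)))) (.a (.c (.b (.l 0) (.l 19)) (.b (.l 0) (.l 19))) (.c (.b (.l 0)
      (.l 0)) (.b (.l 0) (.l 0))))) (.l 19))) (.a (.l 19) (.b (.c (.a (.c (.b (.l 0) (.l 19)) (.b
      (.l 0) (.l 19))) (.c (.b (.l 0) (.l 0)) (.b (.l 0) (.l 0)))) (.a (.c (.b (.l 0) (.l 19))
      (.b (.l 0) (.l 19))) (.c (.b (.l 0) (.l 0)) (.b (.l 0) (.l 0))))) (.l 19)))) (.l 19))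

theorem x_t1a_c1_d_n_M_h48 : chk3 (onCell 0 6442450944 0 3758096384 0 34359739 T_t1a_c1_d_n) x_t1a_c1_d_n_M_t48 68 34 7 = true := by decide +kernel

def x_t1a_c1_d_n_M_t49 : T :=
  (.c (.a (.b (.l 0) (.c (.a (.b (.c (.a (.l 19) (.l 0)) (.a (.l 19) (.l 0))) (.l 19)) (.b (.l 0)
      (.c (.a (.l 19) (.l 0)) (.a (.l 19) (.l 0))))) (.a (.b (.c (.a (.l 19) (.l 0)) (.a (.l 19)
      (.l 0))) (.l 19)) (.b (.l 0) (.c (.a (.l 19) (.l 0)) (.a (.l 19) (.l 0))))))) (.c (.b (.l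
      0) (.a (.l 0) (.l 0))) (.b (.l 0) (.a (.l 0) (.l 0))))) (.a (.b (.l 0) (.c (.a (.b (.c (.a
      (.l 19) (.l 0)) (.a (.l 19) (.l 0))) (.l 19)) (.b (.l 0) (.c (.a (.l 19) (.l 0)) (.a (.l
      19) (.l 0))))) (.a (.b (.c (.a (.l 19) (.l 0)) (.a (.l 19) (.l 0))) (.l 19)) (.b (.l 0) (.c
      (.a (.l 19) (.l 0)) (.a (.l 19) (.l 0))))))) (.c (.b (.l 0) (.a (.l 0) (.l 0))) (.b (.l 0)
      (.a (.l 0) (.l 0))))))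

theorem x_t1a_c1_d_n_M_h49 : chk3 (onCell 0 6442450944 0 3758096384 0 34359739 T_t1a_c1_d_n) x_t1a_c1_d_n_M_t49 69 68 7 = true := by decide +kernel

def x_t1a_c1_d_n_M_t50 : T :=
  (.c (.a (.l 19) (.b (.c (.a (.l 19) (.b (.l 0) (.l 19))) (.a (.l 19) (.b (.l 0) (.l 19)))) (.l
      19))) (.a (.l 19) (.b (.c (.a (.l 19) (.b (.l 0) (.l 19))) (.a (.l 19) (.b (.l 0) (.l
      19)))) (.l 19))))

theorem x_t1a_c1_d_n_M_h50 : chk3 (onCell 0 6442450944 0 3758096384 0 34359739 T_t1a_c1_d_n) x_t1a_c1_d_n_M_t50 69 69 7 = true := by decide +kernel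

def x_t1a_c1_d_n_M_t51 : T :=
  (.l 19)

theorem x_t1a_c1_d_n_M_h51 : chk3 (onCell 0 6442450944 0 3758096384 0 34359739 T_t1a_c1_d_n) x_t1a_c1_d_n_M_t51 34 35 3 = true := by decide +kernel

def x_t1a_c1_d_n_M_t52 : T :=
  (.c (.a (.l 0) (.l 0)) (.a (.l 0) (.l 0)))

theorem x_t1a_c1_d_n_M_h52 : chk3 (onCell 0 6442450944 0 3758096384 0 34359739 T_t1a_c1_d_n) x_t1a_c1_d_n_M_t52 70 68 6 = true := by decide +kernel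

def x_t1a_c1_d_n_M_t53 : T :=
  (.a (.b (.c (.a (.b (.l 0) (.c (.a (.b (.l 0) (.l 19)) (.l 0)) (.a (.b (.l 0) (.l 19)) (.l
      0)))) (.l 0)) (.a (.b (.l 0) (.c (.a (.b (.l 0) (.l 19)) (.l 0)) (.a (.l 0) (.l 0)))) (.l
      0))) (.c (.a (.l 19) (.b (.c (.a (.b (.l 0) (.l 19)) (.l 0)) (.a (.b (.l 0) (.l 19)) (.l
      0))) (.l 19))) (.a (.l 19) (.b (.c (.a (.b (.l 0) (.l 19)) (.l 0)) (.a (.b (.l 0) (.l 19))
      (.l 0))) (.l 19))))) (.l 10))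

theorem x_t1a_c1_d_n_M_h53 : chk3 (onCell 0 6442450944 0 3758096384 0 34359739 T_t1a_c1_d_n) x_t1a_c1_d_n_M_t53 70 69 12 = true := by decide +kernel

def x_t1a_c1_d_n_M_t54 : T :=
  (.a (.b (.c (.a (.b (.l 0) (.c (.a (.l 0) (.l 0)) (.a (.l 0) (.l 0)))) (.l 0)) (.a (.b (.l 0)
      (.c (.a (.l 0) (.l 0)) (.a (.l 0) (.l 0)))) (.l 0))) (.c (.a (.l 19) (.b (.c (.a (.b (.l 0)
      (.l 19)) (.l 0)) (.a (.b (.l 0) (.l 19)) (.l 0))) (.l 19))) (.a (.l 19) (.b (.c (.a (.b (.l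
      0) (.l 19)) (.l 0)) (.a (.b (.l 0) (.l 19)) (.l 0))) (.l 19))))) (.l 10))

theorem x_t1a_c1_d_n_M_h54 : chk3 (onCell 0 6442450944 0 3758096384 0 34359739 T_t1a_c1_d_n) x_t1a_c1_d_n_M_t54 70 69 13 = true := by decide +kernel

def x_t1a_c1_d_n_M_t55 : T :=
  (.c (.b (.l 0) (.a (.b (.l 0) (.l 10)) (.l 0))) (.b (.l 0) (.a (.b (.l 0) (.l 10)) (.l 0))))

theorem x_t1a_c1_d_n_M_h55 : chk3 (onCell 0 6442450944 0 3758096384 0 34359739 T_t1a_c1_d_n) x_t1a_c1_d_n_M_t55 71 34 6 = true := by decide +kernel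

def x_t1a_c1_d_n_M_t56 : T :=
  (.c (.a (.l 0) (.l 0)) (.a (.c (.l 0) (.l 0)) (.l 0)))

theorem x_t1a_c1_d_n_M_h56 : chk3 (onCell 0 6442450944 0 3758096384 0 34359739 T_t1a_c1_d_n) x_t1a_c1_d_n_M_t56 70 68 7 = true := by decide +kernel

def x_t1a_c1_d_n_M_t57 : T :=
  (.c (.a (.b (.c (.a (.b (.l 0) (.c (.a (.l 0) (.l 0)) (.a (.l 0) (.l 0)))) (.l 0)) (.a (.b (.l
      0) (.c (.a (.l 0) (.l 0)) (.a (.l 0) (.l 0)))) (.l 0))) (.c (.a (.l 19) (.b (.c (.a (.b (.l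
      0) (.l 19)) (.l 0)) (.a (.b (.l 0) (.l 19)) (.l 0))) (.l 19))) (.a (.l 19) (.b (.c (.a (.b
      (.l 0) (.l 19)) (.l 0)) (.a (.b (.l 0) (.l 19)) (.l 0))) (.l 19))))) (.l 10)) (.a (.b (.c
      (.a (.b (.l 0) (.c (.a (.l 0) (.l 0)) (.a (.l 0) (.l 0)))) (.l 0)) (.a (.b (.l 0) (.c (.a
      (.l 0) (.l 0)) (.a (.l 0) (.l 0)))) (.l 0))) (.c (.a (.l 19) (.b (.c (.a (.b (.l 0) (.l
      19)) (.l 0)) (.a (.b (.l 0) (.l 19)) (.l 0))) (.l 19))) (.a (.l 19) (.b (.c (.a (.b (.l 0)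
      (.l 19)) (.l 0)) (.a (.b (.l 0) (.l 19)) (.l 0))) (.l 19))))) (.l 10)))

theorem x_t1a_c1_d_n_M_h57 : chk3 (onCell 0 6442450944 0 3758096384 0 34359739 T_t1a_c1_d_n) x_t1a_c1_d_n_M_t57 70 69 7 = true := by decide +kernel

def x_t1a_c1_d_n_M_t58 : T :=
  (.c (.b (.l 0) (.a (.b (.l 0) (.l 10)) (.l 0))) (.b (.l 0) (.a (.b (.l 0) (.l 10)) (.l 0))))

theorem x_t1a_c1_d_n_M_h58 : chk3 (onCell 0 6442450944 0 3758096384 0 34359739 T_t1a_c1_d_n) x_t1a_c1_d_n_M_t58 71 34 7 = true := by decide +kernel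

def x_t1a_c1_d_n_M_t59 : T :=
  (.c (.a (.b (.c (.a (.l 19) (.l 10)) (.a (.l 19) (.l 10))) (.l 19)) (.l 10)) (.a (.b (.c (.a
      (.l 19) (.l 10)) (.a (.l 19) (.l 10))) (.l 19)) (.l 10)))

theorem x_t1a_c1_d_n_M_h59 : chk3 (onCell 0 6442450944 0 3758096384 0 34359739 T_t1a_c1_d_n) x_t1a_c1_d_n_M_t59 35 35 3 = true := by decide +kernel

def x_t1a_c1_d_n_M_t60 : T :=
  (.c (.a (.c (.b (.l 0) (.a (.l 0) (.l 0))) (.b (.l 0) (.a (.l 0) (.l 0)))) (.c (.b (.l 0) (.l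
      0)) (.b (.l 0) (.l 0)))) (.a (.c (.b (.l 0) (.a (.l 0) (.l 0))) (.b (.l 0) (.a (.l 0) (.l
      0)))) (.c (.b (.l 0) (.l 0)) (.b (.l 0) (.l 0)))))

theorem x_t1a_c1_d_n_M_h60 : chk3 (onCell 0 6442450944 0 3758096384 0 34359739 T_t1a_c1_d_n) x_t1a_c1_d_n_M_t60 36 34 2 = true := by decide +kernel

def x_t1a_c1_d_n_M_t61 : T :=
  (.c (.a (.b (.c (.a (.b (.l 0) (.l 10)) (.b (.l 0) (.l 0))) (.a (.b (.l 0) (.l 10)) (.b (.l 0)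
      (.l 0)))) (.l 10)) (.b (.c (.a (.l 0) (.l 0)) (.a (.l 0) (.l 0))) (.c (.a (.b (.c (.a (.l
      0) (.l 0)) (.a (.l 0) (.l 0))) (.l 10)) (.b (.l 0) (.l 10))) (.a (.b (.c (.l 0) (.l 0)) (.l
      10)) (.b (.l 0) (.c (.a (.l 0) (.l 0)) (.a (.l 0) (.l 0)))))))) (.a (.b (.c (.a (.b (.l 0)
      (.l 10)) (.b (.l 0) (.l 0))) (.a (.b (.l 0) (.l 10)) (.b (.l 0) (.l 0)))) (.l 10)) (.b (.c
      (.a (.l 0) (.l 0)) (.a (.l 0) (.l 0))) (.c (.a (.b (.c (.l 0) (.l 0)) (.l 10)) (.b (.l 0)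
      (.c (.a (.l 0) (.l 0)) (.a (.l 0) (.l 0))))) (.a (.b (.c (.l 0) (.l 0)) (.l 10)) (.b (.l 0)
      (.c (.a (.l 0) (.l 0)) (.a (.l 0) (.l 0)))))))))

theorem x_t1a_c1_d_n_M_h61 : chk3 (onCell 0 6442450944 0 3758096384 0 34359739 T_t1a_c1_d_n) x_t1a_c1_d_n_M_t61 36 35 2 = true := by decide +kernel

def x_t1a_c1_d_n_M_t62 : T :=
  (.a (.c (.b (.c (.b (.l 0) (.l 0)) (.b (.l 0) (.l 0))) (.b (.c (.l 0) (.l 0)) (.c (.a (.c (.l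
      0) (.l 0)) (.l 0)) (.a (.c (.l 0) (.l 0)) (.l 0))))) (.b (.c (.b (.l 0) (.l 0)) (.b (.l 0)
      (.l 0))) (.b (.c (.l 0) (.l 0)) (.c (.a (.c (.l 0) (.l 0)) (.l 0)) (.a (.l 0) (.l 0))))))
      (.a (.c (.b (.l 0) (.a (.l 2) (.l 0))) (.b (.l 0) (.a (.l 2) (.l 0)))) (.c (.a (.l 2) (.l
      2)) (.a (.c (.l 2) (.l 2)) (.l 2)))))

theorem x_t1a_c1_d_n_M_h62 : chk3 (onCell 0 6442450944 0 3758096384 0 34359739 T_t1a_c1_d_n) x_t1a_c1_d_n_M_t62 37 17 2 = true := by decide +kernel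

def x_t1a_c1_d_n_M_t63 : T :=
  (.c (.a (.c (.b (.l 0) (.a (.l 0) (.l 0))) (.b (.l 0) (.a (.l 0) (.l 0)))) (.c (.b (.l 0) (.l
      0)) (.b (.l 0) (.l 0)))) (.a (.c (.b (.l 0) (.a (.l 0) (.l 0))) (.b (.l 0) (.a (.l 0) (.l
      0)))) (.c (.b (.l 0) (.l 0)) (.b (.l 0) (.l 0)))))

theorem x_t1a_c1_d_n_M_h63 : chk3 (onCell 0 6442450944 0 3758096384 0 34359739 T_t1a_c1_d_n) x_t1a_c1_d_n_M_t63 36 34 3 = true := by decide +kernel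

def x_t1a_c1_d_n_M_t64 : T :=
  (.c (.a (.b (.c (.a (.b (.l 0) (.l 10)) (.b (.l 0) (.l 0))) (.a (.b (.l 0) (.l 10)) (.b (.l 0)
      (.l 0)))) (.l 10)) (.b (.c (.a (.l 0) (.l 0)) (.a (.l 0) (.l 0))) (.c (.a (.b (.c (.l 0)
      (.l 0)) (.l 10)) (.b (.l 0) (.c (.a (.l 0) (.l 0)) (.a (.l 0) (.l 0))))) (.a (.b (.l 0) (.l
      10)) (.b (.l 0) (.c (.a (.l 0) (.l 0)) (.l 0))))))) (.a (.b (.c (.a (.b (.l 0) (.l 10)) (.b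
      (.l 0) (.l 0))) (.a (.b (.l 0) (.l 10)) (.b (.l 0) (.l 0)))) (.l 10)) (.b (.c (.a (.l 0)
      (.l 0)) (.a (.l 0) (.l 0))) (.c (.a (.b (.l 0) (.l 10)) (.b (.l 0) (.c (.l 0) (.l 0)))) (.a
      (.b (.l 0) (.l 10)) (.b (.l 0) (.c (.l 0) (.l 0))))))))

theorem x_t1a_c1_d_n_M_h64 : chk3 (onCell 0 6442450944 0 3758096384 0 34359739 T_t1a_c1_d_n) x_t1a_c1_d_n_M_t64 36 35 3 = true := by decide +kernel

def x_t1a_c1_d_n_M_t65 : T :=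
  (.a (.c (.b (.c (.b (.l 0) (.l 0)) (.b (.l 0) (.l 0))) (.b (.l 0) (.c (.a (.l 0) (.l 0)) (.a
      (.l 0) (.l 0))))) (.b (.c (.b (.l 0) (.l 0)) (.b (.l 0) (.l 0))) (.b (.l 0) (.c (.a (.l 0)
      (.l 0)) (.a (.l 0) (.l 0)))))) (.a (.c (.b (.l 0) (.a (.l 2) (.l 2))) (.b (.l 0) (.a (.l 2)
      (.l 2)))) (.c (.a (.c (.l 2) (.l 2)) (.b (.l 0) (.l 2))) (.a (.b (.l 0) (.l 2)) (.b (.l 0)
      (.l 2))))))

theorem x_t1a_c1_d_n_M_h65 : chk3 (onCell 0 6442450944 0 3758096384 0 34359739 T_t1a_c1_d_n) x_t1a_c1_d_n_M_t65 37 17 3 = true := by decide +kernel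

def x_t1a_c1_d_n_M_t66 : T :=
  (.a (.a (.c (.a (.c (.b (.l 0) (.l 2)) (.b (.l 0) (.l 2))) (.b (.l 0) (.l 2))) (.a (.c (.b (.l
      0) (.l 2)) (.b (.l 0) (.l 2))) (.b (.l 0) (.l 2)))) (.b (.l 2) (.l 2))) (.a (.b (.l 2) (.l
      2)) (.l 6)))

theorem x_t1a_c1_d_n_M_h66 : chk3 (onCell 0 6442450944 0 3758096384 0 34359739 T_t1a_c1_d_n) x_t1a_c1_d_n_M_t66 19 17 1 = true := by decide +kernel

def x_t1a_c1_d_n_M_t67 : T :=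
  (.a (.a (.a (.b (.l 2) (.l 34)) (.b (.l 34) (.l 34))) (.b (.b (.c (.l 34) (.l 34)) (.l 34)) (.a
      (.l 34) (.l 34)))) (.c (.b (.a (.l 34) (.l 34)) (.a (.l 18) (.l 34))) (.a (.b (.l 34) (.l
      18)) (.b (.l 34) (.l 34)))))

theorem x_t1a_c1_d_n_M_h67 : chk3 (onCell 0 6442450944 0 3758096384 0 34359739 T_t1a_c1_d_n) x_t1a_c1_d_n_M_t67 5 17 1 = true := by decide +kernel

def x_t1a_c1_d_n_M_t68 : T :=
  (.a (.b (.a (.c (.l 38) (.a (.l 6) (.l 38))) (.c (.a (.l 38) (.l 38)) (.a (.a (.l 38) (.l 38))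
      (.l 38)))) (.c (.a (.b (.a (.l 34) (.l 34)) (.a (.l 34) (.l 34))) (.a (.l 34) (.l 34))) (.a
      (.a (.b (.b (.l 34) (.l 34)) (.b (.l 34) (.l 34))) (.l 38)) (.b (.c (.l 38) (.l 38)) (.a
      (.l 34) (.l 34)))))) (.b (.a (.c (.l 38) (.l 38)) (.c (.l 38) (.l 38))) (.c (.a (.l 38) (.l
      38)) (.a (.b (.l 38) (.l 38)) (.l 38)))))

theorem x_t1a_c1_d_n_M_h68 : chk3 (onCell 0 6442450944 0 3758096384 0 34359739 T_t1a_c1_d_n) x_t1a_c1_d_n_M_t68 3 8 1 = true := by decide +kernel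

def x_t1a_c1_d_n_M_t69 : T :=
  (.l 19)

theorem x_t1a_c1_d_n_M_h69 : chk3 (onCell 0 6442450944 0 3758096384 0 34359739 T_t1a_c1_d_n) x_t1a_c1_d_n_M_t69 8 9 1 = true := by decide +kernel

def x_t1a_c1_d_n_M_t70 : T :=
  (.a (.b (.l 10) (.l 19)) (.a (.b (.c (.b (.c (.a (.l 10) (.b (.l 0) (.l 12))) (.a (.l 10) (.b
      (.l 0) (.l 12)))) (.l 12)) (.b (.c (.a (.l 10) (.b (.l 0) (.l 12))) (.a (.b (.c (.l 10) (.a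
      (.l 0) (.l 0))) (.l 10)) (.b (.l 0) (.l 12)))) (.l 12))) (.l 19)) (.a (.b (.c (.a (.b (.c
      (.a (.l 2) (.l 2)) (.a (.l 2) (.l 2))) (.l 11)) (.b (.l 2) (.l 2))) (.a (.b (.c (.a (.c (.l
      2) (.l 2)) (.l 2)) (.a (.c (.l 2) (.l 2)) (.l 2))) (.l 11)) (.b (.l 2) (.l 2)))) (.l 19))
      (.a (.c (.b (.l 2) (.l 2)) (.b (.l 2) (.l 2))) (.c (.b (.l 2) (.l 2)) (.b (.l 2) (.l
      2)))))))

theorem x_t1a_c1_d_n_M_h70 : chk3 (onCell 0 6442450944 0 3758096384 0 34359739 T_t1a_c1_d_n) x_t1a_c1_d_n_M_t70 18 18 2 = true := by decide +kernel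

def x_t1a_c1_d_n_M_t71 : T :=
  (.b (.l 10) (.l 19))

theorem x_t1a_c1_d_n_M_h71 : chk3 (onCell 0 6442450944 0 3758096384 0 34359739 T_t1a_c1_d_n) x_t1a_c1_d_n_M_t71 36 18 3 = true := by decide +kernel

def x_t1a_c1_d_n_M_t72 : T :=
  (.b (.c (.b (.c (.a (.b (.c (.a (.l 0) (.l 0)) (.a (.l 0) (.l 0))) (.l 10)) (.b (.l 0) (.l
      12))) (.a (.b (.c (.a (.l 0) (.l 0)) (.a (.l 0) (.l 0))) (.l 10)) (.b (.c (.l 0) (.l 0))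
      (.c (.l 12) (.a (.l 12) (.b (.l 0) (.l 0))))))) (.l 12)) (.b (.c (.a (.b (.c (.a (.l 0) (.l
      0)) (.a (.l 0) (.l 0))) (.l 10)) (.b (.c (.a (.l 0) (.l 0)) (.a (.l 0) (.l 0))) (.c (.a (.l
      12) (.b (.l 0) (.l 0))) (.a (.l 12) (.l 0))))) (.a (.b (.c (.a (.l 0) (.l 0)) (.a (.l 0)
      (.l 0))) (.l 10)) (.b (.c (.a (.l 0) (.l 0)) (.a (.l 0) (.l 0))) (.c (.a (.l 12) (.l 0))
      (.a (.l 12) (.l 0)))))) (.l 12))) (.l 19))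

theorem x_t1a_c1_d_n_M_h72 : chk3 (onCell 0 6442450944 0 3758096384 0 34359739 T_t1a_c1_d_n) x_t1a_c1_d_n_M_t72 74 18 3 = true := by decide +kernel

def x_t1a_c1_d_n_M_t73 : T :=
  (.a (.b (.c (.a (.b (.c (.a (.c (.l 2) (.l 2)) (.l 2)) (.a (.c (.l 2) (.l 2)) (.l 2))) (.l 11))
      (.b (.l 2) (.l 2))) (.a (.b (.c (.a (.l 2) (.l 2)) (.a (.l 2) (.l 2))) (.l 11)) (.b (.l 2)
      (.l 2)))) (.b (.l 11) (.l 19))) (.a (.c (.b (.l 2) (.a (.l 2) (.l 2))) (.b (.l 2) (.a (.b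
      (.l 2) (.l 19)) (.l 2)))) (.c (.b (.l 2) (.l 2)) (.b (.l 2) (.l 2)))))

theorem x_t1a_c1_d_n_M_h73 : chk3 (onCell 0 6442450944 0 3758096384 0 34359739 T_t1a_c1_d_n) x_t1a_c1_d_n_M_t73 75 18 3 = true := by decide +kernel

def x_t1a_c1_d_n_M_t74 : T :=
  (.a (.a (.a (.c (.a (.c (.l 2) (.l 2)) (.l 2)) (.a (.c (.a (.l 2) (.l 2)) (.a (.b (.l 2) (.l
      2)) (.b (.l 2) (.l 2)))) (.c (.l 2) (.a (.l 2) (.l 2))))) (.c (.a (.l 2) (.l 2)) (.a (.c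
      (.l 2) (.l 2)) (.b (.l 2) (.l 2))))) (.a (.c (.l 2) (.a (.l 2) (.l 2))) (.c (.l 2) (.l
      34)))) (.a (.a (.b (.l 2) (.l 34)) (.l 34)) (.b (.l 34) (.l 34))))

theorem x_t1a_c1_d_n_M_h74 : chk3 (onCell 0 6442450944 0 3758096384 0 34359739 T_t1a_c1_d_n) x_t1a_c1_d_n_M_t74 19 18 1 = true := by decide +kernel

def x_t1a_c1_d_n_M_t75 : T :=
  (.a (.l 19) (.a (.a (.l 19) (.a (.l 19) (.c (.l 34) (.l 34)))) (.a (.a (.l 34) (.l 34)) (.l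
      34))))

theorem x_t1a_c1_d_n_M_h75 : chk3 (onCell 0 6442450944 0 3758096384 0 34359739 T_t1a_c1_d_n) x_t1a_c1_d_n_M_t75 9 19 1 = true := by decide +kernel

def x_t1a_c1_d_n_M_t76 : T :=
  (.a (.a (.a (.b (.a (.l 34) (.l 34)) (.a (.l 34) (.l 34))) (.b (.l 34) (.l 34))) (.b (.b (.l
      34) (.l 34)) (.a (.l 18) (.l 34)))) (.c (.b (.a (.l 18) (.l 34)) (.a (.l 18) (.l 34))) (.b
      (.b (.a (.l 18) (.l 34)) (.a (.l 18) (.l 34))) (.a (.l 18) (.l 34)))))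

theorem x_t1a_c1_d_n_M_h76 : chk3 (onCell 0 6442450944 0 3758096384 0 34359739 T_t1a_c1_d_n) x_t1a_c1_d_n_M_t76 5 9 1 = true := by decide +kernel

end Pool.Agent.Strip051.LC.E0.Ch
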