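import Pool.Agent.Strip051.LC.E0.Ch.Te

/-! # Small rests: certificate X_t1a_c1_d_n_M_3 -/

set_option maxRecDepth 100000

namespace Pool.Agent.Strip051.LC.E0.Ch

open Pool.Agent.Strip051.PB

def x_t1a_c1_d_n_M_t77 : T :=
  (.a (.a (.c (.b (.b (.a (.l 34) (.l 34)) (.l 34)) (.l 34)) (.a (.b (.b (.l 34) (.l 34)) (.l
      34)) (.b (.b (.l 34) (.l 34)) (.l 34)))) (.c (.b (.a (.l 34) (.l 34)) (.l 34)) (.a (.b (.l
      34) (.l 34)) (.b (.l 34) (.l 34))))) (.b (.c (.a (.l 34) (.b (.l 34) (.l 34))) (.a (.a (.l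
      34) (.b (.l 34) (.l 34))) (.a (.b (.l 34) (.l 34)) (.c (.l 34) (.l 34))))) (.a (.c (.l 34)
      (.b (.c (.l 34) (.l 34)) (.l 34))) (.c (.l 34) (.a (.b (.l 34) (.l 34)) (.b (.l 34) (.l
      34)))))))

theorem x_t1a_c1_d_n_M_h77 : chk3 (onCell 0 6442450944 0 3758096384 0 34359739 T_t1a_c1_d_n) x_t1a_c1_d_n_M_t77 3 9 1 = true := by decide +kernel

def x_t1a_c1_d_n_M_t78 : T :=
  (.a (.a (.l 19) (.a (.b (.a (.a (.b (.a (.l 19) (.l 18)) (.l 19)) (.b (.a (.l 18) (.l 18)) (.l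
      19))) (.b (.a (.l 18) (.l 18)) (.a (.l 19) (.l 18)))) (.l 19)) (.c (.b (.b (.a (.l 18) (.l
      18)) (.l 18)) (.a (.l 18) (.l 18))) (.b (.b (.a (.l 18) (.l 18)) (.a (.l 18) (.l 18))) (.a
      (.b (.l 18) (.l 19)) (.l 34)))))) (.a (.a (.c (.b (.b (.l 34) (.l 34)) (.l 34)) (.b (.b (.l
      34) (.l 34)) (.b (.l 34) (.l 34)))) (.c (.b (.l 34) (.l 34)) (.b (.b (.b (.l 34) (.l 34))
      (.l 34)) (.b (.l 34) (.l 34))))) (.a (.c (.b (.l 34) (.l 34)) (.b (.a (.b (.l 34) (.l 34))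
      (.b (.l 34) (.l 34))) (.b (.b (.l 34) (.l 34)) (.b (.l 34) (.l 34))))) (.c (.b (.l 34) (.l
      34)) (.b (.a (.b (.l 34) (.l 34)) (.c (.l 34) (.l 34))) (.a (.b (.l 34) (.b (.l 34) (.l
      34))) (.c (.l 34) (.b (.l 34) (.l 34)))))))))

theorem x_t1a_c1_d_n_M_h78 : chk3 (onCell 0 6442450944 0 3758096384 0 34359739 T_t1a_c1_d_n) x_t1a_c1_d_n_M_t78 1 5 1 = true := by decide +kernel

def x_t1a_c1_d_n_M_t79 : T :=
  (.l 19)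

theorem x_t1a_c1_d_n_M_h79 : chk3 (onCell 0 6442450944 0 3758096384 0 34359739 T_t1a_c1_d_n) x_t1a_c1_d_n_M_t79 2 3 1 = true := by decide +kernel

def x_t1a_c1_d_n_M_t80 : T :=
  (.b (.a (.c (.b (.l 34) (.l 19)) (.b (.b (.l 34) (.a (.l 19) (.l 34))) (.l 19))) (.c (.b (.l
      34) (.l 34)) (.b (.b (.b (.l 34) (.l 34)) (.b (.l 34) (.a (.l 34) (.l 34)))) (.b (.b (.a
      (.l 34) (.l 34)) (.a (.l 19) (.l 34))) (.b (.a (.l 19) (.c (.l 34) (.l 34))) (.l 19))))))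
      (.l 19))

theorem x_t1a_c1_d_n_M_h80 : chk3 (onCell 0 6442450944 0 3758096384 0 34359739 T_t1a_c1_d_n) x_t1a_c1_d_n_M_t80 6 3 1 = true := by decide +kernel

def x_t1a_c1_d_n_M_t81 : T :=
  (.c (.b (.l 34) (.l 34)) (.b (.b (.b (.c (.l 34) (.l 34)) (.c (.l 34) (.l 34))) (.b (.c (.l 34)
      (.l 34)) (.c (.l 34) (.l 34)))) (.a (.b (.b (.c (.l 34) (.l 34)) (.c (.l 34) (.l 34))) (.b
      (.c (.l 34) (.l 34)) (.c (.l 34) (.b (.c (.l 34) (.l 51)) (.c (.l 34) (.l 51)))))) (.c (.l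
      34) (.b (.b (.l 34) (.b (.l 34) (.l 34))) (.a (.c (.l 34) (.l 51)) (.c (.l 34) (.l
      51))))))))

theorem x_t1a_c1_d_n_M_h81 : chk3 (onCell 0 6442450944 0 3758096384 0 34359739 T_t1a_c1_d_n) x_t1a_c1_d_n_M_t81 14 6 1 = true := by decide +kernel

def x_t1a_c1_d_n_M_t82 : T :=
  (.c (.b (.l 34) (.l 34)) (.b (.a (.c (.l 34) (.b (.l 34) (.b (.l 34) (.l 34)))) (.c (.l 34) (.b
      (.l 34) (.b (.b (.l 34) (.l 34)) (.b (.c (.l 34) (.l 51)) (.c (.l 34) (.l 51))))))) (.a (.c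
      (.l 34) (.b (.a (.b (.l 34) (.b (.l 34) (.c (.l 34) (.l 51)))) (.c (.l 34) (.l 51))) (.a
      (.c (.l 34) (.l 51)) (.c (.l 34) (.l 51))))) (.c (.l 34) (.b (.a (.c (.l 34) (.l 51)) (.c
      (.l 34) (.l 51))) (.a (.c (.l 34) (.l 51)) (.c (.l 34) (.l 51))))))))

theorem x_t1a_c1_d_n_M_h82 : chk3 (onCell 0 6442450944 0 3758096384 0 34359739 T_t1a_c1_d_n) x_t1a_c1_d_n_M_t82 15 6 1 = true := by decide +kernel

def x_t1a_c1_d_n_M_t83 : T :=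
  (.a (.c (.b (.l 34) (.l 19)) (.b (.a (.c (.l 34) (.b (.a (.l 19) (.c (.l 34) (.l 51))) (.l
      19))) (.c (.l 34) (.b (.a (.c (.l 34) (.l 51)) (.c (.l 34) (.l 51))) (.l 51)))) (.l 19)))
      (.c (.b (.l 34) (.l 34)) (.b (.a (.c (.l 34) (.b (.a (.c (.l 34) (.l 51)) (.l 51)) (.l
      51))) (.c (.l 34) (.l 51))) (.a (.c (.b (.l 34) (.l 19)) (.l 51)) (.c (.b (.l 34) (.b (.l
      34) (.l 19))) (.l 51))))))

theorem x_t1a_c1_d_n_M_h83 : chk3 (onCell 0 6442450944 0 3758096384 0 34359739 T_t1a_c1_d_n) x_t1a_c1_d_n_M_t83 7 7 1 = true := by decide +kernel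

end Pool.Agent.Strip051.LC.E0.Ch
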