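import Pool.Agent.Strip051.LC.E0.Ch.Cert.X_t1a_c1_d_n_M_1
import Pool.Agent.Strip051.LC.E0.Ch.Cert.X_t1a_c1_d_n_M_2
import Pool.Agent.Strip051.LC.E0.Ch.Cert.X_t1a_c1_d_n_M_3

/-! # Small rests: certificate X_t1a_c1_d_n_M -/

set_option maxRecDepth 100000

namespace Pool.Agent.Strip051.LC.E0.Ch

open Pool.Agent.Strip051.PB

theorem x_t1a_c1_d_n_M : Tree 0 6442450944 0 3758096384 0 34359739 T_t1a_c1_d_n :=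
  ⟨_, (chk3_b (chk3_b (chk3_b (chk3_a (chk3_b (chk3_a (chk3_a (chk3_c (chk3_a (chk3_c (chk3_a
      x_t1a_c1_d_n_M_h0 (chk3_b x_t1a_c1_d_n_M_h1 (chk3_a x_t1a_c1_d_n_M_h2 (chk3_c
      x_t1a_c1_d_n_M_h3 x_t1a_c1_d_n_M_h4)))) (chk3_a x_t1a_c1_d_n_M_h5 (chk3_b x_t1a_c1_d_n_M_h6
      (chk3_a x_t1a_c1_d_n_M_h7 (chk3_c x_t1a_c1_d_n_M_h8 x_t1a_c1_d_n_M_h9))))) (chk3_b
      x_t1a_c1_d_n_M_h10 (chk3_a (chk3_c x_t1a_c1_d_n_M_h11 x_t1a_c1_d_n_M_h12)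
      x_t1a_c1_d_n_M_h13))) (chk3_a (chk3_c (chk3_a x_t1a_c1_d_n_M_h14 (chk3_b x_t1a_c1_d_n_M_h15
      (chk3_a x_t1a_c1_d_n_M_h16 (chk3_c x_t1a_c1_d_n_M_h17 x_t1a_c1_d_n_M_h18)))) (chk3_a
      x_t1a_c1_d_n_M_h19 (chk3_b x_t1a_c1_d_n_M_h20 (chk3_a x_t1a_c1_d_n_M_h21 (chk3_c
      x_t1a_c1_d_n_M_h22 x_t1a_c1_d_n_M_h23))))) (chk3_b x_t1a_c1_d_n_M_h24 (chk3_a (chk3_c
      x_t1a_c1_d_n_M_h25 x_t1a_c1_d_n_M_h26) x_t1a_c1_d_n_M_h27)))) x_t1a_c1_d_n_M_h28)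
      x_t1a_c1_d_n_M_h29) (chk3_a (chk3_a (chk3_a x_t1a_c1_d_n_M_h30 (chk3_c (chk3_a (chk3_b
      (chk3_c (chk3_a x_t1a_c1_d_n_M_h31 x_t1a_c1_d_n_M_h32) (chk3_a x_t1a_c1_d_n_M_h33
      x_t1a_c1_d_n_M_h34)) x_t1a_c1_d_n_M_h35) (chk3_b (chk3_c (chk3_a (chk3_b x_t1a_c1_d_n_M_h36
      (chk3_c x_t1a_c1_d_n_M_h37 x_t1a_c1_d_n_M_h38)) x_t1a_c1_d_n_M_h39) (chk3_a (chk3_b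
      x_t1a_c1_d_n_M_h40 (chk3_c x_t1a_c1_d_n_M_h41 x_t1a_c1_d_n_M_h42)) x_t1a_c1_d_n_M_h43))
      x_t1a_c1_d_n_M_h44)) (chk3_a (chk3_b (chk3_c (chk3_a x_t1a_c1_d_n_M_h45 (chk3_b
      x_t1a_c1_d_n_M_h46 x_t1a_c1_d_n_M_h47)) (chk3_a x_t1a_c1_d_n_M_h48 (chk3_b
      x_t1a_c1_d_n_M_h49 x_t1a_c1_d_n_M_h50))) x_t1a_c1_d_n_M_h51) (chk3_b (chk3_c (chk3_a
      (chk3_b x_t1a_c1_d_n_M_h52 (chk3_c x_t1a_c1_d_n_M_h53 x_t1a_c1_d_n_M_h54))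
      x_t1a_c1_d_n_M_h55) (chk3_a (chk3_b x_t1a_c1_d_n_M_h56 x_t1a_c1_d_n_M_h57)
      x_t1a_c1_d_n_M_h58)) x_t1a_c1_d_n_M_h59)))) (chk3_a (chk3_c (chk3_a (chk3_b
      x_t1a_c1_d_n_M_h60 x_t1a_c1_d_n_M_h61) x_t1a_c1_d_n_M_h62) (chk3_a (chk3_b
      x_t1a_c1_d_n_M_h63 x_t1a_c1_d_n_M_h64) x_t1a_c1_d_n_M_h65)) x_t1a_c1_d_n_M_h66))
      x_t1a_c1_d_n_M_h67)) x_t1a_c1_d_n_M_h68) (chk3_a (chk3_a (chk3_a x_t1a_c1_d_n_M_h69 (chk3_b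
      (chk3_a (chk3_c x_t1a_c1_d_n_M_h70 (chk3_a x_t1a_c1_d_n_M_h71 (chk3_a x_t1a_c1_d_n_M_h72
      x_t1a_c1_d_n_M_h73))) x_t1a_c1_d_n_M_h74) x_t1a_c1_d_n_M_h75)) x_t1a_c1_d_n_M_h76)
      x_t1a_c1_d_n_M_h77)) x_t1a_c1_d_n_M_h78) (chk3_a x_t1a_c1_d_n_M_h79 (chk3_a
      x_t1a_c1_d_n_M_h80 (chk3_b (chk3_a x_t1a_c1_d_n_M_h81 x_t1a_c1_d_n_M_h82)
      x_t1a_c1_d_n_M_h83))))⟩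

end Pool.Agent.Strip051.LC.E0.Ch
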