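import Pool.Agent.Strip051.LC.E0.Ch.Te

/-! # Small rests: certificate X_t1a_c1_u_f_C -/

set_option maxRecDepth 100000

namespace Pool.Agent.Strip051.LC.E0.Ch

open Pool.Agent.Strip051.PB

def x_t1a_c1_u_f_C_t0 : T :=
  (.b (.c (.b (.c (.b (.l 0) (.l 0)) (.b (.a (.l 0) (.l 0)) (.l 0))) (.c (.a (.l 0) (.l 0)) (.a
      (.l 0) (.l 0)))) (.b (.c (.b (.a (.l 0) (.l 0)) (.l 0)) (.b (.a (.l 0) (.l 0)) (.a (.l 0)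
      (.l 0)))) (.c (.a (.l 0) (.l 0)) (.a (.l 0) (.l 0))))) (.c (.c (.a (.c (.l 0) (.b (.l 0)
      (.l 0))) (.l 0)) (.a (.c (.b (.l 0) (.l 0)) (.b (.l 0) (.l 0))) (.c (.l 0) (.b (.l 0) (.l
      0))))) (.c (.a (.c (.b (.l 0) (.l 0)) (.b (.l 0) (.l 0))) (.c (.b (.l 0) (.l 0)) (.b (.l 0)
      (.l 0)))) (.a (.c (.b (.l 0) (.l 0)) (.b (.l 0) (.l 0))) (.c (.b (.l 0) (.l 0)) (.b (.l 0)
      (.l 0)))))))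

theorem x_t1a_c1_u_f_C_h0 : chk3 (onCell 0 268435456 0 1073741824 0 34359739 C_t1a_c1_u_f) x_t1a_c1_u_f_C_t0 1 4 1 = true := by decide +kernel

def x_t1a_c1_u_f_C_t1 : T :=
  (.c (.c (.b (.a (.l 0) (.l 0)) (.a (.l 0) (.l 0))) (.b (.a (.l 0) (.l 0)) (.a (.l 0) (.l 0))))
      (.c (.b (.a (.c (.l 0) (.b (.l 0) (.l 0))) (.l 0)) (.a (.l 0) (.l 0))) (.a (.b (.c (.a (.l
      0) (.l 0)) (.a (.l 0) (.l 0))) (.c (.l 0) (.a (.l 0) (.l 0)))) (.b (.l 0) (.l 0)))))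

theorem x_t1a_c1_u_f_C_h1 : chk3 (onCell 0 268435456 0 1073741824 0 34359739 C_t1a_c1_u_f) x_t1a_c1_u_f_C_t1 1 5 1 = true := by decide +kernel

def x_t1a_c1_u_f_C_t2 : T :=
  (.b (.c (.c (.a (.b (.l 0) (.l 0)) (.b (.l 0) (.l 0))) (.a (.b (.l 0) (.l 0)) (.b (.l 0) (.l
      0)))) (.c (.a (.b (.l 0) (.l 0)) (.b (.l 0) (.l 0))) (.a (.b (.l 0) (.l 0)) (.b (.l 0) (.l
      0))))) (.c (.c (.a (.b (.l 0) (.l 32)) (.b (.l 32) (.l 32))) (.a (.b (.l 0) (.l 32)) (.b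
      (.l 32) (.l 32)))) (.c (.a (.b (.l 0) (.l 32)) (.b (.l 32) (.b (.l 32) (.l 32)))) (.a (.b
      (.l 0) (.l 32)) (.b (.l 32) (.b (.l 32) (.l 32)))))))

theorem x_t1a_c1_u_f_C_h2 : chk3 (onCell 0 268435456 0 1073741824 0 34359739 C_t1a_c1_u_f) x_t1a_c1_u_f_C_t2 1 3 1 = true := by decide +kernel

theorem x_t1a_c1_u_f_C : Tree 0 268435456 0 1073741824 0 34359739 C_t1a_c1_u_f :=
  ⟨_, (chk3_b (chk3_b x_t1a_c1_u_f_C_h0 x_t1a_c1_u_f_C_h1) x_t1a_c1_u_f_C_h2)⟩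

end Pool.Agent.Strip051.LC.E0.Ch
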