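import Pool.Agent.Strip051.LC.E0.Ch.Te

/-! # Small rests: certificate X_t1a_c1_u_f_M -/

set_option maxRecDepth 100000

namespace Pool.Agent.Strip051.LC.E0.Ch

open Pool.Agent.Strip051.PB

def x_t1a_c1_u_f_M_t0 : T :=
  (.a (.b (.c (.a (.b (.l 131) (.l 33)) (.b (.b (.l 131) (.l 0)) (.l 0))) (.a (.b (.l 131) (.l
      33)) (.b (.b (.l 131) (.l 0)) (.l 0)))) (.b (.a (.l 32) (.l 32)) (.a (.l 32) (.l 32)))) (.b
      (.b (.b (.b (.c (.a (.b (.c (.a (.l 131) (.l 0)) (.a (.l 131) (.l 0))) (.l 0)) (.b (.l 0)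
      (.l 0))) (.a (.b (.c (.a (.l 131) (.l 0)) (.a (.l 131) (.l 0))) (.l 0)) (.b (.l 0) (.l
      0)))) (.c (.a (.l 0) (.l 0)) (.a (.l 0) (.l 0)))) (.c (.a (.l 0) (.l 0)) (.a (.l 0) (.l
      0)))) (.c (.a (.l 0) (.l 0)) (.a (.l 0) (.l 0)))) (.b (.l 0) (.l 32))))

theorem x_t1a_c1_u_f_M_h0 : chk3 (onCell 0 6442450944 0 6442450944 0 34359739 T_t1a_c1_u_f) x_t1a_c1_u_f_M_t0 16 16 4 = true := by decide +kernel

def x_t1a_c1_u_f_M_t1 : T :=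
  (.a (.b (.c (.a (.b (.l 131) (.b (.l 131) (.l 32))) (.b (.b (.l 131) (.l 0)) (.l 0))) (.a (.b
      (.l 131) (.b (.l 131) (.l 32))) (.b (.b (.l 131) (.l 0)) (.l 0)))) (.b (.a (.l 32) (.l 32))
      (.a (.a (.l 16) (.l 32)) (.l 32)))) (.b (.b (.b (.b (.c (.a (.b (.c (.a (.l 131) (.l 0))
      (.a (.l 131) (.l 0))) (.l 0)) (.b (.l 0) (.l 0))) (.a (.b (.c (.a (.l 131) (.l 0)) (.a (.l
      131) (.l 0))) (.l 0)) (.b (.l 0) (.l 0)))) (.c (.a (.l 0) (.l 0)) (.a (.l 0) (.l 0)))) (.c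
      (.a (.l 0) (.l 0)) (.a (.l 0) (.l 0)))) (.c (.a (.l 0) (.l 0)) (.a (.l 0) (.l 0)))) (.b (.l
      0) (.l 32))))

theorem x_t1a_c1_u_f_M_h1 : chk3 (onCell 0 6442450944 0 6442450944 0 34359739 T_t1a_c1_u_f) x_t1a_c1_u_f_M_t1 16 16 5 = true := by decide +kernel

def x_t1a_c1_u_f_M_t2 : T :=
  (.b (.c (.a (.b (.a (.a (.l 16) (.l 16)) (.l 32)) (.a (.a (.l 16) (.l 16)) (.l 16))) (.l 32))
      (.a (.b (.a (.a (.l 16) (.l 16)) (.l 32)) (.a (.a (.l 16) (.l 16)) (.l 32))) (.b (.l 32)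
      (.l 32)))) (.c (.a (.a (.b (.l 16) (.l 16)) (.l 16)) (.l 32)) (.a (.a (.b (.l 16) (.l 16))
      (.l 32)) (.l 32))))

theorem x_t1a_c1_u_f_M_h2 : chk3 (onCell 0 6442450944 0 6442450944 0 34359739 T_t1a_c1_u_f) x_t1a_c1_u_f_M_t2 16 17 2 = true := by decide +kernel

def x_t1a_c1_u_f_M_t3 : T :=
  (.c (.a (.b (.c (.a (.l 0) (.l 0)) (.a (.l 0) (.l 0))) (.c (.a (.l 0) (.l 0)) (.a (.l 0) (.l
      0)))) (.b (.c (.a (.b (.c (.a (.l 0) (.l 0)) (.a (.l 0) (.l 0))) (.l 0)) (.l 10)) (.a (.b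
      (.c (.a (.l 0) (.l 0)) (.a (.l 0) (.l 0))) (.l 0)) (.l 10))) (.c (.a (.l 0) (.l 0)) (.a (.l
      0) (.l 0))))) (.a (.b (.c (.a (.l 0) (.l 0)) (.a (.l 0) (.c (.l 0) (.l 0)))) (.c (.a (.l 0)
      (.l 0)) (.a (.l 0) (.l 0)))) (.b (.c (.a (.b (.c (.a (.l 0) (.l 0)) (.a (.l 0) (.l 0))) (.l
      0)) (.l 10)) (.a (.b (.c (.a (.l 0) (.l 0)) (.a (.l 0) (.l 0))) (.l 0)) (.l 10))) (.c (.a
      (.l 0) (.l 0)) (.a (.l 0) (.l 0))))))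

theorem x_t1a_c1_u_f_M_h3 : chk3 (onCell 0 6442450944 0 6442450944 0 34359739 T_t1a_c1_u_f) x_t1a_c1_u_f_M_t3 17 128 2 = true := by decide +kernel

def x_t1a_c1_u_f_M_t4 : T :=
  (.c (.a (.c (.a (.l 0) (.l 0)) (.a (.l 0) (.l 0))) (.c (.a (.l 0) (.l 0)) (.a (.l 0) (.l 0))))
      (.a (.c (.a (.l 0) (.l 0)) (.a (.l 0) (.l 0))) (.c (.a (.l 0) (.l 0)) (.a (.l 0) (.l 0)))))

theorem x_t1a_c1_u_f_M_h4 : chk3 (onCell 0 6442450944 0 6442450944 0 34359739 T_t1a_c1_u_f) x_t1a_c1_u_f_M_t4 17 129 2 = true := by decide +kernel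

def x_t1a_c1_u_f_M_t5 : T :=
  (.c (.a (.c (.b (.l 0) (.l 0)) (.b (.l 0) (.l 0))) (.c (.b (.l 0) (.l 0)) (.b (.l 0) (.l 0))))
      (.a (.c (.b (.l 0) (.l 0)) (.b (.l 0) (.l 0))) (.c (.b (.l 0) (.l 0)) (.b (.l 0) (.l 0)))))

theorem x_t1a_c1_u_f_M_h5 : chk3 (onCell 0 6442450944 0 6442450944 0 34359739 T_t1a_c1_u_f) x_t1a_c1_u_f_M_t5 17 65 2 = true := by decide +kernel

def x_t1a_c1_u_f_M_t6 : T :=
  (.c (.a (.b (.l 0) (.l 0)) (.b (.l 0) (.l 0))) (.a (.b (.l 0) (.l 0)) (.b (.l 0) (.l 0))))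

theorem x_t1a_c1_u_f_M_h6 : chk3 (onCell 0 6442450944 0 6442450944 0 34359739 T_t1a_c1_u_f) x_t1a_c1_u_f_M_t6 17 33 2 = true := by decide +kernel

def x_t1a_c1_u_f_M_t7 : T :=
  (.b (.b (.c (.a (.l 0) (.l 0)) (.a (.l 0) (.l 0))) (.a (.l 32) (.a (.l 0) (.l 34)))) (.a (.b
      (.l 32) (.a (.l 32) (.l 32))) (.b (.a (.l 32) (.l 34)) (.l 34))))

theorem x_t1a_c1_u_f_M_h7 : chk3 (onCell 0 6442450944 0 6442450944 0 34359739 T_t1a_c1_u_f) x_t1a_c1_u_f_M_t7 17 17 2 = true := by decide +kernel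

def x_t1a_c1_u_f_M_t8 : T :=
  (.a (.b (.c (.a (.b (.l 131) (.b (.l 131) (.l 32))) (.b (.b (.l 131) (.c (.l 0) (.l 0))) (.l
      0))) (.a (.b (.l 131) (.b (.l 131) (.l 32))) (.b (.b (.l 131) (.c (.l 0) (.a (.l 131) (.l
      0)))) (.b (.l 0) (.l 0))))) (.b (.a (.a (.l 32) (.l 32)) (.l 32)) (.a (.a (.l 16) (.l 32))
      (.l 32)))) (.b (.b (.b (.b (.c (.a (.b (.c (.a (.l 131) (.l 0)) (.a (.l 131) (.l 0))) (.l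
      0)) (.b (.l 0) (.l 0))) (.a (.b (.c (.a (.l 131) (.l 0)) (.a (.l 131) (.l 0))) (.l 0)) (.b
      (.l 0) (.l 0)))) (.c (.a (.l 0) (.l 0)) (.a (.l 0) (.l 0)))) (.c (.a (.l 0) (.l 0)) (.a (.l
      0) (.l 0)))) (.c (.a (.l 0) (.l 0)) (.a (.l 0) (.l 0)))) (.b (.c (.l 0) (.a (.l 0) (.l 0)))
      (.l 32))))

theorem x_t1a_c1_u_f_M_h8 : chk3 (onCell 0 6442450944 0 6442450944 0 34359739 T_t1a_c1_u_f) x_t1a_c1_u_f_M_t8 16 16 6 = true := by decide +kernel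

def x_t1a_c1_u_f_M_t9 : T :=
  (.a (.b (.c (.a (.b (.l 131) (.b (.l 131) (.l 32))) (.b (.b (.l 131) (.c (.a (.l 131) (.l 0))
      (.a (.l 131) (.l 0)))) (.b (.l 0) (.l 0)))) (.a (.b (.l 131) (.b (.l 131) (.l 32))) (.b (.b
      (.l 131) (.c (.a (.l 131) (.l 0)) (.a (.l 131) (.l 0)))) (.b (.l 0) (.l 0))))) (.b (.a (.a
      (.l 32) (.l 32)) (.l 32)) (.a (.a (.l 16) (.l 32)) (.l 32)))) (.b (.b (.b (.b (.c (.a (.b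
      (.c (.a (.l 131) (.l 0)) (.a (.l 131) (.l 0))) (.l 0)) (.b (.l 0) (.l 0))) (.a (.b (.c (.a
      (.l 131) (.l 0)) (.a (.l 131) (.l 0))) (.l 0)) (.b (.l 0) (.l 0)))) (.c (.a (.l 0) (.l 0))
      (.a (.l 0) (.l 0)))) (.c (.a (.l 0) (.l 0)) (.a (.l 0) (.l 0)))) (.c (.a (.l 0) (.l 0)) (.a
      (.l 0) (.l 0)))) (.b (.c (.a (.l 0) (.l 0)) (.a (.l 0) (.l 0))) (.l 32))))

theorem x_t1a_c1_u_f_M_h9 : chk3 (onCell 0 6442450944 0 6442450944 0 34359739 T_t1a_c1_u_f) x_t1a_c1_u_f_M_t9 16 16 7 = true := by decide +kernel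

def x_t1a_c1_u_f_M_t10 : T :=
  (.b (.c (.a (.b (.a (.a (.l 16) (.l 16)) (.l 32)) (.a (.a (.l 16) (.l 16)) (.l 32))) (.b (.l
      32) (.l 32))) (.a (.b (.a (.a (.l 16) (.l 16)) (.l 32)) (.a (.a (.l 16) (.l 16)) (.l 32)))
      (.b (.l 32) (.l 32)))) (.c (.a (.a (.b (.l 16) (.l 16)) (.l 32)) (.l 32)) (.a (.b (.a (.a
      (.l 16) (.l 16)) (.l 16)) (.a (.l 16) (.l 16))) (.l 32))))

theorem x_t1a_c1_u_f_M_h10 : chk3 (onCell 0 6442450944 0 6442450944 0 34359739 T_t1a_c1_u_f) x_t1a_c1_u_f_M_t10 16 17 3 = true := by decide +kernel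

def x_t1a_c1_u_f_M_t11 : T :=
  (.c (.a (.b (.c (.a (.l 0) (.b (.l 0) (.l 0))) (.a (.l 0) (.b (.l 0) (.l 0)))) (.c (.a (.l 0)
      (.l 0)) (.a (.l 0) (.l 0)))) (.b (.c (.a (.b (.c (.a (.l 0) (.l 0)) (.a (.l 0) (.l 0))) (.l
      0)) (.l 10)) (.a (.b (.c (.a (.l 0) (.l 0)) (.a (.l 0) (.l 0))) (.l 0)) (.l 10))) (.c (.a
      (.l 0) (.l 0)) (.a (.l 0) (.l 0))))) (.a (.b (.c (.a (.l 0) (.b (.l 0) (.l 0))) (.a (.l 0)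
      (.b (.l 0) (.l 0)))) (.c (.a (.l 0) (.l 0)) (.a (.l 0) (.l 0)))) (.b (.c (.a (.b (.c (.a
      (.l 0) (.l 0)) (.a (.l 0) (.l 0))) (.l 0)) (.l 10)) (.a (.b (.c (.a (.l 0) (.l 0)) (.a (.l
      0) (.l 0))) (.l 0)) (.l 10))) (.c (.a (.l 0) (.l 0)) (.a (.l 0) (.l 0))))))

theorem x_t1a_c1_u_f_M_h11 : chk3 (onCell 0 6442450944 0 6442450944 0 34359739 T_t1a_c1_u_f) x_t1a_c1_u_f_M_t11 17 128 3 = true := by decide +kernel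

def x_t1a_c1_u_f_M_t12 : T :=
  (.c (.a (.c (.a (.l 0) (.l 0)) (.a (.l 0) (.l 0))) (.c (.a (.l 0) (.l 0)) (.a (.l 0) (.l 0))))
      (.a (.c (.a (.l 0) (.l 0)) (.a (.l 0) (.l 0))) (.c (.a (.l 0) (.l 0)) (.a (.l 0) (.l 0)))))

theorem x_t1a_c1_u_f_M_h12 : chk3 (onCell 0 6442450944 0 6442450944 0 34359739 T_t1a_c1_u_f) x_t1a_c1_u_f_M_t12 17 129 3 = true := by decide +kernel

def x_t1a_c1_u_f_M_t13 : T :=
  (.b (.c (.a (.c (.l 0) (.l 0)) (.c (.l 0) (.l 0))) (.a (.c (.l 0) (.l 0)) (.c (.l 0) (.l 0))))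
      (.c (.a (.l 0) (.l 0)) (.a (.l 0) (.l 0))))

theorem x_t1a_c1_u_f_M_h13 : chk3 (onCell 0 6442450944 0 6442450944 0 34359739 T_t1a_c1_u_f) x_t1a_c1_u_f_M_t13 17 65 3 = true := by decide +kernel

def x_t1a_c1_u_f_M_t14 : T :=
  (.c (.a (.b (.l 0) (.l 0)) (.b (.l 0) (.l 0))) (.a (.b (.c (.l 0) (.l 0)) (.l 0)) (.b (.l 0)
      (.l 0))))

theorem x_t1a_c1_u_f_M_h14 : chk3 (onCell 0 6442450944 0 6442450944 0 34359739 T_t1a_c1_u_f) x_t1a_c1_u_f_M_t14 17 33 3 = true := by decide +kernel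

def x_t1a_c1_u_f_M_t15 : T :=
  (.b (.b (.c (.a (.l 0) (.l 0)) (.a (.l 0) (.a (.l 0) (.l 0)))) (.a (.l 32) (.a (.l 32) (.l
      34)))) (.a (.b (.l 32) (.a (.l 32) (.l 34))) (.b (.a (.l 34) (.l 34)) (.l 34))))

theorem x_t1a_c1_u_f_M_h15 : chk3 (onCell 0 6442450944 0 6442450944 0 34359739 T_t1a_c1_u_f) x_t1a_c1_u_f_M_t15 17 17 3 = true := by decide +kernel

def x_t1a_c1_u_f_M_t16 : T :=
  (.c (.b (.c (.b (.a (.l 10) (.a (.l 12) (.a (.l 11) (.l 2)))) (.a (.l 10) (.a (.l 0) (.l 0))))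
      (.b (.a (.l 10) (.a (.l 12) (.a (.l 11) (.l 2)))) (.a (.l 10) (.a (.l 0) (.l 0))))) (.c (.a
      (.c (.a (.l 0) (.l 0)) (.a (.l 0) (.l 0))) (.a (.l 0) (.l 0))) (.a (.c (.a (.l 0) (.l 0))
      (.a (.l 0) (.l 0))) (.a (.l 0) (.l 0))))) (.b (.c (.b (.a (.l 10) (.a (.l 12) (.a (.l 11)
      (.l 2)))) (.a (.l 10) (.a (.l 0) (.l 0)))) (.b (.a (.l 10) (.a (.l 12) (.a (.l 11) (.l
      2)))) (.a (.l 10) (.a (.l 0) (.l 0))))) (.c (.a (.c (.a (.l 0) (.l 0)) (.a (.l 0) (.l 0)))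
      (.a (.l 0) (.a (.l 0) (.l 2)))) (.b (.a (.c (.a (.l 0) (.l 0)) (.a (.l 0) (.l 0))) (.a (.l
      0) (.l 2))) (.a (.l 0) (.a (.l 0) (.l 2)))))))

theorem x_t1a_c1_u_f_M_h16 : chk3 (onCell 0 6442450944 0 6442450944 0 34359739 T_t1a_c1_u_f) x_t1a_c1_u_f_M_t16 18 64 1 = true := by decide +kernel

def x_t1a_c1_u_f_M_t17 : T :=
  (.a (.c (.c (.c (.b (.l 0) (.l 0)) (.b (.l 0) (.l 0))) (.c (.b (.l 0) (.l 0)) (.b (.l 0) (.l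
      0)))) (.c (.c (.b (.l 0) (.l 0)) (.b (.l 0) (.l 0))) (.c (.b (.l 0) (.l 0)) (.b (.l 0) (.l
      0))))) (.a (.b (.l 0) (.a (.l 0) (.l 2))) (.b (.l 2) (.l 34))))

theorem x_t1a_c1_u_f_M_h17 : chk3 (onCell 0 6442450944 0 6442450944 0 34359739 T_t1a_c1_u_f) x_t1a_c1_u_f_M_t17 18 65 1 = true := by decide +kernel

def x_t1a_c1_u_f_M_t18 : T :=
  (.a (.b (.a (.l 0) (.b (.l 0) (.l 0))) (.a (.b (.l 0) (.l 0)) (.b (.l 34) (.l 34)))) (.b (.a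
      (.b (.l 34) (.l 34)) (.l 34)) (.l 34)))

theorem x_t1a_c1_u_f_M_h18 : chk3 (onCell 0 6442450944 0 6442450944 0 34359739 T_t1a_c1_u_f) x_t1a_c1_u_f_M_t18 18 33 1 = true := by decide +kernel

def x_t1a_c1_u_f_M_t19 : T :=
  (.b (.a (.b (.a (.b (.l 2) (.l 34)) (.l 34)) (.a (.l 34) (.l 34))) (.b (.l 34) (.l 34))) (.a
      (.b (.l 34) (.l 34)) (.l 34)))

theorem x_t1a_c1_u_f_M_h19 : chk3 (onCell 0 6442450944 0 6442450944 0 34359739 T_t1a_c1_u_f) x_t1a_c1_u_f_M_t19 19 16 1 = true := by decide +kernel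

def x_t1a_c1_u_f_M_t20 : T :=
  (.a (.b (.a (.b (.a (.l 34) (.l 34)) (.l 34)) (.l 34)) (.a (.l 34) (.l 18))) (.b (.a (.l 34)
      (.l 34)) (.l 34)))

theorem x_t1a_c1_u_f_M_h20 : chk3 (onCell 0 6442450944 0 6442450944 0 34359739 T_t1a_c1_u_f) x_t1a_c1_u_f_M_t20 9 17 1 = true := by decide +kernel

def x_t1a_c1_u_f_M_t21 : T :=
  (.a (.b (.a (.b (.b (.c (.a (.a (.l 16) (.l 16)) (.l 32)) (.a (.c (.l 16) (.l 16)) (.l 32)))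
      (.a (.c (.l 16) (.l 16)) (.a (.l 32) (.l 34)))) (.a (.b (.a (.l 16) (.a (.l 16) (.l 34)))
      (.a (.a (.b (.l 16) (.l 18)) (.b (.l 16) (.l 18))) (.l 34))) (.b (.a (.l 34) (.l 34)) (.l
      34)))) (.b (.a (.b (.a (.l 34) (.l 34)) (.l 34)) (.l 34)) (.a (.l 34) (.l 18)))) (.a (.b
      (.a (.b (.a (.b (.l 18) (.l 34)) (.l 34)) (.l 34)) (.l 34)) (.a (.l 18) (.l 18))) (.b (.l
      34) (.l 18)))) (.b (.a (.b (.l 34) (.l 34)) (.l 34)) (.a (.l 34) (.l 34))))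

theorem x_t1a_c1_u_f_M_h21 : chk3 (onCell 0 6442450944 0 6442450944 0 34359739 T_t1a_c1_u_f) x_t1a_c1_u_f_M_t21 4 9 1 = true := by decide +kernel

def x_t1a_c1_u_f_M_t22 : T :=
  (.a (.b (.b (.a (.b (.a (.l 34) (.l 34)) (.l 34)) (.b (.l 34) (.l 18))) (.a (.b (.l 34) (.l
      18)) (.l 34))) (.b (.a (.l 18) (.l 34)) (.l 34))) (.b (.b (.a (.l 34) (.l 34)) (.a (.l 34)
      (.l 34))) (.b (.a (.l 34) (.b (.l 34) (.l 34))) (.a (.l 34) (.b (.c (.l 18) (.l 34)) (.c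
      (.l 18) (.l 34)))))))

theorem x_t1a_c1_u_f_M_h22 : chk3 (onCell 0 6442450944 0 6442450944 0 34359739 T_t1a_c1_u_f) x_t1a_c1_u_f_M_t22 5 4 1 = true := by decide +kernel

def x_t1a_c1_u_f_M_t23 : T :=
  (.a (.b (.b (.a (.b (.l 18) (.l 18)) (.l 34)) (.a (.l 18) (.l 18))) (.b (.l 34) (.c (.l 18) (.l
      18)))) (.b (.b (.l 34) (.l 34)) (.b (.c (.l 18) (.l 34)) (.b (.c (.l 18) (.l 34)) (.c (.l
      18) (.l 34))))))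

theorem x_t1a_c1_u_f_M_h23 : chk3 (onCell 0 6442450944 0 6442450944 0 34359739 T_t1a_c1_u_f) x_t1a_c1_u_f_M_t23 4 5 1 = true := by decide +kernel

def x_t1a_c1_u_f_M_t24 : T :=
  (.a (.b (.b (.a (.l 34) (.l 34)) (.b (.a (.l 34) (.l 34)) (.a (.l 34) (.a (.l 34) (.c (.l 18)
      (.l 34)))))) (.c (.l 18) (.a (.b (.l 34) (.c (.l 99) (.a (.l 34) (.b (.l 34) (.l 99)))))
      (.b (.c (.l 18) (.a (.l 34) (.b (.l 34) (.c (.l 99) (.l 51))))) (.l 99))))) (.b (.c (.l 34)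
      (.a (.b (.l 34) (.c (.l 18) (.a (.l 34) (.b (.l 34) (.c (.l 18) (.l 51)))))) (.b (.c (.l
      18) (.a (.l 34) (.b (.l 34) (.c (.l 18) (.l 51))))) (.c (.l 18) (.a (.b (.c (.l 18) (.l
      51)) (.c (.l 18) (.l 51))) (.b (.c (.l 18) (.l 51)) (.c (.l 18) (.l 51)))))))) (.c (.l 34)
      (.a (.b (.c (.l 18) (.a (.b (.c (.l 18) (.l 51)) (.l 99)) (.b (.c (.l 18) (.l 51)) (.l
      99)))) (.l 99)) (.b (.c (.l 99) (.a (.b (.c (.l 99) (.l 51)) (.l 99)) (.l 99))) (.l 99))))))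

theorem x_t1a_c1_u_f_M_h24 : chk3 (onCell 0 6442450944 0 6442450944 0 34359739 T_t1a_c1_u_f) x_t1a_c1_u_f_M_t24 5 5 1 = true := by decide +kernel

def x_t1a_c1_u_f_M_t25 : T :=
  (.b (.b (.a (.l 34) (.b (.l 34) (.c (.l 34) (.l 34)))) (.a (.b (.l 34) (.l 34)) (.b (.b (.a (.l
      34) (.l 34)) (.a (.l 34) (.c (.l 18) (.l 34)))) (.b (.a (.l 34) (.c (.l 18) (.l 34))) (.a
      (.l 34) (.c (.l 18) (.l 34))))))) (.c (.l 34) (.a (.b (.l 34) (.c (.l 18) (.a (.l 34) (.b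
      (.l 34) (.c (.l 18) (.l 51)))))) (.b (.c (.l 34) (.a (.l 34) (.b (.l 34) (.c (.l 18) (.l
      51))))) (.c (.l 34) (.a (.b (.c (.l 18) (.l 51)) (.c (.l 18) (.l 51))) (.b (.c (.l 34) (.l
      51)) (.c (.l 34) (.l 51)))))))))

theorem x_t1a_c1_u_f_M_h25 : chk3 (onCell 0 6442450944 0 6442450944 0 34359739 T_t1a_c1_u_f) x_t1a_c1_u_f_M_t25 12 4 1 = true := by decide +kernel

def x_t1a_c1_u_f_M_t26 : T :=
  (.b (.c (.l 34) (.a (.b (.b (.l 34) (.l 34)) (.c (.l 34) (.a (.l 34) (.b (.l 34) (.c (.l 34)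
      (.l 51)))))) (.b (.c (.l 34) (.a (.l 34) (.b (.l 34) (.c (.l 34) (.l 51))))) (.c (.l 34)
      (.a (.b (.c (.l 34) (.l 51)) (.c (.l 34) (.l 51))) (.b (.c (.l 34) (.l 51)) (.c (.l 34) (.l
      51)))))))) (.c (.l 34) (.a (.b (.c (.l 34) (.a (.b (.c (.l 34) (.l 51)) (.c (.l 34) (.l
      51))) (.b (.c (.l 34) (.l 51)) (.c (.l 34) (.l 51))))) (.c (.l 34) (.a (.b (.c (.l 34) (.l
      51)) (.c (.l 51) (.l 51))) (.b (.c (.l 51) (.l 51)) (.l 51))))) (.b (.c (.l 34) (.a (.b (.c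
      (.l 34) (.l 51)) (.c (.l 51) (.l 51))) (.b (.c (.l 51) (.l 51)) (.l 51)))) (.c (.l 34) (.l
      51))))))

theorem x_t1a_c1_u_f_M_h26 : chk3 (onCell 0 6442450944 0 6442450944 0 34359739 T_t1a_c1_u_f) x_t1a_c1_u_f_M_t26 13 4 1 = true := by decide +kernel

def x_t1a_c1_u_f_M_t27 : T :=
  (.a (.b (.c (.l 34) (.a (.b (.c (.l 18) (.a (.b (.c (.l 18) (.l 51)) (.c (.l 18) (.l 51))) (.b
      (.c (.l 18) (.l 51)) (.c (.l 18) (.l 51))))) (.c (.l 34) (.a (.b (.c (.l 18) (.l 51)) (.c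
      (.l 51) (.l 51))) (.b (.c (.l 51) (.l 51)) (.l 51))))) (.b (.c (.l 34) (.a (.b (.c (.l 34)
      (.l 51)) (.c (.l 51) (.l 51))) (.b (.c (.l 51) (.l 51)) (.l 51)))) (.c (.l 99) (.l 51)))))
      (.c (.l 99) (.a (.b (.l 99) (.l 99)) (.l 99)))) (.b (.c (.l 34) (.a (.b (.c (.l 34) (.l
      51)) (.c (.l 99) (.l 51))) (.b (.c (.b (.l 34) (.l 99)) (.l 51)) (.l 99)))) (.c (.l 99) (.l
      99))))

theorem x_t1a_c1_u_f_M_h27 : chk3 (onCell 0 6442450944 0 6442450944 0 34359739 T_t1a_c1_u_f) x_t1a_c1_u_f_M_t27 6 5 1 = true := by decide +kernel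

def x_t1a_c1_u_f_M_t28 : T :=
  (.b (.c (.l 34) (.a (.b (.c (.l 34) (.a (.b (.c (.l 34) (.l 51)) (.c (.l 34) (.l 51))) (.b (.c
      (.l 34) (.l 51)) (.c (.l 34) (.l 51))))) (.c (.l 34) (.a (.b (.c (.l 34) (.l 51)) (.c (.l
      51) (.l 51))) (.b (.c (.l 51) (.l 51)) (.l 51))))) (.b (.c (.l 34) (.a (.b (.c (.l 34) (.l
      51)) (.c (.l 51) (.l 51))) (.b (.c (.l 51) (.l 51)) (.l 51)))) (.c (.l 34) (.l 51))))) (.c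
      (.l 34) (.a (.b (.c (.l 34) (.l 51)) (.c (.b (.l 34) (.a (.l 34) (.l 99))) (.l 51))) (.b
      (.c (.b (.l 34) (.a (.l 34) (.b (.l 34) (.l 83)))) (.l 51)) (.c (.a (.b (.b (.l 34) (.l
      83)) (.l 83)) (.l 83)) (.l 51))))))

theorem x_t1a_c1_u_f_M_h28 : chk3 (onCell 0 6442450944 0 6442450944 0 34359739 T_t1a_c1_u_f) x_t1a_c1_u_f_M_t28 14 4 1 = true := by decide +kernel

def x_t1a_c1_u_f_M_t29 : T :=
  (.b (.c (.l 34) (.a (.b (.c (.l 34) (.l 51)) (.c (.b (.l 34) (.a (.l 34) (.b (.l 34) (.l 83))))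
      (.l 51))) (.b (.c (.b (.a (.l 34) (.l 34)) (.a (.l 34) (.b (.l 34) (.l 83)))) (.l 51)) (.c
      (.a (.b (.b (.l 34) (.l 83)) (.l 83)) (.l 83)) (.l 51))))) (.c (.b (.l 34) (.l 83)) (.a (.b
      (.c (.a (.b (.b (.l 34) (.l 83)) (.l 83)) (.l 83)) (.l 51)) (.l 83)) (.l 83))))

theorem x_t1a_c1_u_f_M_h29 : chk3 (onCell 0 6442450944 0 6442450944 0 34359739 T_t1a_c1_u_f) x_t1a_c1_u_f_M_t29 15 4 1 = true := by decide +kernel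

def x_t1a_c1_u_f_M_t30 : T :=
  (.a (.b (.c (.l 99) (.a (.b (.c (.l 99) (.l 51)) (.l 83)) (.l 83))) (.l 83)) (.l 83))

theorem x_t1a_c1_u_f_M_h30 : chk3 (onCell 0 6442450944 0 6442450944 0 34359739 T_t1a_c1_u_f) x_t1a_c1_u_f_M_t30 7 5 1 = true := by decide +kernel

def x_t1a_c1_u_f_M_t31 : T :=
  (.b (.a (.b (.b (.c (.l 18) (.l 34)) (.l 99)) (.l 99)) (.b (.c (.l 99) (.a (.l 99) (.l 99)))
      (.l 99))) (.a (.b (.c (.l 99) (.a (.b (.c (.l 99) (.a (.b (.l 99) (.c (.l 99) (.l 35))) (.b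
      (.l 99) (.c (.l 99) (.l 35))))) (.c (.l 99) (.a (.b (.c (.l 99) (.l 35)) (.l 35)) (.b (.c
      (.l 51) (.l 35)) (.l 35))))) (.b (.c (.l 99) (.a (.b (.l 99) (.c (.l 51) (.l 35))) (.b (.l
      99) (.l 51)))) (.c (.l 99) (.l 51))))) (.c (.l 99) (.a (.b (.c (.l 99) (.l 35)) (.c (.l 99)
      (.l 35))) (.b (.c (.l 99) (.l 35)) (.c (.l 99) (.l 35)))))) (.b (.c (.l 99) (.a (.b (.c (.l
      99) (.l 51)) (.c (.l 99) (.l 51))) (.b (.c (.l 99) (.l 51)) (.c (.l 99) (.l 51))))) (.c (.l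
      99) (.a (.b (.c (.l 99) (.l 35)) (.l 83)) (.l 83))))))

theorem x_t1a_c1_u_f_M_h31 : chk3 (onCell 0 6442450944 0 6442450944 0 34359739 T_t1a_c1_u_f) x_t1a_c1_u_f_M_t31 4 3 1 = true := by decide +kernel

def x_t1a_c1_u_f_M_t32 : T :=
  (.b (.a (.b (.l 99) (.l 99)) (.b (.l 99) (.l 99))) (.a (.b (.c (.l 99) (.a (.b (.c (.l 99) (.l
      51)) (.l 83)) (.l 83))) (.l 83)) (.l 83)))

theorem x_t1a_c1_u_f_M_h32 : chk3 (onCell 0 6442450944 0 6442450944 0 34359739 T_t1a_c1_u_f) x_t1a_c1_u_f_M_t32 5 3 1 = true := by decide +kernel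

def x_t1a_c1_u_f_M_t33 : T :=
  (.a (.b (.a (.b (.l 99) (.l 83)) (.l 83)) (.l 83)) (.l 83))

theorem x_t1a_c1_u_f_M_h33 : chk3 (onCell 0 6442450944 0 6442450944 0 34359739 T_t1a_c1_u_f) x_t1a_c1_u_f_M_t33 3 3 1 = true := by decide +kernel

theorem x_t1a_c1_u_f_M : Tree 0 6442450944 0 6442450944 0 34359739 T_t1a_c1_u_f :=
  ⟨_, (chk3_b (chk3_a (chk3_b (chk3_a (chk3_b (chk3_a (chk3_c (chk3_a (chk3_b (chk3_c
      x_t1a_c1_u_f_M_h0 x_t1a_c1_u_f_M_h1) x_t1a_c1_u_f_M_h2) (chk3_b (chk3_b (chk3_b (chk3_b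
      x_t1a_c1_u_f_M_h3 x_t1a_c1_u_f_M_h4) x_t1a_c1_u_f_M_h5) x_t1a_c1_u_f_M_h6)
      x_t1a_c1_u_f_M_h7)) (chk3_a (chk3_b (chk3_c x_t1a_c1_u_f_M_h8 x_t1a_c1_u_f_M_h9)
      x_t1a_c1_u_f_M_h10) (chk3_b (chk3_b (chk3_b (chk3_b x_t1a_c1_u_f_M_h11 x_t1a_c1_u_f_M_h12)
      x_t1a_c1_u_f_M_h13) x_t1a_c1_u_f_M_h14) x_t1a_c1_u_f_M_h15))) (chk3_b (chk3_a (chk3_b
      (chk3_b x_t1a_c1_u_f_M_h16 x_t1a_c1_u_f_M_h17) x_t1a_c1_u_f_M_h18) x_t1a_c1_u_f_M_h19)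
      x_t1a_c1_u_f_M_h20)) x_t1a_c1_u_f_M_h21) x_t1a_c1_u_f_M_h22) (chk3_a x_t1a_c1_u_f_M_h23
      x_t1a_c1_u_f_M_h24)) (chk3_a (chk3_b (chk3_a x_t1a_c1_u_f_M_h25 x_t1a_c1_u_f_M_h26)
      x_t1a_c1_u_f_M_h27) (chk3_b (chk3_a x_t1a_c1_u_f_M_h28 x_t1a_c1_u_f_M_h29)
      x_t1a_c1_u_f_M_h30))) (chk3_a (chk3_a x_t1a_c1_u_f_M_h31 x_t1a_c1_u_f_M_h32)
      x_t1a_c1_u_f_M_h33))⟩

end Pool.Agent.Strip051.LC.E0.Ch
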