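import Pool.Agent.Strip051.LC.E0.Ch.Te

/-! # Small rests: certificate X_t1a_c1_u_n_M -/

set_option maxRecDepth 100000

namespace Pool.Agent.Strip051.LC.E0.Ch

open Pool.Agent.Strip051.PB

def x_t1a_c1_u_n_M_t0 : T :=
  (.a (.b (.c (.a (.b (.l 131) (.l 32)) (.b (.b (.l 131) (.l 0)) (.l 0))) (.a (.b (.l 131) (.l
      32)) (.b (.b (.l 131) (.l 0)) (.l 0)))) (.l 33)) (.b (.b (.b (.c (.a (.b (.c (.a (.l 0) (.l
      0)) (.a (.l 0) (.l 0))) (.l 0)) (.b (.c (.l 0) (.b (.l 0) (.l 0))) (.l 0))) (.a (.b (.c (.a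
      (.l 0) (.l 0)) (.a (.l 0) (.l 0))) (.l 0)) (.b (.c (.b (.l 0) (.l 0)) (.a (.l 0) (.l 0)))
      (.l 0)))) (.c (.l 0) (.l 0))) (.l 0)) (.l 32)))

theorem x_t1a_c1_u_n_M_h0 : chk3 (onCell 0 6442450944 0 6442450944 0 34359739 T_t1a_c1_u_n) x_t1a_c1_u_n_M_t0 16 16 4 = true := by decide +kernel

def x_t1a_c1_u_n_M_t1 : T :=
  (.a (.b (.c (.a (.b (.l 131) (.l 32)) (.b (.b (.l 131) (.l 0)) (.l 0))) (.a (.b (.l 131) (.l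
      32)) (.b (.b (.l 131) (.l 0)) (.l 0)))) (.b (.l 32) (.l 32))) (.b (.b (.b (.c (.a (.b (.c
      (.a (.l 0) (.l 0)) (.a (.l 0) (.l 0))) (.l 0)) (.b (.c (.a (.l 0) (.l 0)) (.a (.l 0) (.l
      0))) (.l 0))) (.a (.b (.c (.a (.l 0) (.l 0)) (.a (.l 0) (.l 0))) (.l 0)) (.b (.c (.a (.l 0)
      (.l 0)) (.a (.l 0) (.l 0))) (.l 0)))) (.c (.l 0) (.a (.l 0) (.l 0)))) (.l 0)) (.b (.l 0)
      (.l 32))))

theorem x_t1a_c1_u_n_M_h1 : chk3 (onCell 0 6442450944 0 6442450944 0 34359739 T_t1a_c1_u_n) x_t1a_c1_u_n_M_t1 16 16 5 = true := by decide +kernel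

def x_t1a_c1_u_n_M_t2 : T :=
  (.b (.a (.l 32) (.l 32)) (.a (.l 32) (.l 32)))

theorem x_t1a_c1_u_n_M_h2 : chk3 (onCell 0 6442450944 0 6442450944 0 34359739 T_t1a_c1_u_n) x_t1a_c1_u_n_M_t2 16 17 2 = true := by decide +kernel

def x_t1a_c1_u_n_M_t3 : T :=
  (.b (.b (.c (.a (.b (.c (.a (.b (.l 0) (.l 0)) (.b (.l 0) (.l 0))) (.a (.b (.l 0) (.l 0)) (.b
      (.l 0) (.l 0)))) (.l 0)) (.b (.c (.a (.b (.c (.a (.l 0) (.l 0)) (.a (.l 0) (.l 0))) (.l 0))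
      (.l 10)) (.a (.b (.c (.a (.l 0) (.l 0)) (.a (.l 0) (.l 0))) (.l 0)) (.l 10))) (.l 0))) (.a
      (.b (.c (.a (.b (.l 0) (.l 0)) (.b (.l 0) (.l 0))) (.a (.b (.l 0) (.l 0)) (.b (.l 0) (.l
      0)))) (.l 0)) (.b (.c (.a (.b (.c (.a (.l 0) (.l 0)) (.a (.l 0) (.l 0))) (.l 0)) (.l 10))
      (.a (.b (.c (.a (.l 0) (.l 0)) (.a (.l 0) (.l 0))) (.l 0)) (.l 10))) (.c (.l 0) (.l 0)))))
      (.c (.a (.l 0) (.l 0)) (.a (.l 0) (.l 0)))) (.b (.c (.a (.l 0) (.l 0)) (.a (.l 0) (.l 0)))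
      (.l 32)))

theorem x_t1a_c1_u_n_M_h3 : chk3 (onCell 0 6442450944 0 6442450944 0 34359739 T_t1a_c1_u_n) x_t1a_c1_u_n_M_t3 17 16 2 = true := by decide +kernel

def x_t1a_c1_u_n_M_t4 : T :=
  (.b (.b (.l 32) (.a (.l 32) (.l 32))) (.a (.l 32) (.b (.a (.l 32) (.l 34)) (.l 34))))

theorem x_t1a_c1_u_n_M_h4 : chk3 (onCell 0 6442450944 0 6442450944 0 34359739 T_t1a_c1_u_n) x_t1a_c1_u_n_M_t4 17 17 2 = true := by decide +kernel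

def x_t1a_c1_u_n_M_t5 : T :=
  (.a (.b (.c (.a (.b (.l 131) (.l 32)) (.b (.b (.l 131) (.l 0)) (.l 0))) (.a (.b (.l 131) (.l
      32)) (.b (.b (.l 131) (.l 0)) (.l 0)))) (.b (.l 32) (.l 32))) (.b (.b (.b (.c (.a (.b (.c
      (.a (.l 0) (.l 0)) (.a (.l 0) (.l 0))) (.l 0)) (.b (.c (.a (.l 0) (.l 0)) (.a (.l 0) (.l
      0))) (.l 0))) (.a (.b (.c (.a (.l 0) (.l 0)) (.a (.l 0) (.l 0))) (.l 0)) (.b (.c (.a (.l 0)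
      (.l 0)) (.a (.l 0) (.l 0))) (.l 0)))) (.c (.a (.l 0) (.l 0)) (.a (.l 0) (.l 0)))) (.b (.l
      0) (.l 0))) (.b (.l 0) (.l 32))))

theorem x_t1a_c1_u_n_M_h5 : chk3 (onCell 0 6442450944 0 6442450944 0 34359739 T_t1a_c1_u_n) x_t1a_c1_u_n_M_t5 16 16 6 = true := by decide +kernel

def x_t1a_c1_u_n_M_t6 : T :=
  (.a (.b (.c (.a (.b (.l 131) (.l 32)) (.b (.b (.l 131) (.l 0)) (.l 0))) (.a (.b (.l 131) (.l
      32)) (.b (.b (.l 131) (.l 0)) (.l 0)))) (.b (.l 32) (.l 32))) (.b (.b (.b (.c (.a (.b (.c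
      (.a (.l 0) (.l 0)) (.a (.l 0) (.l 0))) (.l 0)) (.b (.c (.a (.l 0) (.l 0)) (.a (.l 0) (.l
      0))) (.l 0))) (.a (.b (.c (.a (.l 0) (.l 0)) (.a (.l 0) (.l 0))) (.l 0)) (.b (.c (.a (.l 0)
      (.l 0)) (.a (.l 0) (.l 0))) (.l 0)))) (.c (.a (.l 0) (.l 0)) (.a (.l 0) (.l 0)))) (.b (.l
      0) (.l 0))) (.b (.l 0) (.l 32))))

theorem x_t1a_c1_u_n_M_h6 : chk3 (onCell 0 6442450944 0 6442450944 0 34359739 T_t1a_c1_u_n) x_t1a_c1_u_n_M_t6 16 16 7 = true := by decide +kernel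

def x_t1a_c1_u_n_M_t7 : T :=
  (.b (.a (.a (.l 32) (.l 32)) (.l 32)) (.a (.l 32) (.l 32)))

theorem x_t1a_c1_u_n_M_h7 : chk3 (onCell 0 6442450944 0 6442450944 0 34359739 T_t1a_c1_u_n) x_t1a_c1_u_n_M_t7 16 17 3 = true := by decide +kernel

def x_t1a_c1_u_n_M_t8 : T :=
  (.b (.c (.a (.b (.c (.a (.b (.l 0) (.l 0)) (.b (.l 0) (.l 0))) (.a (.b (.l 0) (.l 0)) (.b (.c
      (.l 0) (.l 0)) (.l 0)))) (.c (.l 0) (.l 0))) (.b (.c (.a (.b (.c (.a (.l 0) (.l 0)) (.a (.l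
      0) (.l 0))) (.l 0)) (.l 10)) (.a (.b (.c (.a (.l 0) (.l 0)) (.a (.l 0) (.l 0))) (.l 0)) (.l
      10))) (.c (.l 0) (.l 0)))) (.a (.b (.c (.a (.b (.l 0) (.l 0)) (.b (.c (.l 0) (.l 0)) (.l
      0))) (.a (.b (.l 0) (.l 0)) (.b (.c (.l 0) (.l 0)) (.l 0)))) (.c (.l 0) (.l 0))) (.b (.c
      (.a (.b (.c (.a (.l 0) (.l 0)) (.a (.l 0) (.l 0))) (.l 0)) (.l 10)) (.a (.b (.c (.a (.l 0)
      (.l 0)) (.a (.l 0) (.l 0))) (.l 0)) (.l 10))) (.c (.l 0) (.a (.l 0) (.l 0)))))) (.c (.a (.l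
      0) (.l 0)) (.a (.l 0) (.l 0))))

theorem x_t1a_c1_u_n_M_h8 : chk3 (onCell 0 6442450944 0 6442450944 0 34359739 T_t1a_c1_u_n) x_t1a_c1_u_n_M_t8 17 32 3 = true := by decide +kernel

def x_t1a_c1_u_n_M_t9 : T :=
  (.b (.c (.a (.l 0) (.l 0)) (.a (.l 0) (.l 0))) (.c (.l 32) (.l 32)))

theorem x_t1a_c1_u_n_M_h9 : chk3 (onCell 0 6442450944 0 6442450944 0 34359739 T_t1a_c1_u_n) x_t1a_c1_u_n_M_t9 17 33 3 = true := by decide +kernel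

def x_t1a_c1_u_n_M_t10 : T :=
  (.b (.b (.c (.l 32) (.l 32)) (.a (.l 32) (.l 32))) (.a (.b (.l 32) (.l 32)) (.b (.a (.l 32) (.l
      34)) (.l 34))))

theorem x_t1a_c1_u_n_M_h10 : chk3 (onCell 0 6442450944 0 6442450944 0 34359739 T_t1a_c1_u_n) x_t1a_c1_u_n_M_t10 17 17 3 = true := by decide +kernel

def x_t1a_c1_u_n_M_t11 : T :=
  (.a (.b (.b (.c (.c (.a (.b (.l 10) (.l 0)) (.a (.b (.l 12) (.l 0)) (.b (.a (.l 11) (.l 2)) (.l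
      0)))) (.a (.b (.l 10) (.l 0)) (.a (.b (.l 12) (.l 0)) (.b (.a (.l 11) (.l 2)) (.l 0)))))
      (.c (.a (.b (.l 10) (.l 0)) (.a (.b (.l 12) (.l 0)) (.b (.a (.l 11) (.l 2)) (.l 0)))) (.a
      (.b (.l 10) (.c (.l 0) (.l 0))) (.a (.b (.l 12) (.l 0)) (.b (.a (.l 11) (.l 2)) (.a (.l 0)
      (.l 2))))))) (.a (.c (.l 0) (.l 0)) (.a (.b (.l 0) (.l 0)) (.b (.l 34) (.l 34))))) (.a (.b
      (.a (.l 0) (.l 0)) (.a (.l 32) (.l 34))) (.b (.a (.b (.l 34) (.l 34)) (.l 34)) (.l 34))))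
      (.b (.a (.b (.a (.b (.l 2) (.l 34)) (.l 34)) (.a (.l 34) (.l 34))) (.b (.l 34) (.l 34)))
      (.a (.b (.l 34) (.l 34)) (.l 34))))

theorem x_t1a_c1_u_n_M_h11 : chk3 (onCell 0 6442450944 0 6442450944 0 34359739 T_t1a_c1_u_n) x_t1a_c1_u_n_M_t11 9 16 1 = true := by decide +kernel

def x_t1a_c1_u_n_M_t12 : T :=
  (.a (.b (.a (.b (.a (.l 34) (.l 34)) (.l 34)) (.l 34)) (.a (.l 34) (.l 18))) (.b (.a (.l 34)
      (.l 34)) (.l 34)))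

theorem x_t1a_c1_u_n_M_h12 : chk3 (onCell 0 6442450944 0 6442450944 0 34359739 T_t1a_c1_u_n) x_t1a_c1_u_n_M_t12 9 17 1 = true := by decide +kernel

def x_t1a_c1_u_n_M_t13 : T :=
  (.a (.b (.a (.b (.c (.b (.l 32) (.a (.l 16) (.l 32))) (.b (.l 32) (.a (.l 16) (.l 32)))) (.a
      (.b (.l 32) (.a (.l 16) (.l 34))) (.b (.a (.l 32) (.l 34)) (.l 34)))) (.b (.a (.b (.a (.l
      32) (.l 34)) (.l 34)) (.l 34)) (.a (.l 34) (.l 18)))) (.a (.b (.a (.b (.a (.l 34) (.l 34))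
      (.l 34)) (.l 34)) (.a (.l 18) (.l 18))) (.b (.l 34) (.l 18)))) (.b (.a (.b (.l 34) (.l 34))
      (.l 34)) (.a (.l 34) (.l 34))))

theorem x_t1a_c1_u_n_M_h13 : chk3 (onCell 0 6442450944 0 6442450944 0 34359739 T_t1a_c1_u_n) x_t1a_c1_u_n_M_t13 4 9 1 = true := by decide +kernel

def x_t1a_c1_u_n_M_t14 : T :=
  (.a (.b (.b (.a (.b (.a (.l 34) (.l 34)) (.l 34)) (.b (.l 34) (.l 18))) (.a (.b (.l 34) (.l
      18)) (.l 34))) (.b (.a (.l 18) (.l 34)) (.l 34))) (.b (.b (.a (.l 34) (.l 34)) (.a (.l 34)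
      (.l 34))) (.b (.a (.l 34) (.b (.l 34) (.l 34))) (.a (.l 34) (.b (.c (.l 18) (.l 34)) (.c
      (.l 18) (.l 34)))))))

theorem x_t1a_c1_u_n_M_h14 : chk3 (onCell 0 6442450944 0 6442450944 0 34359739 T_t1a_c1_u_n) x_t1a_c1_u_n_M_t14 5 4 1 = true := by decide +kernel

def x_t1a_c1_u_n_M_t15 : T :=
  (.a (.b (.b (.a (.b (.l 18) (.l 18)) (.l 34)) (.a (.l 18) (.l 18))) (.b (.l 34) (.c (.l 18) (.l
      18)))) (.b (.b (.l 34) (.l 34)) (.b (.c (.l 18) (.l 34)) (.b (.c (.l 18) (.l 34)) (.c (.l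
      18) (.l 34))))))

theorem x_t1a_c1_u_n_M_h15 : chk3 (onCell 0 6442450944 0 6442450944 0 34359739 T_t1a_c1_u_n) x_t1a_c1_u_n_M_t15 4 5 1 = true := by decide +kernel

def x_t1a_c1_u_n_M_t16 : T :=
  (.a (.b (.b (.a (.l 34) (.l 34)) (.b (.a (.l 34) (.l 34)) (.a (.l 34) (.a (.l 34) (.c (.l 18)
      (.l 34)))))) (.c (.l 18) (.a (.b (.l 34) (.c (.l 99) (.a (.l 34) (.b (.l 34) (.l 99)))))
      (.b (.c (.l 18) (.a (.l 34) (.b (.l 34) (.c (.l 99) (.l 51))))) (.l 99))))) (.b (.c (.l 34)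
      (.a (.b (.l 34) (.c (.l 18) (.a (.l 34) (.b (.l 34) (.c (.l 18) (.l 51)))))) (.b (.c (.l
      18) (.a (.l 34) (.b (.l 34) (.c (.l 18) (.l 51))))) (.c (.l 18) (.a (.b (.c (.l 18) (.l
      51)) (.c (.l 18) (.l 51))) (.b (.c (.l 18) (.l 51)) (.c (.l 18) (.l 51)))))))) (.c (.l 34)
      (.a (.b (.c (.l 18) (.a (.b (.c (.l 18) (.l 51)) (.l 99)) (.b (.c (.l 18) (.l 51)) (.l
      99)))) (.l 99)) (.b (.c (.l 99) (.a (.b (.c (.l 99) (.l 51)) (.l 99)) (.l 99))) (.l 99))))))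

theorem x_t1a_c1_u_n_M_h16 : chk3 (onCell 0 6442450944 0 6442450944 0 34359739 T_t1a_c1_u_n) x_t1a_c1_u_n_M_t16 5 5 1 = true := by decide +kernel

def x_t1a_c1_u_n_M_t17 : T :=
  (.b (.b (.a (.l 34) (.b (.l 34) (.c (.l 34) (.l 34)))) (.a (.b (.l 34) (.l 34)) (.b (.c (.l 34)
      (.l 34)) (.b (.a (.l 34) (.c (.l 18) (.l 34))) (.a (.l 34) (.c (.l 18) (.l 34))))))) (.c
      (.l 34) (.a (.b (.l 34) (.c (.l 18) (.a (.l 34) (.b (.l 34) (.c (.l 18) (.l 51)))))) (.b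
      (.c (.l 34) (.a (.l 34) (.b (.l 34) (.c (.l 18) (.l 51))))) (.c (.l 34) (.a (.b (.c (.l 18)
      (.l 51)) (.c (.l 18) (.l 51))) (.b (.c (.l 34) (.l 51)) (.c (.l 34) (.l 51)))))))))

theorem x_t1a_c1_u_n_M_h17 : chk3 (onCell 0 6442450944 0 6442450944 0 34359739 T_t1a_c1_u_n) x_t1a_c1_u_n_M_t17 12 4 1 = true := by decide +kernel

def x_t1a_c1_u_n_M_t18 : T :=
  (.b (.c (.l 34) (.a (.b (.b (.l 34) (.l 34)) (.c (.l 34) (.a (.l 34) (.b (.l 34) (.c (.l 34)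
      (.l 51)))))) (.b (.c (.l 34) (.a (.l 34) (.b (.l 34) (.c (.l 34) (.l 51))))) (.c (.l 34)
      (.a (.b (.c (.l 34) (.l 51)) (.c (.l 34) (.l 51))) (.b (.c (.l 34) (.l 51)) (.c (.l 34) (.l
      51)))))))) (.c (.l 34) (.a (.b (.c (.l 34) (.a (.b (.c (.l 34) (.l 51)) (.c (.l 34) (.l
      51))) (.b (.c (.l 34) (.l 51)) (.c (.l 34) (.l 51))))) (.c (.l 34) (.a (.b (.c (.l 34) (.l
      51)) (.c (.l 51) (.l 51))) (.b (.c (.l 51) (.l 51)) (.l 51))))) (.b (.c (.l 34) (.a (.b (.c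
      (.l 34) (.l 51)) (.c (.l 51) (.l 51))) (.b (.c (.l 51) (.l 51)) (.l 51)))) (.c (.l 34) (.l
      51))))))

theorem x_t1a_c1_u_n_M_h18 : chk3 (onCell 0 6442450944 0 6442450944 0 34359739 T_t1a_c1_u_n) x_t1a_c1_u_n_M_t18 13 4 1 = true := by decide +kernel

def x_t1a_c1_u_n_M_t19 : T :=
  (.a (.b (.c (.l 34) (.a (.b (.c (.l 18) (.a (.b (.c (.l 18) (.l 51)) (.c (.l 18) (.l 51))) (.b
      (.c (.l 18) (.l 51)) (.c (.l 18) (.l 51))))) (.c (.l 34) (.a (.b (.c (.l 18) (.l 51)) (.c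
      (.l 51) (.l 51))) (.b (.c (.l 51) (.l 51)) (.l 51))))) (.b (.c (.l 34) (.a (.b (.c (.l 34)
      (.l 51)) (.c (.l 51) (.l 51))) (.b (.c (.l 51) (.l 51)) (.l 51)))) (.c (.l 99) (.l 51)))))
      (.c (.l 99) (.a (.b (.l 99) (.l 99)) (.l 99)))) (.b (.c (.l 34) (.a (.b (.c (.l 34) (.l
      51)) (.c (.l 99) (.l 51))) (.b (.c (.b (.l 34) (.l 99)) (.l 51)) (.l 99)))) (.c (.l 99) (.l
      99))))

theorem x_t1a_c1_u_n_M_h19 : chk3 (onCell 0 6442450944 0 6442450944 0 34359739 T_t1a_c1_u_n) x_t1a_c1_u_n_M_t19 6 5 1 = true := by decide +kernel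

def x_t1a_c1_u_n_M_t20 : T :=
  (.b (.c (.l 34) (.a (.b (.c (.l 34) (.a (.b (.c (.l 34) (.l 51)) (.c (.l 34) (.l 51))) (.b (.c
      (.l 34) (.l 51)) (.c (.l 34) (.l 51))))) (.c (.l 34) (.a (.b (.c (.l 34) (.l 51)) (.c (.l
      51) (.l 51))) (.b (.c (.l 51) (.l 51)) (.l 51))))) (.b (.c (.l 34) (.a (.b (.c (.l 34) (.l
      51)) (.c (.l 51) (.l 51))) (.b (.c (.l 51) (.l 51)) (.l 51)))) (.c (.l 34) (.l 51))))) (.c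
      (.l 34) (.a (.b (.c (.l 34) (.l 51)) (.c (.b (.l 34) (.a (.l 34) (.l 99))) (.l 51))) (.b
      (.c (.b (.l 34) (.a (.l 34) (.b (.l 34) (.l 83)))) (.l 51)) (.c (.a (.b (.b (.l 34) (.l
      83)) (.l 83)) (.l 83)) (.l 51))))))

theorem x_t1a_c1_u_n_M_h20 : chk3 (onCell 0 6442450944 0 6442450944 0 34359739 T_t1a_c1_u_n) x_t1a_c1_u_n_M_t20 14 4 1 = true := by decide +kernel

def x_t1a_c1_u_n_M_t21 : T :=
  (.b (.c (.l 34) (.a (.b (.c (.l 34) (.l 51)) (.c (.b (.l 34) (.a (.l 34) (.b (.l 34) (.l 83))))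
      (.l 51))) (.b (.c (.b (.a (.l 34) (.l 34)) (.a (.l 34) (.b (.l 34) (.l 83)))) (.l 51)) (.c
      (.a (.b (.b (.l 34) (.l 83)) (.l 83)) (.l 83)) (.l 51))))) (.c (.b (.l 34) (.l 83)) (.a (.b
      (.c (.a (.b (.b (.l 34) (.l 83)) (.l 83)) (.l 83)) (.l 51)) (.l 83)) (.l 83))))

theorem x_t1a_c1_u_n_M_h21 : chk3 (onCell 0 6442450944 0 6442450944 0 34359739 T_t1a_c1_u_n) x_t1a_c1_u_n_M_t21 15 4 1 = true := by decide +kernel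

def x_t1a_c1_u_n_M_t22 : T :=
  (.a (.b (.c (.l 99) (.a (.b (.c (.l 99) (.l 51)) (.l 83)) (.l 83))) (.l 83)) (.l 83))

theorem x_t1a_c1_u_n_M_h22 : chk3 (onCell 0 6442450944 0 6442450944 0 34359739 T_t1a_c1_u_n) x_t1a_c1_u_n_M_t22 7 5 1 = true := by decide +kernel

def x_t1a_c1_u_n_M_t23 : T :=
  (.b (.a (.b (.b (.c (.l 18) (.l 34)) (.l 99)) (.l 99)) (.b (.c (.l 99) (.a (.l 99) (.l 99)))
      (.l 99))) (.a (.b (.c (.l 99) (.a (.b (.c (.l 99) (.a (.b (.l 99) (.c (.l 99) (.l 35))) (.b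
      (.l 99) (.c (.l 99) (.l 35))))) (.c (.l 99) (.a (.b (.c (.l 99) (.l 35)) (.l 35)) (.b (.c
      (.l 51) (.l 35)) (.l 35))))) (.b (.c (.l 99) (.a (.b (.l 99) (.c (.l 51) (.l 35))) (.b (.l
      99) (.l 51)))) (.c (.l 99) (.l 51))))) (.c (.l 99) (.a (.b (.c (.l 99) (.l 35)) (.c (.l 99)
      (.l 35))) (.b (.c (.l 99) (.l 35)) (.c (.l 99) (.l 35)))))) (.b (.c (.l 99) (.a (.b (.c (.l
      99) (.l 51)) (.c (.l 99) (.l 51))) (.b (.c (.l 99) (.l 51)) (.c (.l 99) (.l 51))))) (.c (.l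
      99) (.a (.b (.c (.l 99) (.l 35)) (.l 83)) (.l 83))))))

theorem x_t1a_c1_u_n_M_h23 : chk3 (onCell 0 6442450944 0 6442450944 0 34359739 T_t1a_c1_u_n) x_t1a_c1_u_n_M_t23 4 3 1 = true := by decide +kernel

def x_t1a_c1_u_n_M_t24 : T :=
  (.b (.a (.b (.l 99) (.l 99)) (.b (.l 99) (.l 99))) (.a (.b (.c (.l 99) (.a (.b (.c (.l 99) (.l
      51)) (.l 83)) (.l 83))) (.l 83)) (.l 83)))

theorem x_t1a_c1_u_n_M_h24 : chk3 (onCell 0 6442450944 0 6442450944 0 34359739 T_t1a_c1_u_n) x_t1a_c1_u_n_M_t24 5 3 1 = true := by decide +kernel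

def x_t1a_c1_u_n_M_t25 : T :=
  (.a (.b (.a (.b (.l 99) (.l 83)) (.l 83)) (.l 83)) (.l 83))

theorem x_t1a_c1_u_n_M_h25 : chk3 (onCell 0 6442450944 0 6442450944 0 34359739 T_t1a_c1_u_n) x_t1a_c1_u_n_M_t25 3 3 1 = true := by decide +kernel

theorem x_t1a_c1_u_n_M : Tree 0 6442450944 0 6442450944 0 34359739 T_t1a_c1_u_n :=
  ⟨_, (chk3_b (chk3_a (chk3_b (chk3_a (chk3_b (chk3_a (chk3_c (chk3_a (chk3_b (chk3_c
      x_t1a_c1_u_n_M_h0 x_t1a_c1_u_n_M_h1) x_t1a_c1_u_n_M_h2) (chk3_b x_t1a_c1_u_n_M_h3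
      x_t1a_c1_u_n_M_h4)) (chk3_a (chk3_b (chk3_c x_t1a_c1_u_n_M_h5 x_t1a_c1_u_n_M_h6)
      x_t1a_c1_u_n_M_h7) (chk3_b (chk3_b x_t1a_c1_u_n_M_h8 x_t1a_c1_u_n_M_h9)
      x_t1a_c1_u_n_M_h10))) (chk3_b x_t1a_c1_u_n_M_h11 x_t1a_c1_u_n_M_h12)) x_t1a_c1_u_n_M_h13)
      x_t1a_c1_u_n_M_h14) (chk3_a x_t1a_c1_u_n_M_h15 x_t1a_c1_u_n_M_h16)) (chk3_a (chk3_b (chk3_a
      x_t1a_c1_u_n_M_h17 x_t1a_c1_u_n_M_h18) x_t1a_c1_u_n_M_h19) (chk3_b (chk3_a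
      x_t1a_c1_u_n_M_h20 x_t1a_c1_u_n_M_h21) x_t1a_c1_u_n_M_h22))) (chk3_a (chk3_a
      x_t1a_c1_u_n_M_h23 x_t1a_c1_u_n_M_h24) x_t1a_c1_u_n_M_h25))⟩

end Pool.Agent.Strip051.LC.E0.Ch
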