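import Pool.Agent.Strip051.LC.E0.Ch.Te

/-! # Small rests: certificate X_t1b_W_n_M -/

set_option maxRecDepth 100000

namespace Pool.Agent.Strip051.LC.E0.Ch

open Pool.Agent.Strip051.PB

def x_t1b_W_n_M_t0 : T :=
  (.b (.c (.a (.b (.c (.a (.l 131) (.b (.l 131) (.l 0))) (.a (.l 131) (.b (.l 131) (.l 0)))) (.l
      32)) (.b (.b (.c (.b (.a (.l 131) (.l 0)) (.l 0)) (.b (.a (.l 131) (.l 0)) (.l 0))) (.l 0))
      (.l 0))) (.a (.b (.c (.a (.l 131) (.b (.l 131) (.l 0))) (.a (.l 131) (.b (.l 131) (.l 0))))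
      (.l 32)) (.b (.b (.c (.b (.a (.l 131) (.l 0)) (.l 0)) (.b (.a (.l 131) (.l 0)) (.l 0))) (.l
      0)) (.l 0)))) (.b (.l 32) (.l 32)))

theorem x_t1b_W_n_M_h0 : chk3 (onCell 0 8589934592 0 8589934592 0 34359739 T_t1b_W_n) x_t1b_W_n_M_t0 32 16 2 = true := by decide +kernel

def x_t1b_W_n_M_t1 : T :=
  (.b (.b (.c (.b (.a (.c (.b (.a (.l 0) (.l 0)) (.l 0)) (.b (.a (.l 0) (.l 0)) (.l 0))) (.c (.b
      (.a (.l 0) (.l 0)) (.l 0)) (.b (.a (.l 0) (.l 0)) (.l 0)))) (.a (.l 0) (.l 0))) (.b (.a (.c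
      (.b (.a (.l 0) (.l 0)) (.l 0)) (.b (.a (.l 0) (.l 0)) (.l 0))) (.c (.b (.a (.l 0) (.l 0))
      (.l 0)) (.b (.a (.l 0) (.l 0)) (.l 0)))) (.a (.l 0) (.l 0)))) (.c (.l 0) (.l 0))) (.b (.l
      32) (.l 32)))

theorem x_t1b_W_n_M_h1 : chk3 (onCell 0 8589934592 0 8589934592 0 34359739 T_t1b_W_n) x_t1b_W_n_M_t1 33 16 2 = true := by decide +kernel

def x_t1b_W_n_M_t2 : T :=
  (.b (.c (.a (.b (.c (.a (.l 131) (.b (.l 131) (.l 0))) (.a (.l 131) (.b (.l 131) (.l 0)))) (.l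
      32)) (.b (.b (.c (.b (.a (.l 131) (.l 0)) (.l 0)) (.b (.a (.l 131) (.l 0)) (.l 0))) (.l 0))
      (.l 0))) (.a (.b (.c (.a (.l 131) (.b (.l 131) (.l 0))) (.a (.l 131) (.b (.l 131) (.l 0))))
      (.l 32)) (.b (.b (.c (.b (.a (.l 131) (.l 0)) (.l 0)) (.b (.a (.l 131) (.l 0)) (.l 0))) (.l
      0)) (.l 0)))) (.b (.l 33) (.l 32)))

theorem x_t1b_W_n_M_h2 : chk3 (onCell 0 8589934592 0 8589934592 0 34359739 T_t1b_W_n) x_t1b_W_n_M_t2 32 16 3 = true := by decide +kernel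

def x_t1b_W_n_M_t3 : T :=
  (.b (.b (.c (.b (.a (.c (.b (.a (.l 0) (.l 0)) (.l 0)) (.b (.a (.l 0) (.l 0)) (.l 0))) (.c (.b
      (.a (.l 0) (.l 0)) (.l 0)) (.b (.a (.l 0) (.l 0)) (.l 0)))) (.a (.l 0) (.l 0))) (.b (.a (.c
      (.b (.a (.l 0) (.l 0)) (.l 0)) (.b (.a (.l 0) (.l 0)) (.l 0))) (.c (.b (.a (.l 0) (.l 0))
      (.l 0)) (.b (.a (.l 0) (.l 0)) (.l 0)))) (.a (.l 0) (.l 0)))) (.c (.b (.l 0) (.l 0)) (.b
      (.l 0) (.l 0)))) (.b (.l 32) (.l 32)))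

theorem x_t1b_W_n_M_h3 : chk3 (onCell 0 8589934592 0 8589934592 0 34359739 T_t1b_W_n) x_t1b_W_n_M_t3 33 16 3 = true := by decide +kernel

def x_t1b_W_n_M_t4 : T :=
  (.a (.b (.c (.l 32) (.a (.l 32) (.l 32))) (.c (.l 32) (.a (.l 32) (.l 32)))) (.b (.c (.l 32)
      (.b (.l 32) (.l 32))) (.b (.a (.l 32) (.l 32)) (.a (.l 32) (.l 34)))))

theorem x_t1b_W_n_M_h4 : chk3 (onCell 0 8589934592 0 8589934592 0 34359739 T_t1b_W_n) x_t1b_W_n_M_t4 16 17 1 = true := by decide +kernel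

def x_t1b_W_n_M_t5 : T :=
  (.b (.c (.b (.a (.c (.b (.a (.c (.a (.l 0) (.l 0)) (.a (.l 0) (.l 0))) (.l 10)) (.a (.l 0) (.l
      0))) (.b (.a (.c (.a (.l 0) (.l 0)) (.a (.l 0) (.l 0))) (.l 10)) (.a (.l 0) (.l 0)))) (.c
      (.b (.l 12) (.a (.l 0) (.l 0))) (.b (.l 12) (.a (.l 0) (.l 0))))) (.a (.c (.l 0) (.l 0))
      (.l 0))) (.b (.a (.c (.b (.a (.c (.a (.l 0) (.l 0)) (.a (.l 0) (.l 0))) (.l 10)) (.a (.l 0)
      (.l 0))) (.b (.a (.c (.a (.l 0) (.l 0)) (.a (.l 0) (.l 0))) (.l 10)) (.a (.l 0) (.l 0))))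
      (.c (.b (.l 12) (.a (.l 0) (.l 0))) (.b (.l 12) (.a (.l 0) (.l 0))))) (.a (.c (.l 0) (.a
      (.l 0) (.l 0))) (.c (.l 0) (.l 0))))) (.c (.a (.l 0) (.l 0)) (.a (.l 0) (.a (.l 0) (.l
      0)))))

theorem x_t1b_W_n_M_h5 : chk3 (onCell 0 8589934592 0 8589934592 0 34359739 T_t1b_W_n) x_t1b_W_n_M_t5 17 32 1 = true := by decide +kernel

def x_t1b_W_n_M_t6 : T :=
  (.a (.b (.l 32) (.l 32)) (.b (.a (.b (.l 0) (.l 32)) (.b (.l 34) (.l 34))) (.a (.b (.l 32) (.l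
      32)) (.l 34))))

theorem x_t1b_W_n_M_h6 : chk3 (onCell 0 8589934592 0 8589934592 0 34359739 T_t1b_W_n) x_t1b_W_n_M_t6 17 33 1 = true := by decide +kernel

def x_t1b_W_n_M_t7 : T :=
  (.b (.a (.b (.a (.l 32) (.l 34)) (.a (.l 32) (.l 34))) (.b (.l 34) (.l 34))) (.a (.b (.l 34)
      (.l 34)) (.l 34)))

theorem x_t1b_W_n_M_h7 : chk3 (onCell 0 8589934592 0 8589934592 0 34359739 T_t1b_W_n) x_t1b_W_n_M_t7 17 17 1 = true := by decide +kernel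

def x_t1b_W_n_M_t8 : T :=
  (.b (.a (.b (.a (.b (.a (.b (.a (.c (.b (.l 12) (.l 0)) (.b (.l 12) (.l 0))) (.b (.c (.l 2) (.a
      (.l 2) (.l 2))) (.l 0))) (.a (.l 0) (.l 2))) (.b (.a (.l 2) (.l 34)) (.l 34))) (.a (.b (.l
      34) (.l 34)) (.l 34))) (.b (.a (.l 34) (.l 34)) (.l 34))) (.a (.b (.a (.l 34) (.l 34)) (.l
      34)) (.b (.l 34) (.l 34)))) (.b (.a (.b (.l 34) (.l 34)) (.l 34)) (.a (.l 34) (.l 34))))
      (.a (.b (.a (.l 34) (.l 34)) (.l 34)) (.b (.l 34) (.l 18))))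

theorem x_t1b_W_n_M_h8 : chk3 (onCell 0 8589934592 0 8589934592 0 34359739 T_t1b_W_n) x_t1b_W_n_M_t8 9 8 1 = true := by decide +kernel

def x_t1b_W_n_M_t9 : T :=
  (.a (.b (.a (.b (.a (.b (.a (.l 32) (.l 34)) (.a (.b (.l 32) (.l 34)) (.l 34))) (.b (.l 34) (.l
      34))) (.a (.b (.l 34) (.l 18)) (.l 34))) (.b (.a (.l 34) (.l 34)) (.l 34))) (.a (.b (.a (.l
      18) (.l 18)) (.l 34)) (.b (.l 34) (.l 18)))) (.b (.a (.b (.l 34) (.l 18)) (.l 34)) (.a (.l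
      34) (.c (.l 18) (.l 34)))))

theorem x_t1b_W_n_M_h9 : chk3 (onCell 0 8589934592 0 8589934592 0 34359739 T_t1b_W_n) x_t1b_W_n_M_t9 4 9 1 = true := by decide +kernel

def x_t1b_W_n_M_t10 : T :=
  (.b (.b (.a (.b (.a (.l 34) (.l 18)) (.l 34)) (.b (.l 34) (.l 34))) (.a (.l 34) (.b (.l 34) (.l
      34)))) (.a (.b (.b (.l 34) (.l 34)) (.b (.l 34) (.c (.l 18) (.l 34)))) (.b (.b (.c (.l 18)
      (.l 34)) (.c (.l 18) (.l 34))) (.c (.l 18) (.a (.b (.l 34) (.c (.l 18) (.l 34))) (.b (.b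
      (.l 34) (.l 34)) (.c (.l 18) (.a (.b (.l 34) (.l 99)) (.b (.c (.l 18) (.l 51)) (.l
      99))))))))))

theorem x_t1b_W_n_M_h10 : chk3 (onCell 0 8589934592 0 8589934592 0 34359739 T_t1b_W_n) x_t1b_W_n_M_t10 10 4 1 = true := by decide +kernel

def x_t1b_W_n_M_t11 : T :=
  (.a (.b (.b (.l 34) (.c (.l 18) (.l 34))) (.b (.c (.l 18) (.l 34)) (.c (.l 18) (.l 34)))) (.b
      (.b (.b (.a (.l 34) (.c (.l 34) (.l 34))) (.a (.l 34) (.c (.l 34) (.l 34)))) (.a (.b (.l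
      34) (.c (.l 18) (.l 34))) (.b (.c (.l 34) (.l 34)) (.c (.l 34) (.l 34))))) (.c (.l 34) (.a
      (.b (.l 34) (.b (.l 34) (.b (.l 34) (.a (.l 34) (.c (.l 18) (.l 34)))))) (.b (.b (.l 34)
      (.b (.a (.l 34) (.l 34)) (.a (.l 34) (.b (.l 34) (.c (.l 18) (.l 34)))))) (.c (.l 34) (.a
      (.b (.l 34) (.c (.l 18) (.l 51))) (.b (.c (.l 34) (.l 51)) (.c (.l 34) (.l 51))))))))))

theorem x_t1b_W_n_M_h11 : chk3 (onCell 0 8589934592 0 8589934592 0 34359739 T_t1b_W_n) x_t1b_W_n_M_t11 11 8 1 = true := by decide +kernel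

def x_t1b_W_n_M_t12 : T :=
  (.b (.c (.l 34) (.a (.b (.l 34) (.b (.l 34) (.l 34))) (.b (.b (.l 34) (.b (.l 34) (.c (.l 18)
      (.l 34)))) (.c (.l 18) (.a (.b (.l 34) (.c (.l 18) (.l 51))) (.b (.c (.l 18) (.l 51)) (.c
      (.l 18) (.l 51)))))))) (.c (.l 34) (.a (.b (.c (.l 18) (.a (.b (.l 34) (.c (.l 18) (.l
      51))) (.b (.c (.l 18) (.l 51)) (.c (.l 18) (.l 51))))) (.c (.l 99) (.a (.b (.c (.l 99) (.l
      51)) (.l 99)) (.l 99)))) (.b (.c (.l 18) (.a (.b (.c (.l 18) (.l 51)) (.c (.l 18) (.l 51)))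
      (.b (.c (.l 18) (.l 51)) (.l 99)))) (.l 99)))))

theorem x_t1b_W_n_M_h12 : chk3 (onCell 0 8589934592 0 8589934592 0 34359739 T_t1b_W_n) x_t1b_W_n_M_t12 22 9 1 = true := by decide +kernel

def x_t1b_W_n_M_t13 : T :=
  (.b (.c (.l 34) (.a (.b (.c (.l 34) (.a (.b (.l 34) (.c (.l 18) (.l 51))) (.b (.c (.l 18) (.l
      51)) (.c (.l 18) (.l 51))))) (.c (.l 34) (.a (.b (.c (.l 18) (.l 51)) (.c (.l 18) (.l 51)))
      (.b (.c (.l 18) (.l 51)) (.c (.l 34) (.l 51)))))) (.b (.c (.l 34) (.a (.b (.c (.l 18) (.l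
      51)) (.c (.l 34) (.l 51))) (.b (.c (.l 34) (.l 51)) (.c (.l 34) (.l 51))))) (.c (.l 34) (.a
      (.b (.c (.l 34) (.l 51)) (.l 51)) (.l 51)))))) (.c (.l 99) (.a (.b (.c (.l 34) (.a (.b (.c
      (.l 18) (.l 51)) (.l 51)) (.l 51))) (.l 99)) (.l 99))))

theorem x_t1b_W_n_M_h13 : chk3 (onCell 0 8589934592 0 8589934592 0 34359739 T_t1b_W_n) x_t1b_W_n_M_t13 23 9 1 = true := by decide +kernel

def x_t1b_W_n_M_t14 : T :=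
  (.a (.a (.b (.b (.a (.b (.l 18) (.l 18)) (.l 34)) (.a (.l 34) (.c (.l 18) (.l 18)))) (.a (.b
      (.c (.l 18) (.l 18)) (.l 99)) (.l 99))) (.b (.a (.b (.c (.l 18) (.l 34)) (.b (.c (.l 18)
      (.l 18)) (.l 99))) (.b (.b (.c (.l 18) (.l 34)) (.c (.l 18) (.l 34))) (.l 99))) (.l 99)))
      (.a (.b (.a (.b (.c (.l 18) (.a (.c (.l 18) (.l 34)) (.b (.c (.l 18) (.l 34)) (.l 99))))
      (.l 99)) (.b (.c (.l 99) (.l 99)) (.l 99))) (.l 99)) (.l 99)))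

theorem x_t1b_W_n_M_h14 : chk3 (onCell 0 8589934592 0 8589934592 0 34359739 T_t1b_W_n) x_t1b_W_n_M_t14 2 5 1 = true := by decide +kernel

def x_t1b_W_n_M_t15 : T :=
  (.c (.l 34) (.a (.b (.l 34) (.b (.a (.l 34) (.l 34)) (.a (.l 34) (.b (.a (.l 34) (.l 34)) (.a
      (.l 34) (.b (.c (.l 18) (.l 34)) (.c (.l 18) (.l 34)))))))) (.b (.b (.a (.l 34) (.b (.l 34)
      (.l 34))) (.a (.l 34) (.b (.a (.l 34) (.b (.l 34) (.c (.l 34) (.l 34)))) (.a (.b (.l 34)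
      (.l 34)) (.b (.c (.l 34) (.l 34)) (.c (.l 34) (.l 34))))))) (.c (.l 34) (.a (.b (.l 34) (.c
      (.l 34) (.l 51))) (.b (.c (.l 34) (.l 51)) (.c (.l 34) (.l 51))))))))

theorem x_t1b_W_n_M_h15 : chk3 (onCell 0 8589934592 0 8589934592 0 34359739 T_t1b_W_n) x_t1b_W_n_M_t15 24 16 1 = true := by decide +kernel

def x_t1b_W_n_M_t16 : T :=
  (.c (.l 34) (.a (.b (.c (.l 34) (.a (.b (.l 34) (.c (.l 34) (.l 51))) (.b (.c (.l 34) (.l 51))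
      (.c (.l 34) (.l 51))))) (.c (.l 34) (.a (.b (.c (.l 34) (.l 51)) (.c (.l 34) (.l 51))) (.b
      (.c (.l 34) (.l 51)) (.c (.l 34) (.l 51)))))) (.b (.c (.l 34) (.a (.b (.c (.l 34) (.l 51))
      (.c (.l 34) (.l 51))) (.b (.c (.l 34) (.l 51)) (.c (.l 34) (.l 51))))) (.c (.l 34) (.a (.b
      (.c (.l 34) (.l 51)) (.l 51)) (.l 51))))))

theorem x_t1b_W_n_M_h16 : chk3 (onCell 0 8589934592 0 8589934592 0 34359739 T_t1b_W_n) x_t1b_W_n_M_t16 24 17 1 = true := by decide +kernel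

def x_t1b_W_n_M_t17 : T :=
  (.b (.c (.l 34) (.a (.b (.c (.l 34) (.a (.b (.l 34) (.c (.l 34) (.l 51))) (.b (.c (.l 34) (.l
      51)) (.c (.l 34) (.l 51))))) (.c (.l 34) (.a (.b (.c (.l 34) (.l 51)) (.c (.l 34) (.l 51)))
      (.b (.c (.l 34) (.l 51)) (.c (.l 34) (.l 51)))))) (.b (.c (.l 34) (.a (.b (.c (.l 34) (.l
      51)) (.c (.l 34) (.l 51))) (.b (.c (.l 34) (.l 51)) (.c (.l 34) (.l 51))))) (.c (.l 34) (.a
      (.b (.c (.l 34) (.l 51)) (.l 51)) (.l 51)))))) (.c (.l 34) (.a (.b (.c (.l 34) (.a (.b (.c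
      (.l 34) (.l 51)) (.l 51)) (.l 51))) (.c (.l 34) (.l 51))) (.b (.c (.l 34) (.l 51)) (.c (.l
      34) (.l 51))))))

theorem x_t1b_W_n_M_h17 : chk3 (onCell 0 8589934592 0 8589934592 0 34359739 T_t1b_W_n) x_t1b_W_n_M_t17 25 8 1 = true := by decide +kernel

def x_t1b_W_n_M_t18 : T :=
  (.a (.b (.c (.l 34) (.a (.b (.c (.l 34) (.a (.b (.c (.l 34) (.l 51)) (.l 51)) (.l 51))) (.c (.l
      34) (.l 51))) (.b (.c (.l 34) (.l 51)) (.c (.l 99) (.l 51))))) (.l 99)) (.b (.c (.l 34) (.a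
      (.b (.c (.l 34) (.l 51)) (.l 99)) (.b (.c (.l 99) (.l 51)) (.l 99)))) (.l 99)))

theorem x_t1b_W_n_M_h18 : chk3 (onCell 0 8589934592 0 8589934592 0 34359739 T_t1b_W_n) x_t1b_W_n_M_t18 12 9 1 = true := by decide +kernel

def x_t1b_W_n_M_t19 : T :=
  (.b (.c (.l 34) (.a (.b (.c (.l 34) (.a (.b (.c (.l 34) (.l 51)) (.l 51)) (.l 51))) (.c (.l 34)
      (.l 51))) (.b (.c (.l 34) (.l 51)) (.c (.l 34) (.l 51))))) (.c (.l 34) (.a (.b (.c (.l 34)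
      (.l 51)) (.c (.l 34) (.l 51))) (.b (.c (.l 34) (.l 51)) (.c (.a (.b (.l 34) (.l 99)) (.l
      99)) (.l 51))))))

theorem x_t1b_W_n_M_h19 : chk3 (onCell 0 8589934592 0 8589934592 0 34359739 T_t1b_W_n) x_t1b_W_n_M_t19 26 8 1 = true := by decide +kernel

def x_t1b_W_n_M_t20 : T :=
  (.b (.c (.l 34) (.a (.b (.c (.l 34) (.l 51)) (.c (.b (.l 34) (.l 34)) (.l 51))) (.b (.c (.b (.l
      34) (.l 34)) (.l 51)) (.c (.a (.b (.l 34) (.b (.l 34) (.a (.l 34) (.b (.l 34) (.c (.l 34)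
      (.l 51)))))) (.b (.b (.l 34) (.a (.l 34) (.b (.l 34) (.c (.l 34) (.l 51))))) (.c (.l 34)
      (.l 51)))) (.l 51))))) (.c (.l 34) (.a (.b (.c (.a (.b (.l 34) (.b (.l 34) (.l 99))) (.b
      (.b (.l 34) (.a (.l 34) (.b (.l 34) (.c (.l 99) (.l 51))))) (.c (.l 99) (.l 51)))) (.l 51))
      (.c (.l 99) (.l 51))) (.b (.c (.a (.b (.c (.l 34) (.l 51)) (.l 99)) (.b (.c (.l 99) (.l
      51)) (.l 99))) (.l 51)) (.l 99)))))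

theorem x_t1b_W_n_M_h20 : chk3 (onCell 0 8589934592 0 8589934592 0 34359739 T_t1b_W_n) x_t1b_W_n_M_t20 27 8 1 = true := by decide +kernel

def x_t1b_W_n_M_t21 : T :=
  (.a (.b (.c (.l 99) (.l 99)) (.l 99)) (.l 99))

theorem x_t1b_W_n_M_h21 : chk3 (onCell 0 8589934592 0 8589934592 0 34359739 T_t1b_W_n) x_t1b_W_n_M_t21 13 9 1 = true := by decide +kernel

def x_t1b_W_n_M_t22 : T :=
  (.l 99)

theorem x_t1b_W_n_M_h22 : chk3 (onCell 0 8589934592 0 8589934592 0 34359739 T_t1b_W_n) x_t1b_W_n_M_t22 6 5 1 = true := by decide +kernel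

def x_t1b_W_n_M_t23 : T :=
  (.b (.c (.l 34) (.a (.b (.c (.a (.b (.l 34) (.b (.a (.l 34) (.l 34)) (.a (.l 34) (.b (.a (.l
      34) (.l 34)) (.c (.l 34) (.l 51)))))) (.b (.b (.a (.l 34) (.l 34)) (.a (.l 34) (.b (.a (.l
      34) (.c (.l 34) (.l 51))) (.c (.l 34) (.l 51))))) (.c (.l 34) (.l 51)))) (.l 51)) (.c (.a
      (.b (.c (.l 34) (.l 51)) (.c (.l 34) (.l 51))) (.b (.c (.l 34) (.l 51)) (.c (.l 34) (.l
      51)))) (.l 51))) (.b (.c (.a (.b (.c (.l 34) (.l 51)) (.c (.l 34) (.l 51))) (.b (.c (.l 34)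
      (.l 51)) (.c (.l 34) (.l 51)))) (.l 51)) (.c (.a (.b (.c (.l 34) (.l 51)) (.c (.l 99) (.l
      51))) (.b (.c (.l 34) (.l 51)) (.l 99))) (.l 51))))) (.c (.l 99) (.a (.b (.c (.l 99) (.l
      51)) (.l 99)) (.b (.c (.l 99) (.l 51)) (.l 99)))))

theorem x_t1b_W_n_M_h23 : chk3 (onCell 0 8589934592 0 8589934592 0 34359739 T_t1b_W_n) x_t1b_W_n_M_t23 28 8 1 = true := by decide +kernel

def x_t1b_W_n_M_t24 : T :=
  (.b (.c (.l 34) (.a (.b (.c (.a (.b (.c (.l 34) (.l 51)) (.c (.l 34) (.l 51))) (.b (.c (.l 34)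
      (.l 51)) (.c (.l 34) (.l 51)))) (.l 51)) (.c (.a (.b (.c (.l 99) (.l 51)) (.l 99)) (.l 99))
      (.l 51))) (.b (.c (.a (.b (.c (.l 34) (.l 51)) (.c (.l 34) (.l 51))) (.b (.c (.l 34) (.l
      51)) (.c (.l 99) (.l 51)))) (.l 51)) (.c (.l 99) (.l 51))))) (.l 99))

theorem x_t1b_W_n_M_h24 : chk3 (onCell 0 8589934592 0 8589934592 0 34359739 T_t1b_W_n) x_t1b_W_n_M_t24 29 8 1 = true := by decide +kernel

def x_t1b_W_n_M_t25 : T :=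
  (.l 99)

theorem x_t1b_W_n_M_h25 : chk3 (onCell 0 8589934592 0 8589934592 0 34359739 T_t1b_W_n) x_t1b_W_n_M_t25 14 9 1 = true := by decide +kernel

def x_t1b_W_n_M_t26 : T :=
  (.b (.a (.b (.c (.l 99) (.a (.b (.c (.a (.b (.c (.l 34) (.l 51)) (.l 99)) (.b (.c (.l 99) (.l
      51)) (.l 99))) (.l 51)) (.c (.l 99) (.l 51))) (.b (.c (.a (.b (.c (.l 99) (.l 51)) (.l 99))
      (.l 99)) (.l 51)) (.l 99)))) (.l 99)) (.b (.c (.l 99) (.a (.b (.c (.l 99) (.l 51)) (.l 99))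
      (.b (.c (.l 51) (.l 51)) (.l 51)))) (.l 99))) (.l 99))

theorem x_t1b_W_n_M_h26 : chk3 (onCell 0 8589934592 0 8589934592 0 34359739 T_t1b_W_n) x_t1b_W_n_M_t26 15 4 1 = true := by decide +kernel

def x_t1b_W_n_M_t27 : T :=
  (.a (.l 99) (.l 83))

theorem x_t1b_W_n_M_h27 : chk3 (onCell 0 8589934592 0 8589934592 0 34359739 T_t1b_W_n) x_t1b_W_n_M_t27 7 5 1 = true := by decide +kernel

def x_t1b_W_n_M_t28 : T :=
  (.a (.a (.l 99) (.b (.l 99) (.a (.l 99) (.l 83)))) (.a (.b (.a (.l 99) (.l 83)) (.l 83)) (.l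
      83)))

theorem x_t1b_W_n_M_h28 : chk3 (onCell 0 8589934592 0 8589934592 0 34359739 T_t1b_W_n) x_t1b_W_n_M_t28 1 3 1 = true := by decide +kernel

theorem x_t1b_W_n_M : Tree 0 8589934592 0 8589934592 0 34359739 T_t1b_W_n :=
  ⟨_, (chk3_b (chk3_a (chk3_b (chk3_a (chk3_b (chk3_a (chk3_a (chk3_b (chk3_c (chk3_a
      x_t1b_W_n_M_h0 x_t1b_W_n_M_h1) (chk3_a x_t1b_W_n_M_h2 x_t1b_W_n_M_h3)) x_t1b_W_n_M_h4)
      (chk3_b (chk3_b x_t1b_W_n_M_h5 x_t1b_W_n_M_h6) x_t1b_W_n_M_h7)) x_t1b_W_n_M_h8)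
      x_t1b_W_n_M_h9) (chk3_a x_t1b_W_n_M_h10 (chk3_b x_t1b_W_n_M_h11 (chk3_a x_t1b_W_n_M_h12
      x_t1b_W_n_M_h13)))) x_t1b_W_n_M_h14) (chk3_a (chk3_b (chk3_a (chk3_b (chk3_a (chk3_b
      x_t1b_W_n_M_h15 x_t1b_W_n_M_h16) x_t1b_W_n_M_h17) x_t1b_W_n_M_h18) (chk3_b (chk3_a
      x_t1b_W_n_M_h19 x_t1b_W_n_M_h20) x_t1b_W_n_M_h21)) x_t1b_W_n_M_h22) (chk3_b (chk3_a (chk3_b
      (chk3_a x_t1b_W_n_M_h23 x_t1b_W_n_M_h24) x_t1b_W_n_M_h25) x_t1b_W_n_M_h26)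
      x_t1b_W_n_M_h27))) x_t1b_W_n_M_h28)⟩

end Pool.Agent.Strip051.LC.E0.Ch
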