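import Pool.Agent.Strip051.LC.E0.Ch.Te

/-! # Small rests: certificate X_t1b_c1_d_n_G -/

set_option maxRecDepth 100000

namespace Pool.Agent.Strip051.LC.E0.Ch

open Pool.Agent.Strip051.PB

def x_t1b_c1_d_n_G_t0 : T :=
  (.l 0)

theorem x_t1b_c1_d_n_G_h0 : chk3 (onCell 0 268435456 0 268435456 0 34359739 G_t1b_c1_d_n) x_t1b_c1_d_n_G_t0 1 1 1 = true := by decide +kernel

theorem x_t1b_c1_d_n_G : Tree 0 268435456 0 268435456 0 34359739 G_t1b_c1_d_n :=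
  ⟨_, x_t1b_c1_d_n_G_h0⟩

end Pool.Agent.Strip051.LC.E0.Ch
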