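import Pool.Agent.Strip051.LC.E0.Ch.Te

/-! # Small rests: certificate X_t1b_c1_d_n_M -/

set_option maxRecDepth 100000

namespace Pool.Agent.Strip051.LC.E0.Ch

open Pool.Agent.Strip051.PB

def x_t1b_c1_d_n_M_t0 : T :=
  (.b (.a (.a (.a (.a (.l 131) (.c (.l 4) (.l 4))) (.a (.l 4) (.l 4))) (.a (.a (.l 4) (.a (.l 4)
      (.l 4))) (.a (.l 6) (.l 6)))) (.a (.a (.l 6) (.a (.l 38) (.l 38))) (.c (.a (.a (.l 38) (.l
      38)) (.l 38)) (.a (.a (.l 38) (.l 38)) (.l 38))))) (.a (.a (.a (.l 19) (.c (.a (.l 4) (.l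
      4)) (.a (.b (.l 4) (.l 19)) (.l 4)))) (.a (.c (.a (.l 4) (.b (.l 0) (.l 0))) (.a (.l 4) (.b
      (.l 0) (.l 0)))) (.a (.a (.l 6) (.l 2)) (.l 6)))) (.a (.a (.b (.a (.l 34) (.l 34)) (.a (.l
      34) (.l 34))) (.b (.b (.l 34) (.l 34)) (.l 34))) (.c (.b (.a (.l 34) (.l 34)) (.a (.l 18)
      (.l 34))) (.a (.l 34) (.l 38))))))

theorem x_t1b_c1_d_n_M_h0 : chk3 (onCell 0 6442450944 0 3758096384 0 34359739 T_t1b_c1_d_n) x_t1b_c1_d_n_M_t0 2 8 1 = true := by decide +kernel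

def x_t1b_c1_d_n_M_t1 : T :=
  (.a (.b (.a (.c (.l 38) (.l 38)) (.c (.l 38) (.a (.l 38) (.l 38)))) (.c (.a (.l 38) (.l 38))
      (.a (.a (.l 38) (.l 34)) (.b (.c (.l 34) (.l 38)) (.a (.l 34) (.l 34)))))) (.b (.a (.c (.l
      38) (.l 38)) (.c (.l 38) (.l 38))) (.c (.a (.l 38) (.l 38)) (.a (.l 38) (.l 38)))))

theorem x_t1b_c1_d_n_M_h1 : chk3 (onCell 0 6442450944 0 3758096384 0 34359739 T_t1b_c1_d_n) x_t1b_c1_d_n_M_t1 3 8 1 = true := by decide +kernel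

def x_t1b_c1_d_n_M_t2 : T :=
  (.a (.a (.a (.l 19) (.b (.a (.a (.c (.l 0) (.b (.l 0) (.l 19))) (.a (.l 0) (.l 0))) (.a (.a (.a
      (.l 0) (.l 34)) (.l 34)) (.l 34))) (.a (.l 19) (.a (.a (.l 19) (.l 34)) (.l 34))))) (.a (.a
      (.b (.a (.l 34) (.l 34)) (.a (.l 34) (.l 18))) (.b (.l 34) (.l 18))) (.c (.b (.a (.l 18)
      (.l 34)) (.l 34)) (.b (.b (.a (.l 18) (.l 34)) (.l 34)) (.a (.l 18) (.l 34)))))) (.a (.a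
      (.c (.b (.l 34) (.l 34)) (.a (.l 34) (.l 34))) (.c (.b (.l 34) (.l 34)) (.a (.b (.l 34) (.l
      2)) (.b (.l 34) (.l 34))))) (.b (.c (.a (.l 34) (.b (.l 34) (.l 34))) (.a (.a (.l 34) (.b
      (.l 34) (.l 34))) (.a (.b (.l 34) (.l 34)) (.c (.l 34) (.l 34))))) (.a (.c (.l 34) (.b (.c
      (.l 34) (.l 34)) (.l 34))) (.c (.l 34) (.a (.b (.l 34) (.l 34)) (.b (.l 34) (.l 34))))))))

theorem x_t1b_c1_d_n_M_h2 : chk3 (onCell 0 6442450944 0 3758096384 0 34359739 T_t1b_c1_d_n) x_t1b_c1_d_n_M_t2 1 9 1 = true := by decide +kernel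

def x_t1b_c1_d_n_M_t3 : T :=
  (.a (.a (.l 19) (.a (.a (.b (.a (.b (.l 18) (.l 19)) (.b (.l 18) (.l 19))) (.l 19)) (.b (.b (.l
      18) (.l 18)) (.l 19))) (.c (.b (.l 34) (.l 34)) (.b (.b (.l 34) (.l 34)) (.a (.l 18) (.l
      34)))))) (.a (.a (.c (.b (.l 34) (.l 34)) (.b (.l 34) (.l 34))) (.c (.b (.l 34) (.l 34))
      (.b (.b (.l 34) (.l 34)) (.b (.l 34) (.l 34))))) (.a (.c (.b (.l 34) (.l 34)) (.b (.a (.b
      (.l 34) (.l 34)) (.b (.l 34) (.l 34))) (.b (.b (.l 34) (.l 34)) (.c (.l 2) (.l 34))))) (.c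
      (.b (.l 34) (.l 34)) (.b (.a (.b (.l 34) (.l 34)) (.c (.l 34) (.l 34))) (.a (.b (.l 34) (.c
      (.l 2) (.l 34))) (.c (.l 34) (.l 34))))))))

theorem x_t1b_c1_d_n_M_h3 : chk3 (onCell 0 6442450944 0 3758096384 0 34359739 T_t1b_c1_d_n) x_t1b_c1_d_n_M_t3 1 5 1 = true := by decide +kernel

def x_t1b_c1_d_n_M_t4 : T :=
  (.l 19)

theorem x_t1b_c1_d_n_M_h4 : chk3 (onCell 0 6442450944 0 3758096384 0 34359739 T_t1b_c1_d_n) x_t1b_c1_d_n_M_t4 2 3 1 = true := by decide +kernel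

def x_t1b_c1_d_n_M_t5 : T :=
  (.b (.a (.c (.l 34) (.b (.l 34) (.l 19))) (.c (.l 34) (.b (.b (.l 34) (.l 34)) (.b (.c (.l 34)
      (.l 34)) (.a (.l 19) (.c (.l 34) (.l 34))))))) (.l 19))

theorem x_t1b_c1_d_n_M_h5 : chk3 (onCell 0 6442450944 0 3758096384 0 34359739 T_t1b_c1_d_n) x_t1b_c1_d_n_M_t5 6 3 1 = true := by decide +kernel

def x_t1b_c1_d_n_M_t6 : T :=
  (.a (.c (.l 34) (.b (.b (.c (.l 2) (.l 34)) (.c (.l 34) (.l 34))) (.a (.b (.c (.l 2) (.l 34))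
      (.c (.l 34) (.c (.l 2) (.l 51)))) (.c (.l 34) (.b (.c (.l 2) (.l 51)) (.a (.c (.l 2) (.l
      51)) (.c (.l 2) (.l 51)))))))) (.c (.l 34) (.b (.a (.c (.l 2) (.b (.l 34) (.l 34))) (.c (.l
      34) (.b (.l 34) (.c (.l 2) (.l 51))))) (.a (.c (.l 34) (.b (.a (.c (.l 2) (.l 51)) (.c (.l
      2) (.l 51))) (.a (.c (.l 2) (.l 51)) (.c (.l 34) (.l 51))))) (.c (.l 34) (.b (.a (.c (.l 2)
      (.l 51)) (.c (.l 2) (.l 51))) (.a (.c (.l 34) (.l 51)) (.c (.l 34) (.l 51)))))))))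

theorem x_t1b_c1_d_n_M_h6 : chk3 (onCell 0 6442450944 0 3758096384 0 34359739 T_t1b_c1_d_n) x_t1b_c1_d_n_M_t6 7 6 1 = true := by decide +kernel

def x_t1b_c1_d_n_M_t7 : T :=
  (.a (.c (.l 34) (.b (.a (.c (.l 34) (.b (.a (.l 19) (.c (.l 99) (.l 51))) (.l 19))) (.c (.l 34)
      (.b (.a (.c (.l 99) (.l 51)) (.c (.l 99) (.l 51))) (.l 51)))) (.l 19))) (.c (.l 34) (.b (.a
      (.c (.l 34) (.b (.a (.c (.l 99) (.l 51)) (.l 51)) (.l 51))) (.c (.l 34) (.l 51))) (.a (.c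
      (.l 99) (.l 51)) (.c (.l 99) (.l 51))))))

theorem x_t1b_c1_d_n_M_h7 : chk3 (onCell 0 6442450944 0 3758096384 0 34359739 T_t1b_c1_d_n) x_t1b_c1_d_n_M_t7 7 7 1 = true := by decide +kernel

theorem x_t1b_c1_d_n_M : Tree 0 6442450944 0 3758096384 0 34359739 T_t1b_c1_d_n :=
  ⟨_, (chk3_b (chk3_b (chk3_b (chk3_a x_t1b_c1_d_n_M_h0 x_t1b_c1_d_n_M_h1) x_t1b_c1_d_n_M_h2)
      x_t1b_c1_d_n_M_h3) (chk3_a x_t1b_c1_d_n_M_h4 (chk3_a x_t1b_c1_d_n_M_h5 (chk3_b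
      x_t1b_c1_d_n_M_h6 x_t1b_c1_d_n_M_h7))))⟩

end Pool.Agent.Strip051.LC.E0.Ch
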