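import Pool.Agent.Strip051.LC.E0.Ch.Te

/-! # Small rests: certificate X_t1b_c1_u_f_C -/

set_option maxRecDepth 100000

namespace Pool.Agent.Strip051.LC.E0.Ch

open Pool.Agent.Strip051.PB

def x_t1b_c1_u_f_C_t0 : T :=
  (.b (.b (.b (.c (.b (.a (.c (.b (.l 0) (.l 0)) (.b (.l 0) (.l 0))) (.l 0)) (.l 0)) (.b (.a (.c
      (.l 0) (.l 0)) (.l 0)) (.l 0))) (.c (.a (.l 0) (.l 0)) (.a (.l 0) (.l 0)))) (.c (.a (.c (.l
      0) (.l 1)) (.l 0)) (.a (.c (.a (.l 0) (.l 0)) (.a (.l 0) (.l 0))) (.l 0)))) (.b (.c (.a (.c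
      (.l 0) (.l 1)) (.l 32)) (.a (.c (.a (.l 0) (.l 0)) (.a (.l 0) (.l 0))) (.l 32))) (.c (.c
      (.a (.l 33) (.b (.l 32) (.l 32))) (.a (.a (.l 32) (.l 32)) (.b (.l 32) (.l 32)))) (.a (.c
      (.a (.l 32) (.l 32)) (.a (.l 32) (.l 32))) (.c (.b (.l 32) (.b (.l 32) (.l 32))) (.b (.l
      32) (.b (.l 32) (.l 32))))))))

theorem x_t1b_c1_u_f_C_h0 : chk3 (onCell 0 268435456 0 1073741824 0 34359739 C_t1b_c1_u_f) x_t1b_c1_u_f_C_t0 1 1 1 = true := by decide +kernel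

theorem x_t1b_c1_u_f_C : Tree 0 268435456 0 1073741824 0 34359739 C_t1b_c1_u_f :=
  ⟨_, x_t1b_c1_u_f_C_h0⟩

end Pool.Agent.Strip051.LC.E0.Ch
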