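import Pool.Agent.Strip051.LC.E0.Ch.Te

/-! # Small rests: certificate X_t2a_W_f_M_2 -/

set_option maxRecDepth 100000

namespace Pool.Agent.Strip051.LC.E0.Ch

open Pool.Agent.Strip051.PB

def x_t2a_W_f_M_t30 : T :=
  (.c (.b (.a (.c (.b (.a (.l 0) (.l 0)) (.l 13)) (.b (.a (.l 0) (.l 0)) (.l 13))) (.c (.b (.l 0)
      (.a (.l 0) (.l 0))) (.b (.l 0) (.a (.l 0) (.l 0))))) (.a (.l 13) (.c (.b (.a (.l 13) (.c
      (.l 0) (.l 0))) (.l 13)) (.b (.a (.l 13) (.c (.l 0) (.b (.l 0) (.l 0)))) (.l 13))))) (.b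
      (.a (.c (.b (.a (.l 0) (.l 0)) (.l 13)) (.b (.a (.l 0) (.l 0)) (.l 13))) (.c (.b (.l 0) (.a
      (.l 0) (.l 0))) (.b (.l 0) (.a (.l 0) (.l 0))))) (.a (.l 13) (.c (.b (.a (.l 13) (.c (.b
      (.l 0) (.l 0)) (.b (.l 0) (.l 0)))) (.l 13)) (.b (.a (.l 13) (.c (.b (.l 0) (.l 0)) (.b (.l
      0) (.l 0)))) (.l 13))))))

theorem x_t2a_W_f_M_h30 : chk3 (onCell 0 8589934592 0 8589934592 0 34359739 T_t2a_W_f) x_t2a_W_f_M_t30 70 70 6 = true := by decide +kernel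

def x_t2a_W_f_M_t31 : T :=
  (.c (.a (.b (.c (.l 0) (.l 0)) (.c (.b (.a (.l 0) (.l 0)) (.a (.c (.b (.l 0) (.l 0)) (.b (.l 0)
      (.l 0))) (.l 0))) (.b (.a (.l 0) (.l 0)) (.a (.c (.b (.l 0) (.l 13)) (.b (.l 0) (.l 13)))
      (.l 0))))) (.b (.l 0) (.a (.l 0) (.l 0)))) (.a (.b (.c (.l 0) (.b (.l 0) (.l 0))) (.c (.b
      (.a (.l 0) (.l 0)) (.a (.c (.b (.l 0) (.l 13)) (.b (.l 0) (.l 13))) (.l 0))) (.b (.a (.l 0)
      (.l 0)) (.a (.c (.b (.l 0) (.l 13)) (.b (.l 0) (.l 13))) (.l 0))))) (.b (.l 0) (.a (.l 0)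
      (.l 0)))))

theorem x_t2a_W_f_M_h31 : chk3 (onCell 0 8589934592 0 8589934592 0 34359739 T_t2a_W_f) x_t2a_W_f_M_t31 71 70 6 = true := by decide +kernel

def x_t2a_W_f_M_t32 : T :=
  (.a (.l 19) (.b (.l 13) (.l 19)))

theorem x_t2a_W_f_M_h32 : chk3 (onCell 0 8589934592 0 8589934592 0 34359739 T_t2a_W_f) x_t2a_W_f_M_t32 70 71 6 = true := by decide +kernel

def x_t2a_W_f_M_t33 : T :=
  (.b (.a (.c (.b (.a (.l 13) (.c (.b (.l 0) (.l 13)) (.b (.l 0) (.l 13)))) (.l 13)) (.b (.a (.l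
      13) (.c (.b (.l 0) (.l 13)) (.b (.l 0) (.l 13)))) (.l 13))) (.c (.a (.b (.l 0) (.c (.b (.l
      0) (.l 13)) (.b (.l 0) (.l 13)))) (.b (.l 0) (.l 0))) (.a (.b (.l 0) (.c (.b (.l 0) (.l
      13)) (.b (.l 0) (.l 13)))) (.b (.l 0) (.l 0))))) (.a (.l 13) (.c (.b (.a (.l 13) (.c (.a
      (.l 13) (.l 0)) (.a (.l 13) (.l 0)))) (.l 15)) (.b (.a (.l 13) (.c (.a (.l 13) (.l 0)) (.a
      (.l 13) (.l 0)))) (.l 15)))))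

theorem x_t2a_W_f_M_h33 : chk3 (onCell 0 8589934592 0 8589934592 0 34359739 T_t2a_W_f) x_t2a_W_f_M_t33 71 71 12 = true := by decide +kernel

def x_t2a_W_f_M_t34 : T :=
  (.b (.a (.c (.b (.a (.l 13) (.c (.b (.l 0) (.l 13)) (.b (.l 0) (.l 13)))) (.l 13)) (.b (.a (.l
      13) (.c (.b (.l 0) (.l 13)) (.b (.l 0) (.l 13)))) (.l 13))) (.c (.a (.b (.l 0) (.c (.b (.l
      0) (.l 13)) (.b (.l 0) (.l 13)))) (.b (.l 0) (.l 0))) (.a (.b (.l 0) (.c (.b (.l 0) (.l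
      13)) (.b (.l 0) (.l 13)))) (.b (.l 0) (.l 0))))) (.a (.l 13) (.c (.b (.a (.l 13) (.c (.a
      (.l 13) (.l 0)) (.a (.l 13) (.l 0)))) (.l 15)) (.b (.a (.l 13) (.c (.a (.l 13) (.l 0)) (.a
      (.l 13) (.l 0)))) (.l 15)))))

theorem x_t2a_W_f_M_h34 : chk3 (onCell 0 8589934592 0 8589934592 0 34359739 T_t2a_W_f) x_t2a_W_f_M_t34 71 71 13 = true := by decide +kernel

def x_t2a_W_f_M_t35 : T :=
  (.c (.b (.a (.c (.b (.a (.l 0) (.l 0)) (.l 13)) (.b (.a (.l 0) (.l 0)) (.l 13))) (.c (.b (.l 0)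
      (.a (.l 0) (.l 0))) (.b (.l 0) (.a (.l 0) (.l 0))))) (.a (.l 13) (.c (.b (.a (.l 13) (.c
      (.b (.l 0) (.l 0)) (.b (.l 0) (.l 0)))) (.l 13)) (.b (.a (.l 13) (.c (.b (.l 0) (.l 0)) (.b
      (.l 0) (.l 0)))) (.l 13))))) (.b (.a (.c (.b (.a (.l 0) (.l 0)) (.l 13)) (.b (.a (.l 0) (.l
      0)) (.l 13))) (.c (.b (.l 0) (.a (.l 0) (.l 0))) (.b (.l 0) (.a (.l 0) (.l 0))))) (.a (.l
      13) (.c (.b (.a (.l 13) (.c (.b (.l 0) (.l 0)) (.b (.l 0) (.l 0)))) (.l 13)) (.b (.a (.l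
      13) (.c (.b (.l 0) (.l 0)) (.b (.l 0) (.l 0)))) (.l 13))))))

theorem x_t2a_W_f_M_h35 : chk3 (onCell 0 8589934592 0 8589934592 0 34359739 T_t2a_W_f) x_t2a_W_f_M_t35 70 70 7 = true := by decide +kernel

def x_t2a_W_f_M_t36 : T :=
  (.c (.a (.b (.c (.b (.l 0) (.l 0)) (.b (.l 0) (.l 0))) (.c (.b (.a (.l 0) (.l 0)) (.a (.c (.b
      (.l 0) (.l 13)) (.b (.l 0) (.l 13))) (.l 0))) (.b (.a (.l 0) (.l 0)) (.a (.c (.b (.l 0) (.l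
      13)) (.b (.l 0) (.l 13))) (.l 0))))) (.b (.l 0) (.a (.l 0) (.l 0)))) (.a (.b (.c (.b (.l 0)
      (.l 0)) (.b (.l 0) (.l 0))) (.c (.b (.a (.l 0) (.l 0)) (.a (.c (.b (.l 0) (.l 13)) (.b (.l
      0) (.l 13))) (.l 0))) (.b (.a (.l 0) (.l 0)) (.a (.c (.b (.l 0) (.l 13)) (.b (.l 0) (.l
      13))) (.l 0))))) (.b (.l 0) (.a (.l 0) (.l 0)))))

theorem x_t2a_W_f_M_h36 : chk3 (onCell 0 8589934592 0 8589934592 0 34359739 T_t2a_W_f) x_t2a_W_f_M_t36 71 70 7 = true := by decide +kernel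

def x_t2a_W_f_M_t37 : T :=
  (.a (.l 19) (.b (.l 13) (.l 19)))

theorem x_t2a_W_f_M_h37 : chk3 (onCell 0 8589934592 0 8589934592 0 34359739 T_t2a_W_f) x_t2a_W_f_M_t37 70 71 7 = true := by decide +kernel

def x_t2a_W_f_M_t38 : T :=
  (.b (.a (.c (.b (.a (.l 13) (.c (.b (.l 0) (.l 13)) (.b (.l 0) (.l 13)))) (.l 13)) (.b (.a (.l
      13) (.c (.b (.l 0) (.l 13)) (.b (.l 0) (.l 13)))) (.l 13))) (.c (.a (.b (.l 0) (.c (.b (.l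
      0) (.l 13)) (.b (.l 0) (.l 13)))) (.b (.l 0) (.l 0))) (.a (.b (.l 0) (.c (.b (.l 0) (.l
      13)) (.b (.l 0) (.l 13)))) (.b (.l 0) (.l 0))))) (.a (.l 13) (.c (.b (.a (.l 13) (.c (.a
      (.l 13) (.l 0)) (.a (.l 13) (.l 0)))) (.l 15)) (.a (.l 13) (.b (.c (.a (.l 13) (.l 0)) (.a
      (.l 13) (.l 0))) (.l 15))))))

theorem x_t2a_W_f_M_h38 : chk3 (onCell 0 8589934592 0 8589934592 0 34359739 T_t2a_W_f) x_t2a_W_f_M_t38 71 71 14 = true := by decide +kernel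

def x_t2a_W_f_M_t39 : T :=
  (.b (.a (.c (.b (.a (.l 13) (.c (.b (.l 0) (.l 13)) (.b (.l 0) (.l 13)))) (.l 13)) (.b (.a (.l
      13) (.c (.b (.l 0) (.l 13)) (.b (.l 0) (.l 13)))) (.l 13))) (.c (.a (.b (.l 0) (.c (.b (.l
      0) (.l 13)) (.b (.l 0) (.l 13)))) (.b (.l 0) (.l 0))) (.a (.b (.l 0) (.c (.a (.l 13) (.l
      0)) (.a (.l 13) (.l 0)))) (.b (.l 0) (.l 0))))) (.a (.l 13) (.c (.a (.l 13) (.b (.c (.a (.l
      13) (.l 0)) (.a (.l 13) (.l 0))) (.l 15))) (.a (.l 13) (.b (.c (.a (.l 13) (.l 0)) (.a (.l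
      13) (.l 0))) (.l 15))))))

theorem x_t2a_W_f_M_h39 : chk3 (onCell 0 8589934592 0 8589934592 0 34359739 T_t2a_W_f) x_t2a_W_f_M_t39 71 71 15 = true := by decide +kernel

def x_t2a_W_f_M_t40 : T :=
  (.a (.l 19) (.b (.b (.a (.l 19) (.a (.l 19) (.a (.l 19) (.b (.c (.c (.b (.l 15) (.l 19)) (.b
      (.l 15) (.l 19))) (.c (.b (.l 15) (.l 19)) (.b (.c (.l 15) (.l 15)) (.l 19)))) (.l 19)))))
      (.l 19)) (.l 19)))

theorem x_t2a_W_f_M_h40 : chk3 (onCell 0 8589934592 0 8589934592 0 34359739 T_t2a_W_f) x_t2a_W_f_M_t40 8 9 1 = true := by decide +kernel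

def x_t2a_W_f_M_t41 : T :=
  (.b (.c (.b (.c (.b (.a (.b (.l 12) (.l 16)) (.b (.l 18) (.l 16))) (.l 16)) (.b (.a (.b (.l 12)
      (.l 16)) (.b (.l 18) (.l 16))) (.l 16))) (.l 16)) (.b (.c (.b (.a (.b (.l 12) (.l 16)) (.b
      (.l 18) (.l 16))) (.l 16)) (.b (.a (.b (.l 12) (.l 16)) (.b (.l 18) (.l 16))) (.l 16))) (.l
      16))) (.c (.l 32) (.l 32)))

theorem x_t2a_W_f_M_h41 : chk3 (onCell 0 8589934592 0 8589934592 0 34359739 T_t2a_W_f) x_t2a_W_f_M_t41 144 16 1 = true := by decide +kernel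

def x_t2a_W_f_M_t42 : T :=
  (.b (.a (.b (.l 0) (.l 0)) (.l 2)) (.a (.b (.l 0) (.c (.c (.b (.l 0) (.c (.b (.l 0) (.c (.a (.l
      15) (.l 0)) (.a (.l 15) (.l 0)))) (.b (.l 0) (.c (.a (.l 15) (.l 0)) (.a (.l 15) (.l
      0)))))) (.b (.l 0) (.c (.b (.l 0) (.c (.a (.l 15) (.l 0)) (.a (.l 15) (.l 0)))) (.b (.l 0)
      (.c (.a (.l 15) (.l 0)) (.a (.l 15) (.l 0))))))) (.c (.b (.l 0) (.c (.b (.l 0) (.c (.a (.l
      15) (.l 0)) (.a (.l 15) (.l 0)))) (.b (.l 0) (.c (.a (.l 15) (.l 0)) (.a (.l 15) (.l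
      0)))))) (.b (.l 0) (.c (.b (.l 0) (.c (.a (.l 15) (.l 0)) (.a (.l 15) (.l 0)))) (.b (.l 0)
      (.c (.a (.l 15) (.l 0)) (.a (.l 15) (.l 0))))))))) (.a (.c (.b (.l 0) (.l 2)) (.b (.l 0)
      (.l 2))) (.l 2))))

theorem x_t2a_W_f_M_h42 : chk3 (onCell 0 8589934592 0 8589934592 0 34359739 T_t2a_W_f) x_t2a_W_f_M_t42 144 17 2 = true := by decide +kernel

def x_t2a_W_f_M_t43 : T :=
  (.b (.a (.b (.l 0) (.l 0)) (.l 2)) (.a (.b (.l 0) (.c (.c (.b (.l 0) (.c (.b (.l 0) (.c (.a (.l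
      15) (.l 0)) (.a (.l 15) (.l 0)))) (.b (.l 0) (.c (.a (.l 15) (.l 0)) (.a (.l 15) (.l
      0)))))) (.b (.l 0) (.c (.b (.l 0) (.c (.a (.l 15) (.l 0)) (.a (.l 15) (.l 0)))) (.b (.l 0)
      (.c (.a (.l 15) (.l 0)) (.a (.l 15) (.l 0))))))) (.c (.b (.l 0) (.c (.b (.l 0) (.c (.a (.l
      15) (.l 0)) (.a (.l 15) (.l 0)))) (.b (.l 0) (.c (.a (.l 15) (.l 0)) (.a (.l 15) (.l
      0)))))) (.b (.l 0) (.c (.b (.l 0) (.c (.a (.l 15) (.l 0)) (.a (.l 15) (.l 0)))) (.b (.l 0)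
      (.c (.a (.l 15) (.l 0)) (.a (.l 15) (.l 0))))))))) (.a (.c (.b (.l 0) (.l 2)) (.b (.l 0)
      (.l 2))) (.l 2))))

theorem x_t2a_W_f_M_h43 : chk3 (onCell 0 8589934592 0 8589934592 0 34359739 T_t2a_W_f) x_t2a_W_f_M_t43 144 17 3 = true := by decide +kernel

def x_t2a_W_f_M_t44 : T :=
  (.b (.b (.b (.c (.a (.b (.l 18) (.l 16)) (.l 18)) (.a (.b (.l 18) (.l 16)) (.l 18))) (.l 16))
      (.a (.l 34) (.l 34))) (.a (.c (.a (.b (.l 0) (.l 2)) (.b (.l 0) (.l 2))) (.a (.b (.l 0) (.l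
      2)) (.b (.l 0) (.l 2)))) (.c (.l 2) (.a (.l 2) (.l 2)))))

theorem x_t2a_W_f_M_h44 : chk3 (onCell 0 8589934592 0 8589934592 0 34359739 T_t2a_W_f) x_t2a_W_f_M_t44 145 8 1 = true := by decide +kernel

def x_t2a_W_f_M_t45 : T :=
  (.a (.b (.b (.b (.l 18) (.l 18)) (.l 34)) (.a (.l 34) (.l 34))) (.b (.b (.l 18) (.l 34)) (.l
      34)))

theorem x_t2a_W_f_M_h45 : chk3 (onCell 0 8589934592 0 8589934592 0 34359739 T_t2a_W_f) x_t2a_W_f_M_t45 73 8 1 = true := by decide +kernel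

def x_t2a_W_f_M_t46 : T :=
  (.a (.b (.b (.l 18) (.l 34)) (.l 34)) (.b (.l 34) (.l 34)))

theorem x_t2a_W_f_M_h46 : chk3 (onCell 0 8589934592 0 8589934592 0 34359739 T_t2a_W_f) x_t2a_W_f_M_t46 37 8 1 = true := by decide +kernel

def x_t2a_W_f_M_t47 : T :=
  (.a (.b (.l 34) (.l 34)) (.b (.l 18) (.l 34)))

theorem x_t2a_W_f_M_h47 : chk3 (onCell 0 8589934592 0 8589934592 0 34359739 T_t2a_W_f) x_t2a_W_f_M_t47 19 8 1 = true := by decide +kernel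

def x_t2a_W_f_M_t48 : T :=
  (.a (.a (.a (.b (.b (.c (.a (.b (.c (.l 15) (.l 15)) (.l 19)) (.a (.b (.l 2) (.l 19)) (.c (.l
      2) (.l 2)))) (.a (.b (.c (.b (.l 15) (.l 19)) (.b (.l 15) (.l 19))) (.l 19)) (.a (.b (.l 2)
      (.l 19)) (.c (.a (.l 2) (.l 2)) (.a (.b (.l 2) (.l 19)) (.l 2)))))) (.l 19)) (.l 19)) (.a
      (.b (.a (.c (.b (.l 2) (.l 19)) (.b (.l 2) (.l 19))) (.c (.b (.l 2) (.l 19)) (.a (.b (.l 2)
      (.l 19)) (.b (.l 2) (.l 19))))) (.l 19)) (.a (.c (.b (.b (.l 2) (.l 19)) (.l 19)) (.b (.b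
      (.l 2) (.l 19)) (.l 19))) (.b (.b (.l 2) (.l 19)) (.l 19))))) (.a (.a (.b (.a (.b (.l 2)
      (.l 19)) (.b (.l 2) (.l 19))) (.l 19)) (.b (.b (.l 2) (.l 19)) (.l 19))) (.b (.a (.l 34)
      (.l 34)) (.l 19)))) (.a (.a (.b (.l 34) (.l 19)) (.b (.l 34) (.l 19))) (.b (.l 34) (.l 2))))

theorem x_t2a_W_f_M_h48 : chk3 (onCell 0 8589934592 0 8589934592 0 34359739 T_t2a_W_f) x_t2a_W_f_M_t48 18 9 1 = true := by decide +kernel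

def x_t2a_W_f_M_t49 : T :=
  (.a (.a (.b (.l 34) (.l 2)) (.b (.l 34) (.l 2))) (.b (.l 34) (.l 2)))

theorem x_t2a_W_f_M_h49 : chk3 (onCell 0 8589934592 0 8589934592 0 34359739 T_t2a_W_f) x_t2a_W_f_M_t49 19 9 1 = true := by decide +kernel

def x_t2a_W_f_M_t50 : T :=
  (.a (.b (.a (.b (.l 18) (.l 34)) (.l 34)) (.a (.b (.l 34) (.l 2)) (.l 34))) (.b (.b (.l 34) (.l
      2)) (.a (.l 34) (.l 34))))

theorem x_t2a_W_f_M_h50 : chk3 (onCell 0 8589934592 0 8589934592 0 34359739 T_t2a_W_f) x_t2a_W_f_M_t50 5 4 1 = true := by decide +kernel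

def x_t2a_W_f_M_t51 : T :=
  (.a (.a (.l 19) (.b (.a (.l 19) (.a (.l 19) (.b (.l 2) (.l 19)))) (.l 19))) (.a (.b (.a (.a (.b
      (.l 2) (.l 19)) (.l 34)) (.l 34)) (.l 99)) (.l 99)))

theorem x_t2a_W_f_M_h51 : chk3 (onCell 0 8589934592 0 8589934592 0 34359739 T_t2a_W_f) x_t2a_W_f_M_t51 2 5 1 = true := by decide +kernel

def x_t2a_W_f_M_t52 : T :=
  (.a (.b (.a (.b (.a (.l 34) (.l 34)) (.a (.l 2) (.l 34))) (.b (.l 34) (.a (.l 34) (.l 99))))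
      (.l 99)) (.b (.a (.b (.b (.l 34) (.l 34)) (.l 99)) (.b (.b (.l 18) (.l 99)) (.l 99))) (.l
      99)))

theorem x_t2a_W_f_M_h52 : chk3 (onCell 0 8589934592 0 8589934592 0 34359739 T_t2a_W_f) x_t2a_W_f_M_t52 3 2 1 = true := by decide +kernel

def x_t2a_W_f_M_t53 : T :=
  (.a (.l 99) (.l 99))

theorem x_t2a_W_f_M_h53 : chk3 (onCell 0 8589934592 0 8589934592 0 34359739 T_t2a_W_f) x_t2a_W_f_M_t53 1 3 1 = true := by decide +kernel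

end Pool.Agent.Strip051.LC.E0.Ch
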