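import Pool.Agent.Strip051.LC.E0.Ch.Cert.X_t2a_W_f_M_1
import Pool.Agent.Strip051.LC.E0.Ch.Cert.X_t2a_W_f_M_2

/-! # Small rests: certificate X_t2a_W_f_M -/

set_option maxRecDepth 100000

namespace Pool.Agent.Strip051.LC.E0.Ch

open Pool.Agent.Strip051.PB

theorem x_t2a_W_f_M : Tree 0 8589934592 0 8589934592 0 34359739 T_t2a_W_f :=
  ⟨_, (chk3_b (chk3_a (chk3_b (chk3_a (chk3_a (chk3_b (chk3_a (chk3_b (chk3_c (chk3_a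
      x_t2a_W_f_M_h0 (chk3_b x_t2a_W_f_M_h1 x_t2a_W_f_M_h2)) (chk3_a x_t2a_W_f_M_h3 (chk3_b
      x_t2a_W_f_M_h4 x_t2a_W_f_M_h5))) x_t2a_W_f_M_h6) (chk3_b (chk3_c (chk3_a x_t2a_W_f_M_h7
      x_t2a_W_f_M_h8) (chk3_b x_t2a_W_f_M_h9 x_t2a_W_f_M_h10)) (chk3_c (chk3_b (chk3_a (chk3_c
      x_t2a_W_f_M_h11 x_t2a_W_f_M_h12) x_t2a_W_f_M_h13) (chk3_a x_t2a_W_f_M_h14 (chk3_c (chk3_b
      (chk3_a x_t2a_W_f_M_h15 x_t2a_W_f_M_h16) (chk3_a x_t2a_W_f_M_h17 (chk3_c x_t2a_W_f_M_h18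
      x_t2a_W_f_M_h19))) (chk3_b (chk3_a x_t2a_W_f_M_h20 x_t2a_W_f_M_h21) (chk3_a x_t2a_W_f_M_h22
      (chk3_c x_t2a_W_f_M_h23 x_t2a_W_f_M_h24)))))) (chk3_b (chk3_a (chk3_c x_t2a_W_f_M_h25
      (chk3_b x_t2a_W_f_M_h26 x_t2a_W_f_M_h27)) x_t2a_W_f_M_h28) (chk3_a x_t2a_W_f_M_h29 (chk3_c
      (chk3_b (chk3_a x_t2a_W_f_M_h30 x_t2a_W_f_M_h31) (chk3_a x_t2a_W_f_M_h32 (chk3_c
      x_t2a_W_f_M_h33 x_t2a_W_f_M_h34))) (chk3_b (chk3_a x_t2a_W_f_M_h35 x_t2a_W_f_M_h36) (chk3_a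
      x_t2a_W_f_M_h37 (chk3_c x_t2a_W_f_M_h38 x_t2a_W_f_M_h39))))))))) x_t2a_W_f_M_h40) (chk3_b
      (chk3_a (chk3_a (chk3_a (chk3_a (chk3_b x_t2a_W_f_M_h41 (chk3_c x_t2a_W_f_M_h42
      x_t2a_W_f_M_h43)) x_t2a_W_f_M_h44) x_t2a_W_f_M_h45) x_t2a_W_f_M_h46) x_t2a_W_f_M_h47)
      (chk3_a x_t2a_W_f_M_h48 x_t2a_W_f_M_h49))) x_t2a_W_f_M_h50) x_t2a_W_f_M_h51)
      x_t2a_W_f_M_h52) x_t2a_W_f_M_h53)⟩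

end Pool.Agent.Strip051.LC.E0.Ch
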