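import Pool.Agent.Strip051.LC.E0.Ch.Te

/-! # Small rests: certificate X_t2a_W_n_M -/

set_option maxRecDepth 100000

namespace Pool.Agent.Strip051.LC.E0.Ch

open Pool.Agent.Strip051.PB

def x_t2a_W_n_M_t0 : T :=
  (.b (.c (.a (.b (.c (.a (.l 131) (.b (.b (.c (.b (.l 0) (.l 0)) (.b (.l 0) (.l 0))) (.l 0)) (.l
      0))) (.a (.l 131) (.b (.b (.c (.l 0) (.l 0)) (.l 0)) (.l 0)))) (.b (.a (.l 19) (.l 32)) (.l
      19))) (.b (.b (.a (.l 0) (.l 32)) (.c (.a (.l 0) (.l 0)) (.a (.l 0) (.l 0)))) (.b (.c (.a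
      (.l 0) (.l 0)) (.a (.l 0) (.l 0))) (.l 0)))) (.a (.b (.c (.a (.l 131) (.b (.b (.b (.l 0)
      (.l 0)) (.l 0)) (.l 0))) (.a (.l 131) (.b (.b (.b (.l 0) (.l 0)) (.l 0)) (.l 0)))) (.b (.a
      (.l 19) (.l 32)) (.l 19))) (.b (.b (.a (.l 0) (.l 32)) (.c (.a (.l 0) (.l 0)) (.a (.l 0)
      (.l 0)))) (.b (.c (.a (.l 0) (.l 0)) (.a (.l 0) (.l 0))) (.l 0))))) (.b (.a (.l 19) (.b (.c
      (.a (.l 19) (.l 0)) (.a (.l 19) (.l 0))) (.l 19))) (.l 19)))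

theorem x_t2a_W_n_M_h0 : chk3 (onCell 0 8589934592 0 8589934592 0 34359739 T_t2a_W_n) x_t2a_W_n_M_t0 16 8 1 = true := by decide +kernel

def x_t2a_W_n_M_t1 : T :=
  (.c (.a (.b (.c (.a (.l 32) (.b (.c (.l 16) (.l 16)) (.l 16))) (.a (.l 32) (.b (.c (.l 16) (.l
      16)) (.l 16)))) (.c (.a (.l 32) (.l 32)) (.a (.l 32) (.l 32)))) (.b (.c (.b (.a (.l 10) (.l
      12)) (.a (.l 16) (.c (.a (.l 16) (.l 16)) (.a (.l 16) (.l 16))))) (.b (.a (.l 10) (.l 12))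
      (.a (.l 16) (.c (.a (.l 16) (.l 16)) (.a (.l 16) (.l 16)))))) (.c (.a (.l 16) (.l 16)) (.a
      (.l 16) (.l 16))))) (.a (.b (.c (.a (.l 32) (.b (.c (.l 16) (.l 16)) (.l 16))) (.a (.l 32)
      (.b (.c (.l 16) (.l 16)) (.l 16)))) (.c (.a (.l 32) (.l 32)) (.a (.l 32) (.l 32)))) (.b (.c
      (.b (.a (.l 10) (.l 12)) (.a (.l 16) (.c (.a (.l 16) (.l 16)) (.a (.l 16) (.l 16))))) (.b
      (.a (.l 10) (.l 12)) (.a (.l 16) (.c (.a (.l 16) (.l 16)) (.a (.l 16) (.l 16)))))) (.c (.a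
      (.l 16) (.l 16)) (.a (.l 16) (.l 16))))))

theorem x_t2a_W_n_M_h1 : chk3 (onCell 0 8589934592 0 8589934592 0 34359739 T_t2a_W_n) x_t2a_W_n_M_t1 17 64 1 = true := by decide +kernel

def x_t2a_W_n_M_t2 : T :=
  (.c (.a (.c (.a (.l 0) (.l 32)) (.a (.l 0) (.l 32))) (.c (.b (.a (.l 32) (.l 16)) (.l 32)) (.b
      (.a (.l 32) (.l 16)) (.l 32)))) (.a (.c (.a (.l 0) (.l 32)) (.a (.l 0) (.l 32))) (.c (.b
      (.a (.l 32) (.l 16)) (.l 32)) (.b (.a (.l 32) (.l 16)) (.l 32)))))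

theorem x_t2a_W_n_M_h2 : chk3 (onCell 0 8589934592 0 8589934592 0 34359739 T_t2a_W_n) x_t2a_W_n_M_t2 17 65 1 = true := by decide +kernel

def x_t2a_W_n_M_t3 : T :=
  (.a (.c (.c (.a (.l 0) (.l 0)) (.a (.l 0) (.l 0))) (.c (.a (.l 0) (.l 0)) (.a (.l 0) (.l 0))))
      (.b (.c (.l 32) (.l 32)) (.l 0)))

theorem x_t2a_W_n_M_h3 : chk3 (onCell 0 8589934592 0 8589934592 0 34359739 T_t2a_W_n) x_t2a_W_n_M_t3 17 33 1 = true := by decide +kernel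

def x_t2a_W_n_M_t4 : T :=
  (.b (.c (.a (.b (.l 0) (.l 0)) (.a (.l 0) (.l 0))) (.b (.a (.l 0) (.l 0)) (.a (.l 0) (.l 0))))
      (.b (.c (.a (.l 0) (.l 0)) (.a (.l 0) (.l 0))) (.a (.l 19) (.l 0))))

theorem x_t2a_W_n_M_h4 : chk3 (onCell 0 8589934592 0 8589934592 0 34359739 T_t2a_W_n) x_t2a_W_n_M_t4 17 17 1 = true := by decide +kernel

def x_t2a_W_n_M_t5 : T :=
  (.a (.l 19) (.b (.c (.a (.l 19) (.b (.b (.l 0) (.l 19)) (.l 19))) (.a (.l 19) (.b (.a (.l 19)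
      (.l 0)) (.l 19)))) (.l 19)))

theorem x_t2a_W_n_M_h5 : chk3 (onCell 0 8589934592 0 8589934592 0 34359739 T_t2a_W_n) x_t2a_W_n_M_t5 8 9 1 = true := by decide +kernel

def x_t2a_W_n_M_t6 : T :=
  (.a (.a (.b (.a (.b (.b (.a (.c (.b (.c (.b (.l 12) (.a (.l 16) (.l 16))) (.b (.l 12) (.a (.l
      16) (.l 16)))) (.l 16)) (.b (.c (.b (.l 12) (.a (.l 16) (.l 16))) (.b (.l 12) (.a (.l 16)
      (.l 16)))) (.l 16))) (.b (.c (.l 18) (.l 18)) (.l 18))) (.a (.l 16) (.l 16))) (.a (.l 32)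
      (.l 32))) (.b (.a (.b (.l 18) (.l 16)) (.l 18)) (.a (.l 34) (.l 34)))) (.a (.a (.c (.b (.l
      0) (.l 0)) (.b (.l 0) (.l 0))) (.a (.b (.l 0) (.l 0)) (.l 34))) (.a (.l 34) (.l 34)))) (.b
      (.a (.b (.l 18) (.l 34)) (.l 34)) (.a (.l 34) (.l 34)))) (.a (.b (.l 34) (.l 34)) (.b (.l
      18) (.l 34))))

theorem x_t2a_W_n_M_h6 : chk3 (onCell 0 8589934592 0 8589934592 0 34359739 T_t2a_W_n) x_t2a_W_n_M_t6 9 8 1 = true := by decide +kernel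

def x_t2a_W_n_M_t7 : T :=
  (.a (.a (.a (.a (.b (.b (.l 0) (.l 19)) (.l 19)) (.a (.a (.b (.b (.l 0) (.l 19)) (.l 19)) (.c
      (.b (.b (.l 0) (.l 19)) (.l 19)) (.b (.b (.l 0) (.l 19)) (.l 19)))) (.b (.b (.l 0) (.l 19))
      (.l 19)))) (.a (.a (.b (.b (.l 0) (.l 19)) (.l 19)) (.b (.l 34) (.l 19))) (.b (.l 34) (.l
      19)))) (.a (.b (.l 34) (.l 19)) (.b (.l 34) (.l 2)))) (.a (.b (.l 34) (.l 2)) (.b (.l 34)
      (.l 2))))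

theorem x_t2a_W_n_M_h7 : chk3 (onCell 0 8589934592 0 8589934592 0 34359739 T_t2a_W_n) x_t2a_W_n_M_t7 9 9 1 = true := by decide +kernel

def x_t2a_W_n_M_t8 : T :=
  (.a (.b (.a (.b (.l 34) (.l 34)) (.l 34)) (.a (.b (.l 34) (.l 2)) (.l 34))) (.b (.b (.l 34) (.l
      2)) (.a (.l 34) (.l 34))))

theorem x_t2a_W_n_M_h8 : chk3 (onCell 0 8589934592 0 8589934592 0 34359739 T_t2a_W_n) x_t2a_W_n_M_t8 5 4 1 = true := by decide +kernel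

def x_t2a_W_n_M_t9 : T :=
  (.a (.a (.l 19) (.b (.a (.l 19) (.a (.l 19) (.b (.l 2) (.l 19)))) (.l 19))) (.a (.b (.a (.a (.b
      (.l 2) (.l 19)) (.l 34)) (.l 34)) (.l 99)) (.l 99)))

theorem x_t2a_W_n_M_h9 : chk3 (onCell 0 8589934592 0 8589934592 0 34359739 T_t2a_W_n) x_t2a_W_n_M_t9 2 5 1 = true := by decide +kernel

def x_t2a_W_n_M_t10 : T :=
  (.a (.b (.a (.b (.a (.l 34) (.l 34)) (.a (.l 2) (.l 34))) (.b (.l 34) (.a (.l 34) (.l 99))))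
      (.l 99)) (.b (.a (.b (.b (.l 34) (.l 34)) (.l 99)) (.b (.b (.l 18) (.l 99)) (.l 99))) (.l
      99)))

theorem x_t2a_W_n_M_h10 : chk3 (onCell 0 8589934592 0 8589934592 0 34359739 T_t2a_W_n) x_t2a_W_n_M_t10 3 2 1 = true := by decide +kernel

def x_t2a_W_n_M_t11 : T :=
  (.a (.l 99) (.l 99))

theorem x_t2a_W_n_M_h11 : chk3 (onCell 0 8589934592 0 8589934592 0 34359739 T_t2a_W_n) x_t2a_W_n_M_t11 1 3 1 = true := by decide +kernel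

theorem x_t2a_W_n_M : Tree 0 8589934592 0 8589934592 0 34359739 T_t2a_W_n :=
  ⟨_, (chk3_b (chk3_a (chk3_b (chk3_a (chk3_a (chk3_b (chk3_a x_t2a_W_n_M_h0 (chk3_b (chk3_b
      (chk3_b x_t2a_W_n_M_h1 x_t2a_W_n_M_h2) x_t2a_W_n_M_h3) x_t2a_W_n_M_h4)) x_t2a_W_n_M_h5)
      (chk3_b x_t2a_W_n_M_h6 x_t2a_W_n_M_h7)) x_t2a_W_n_M_h8) x_t2a_W_n_M_h9) x_t2a_W_n_M_h10)
      x_t2a_W_n_M_h11)⟩

end Pool.Agent.Strip051.LC.E0.Ch
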