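import Pool.Agent.Strip051.LC.E0.Ch.Te

/-! # Small rests: certificate X_t2a_c3_dd_n_M -/

set_option maxRecDepth 100000

namespace Pool.Agent.Strip051.LC.E0.Ch

open Pool.Agent.Strip051.PB

def x_t2a_c3_dd_n_M_t0 : T :=
  (.a (.b (.a (.a (.a (.l 20) (.l 20)) (.a (.a (.l 20) (.a (.l 22) (.l 22))) (.l 38))) (.a (.l
      38) (.c (.a (.l 38) (.l 38)) (.a (.a (.l 22) (.l 38)) (.a (.l 38) (.l 38)))))) (.a (.a (.a
      (.l 3) (.l 20)) (.a (.b (.a (.l 16) (.a (.l 16) (.l 18))) (.a (.l 16) (.l 16))) (.a (.l 38)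
      (.l 34)))) (.a (.a (.l 38) (.l 34)) (.c (.a (.l 34) (.l 34)) (.a (.l 34) (.b (.l 34) (.l
      34))))))) (.a (.b (.a (.a (.l 38) (.l 38)) (.c (.l 38) (.a (.l 38) (.l 67)))) (.c (.a (.l
      38) (.l 38)) (.a (.l 38) (.b (.c (.l 38) (.l 38)) (.a (.l 34) (.l 34)))))) (.l 67)))

theorem x_t2a_c3_dd_n_M_h0 : chk3 (onCell 0 6442450944 0 3758096384 0 34359739 T_t2a_c3_dd_n) x_t2a_c3_dd_n_M_t0 1 8 1 = true := by decide +kernel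

def x_t2a_c3_dd_n_M_t1 : T :=
  (.a (.a (.a (.l 3) (.b (.a (.c (.a (.l 16) (.l 16)) (.a (.l 16) (.l 16))) (.a (.a (.l 16) (.a
      (.l 18) (.l 18))) (.l 18))) (.a (.l 3) (.a (.a (.l 3) (.l 16)) (.a (.l 16) (.l 18)))))) (.a
      (.a (.a (.l 34) (.l 34)) (.l 34)) (.c (.b (.b (.a (.l 34) (.l 34)) (.l 34)) (.l 34)) (.a
      (.l 34) (.l 34))))) (.a (.a (.c (.b (.l 34) (.l 34)) (.a (.l 34) (.l 34))) (.c (.a (.l 34)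
      (.l 34)) (.a (.l 34) (.b (.l 34) (.l 34))))) (.b (.c (.l 67) (.l 67)) (.a (.c (.l 34) (.b
      (.l 67) (.l 34))) (.l 67)))))

theorem x_t2a_c3_dd_n_M_h1 : chk3 (onCell 0 6442450944 0 3758096384 0 34359739 T_t2a_c3_dd_n) x_t2a_c3_dd_n_M_t1 1 9 1 = true := by decide +kernel

def x_t2a_c3_dd_n_M_t2 : T :=
  (.a (.a (.l 3) (.a (.b (.a (.a (.b (.a (.l 3) (.l 18)) (.l 3)) (.a (.b (.l 18) (.l 3)) (.l
      18))) (.l 34)) (.l 3)) (.a (.a (.l 34) (.l 34)) (.l 34)))) (.a (.a (.c (.b (.l 34) (.l 2))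
      (.b (.a (.l 2) (.l 34)) (.l 2))) (.c (.b (.l 34) (.l 34)) (.b (.a (.l 34) (.l 34)) (.l
      34)))) (.a (.c (.b (.l 34) (.l 34)) (.b (.b (.l 34) (.l 34)) (.l 34))) (.l 67))))

theorem x_t2a_c3_dd_n_M_h2 : chk3 (onCell 0 6442450944 0 3758096384 0 34359739 T_t2a_c3_dd_n) x_t2a_c3_dd_n_M_t2 1 5 1 = true := by decide +kernel

def x_t2a_c3_dd_n_M_t3 : T :=
  (.a (.l 3) (.a (.b (.a (.a (.l 2) (.l 2)) (.b (.a (.l 2) (.l 34)) (.l 2))) (.l 3)) (.b (.a (.a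
      (.l 34) (.l 34)) (.c (.l 34) (.a (.l 34) (.l 34)))) (.a (.a (.l 34) (.l 34)) (.a (.l 34)
      (.l 34))))))

theorem x_t2a_c3_dd_n_M_h3 : chk3 (onCell 0 6442450944 0 3758096384 0 34359739 T_t2a_c3_dd_n) x_t2a_c3_dd_n_M_t3 1 3 1 = true := by decide +kernel

theorem x_t2a_c3_dd_n_M : Tree 0 6442450944 0 3758096384 0 34359739 T_t2a_c3_dd_n :=
  ⟨_, (chk3_b (chk3_b (chk3_b x_t2a_c3_dd_n_M_h0 x_t2a_c3_dd_n_M_h1) x_t2a_c3_dd_n_M_h2)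
      x_t2a_c3_dd_n_M_h3)⟩

end Pool.Agent.Strip051.LC.E0.Ch
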