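import Pool.Agent.Strip051.LC.E0.Ch.Te

/-! # Small rests: certificate X_t2a_c3_du_f_M_2 -/

set_option maxRecDepth 100000

namespace Pool.Agent.Strip051.LC.E0.Ch

open Pool.Agent.Strip051.PB

def x_t2a_c3_du_f_M_t44 : T :=
  (.b (.a (.l 19) (.b (.a (.l 19) (.c (.b (.a (.l 19) (.l 10)) (.l 19)) (.b (.a (.l 19) (.l 10))
      (.l 19)))) (.l 19))) (.l 19))

theorem x_t2a_c3_du_f_M_h44 : chk3 (onCell 0 6442450944 0 6442450944 0 34359739 T_t2a_c3_du_f) x_t2a_c3_du_f_M_t44 8 9 1 = true := by decide +kernel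

def x_t2a_c3_du_f_M_t45 : T :=
  (.a (.b (.c (.b (.c (.a (.l 32) (.l 32)) (.a (.l 32) (.l 32))) (.a (.l 0) (.l 0))) (.b (.c (.a
      (.l 32) (.l 32)) (.a (.l 32) (.l 32))) (.a (.l 0) (.l 0)))) (.c (.a (.b (.l 0) (.a (.b (.l
      0) (.c (.b (.l 0) (.l 0)) (.b (.l 0) (.a (.l 0) (.l 0))))) (.l 0))) (.a (.l 0) (.l 0))) (.a
      (.b (.l 0) (.a (.b (.l 0) (.c (.b (.l 0) (.a (.l 0) (.l 0))) (.b (.l 0) (.a (.l 0) (.l
      0))))) (.l 0))) (.a (.b (.l 0) (.l 0)) (.l 0))))) (.a (.a (.b (.l 34) (.l 0)) (.b (.l 34)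
      (.l 0))) (.b (.l 34) (.l 2))))

theorem x_t2a_c3_du_f_M_h45 : chk3 (onCell 0 6442450944 0 6442450944 0 34359739 T_t2a_c3_du_f) x_t2a_c3_du_f_M_t45 9 8 1 = true := by decide +kernel

def x_t2a_c3_du_f_M_t46 : T :=
  (.b (.a (.c (.b (.a (.l 10) (.l 0)) (.l 10)) (.b (.a (.l 10) (.l 0)) (.l 10))) (.c (.b (.l 0)
      (.a (.c (.l 0) (.l 0)) (.l 0))) (.b (.l 0) (.a (.c (.l 0) (.b (.l 0) (.l 0))) (.l 0)))))
      (.a (.l 10) (.c (.b (.a (.l 10) (.c (.b (.l 0) (.a (.l 0) (.l 0))) (.b (.l 0) (.a (.l 0)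
      (.l 0))))) (.l 10)) (.b (.a (.l 10) (.c (.b (.l 0) (.a (.l 0) (.l 0))) (.b (.l 0) (.a (.l
      0) (.l 0))))) (.l 10)))))

theorem x_t2a_c3_du_f_M_h46 : chk3 (onCell 0 6442450944 0 6442450944 0 34359739 T_t2a_c3_du_f) x_t2a_c3_du_f_M_t46 36 36 2 = true := by decide +kernel

def x_t2a_c3_du_f_M_t47 : T :=
  (.b (.a (.c (.b (.a (.l 10) (.l 0)) (.l 10)) (.b (.a (.l 10) (.c (.l 0) (.l 0))) (.l 10))) (.c
      (.b (.l 0) (.a (.c (.b (.l 0) (.l 0)) (.b (.l 0) (.l 0))) (.l 0))) (.a (.b (.l 0) (.c (.b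
      (.l 0) (.l 0)) (.b (.l 0) (.a (.l 0) (.l 0))))) (.l 0)))) (.a (.l 10) (.c (.b (.a (.l 10)
      (.c (.b (.l 0) (.a (.l 0) (.l 0))) (.b (.l 0) (.a (.l 0) (.l 0))))) (.l 10)) (.b (.a (.l
      10) (.c (.b (.l 0) (.a (.l 0) (.l 0))) (.b (.l 0) (.a (.l 0) (.l 0))))) (.l 10)))))

theorem x_t2a_c3_du_f_M_h47 : chk3 (onCell 0 6442450944 0 6442450944 0 34359739 T_t2a_c3_du_f) x_t2a_c3_du_f_M_t47 36 36 3 = true := by decide +kernel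

def x_t2a_c3_du_f_M_t48 : T :=
  (.a (.c (.b (.l 0) (.c (.a (.b (.l 0) (.c (.a (.b (.l 0) (.l 10)) (.l 0)) (.a (.b (.l 0) (.l
      10)) (.l 0)))) (.l 0)) (.a (.b (.l 0) (.c (.a (.b (.l 0) (.l 10)) (.l 0)) (.a (.b (.l 0)
      (.l 10)) (.l 0)))) (.l 0)))) (.b (.l 0) (.c (.a (.b (.l 0) (.c (.a (.b (.l 0) (.l 10)) (.l
      0)) (.a (.b (.l 0) (.l 10)) (.l 0)))) (.l 0)) (.a (.b (.l 0) (.c (.a (.b (.l 0) (.l 10))
      (.l 0)) (.a (.b (.l 0) (.l 10)) (.l 0)))) (.l 0))))) (.a (.l 0) (.l 0)))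

theorem x_t2a_c3_du_f_M_h48 : chk3 (onCell 0 6442450944 0 6442450944 0 34359739 T_t2a_c3_du_f) x_t2a_c3_du_f_M_t48 37 36 1 = true := by decide +kernel

def x_t2a_c3_du_f_M_t49 : T :=
  (.a (.l 10) (.a (.c (.b (.c (.b (.a (.l 10) (.c (.a (.b (.l 0) (.l 12)) (.l 0)) (.a (.b (.l 0)
      (.l 12)) (.l 0)))) (.l 12)) (.b (.a (.l 10) (.c (.a (.b (.l 0) (.l 12)) (.l 0)) (.a (.b (.l
      0) (.l 12)) (.l 0)))) (.l 12))) (.l 12)) (.b (.c (.a (.l 10) (.b (.c (.a (.b (.l 0) (.l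
      12)) (.l 0)) (.a (.b (.l 0) (.l 12)) (.l 0))) (.l 12))) (.a (.l 10) (.b (.c (.a (.b (.l 0)
      (.l 12)) (.l 0)) (.a (.b (.l 0) (.l 12)) (.l 0))) (.l 12)))) (.l 12))) (.a (.a (.c (.b (.l
      2) (.l 11)) (.b (.l 2) (.l 11))) (.l 2)) (.l 2))))

theorem x_t2a_c3_du_f_M_h49 : chk3 (onCell 0 6442450944 0 6442450944 0 34359739 T_t2a_c3_du_f) x_t2a_c3_du_f_M_t49 18 37 1 = true := by decide +kernel

def x_t2a_c3_du_f_M_t50 : T :=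
  (.b (.a (.l 19) (.a (.l 19) (.a (.l 19) (.a (.l 19) (.l 2))))) (.l 19))

theorem x_t2a_c3_du_f_M_h50 : chk3 (onCell 0 6442450944 0 6442450944 0 34359739 T_t2a_c3_du_f) x_t2a_c3_du_f_M_t50 18 19 1 = true := by decide +kernel

def x_t2a_c3_du_f_M_t51 : T :=
  (.a (.a (.a (.a (.a (.b (.l 2) (.b (.l 2) (.l 19))) (.c (.b (.l 2) (.l 2)) (.b (.l 2) (.l 2))))
      (.a (.c (.b (.l 2) (.l 2)) (.b (.l 2) (.l 2))) (.b (.l 2) (.l 2)))) (.a (.b (.l 2) (.l 2))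
      (.b (.l 2) (.l 2)))) (.a (.b (.l 2) (.l 2)) (.b (.l 2) (.l 2)))) (.a (.b (.l 2) (.l 2)) (.l
      34)))

theorem x_t2a_c3_du_f_M_h51 : chk3 (onCell 0 6442450944 0 6442450944 0 34359739 T_t2a_c3_du_f) x_t2a_c3_du_f_M_t51 19 9 1 = true := by decide +kernel

def x_t2a_c3_du_f_M_t52 : T :=
  (.a (.a (.b (.a (.l 34) (.l 34)) (.a (.l 34) (.l 34))) (.b (.l 34) (.l 34))) (.b (.l 34) (.l
      34)))

theorem x_t2a_c3_du_f_M_h52 : chk3 (onCell 0 6442450944 0 6442450944 0 34359739 T_t2a_c3_du_f) x_t2a_c3_du_f_M_t52 5 4 1 = true := by decide +kernel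

def x_t2a_c3_du_f_M_t53 : T :=
  (.a (.a (.l 19) (.b (.a (.l 19) (.a (.l 19) (.a (.l 19) (.a (.l 19) (.b (.l 2) (.l 19)))))) (.l
      19))) (.a (.a (.a (.b (.a (.b (.l 2) (.l 19)) (.l 34)) (.l 19)) (.b (.l 34) (.l 19))) (.b
      (.l 34) (.l 2))) (.a (.b (.l 34) (.l 99)) (.b (.l 34) (.l 99)))))

theorem x_t2a_c3_du_f_M_h53 : chk3 (onCell 0 6442450944 0 6442450944 0 34359739 T_t2a_c3_du_f) x_t2a_c3_du_f_M_t53 2 5 1 = true := by decide +kernel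

def x_t2a_c3_du_f_M_t54 : T :=
  (.a (.b (.a (.b (.l 2) (.l 2)) (.b (.l 2) (.l 2))) (.a (.b (.l 2) (.l 99)) (.l 99))) (.b (.a
      (.b (.l 34) (.l 2)) (.b (.l 34) (.l 99))) (.l 99)))

theorem x_t2a_c3_du_f_M_h54 : chk3 (onCell 0 6442450944 0 6442450944 0 34359739 T_t2a_c3_du_f) x_t2a_c3_du_f_M_t54 3 2 1 = true := by decide +kernel

def x_t2a_c3_du_f_M_t55 : T :=
  (.a (.a (.l 19) (.l 99)) (.l 99))

theorem x_t2a_c3_du_f_M_h55 : chk3 (onCell 0 6442450944 0 6442450944 0 34359739 T_t2a_c3_du_f) x_t2a_c3_du_f_M_t55 1 3 1 = true := by decide +kernel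

end Pool.Agent.Strip051.LC.E0.Ch
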