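import Pool.Agent.Strip051.LC.E0.Ch.Cert.X_t2a_c3_du_f_M_1
import Pool.Agent.Strip051.LC.E0.Ch.Cert.X_t2a_c3_du_f_M_2

/-! # Small rests: certificate X_t2a_c3_du_f_M -/

set_option maxRecDepth 100000

namespace Pool.Agent.Strip051.LC.E0.Ch

open Pool.Agent.Strip051.PB

theorem x_t2a_c3_du_f_M : Tree 0 6442450944 0 6442450944 0 34359739 T_t2a_c3_du_f :=
  ⟨_, (chk3_b (chk3_a (chk3_b (chk3_a (chk3_a (chk3_b (chk3_c (chk3_a (chk3_b (chk3_c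
      x_t2a_c3_du_f_M_h0 x_t2a_c3_du_f_M_h1) x_t2a_c3_du_f_M_h2) (chk3_b x_t2a_c3_du_f_M_h3
      (chk3_b (chk3_a (chk3_b (chk3_a (chk3_c x_t2a_c3_du_f_M_h4 x_t2a_c3_du_f_M_h5)
      x_t2a_c3_du_f_M_h6) (chk3_a x_t2a_c3_du_f_M_h7 (chk3_c x_t2a_c3_du_f_M_h8
      x_t2a_c3_du_f_M_h9))) x_t2a_c3_du_f_M_h10) (chk3_a x_t2a_c3_du_f_M_h11 (chk3_b (chk3_a
      (chk3_c x_t2a_c3_du_f_M_h12 x_t2a_c3_du_f_M_h13) x_t2a_c3_du_f_M_h14)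
      x_t2a_c3_du_f_M_h15))))) (chk3_a (chk3_b (chk3_c (chk3_a x_t2a_c3_du_f_M_h16 (chk3_b
      x_t2a_c3_du_f_M_h17 (chk3_a x_t2a_c3_du_f_M_h18 x_t2a_c3_du_f_M_h19))) (chk3_a
      x_t2a_c3_du_f_M_h20 (chk3_b x_t2a_c3_du_f_M_h21 (chk3_a x_t2a_c3_du_f_M_h22
      x_t2a_c3_du_f_M_h23)))) x_t2a_c3_du_f_M_h24) (chk3_b x_t2a_c3_du_f_M_h25 (chk3_b (chk3_a
      (chk3_b (chk3_a (chk3_c x_t2a_c3_du_f_M_h26 x_t2a_c3_du_f_M_h27) x_t2a_c3_du_f_M_h28)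
      (chk3_a x_t2a_c3_du_f_M_h29 (chk3_c x_t2a_c3_du_f_M_h30 (chk3_b x_t2a_c3_du_f_M_h31 (chk3_a
      x_t2a_c3_du_f_M_h32 x_t2a_c3_du_f_M_h33))))) x_t2a_c3_du_f_M_h34) (chk3_a
      x_t2a_c3_du_f_M_h35 (chk3_b (chk3_a (chk3_c (chk3_b x_t2a_c3_du_f_M_h36
      x_t2a_c3_du_f_M_h37) (chk3_b (chk3_a (chk3_c x_t2a_c3_du_f_M_h38 x_t2a_c3_du_f_M_h39)
      x_t2a_c3_du_f_M_h40) x_t2a_c3_du_f_M_h41)) x_t2a_c3_du_f_M_h42) x_t2a_c3_du_f_M_h43))))))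
      x_t2a_c3_du_f_M_h44) (chk3_b x_t2a_c3_du_f_M_h45 (chk3_a (chk3_b (chk3_b (chk3_a (chk3_c
      x_t2a_c3_du_f_M_h46 x_t2a_c3_du_f_M_h47) x_t2a_c3_du_f_M_h48) x_t2a_c3_du_f_M_h49)
      x_t2a_c3_du_f_M_h50) x_t2a_c3_du_f_M_h51))) x_t2a_c3_du_f_M_h52) x_t2a_c3_du_f_M_h53)
      x_t2a_c3_du_f_M_h54) x_t2a_c3_du_f_M_h55)⟩

end Pool.Agent.Strip051.LC.E0.Ch
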