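import Pool.Agent.Strip051.LC.E0.Ch.Te

/-! # Small rests: certificate X_t2a_c3_du_n_M -/

set_option maxRecDepth 100000

namespace Pool.Agent.Strip051.LC.E0.Ch

open Pool.Agent.Strip051.PB

def x_t2a_c3_du_n_M_t0 : T :=
  (.c (.a (.b (.c (.a (.l 131) (.b (.b (.l 32) (.l 32)) (.a (.l 0) (.l 0)))) (.a (.l 131) (.b (.b
      (.l 32) (.l 32)) (.a (.l 0) (.l 0))))) (.a (.l 19) (.b (.a (.l 19) (.c (.b (.l 0) (.l 19))
      (.b (.l 0) (.l 19)))) (.l 19)))) (.b (.b (.b (.a (.l 32) (.l 16)) (.l 32)) (.a (.l 0) (.l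
      0))) (.a (.b (.l 0) (.a (.l 19) (.l 0))) (.b (.l 0) (.l 0))))) (.a (.b (.c (.a (.l 131) (.b
      (.b (.l 32) (.l 32)) (.a (.l 0) (.l 0)))) (.a (.l 131) (.b (.b (.l 32) (.l 32)) (.a (.l 0)
      (.l 0))))) (.a (.l 19) (.b (.a (.l 19) (.c (.b (.l 0) (.l 19)) (.b (.l 0) (.l 19)))) (.l
      19)))) (.b (.b (.b (.a (.l 32) (.l 16)) (.l 32)) (.a (.l 0) (.l 0))) (.a (.b (.l 0) (.a (.l
      19) (.l 0))) (.b (.l 0) (.l 0))))))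

theorem x_t2a_c3_du_n_M_h0 : chk3 (onCell 0 6442450944 0 6442450944 0 34359739 T_t2a_c3_du_n) x_t2a_c3_du_n_M_t0 8 8 1 = true := by decide +kernel

def x_t2a_c3_du_n_M_t1 : T :=
  (.b (.a (.l 19) (.a (.l 19) (.b (.c (.a (.l 19) (.l 0)) (.a (.l 19) (.l 0))) (.l 19)))) (.l 19))

theorem x_t2a_c3_du_n_M_h1 : chk3 (onCell 0 6442450944 0 6442450944 0 34359739 T_t2a_c3_du_n) x_t2a_c3_du_n_M_t1 8 9 1 = true := by decide +kernel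

def x_t2a_c3_du_n_M_t2 : T :=
  (.b (.b (.a (.b (.b (.c (.b (.l 16) (.l 16)) (.b (.l 16) (.l 16))) (.l 32)) (.l 32)) (.a (.a
      (.l 34) (.l 34)) (.l 34))) (.a (.c (.a (.l 0) (.l 0)) (.a (.l 0) (.l 0))) (.a (.l 0) (.l
      34)))) (.a (.a (.b (.c (.b (.l 0) (.a (.l 19) (.l 0))) (.b (.l 0) (.a (.l 19) (.l 0)))) (.l
      19)) (.a (.b (.l 0) (.l 19)) (.a (.a (.c (.b (.l 0) (.l 19)) (.b (.l 0) (.l 19))) (.b (.l
      0) (.l 19))) (.b (.l 0) (.a (.l 19) (.a (.l 19) (.l 34))))))) (.a (.a (.a (.b (.l 0) (.l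
      34)) (.b (.l 0) (.l 34))) (.b (.l 0) (.l 34))) (.a (.b (.l 2) (.l 34)) (.l 34)))))

theorem x_t2a_c3_du_n_M_h2 : chk3 (onCell 0 6442450944 0 6442450944 0 34359739 T_t2a_c3_du_n) x_t2a_c3_du_n_M_t2 9 4 1 = true := by decide +kernel

def x_t2a_c3_du_n_M_t3 : T :=
  (.a (.a (.b (.a (.l 34) (.l 34)) (.a (.l 34) (.l 34))) (.b (.l 34) (.l 34))) (.b (.l 34) (.l
      34)))

theorem x_t2a_c3_du_n_M_h3 : chk3 (onCell 0 6442450944 0 6442450944 0 34359739 T_t2a_c3_du_n) x_t2a_c3_du_n_M_t3 5 4 1 = true := by decide +kernel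

def x_t2a_c3_du_n_M_t4 : T :=
  (.a (.a (.l 19) (.b (.a (.l 19) (.a (.l 19) (.a (.l 19) (.a (.l 19) (.b (.l 2) (.l 19)))))) (.l
      19))) (.a (.a (.a (.b (.a (.b (.l 2) (.l 19)) (.l 34)) (.l 19)) (.b (.l 34) (.l 19))) (.b
      (.l 34) (.l 2))) (.b (.l 34) (.l 99))))

theorem x_t2a_c3_du_n_M_h4 : chk3 (onCell 0 6442450944 0 6442450944 0 34359739 T_t2a_c3_du_n) x_t2a_c3_du_n_M_t4 2 5 1 = true := by decide +kernel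

def x_t2a_c3_du_n_M_t5 : T :=
  (.a (.b (.a (.b (.l 2) (.l 2)) (.b (.l 2) (.l 2))) (.a (.b (.l 2) (.l 99)) (.l 99))) (.b (.a
      (.b (.l 34) (.l 2)) (.b (.l 34) (.l 99))) (.l 99)))

theorem x_t2a_c3_du_n_M_h5 : chk3 (onCell 0 6442450944 0 6442450944 0 34359739 T_t2a_c3_du_n) x_t2a_c3_du_n_M_t5 3 2 1 = true := by decide +kernel

def x_t2a_c3_du_n_M_t6 : T :=
  (.a (.a (.l 19) (.l 99)) (.l 99))

theorem x_t2a_c3_du_n_M_h6 : chk3 (onCell 0 6442450944 0 6442450944 0 34359739 T_t2a_c3_du_n) x_t2a_c3_du_n_M_t6 1 3 1 = true := by decide +kernel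

theorem x_t2a_c3_du_n_M : Tree 0 6442450944 0 6442450944 0 34359739 T_t2a_c3_du_n :=
  ⟨_, (chk3_b (chk3_a (chk3_b (chk3_a (chk3_a (chk3_b x_t2a_c3_du_n_M_h0 x_t2a_c3_du_n_M_h1)
      x_t2a_c3_du_n_M_h2) x_t2a_c3_du_n_M_h3) x_t2a_c3_du_n_M_h4) x_t2a_c3_du_n_M_h5)
      x_t2a_c3_du_n_M_h6)⟩

end Pool.Agent.Strip051.LC.E0.Ch
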