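import Pool.Agent.Strip051.LC.E0.Ch.Te

/-! # Small rests: certificate X_t2a_c3_u1_f_M -/

set_option maxRecDepth 100000

namespace Pool.Agent.Strip051.LC.E0.Ch

open Pool.Agent.Strip051.PB

def x_t2a_c3_u1_f_M_t0 : T :=
  (.b (.c (.a (.b (.c (.a (.b (.l 131) (.l 32)) (.b (.b (.l 131) (.l 0)) (.l 32))) (.a (.b (.l
      131) (.l 32)) (.b (.b (.l 131) (.l 0)) (.l 32)))) (.b (.a (.l 16) (.l 32)) (.l 32))) (.b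
      (.b (.b (.b (.c (.l 0) (.l 0)) (.c (.a (.l 0) (.l 0)) (.a (.l 0) (.l 0)))) (.c (.l 0) (.l
      0))) (.l 0)) (.b (.l 32) (.l 32)))) (.a (.b (.c (.a (.b (.l 131) (.l 32)) (.b (.b (.l 131)
      (.l 0)) (.l 32))) (.a (.b (.l 131) (.l 32)) (.b (.b (.l 131) (.l 0)) (.l 32)))) (.b (.a (.l
      16) (.l 32)) (.l 32))) (.b (.b (.b (.b (.c (.a (.l 0) (.l 0)) (.a (.l 0) (.l 0))) (.c (.a
      (.l 0) (.l 0)) (.a (.l 0) (.l 0)))) (.b (.l 0) (.l 0))) (.l 0)) (.b (.l 32) (.l 32))))) (.b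
      (.b (.a (.l 32) (.l 32)) (.a (.l 32) (.l 32))) (.a (.l 32) (.l 32))))

theorem x_t2a_c3_u1_f_M_h0 : chk3 (onCell 0 6442450944 0 6442450944 0 34359739 T_t2a_c3_u1_f) x_t2a_c3_u1_f_M_t0 16 8 2 = true := by decide +kernel

def x_t2a_c3_u1_f_M_t1 : T :=
  (.b (.c (.a (.b (.c (.a (.l 0) (.l 0)) (.a (.l 0) (.b (.l 0) (.l 0)))) (.c (.a (.l 0) (.l 0))
      (.a (.l 0) (.l 0)))) (.b (.c (.a (.b (.l 0) (.l 0)) (.l 10)) (.a (.b (.c (.l 0) (.l 0)) (.l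
      0)) (.l 10))) (.c (.a (.l 0) (.l 0)) (.a (.l 0) (.l 0))))) (.a (.b (.c (.a (.l 0) (.b (.l
      0) (.l 0))) (.a (.l 0) (.b (.l 0) (.l 0)))) (.c (.a (.l 0) (.l 0)) (.a (.l 0) (.l 0)))) (.b
      (.c (.a (.b (.c (.l 0) (.l 0)) (.l 0)) (.l 10)) (.a (.b (.c (.l 0) (.a (.l 0) (.l 0))) (.l
      0)) (.l 10))) (.c (.a (.l 0) (.l 0)) (.a (.l 0) (.l 0)))))) (.c (.a (.b (.l 0) (.l 0)) (.b
      (.c (.l 0) (.l 0)) (.l 0))) (.a (.b (.l 0) (.l 0)) (.b (.c (.l 0) (.l 0)) (.l 0)))))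

theorem x_t2a_c3_u1_f_M_h1 : chk3 (onCell 0 6442450944 0 6442450944 0 34359739 T_t2a_c3_u1_f) x_t2a_c3_u1_f_M_t1 17 64 2 = true := by decide +kernel

def x_t2a_c3_u1_f_M_t2 : T :=
  (.b (.c (.a (.l 0) (.l 0)) (.a (.l 0) (.l 0))) (.c (.a (.l 0) (.l 0)) (.a (.l 0) (.l 0))))

theorem x_t2a_c3_u1_f_M_h2 : chk3 (onCell 0 6442450944 0 6442450944 0 34359739 T_t2a_c3_u1_f) x_t2a_c3_u1_f_M_t2 17 65 2 = true := by decide +kernel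

def x_t2a_c3_u1_f_M_t3 : T :=
  (.b (.a (.l 0) (.b (.l 0) (.l 0))) (.a (.l 0) (.l 0)))

theorem x_t2a_c3_u1_f_M_h3 : chk3 (onCell 0 6442450944 0 6442450944 0 34359739 T_t2a_c3_u1_f) x_t2a_c3_u1_f_M_t3 17 33 2 = true := by decide +kernel

def x_t2a_c3_u1_f_M_t4 : T :=
  (.a (.b (.b (.l 0) (.l 0)) (.b (.l 32) (.l 32))) (.b (.b (.l 0) (.a (.l 0) (.l 0))) (.a (.b (.l
      32) (.l 2)) (.l 2))))

theorem x_t2a_c3_u1_f_M_h4 : chk3 (onCell 0 6442450944 0 6442450944 0 34359739 T_t2a_c3_u1_f) x_t2a_c3_u1_f_M_t4 17 17 2 = true := by decide +kernel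

def x_t2a_c3_u1_f_M_t5 : T :=
  (.b (.c (.a (.b (.c (.a (.b (.l 131) (.l 32)) (.b (.b (.l 131) (.l 0)) (.l 32))) (.a (.b (.l
      131) (.l 32)) (.b (.b (.l 131) (.l 0)) (.l 32)))) (.b (.a (.l 16) (.l 32)) (.l 32))) (.b
      (.b (.b (.b (.c (.a (.l 0) (.l 0)) (.a (.l 0) (.l 0))) (.c (.a (.l 0) (.l 0)) (.a (.l 0)
      (.l 0)))) (.b (.l 0) (.l 0))) (.b (.l 0) (.l 0))) (.b (.l 32) (.l 32)))) (.a (.b (.c (.a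
      (.b (.l 131) (.l 32)) (.b (.b (.l 131) (.l 0)) (.l 32))) (.a (.b (.l 131) (.l 32)) (.b (.b
      (.l 131) (.l 0)) (.l 32)))) (.b (.a (.l 16) (.l 32)) (.l 32))) (.b (.b (.b (.b (.c (.a (.l
      0) (.l 0)) (.a (.l 0) (.l 0))) (.c (.a (.l 0) (.l 0)) (.a (.l 0) (.l 0)))) (.b (.l 0) (.l
      0))) (.b (.l 0) (.l 0))) (.b (.l 32) (.l 32))))) (.b (.b (.a (.l 32) (.l 32)) (.a (.l 32)
      (.l 32))) (.a (.l 32) (.l 32))))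

theorem x_t2a_c3_u1_f_M_h5 : chk3 (onCell 0 6442450944 0 6442450944 0 34359739 T_t2a_c3_u1_f) x_t2a_c3_u1_f_M_t5 16 8 3 = true := by decide +kernel

def x_t2a_c3_u1_f_M_t6 : T :=
  (.c (.a (.b (.c (.a (.l 0) (.b (.c (.l 0) (.l 0)) (.l 0))) (.a (.l 0) (.b (.c (.l 0) (.l 0))
      (.l 0)))) (.c (.a (.l 0) (.l 0)) (.a (.l 0) (.l 0)))) (.b (.c (.a (.b (.c (.a (.l 0) (.l
      0)) (.a (.l 0) (.l 0))) (.l 0)) (.l 10)) (.a (.b (.c (.a (.l 0) (.l 0)) (.a (.l 0) (.l 0)))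
      (.l 0)) (.l 10))) (.c (.a (.l 0) (.l 0)) (.a (.l 0) (.l 0))))) (.a (.b (.c (.a (.l 0) (.b
      (.c (.a (.l 0) (.l 0)) (.a (.l 0) (.l 0))) (.l 0))) (.a (.l 0) (.b (.c (.a (.l 0) (.l 0))
      (.a (.l 0) (.l 0))) (.l 0)))) (.c (.a (.l 0) (.l 0)) (.a (.l 0) (.l 0)))) (.b (.c (.a (.b
      (.c (.a (.l 0) (.l 0)) (.a (.l 0) (.l 0))) (.l 0)) (.l 10)) (.a (.b (.c (.a (.l 0) (.l 0))
      (.a (.l 0) (.l 0))) (.l 0)) (.l 10))) (.c (.a (.l 0) (.l 0)) (.a (.l 0) (.l 0))))))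

theorem x_t2a_c3_u1_f_M_h6 : chk3 (onCell 0 6442450944 0 6442450944 0 34359739 T_t2a_c3_u1_f) x_t2a_c3_u1_f_M_t6 17 128 3 = true := by decide +kernel

def x_t2a_c3_u1_f_M_t7 : T :=
  (.c (.a (.b (.l 0) (.l 0)) (.b (.c (.l 0) (.l 0)) (.l 0))) (.a (.b (.l 0) (.l 0)) (.b (.c (.l
      0) (.l 0)) (.l 0))))

theorem x_t2a_c3_u1_f_M_h7 : chk3 (onCell 0 6442450944 0 6442450944 0 34359739 T_t2a_c3_u1_f) x_t2a_c3_u1_f_M_t7 17 129 3 = true := by decide +kernel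

def x_t2a_c3_u1_f_M_t8 : T :=
  (.b (.c (.a (.l 0) (.l 0)) (.a (.l 0) (.l 0))) (.c (.a (.l 0) (.l 0)) (.a (.l 0) (.l 0))))

theorem x_t2a_c3_u1_f_M_h8 : chk3 (onCell 0 6442450944 0 6442450944 0 34359739 T_t2a_c3_u1_f) x_t2a_c3_u1_f_M_t8 17 65 3 = true := by decide +kernel

def x_t2a_c3_u1_f_M_t9 : T :=
  (.b (.b (.a (.l 0) (.l 0)) (.a (.l 0) (.l 0))) (.a (.l 0) (.b (.l 0) (.l 0))))

theorem x_t2a_c3_u1_f_M_h9 : chk3 (onCell 0 6442450944 0 6442450944 0 34359739 T_t2a_c3_u1_f) x_t2a_c3_u1_f_M_t9 17 33 3 = true := by decide +kernel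

def x_t2a_c3_u1_f_M_t10 : T :=
  (.a (.b (.b (.l 0) (.l 32)) (.b (.l 32) (.l 32))) (.b (.b (.a (.l 0) (.l 0)) (.a (.l 0) (.l
      32))) (.a (.b (.l 32) (.l 2)) (.l 2))))

theorem x_t2a_c3_u1_f_M_h10 : chk3 (onCell 0 6442450944 0 6442450944 0 34359739 T_t2a_c3_u1_f) x_t2a_c3_u1_f_M_t10 17 17 3 = true := by decide +kernel

def x_t2a_c3_u1_f_M_t11 : T :=
  (.a (.b (.a (.b (.c (.l 32) (.a (.l 16) (.l 16))) (.a (.l 32) (.b (.l 32) (.l 32)))) (.b (.a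
      (.l 32) (.b (.l 32) (.l 32))) (.a (.b (.l 32) (.l 34)) (.l 34)))) (.a (.b (.a (.b (.l 32)
      (.l 34)) (.l 34)) (.l 34)) (.b (.l 34) (.l 2)))) (.b (.a (.b (.a (.b (.l 32) (.l 34)) (.l
      34)) (.l 34)) (.b (.l 34) (.l 2))) (.a (.b (.l 2) (.l 2)) (.l 34))))

theorem x_t2a_c3_u1_f_M_h11 : chk3 (onCell 0 6442450944 0 6442450944 0 34359739 T_t2a_c3_u1_f) x_t2a_c3_u1_f_M_t11 8 9 1 = true := by decide +kernel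

def x_t2a_c3_u1_f_M_t12 : T :=
  (.b (.c (.b (.l 10) (.c (.b (.c (.a (.l 0) (.l 0)) (.a (.l 0) (.l 0))) (.c (.l 0) (.a (.l 0)
      (.l 0)))) (.b (.c (.a (.l 0) (.l 0)) (.a (.l 0) (.l 0))) (.c (.a (.l 0) (.l 0)) (.a (.l 0)
      (.l 0)))))) (.b (.l 10) (.c (.b (.c (.a (.l 0) (.l 0)) (.a (.l 0) (.l 0))) (.c (.a (.l 0)
      (.l 0)) (.a (.l 0) (.l 0)))) (.b (.c (.a (.l 0) (.l 0)) (.a (.l 0) (.l 0))) (.c (.a (.l 0)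
      (.l 0)) (.a (.l 0) (.l 0))))))) (.c (.b (.c (.b (.c (.l 0) (.l 0)) (.l 0)) (.b (.c (.l 0)
      (.l 0)) (.l 0))) (.c (.l 0) (.b (.l 0) (.l 0)))) (.b (.c (.b (.c (.a (.l 0) (.l 0)) (.a (.l
      0) (.l 0))) (.a (.l 0) (.l 0))) (.b (.c (.a (.l 0) (.l 0)) (.a (.l 0) (.l 0))) (.a (.l 0)
      (.l 0)))) (.c (.b (.l 0) (.l 0)) (.b (.l 0) (.l 0))))))

theorem x_t2a_c3_u1_f_M_h12 : chk3 (onCell 0 6442450944 0 6442450944 0 34359739 T_t2a_c3_u1_f) x_t2a_c3_u1_f_M_t12 36 32 1 = true := by decide +kernel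

def x_t2a_c3_u1_f_M_t13 : T :=
  (.b (.a (.b (.l 12) (.a (.c (.l 0) (.l 0)) (.b (.a (.l 0) (.l 0)) (.l 0)))) (.b (.a (.l 11) (.l
      2)) (.a (.l 2) (.l 2)))) (.a (.b (.a (.l 0) (.l 0)) (.a (.l 0) (.l 2))) (.b (.l 2) (.l 2))))

theorem x_t2a_c3_u1_f_M_h13 : chk3 (onCell 0 6442450944 0 6442450944 0 34359739 T_t2a_c3_u1_f) x_t2a_c3_u1_f_M_t13 37 32 1 = true := by decide +kernel

def x_t2a_c3_u1_f_M_t14 : T :=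
  (.a (.b (.a (.b (.l 0) (.l 0)) (.b (.l 0) (.l 0))) (.a (.b (.l 0) (.l 0)) (.b (.l 2) (.l 2))))
      (.b (.a (.b (.l 2) (.l 2)) (.l 2)) (.a (.l 2) (.l 2))))

theorem x_t2a_c3_u1_f_M_h14 : chk3 (onCell 0 6442450944 0 6442450944 0 34359739 T_t2a_c3_u1_f) x_t2a_c3_u1_f_M_t14 18 33 1 = true := by decide +kernel

def x_t2a_c3_u1_f_M_t15 : T :=
  (.a (.b (.a (.b (.l 34) (.l 2)) (.l 2)) (.l 2)) (.b (.l 2) (.l 2)))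

theorem x_t2a_c3_u1_f_M_h15 : chk3 (onCell 0 6442450944 0 6442450944 0 34359739 T_t2a_c3_u1_f) x_t2a_c3_u1_f_M_t15 18 17 1 = true := by decide +kernel

def x_t2a_c3_u1_f_M_t16 : T :=
  (.b (.a (.b (.b (.a (.b (.a (.l 2) (.l 2)) (.l 2)) (.l 2)) (.a (.l 2) (.l 2))) (.l 2)) (.b (.a
      (.l 2) (.l 2)) (.l 2))) (.a (.b (.l 2) (.l 2)) (.l 2)))

theorem x_t2a_c3_u1_f_M_h16 : chk3 (onCell 0 6442450944 0 6442450944 0 34359739 T_t2a_c3_u1_f) x_t2a_c3_u1_f_M_t16 19 8 1 = true := by decide +kernel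

def x_t2a_c3_u1_f_M_t17 : T :=
  (.a (.b (.a (.l 34) (.l 2)) (.l 34)) (.b (.l 34) (.l 2)))

theorem x_t2a_c3_u1_f_M_h17 : chk3 (onCell 0 6442450944 0 6442450944 0 34359739 T_t2a_c3_u1_f) x_t2a_c3_u1_f_M_t17 9 9 1 = true := by decide +kernel

def x_t2a_c3_u1_f_M_t18 : T :=
  (.a (.b (.a (.b (.a (.b (.l 2) (.l 2)) (.l 34)) (.a (.l 34) (.l 2))) (.b (.a (.l 34) (.l 2))
      (.l 2))) (.a (.b (.l 34) (.l 34)) (.b (.l 34) (.l 34)))) (.b (.a (.b (.l 2) (.l 34)) (.b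
      (.l 34) (.l 99))) (.l 99)))

theorem x_t2a_c3_u1_f_M_h18 : chk3 (onCell 0 6442450944 0 6442450944 0 34359739 T_t2a_c3_u1_f) x_t2a_c3_u1_f_M_t18 4 5 1 = true := by decide +kernel

def x_t2a_c3_u1_f_M_t19 : T :=
  (.b (.a (.b (.a (.b (.a (.b (.l 2) (.l 2)) (.l 2)) (.l 34)) (.b (.l 34) (.l 2))) (.a (.b (.l 2)
      (.l 99)) (.l 99))) (.l 99)) (.l 99))

theorem x_t2a_c3_u1_f_M_h19 : chk3 (onCell 0 6442450944 0 6442450944 0 34359739 T_t2a_c3_u1_f) x_t2a_c3_u1_f_M_t19 5 2 1 = true := by decide +kernel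

def x_t2a_c3_u1_f_M_t20 : T :=
  (.a (.b (.a (.b (.a (.b (.l 34) (.l 99)) (.l 99)) (.l 99)) (.l 99)) (.l 99)) (.l 99))

theorem x_t2a_c3_u1_f_M_h20 : chk3 (onCell 0 6442450944 0 6442450944 0 34359739 T_t2a_c3_u1_f) x_t2a_c3_u1_f_M_t20 2 3 1 = true := by decide +kernel

def x_t2a_c3_u1_f_M_t21 : T :=
  (.l 99)

theorem x_t2a_c3_u1_f_M_h21 : chk3 (onCell 0 6442450944 0 6442450944 0 34359739 T_t2a_c3_u1_f) x_t2a_c3_u1_f_M_t21 3 1 1 = true := by decide +kernel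

theorem x_t2a_c3_u1_f_M : Tree 0 6442450944 0 6442450944 0 34359739 T_t2a_c3_u1_f :=
  ⟨_, (chk3_a (chk3_b (chk3_a (chk3_b (chk3_a (chk3_b (chk3_c (chk3_a x_t2a_c3_u1_f_M_h0 (chk3_b
      (chk3_b (chk3_b x_t2a_c3_u1_f_M_h1 x_t2a_c3_u1_f_M_h2) x_t2a_c3_u1_f_M_h3)
      x_t2a_c3_u1_f_M_h4)) (chk3_a x_t2a_c3_u1_f_M_h5 (chk3_b (chk3_b (chk3_b (chk3_b
      x_t2a_c3_u1_f_M_h6 x_t2a_c3_u1_f_M_h7) x_t2a_c3_u1_f_M_h8) x_t2a_c3_u1_f_M_h9)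
      x_t2a_c3_u1_f_M_h10))) x_t2a_c3_u1_f_M_h11) (chk3_b (chk3_a (chk3_b (chk3_b (chk3_a
      x_t2a_c3_u1_f_M_h12 x_t2a_c3_u1_f_M_h13) x_t2a_c3_u1_f_M_h14) x_t2a_c3_u1_f_M_h15)
      x_t2a_c3_u1_f_M_h16) x_t2a_c3_u1_f_M_h17)) x_t2a_c3_u1_f_M_h18) x_t2a_c3_u1_f_M_h19)
      x_t2a_c3_u1_f_M_h20) x_t2a_c3_u1_f_M_h21)⟩

end Pool.Agent.Strip051.LC.E0.Ch
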