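import Pool.Agent.Strip051.LC.E0.Ch.Te

/-! # Small rests: certificate X_t2a_c3_u2_f_M -/

set_option maxRecDepth 100000

namespace Pool.Agent.Strip051.LC.E0.Ch

open Pool.Agent.Strip051.PB

def x_t2a_c3_u2_f_M_t0 : T :=
  (.a (.b (.c (.a (.b (.c (.a (.b (.l 131) (.l 115)) (.b (.l 0) (.l 115))) (.a (.b (.l 131) (.l
      115)) (.b (.l 0) (.l 115)))) (.l 115)) (.b (.b (.b (.l 0) (.l 115)) (.l 115)) (.l 115)))
      (.a (.b (.c (.a (.b (.l 131) (.l 115)) (.b (.l 0) (.l 115))) (.a (.b (.l 131) (.l 115)) (.b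
      (.l 0) (.l 115)))) (.l 115)) (.b (.b (.b (.b (.l 0) (.l 115)) (.l 115)) (.l 115)) (.l
      115)))) (.l 115)) (.b (.b (.b (.b (.c (.a (.b (.c (.a (.l 0) (.l 0)) (.a (.l 0) (.l 0)))
      (.l 115)) (.b (.c (.a (.l 0) (.l 0)) (.a (.l 0) (.l 0))) (.l 115))) (.a (.b (.c (.a (.l 0)
      (.l 0)) (.a (.l 0) (.l 0))) (.l 115)) (.b (.c (.a (.l 0) (.l 0)) (.a (.l 0) (.l 0))) (.l
      115)))) (.l 115)) (.l 115)) (.l 115)) (.l 115)))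

theorem x_t2a_c3_u2_f_M_h0 : chk3 (onCell 0 6442450944 0 6442450944 0 34359739 T_t2a_c3_u2_f) x_t2a_c3_u2_f_M_t0 8 8 2 = true := by decide +kernel

def x_t2a_c3_u2_f_M_t1 : T :=
  (.a (.b (.c (.a (.b (.c (.a (.b (.l 131) (.l 115)) (.b (.l 0) (.l 115))) (.a (.b (.l 131) (.l
      115)) (.b (.l 0) (.l 115)))) (.l 115)) (.b (.b (.b (.b (.l 0) (.l 115)) (.l 115)) (.l 115))
      (.l 115))) (.a (.b (.c (.a (.b (.l 131) (.l 115)) (.b (.b (.l 131) (.l 115)) (.l 115))) (.a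
      (.b (.l 131) (.l 115)) (.b (.b (.l 131) (.l 115)) (.l 115)))) (.l 115)) (.b (.b (.b (.b (.c
      (.l 0) (.l 0)) (.l 115)) (.l 115)) (.l 115)) (.l 115)))) (.l 115)) (.b (.b (.b (.b (.c (.a
      (.b (.c (.a (.l 0) (.l 0)) (.a (.l 0) (.l 0))) (.l 115)) (.b (.c (.a (.l 0) (.l 0)) (.a (.l
      0) (.l 0))) (.l 115))) (.a (.b (.c (.a (.l 0) (.l 0)) (.a (.l 0) (.l 0))) (.l 115)) (.b (.c
      (.a (.l 0) (.l 10)) (.a (.l 0) (.l 10))) (.l 0)))) (.l 115)) (.l 115)) (.l 115)) (.l 115)))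

theorem x_t2a_c3_u2_f_M_h1 : chk3 (onCell 0 6442450944 0 6442450944 0 34359739 T_t2a_c3_u2_f) x_t2a_c3_u2_f_M_t1 8 8 3 = true := by decide +kernel

def x_t2a_c3_u2_f_M_t2 : T :=
  (.l 115)

theorem x_t2a_c3_u2_f_M_h2 : chk3 (onCell 0 6442450944 0 6442450944 0 34359739 T_t2a_c3_u2_f) x_t2a_c3_u2_f_M_t2 8 9 1 = true := by decide +kernel

def x_t2a_c3_u2_f_M_t3 : T :=
  (.b (.a (.b (.b (.a (.b (.c (.b (.l 10) (.l 115)) (.b (.l 10) (.l 115))) (.l 115)) (.b (.a (.b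
      (.l 12) (.l 0)) (.b (.a (.l 11) (.l 2)) (.l 0))) (.l 115))) (.l 115)) (.l 115)) (.b (.a (.b
      (.b (.a (.l 2) (.l 2)) (.l 115)) (.l 115)) (.b (.l 2) (.l 115))) (.l 115))) (.l 115))

theorem x_t2a_c3_u2_f_M_h3 : chk3 (onCell 0 6442450944 0 6442450944 0 34359739 T_t2a_c3_u2_f) x_t2a_c3_u2_f_M_t3 9 4 1 = true := by decide +kernel

def x_t2a_c3_u2_f_M_t4 : T :=
  (.l 115)

theorem x_t2a_c3_u2_f_M_h4 : chk3 (onCell 0 6442450944 0 6442450944 0 34359739 T_t2a_c3_u2_f) x_t2a_c3_u2_f_M_t4 4 5 1 = true := by decide +kernel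

def x_t2a_c3_u2_f_M_t5 : T :=
  (.b (.a (.b (.a (.b (.a (.l 2) (.l 2)) (.l 115)) (.b (.l 34) (.l 115))) (.l 115)) (.l 99)) (.l
      99))

theorem x_t2a_c3_u2_f_M_h5 : chk3 (onCell 0 6442450944 0 6442450944 0 34359739 T_t2a_c3_u2_f) x_t2a_c3_u2_f_M_t5 5 2 1 = true := by decide +kernel

def x_t2a_c3_u2_f_M_t6 : T :=
  (.l 115)

theorem x_t2a_c3_u2_f_M_h6 : chk3 (onCell 0 6442450944 0 6442450944 0 34359739 T_t2a_c3_u2_f) x_t2a_c3_u2_f_M_t6 2 3 1 = true := by decide +kernel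

def x_t2a_c3_u2_f_M_t7 : T :=
  (.l 99)

theorem x_t2a_c3_u2_f_M_h7 : chk3 (onCell 0 6442450944 0 6442450944 0 34359739 T_t2a_c3_u2_f) x_t2a_c3_u2_f_M_t7 3 1 1 = true := by decide +kernel

theorem x_t2a_c3_u2_f_M : Tree 0 6442450944 0 6442450944 0 34359739 T_t2a_c3_u2_f :=
  ⟨_, (chk3_a (chk3_b (chk3_a (chk3_b (chk3_a (chk3_b (chk3_c x_t2a_c3_u2_f_M_h0
      x_t2a_c3_u2_f_M_h1) x_t2a_c3_u2_f_M_h2) x_t2a_c3_u2_f_M_h3) x_t2a_c3_u2_f_M_h4)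
      x_t2a_c3_u2_f_M_h5) x_t2a_c3_u2_f_M_h6) x_t2a_c3_u2_f_M_h7)⟩

end Pool.Agent.Strip051.LC.E0.Ch
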