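import Pool.Agent.Strip051.LC.E0.Ch.Te

/-! # Small rests: certificate X_t2a_c3_u2_n_M -/

set_option maxRecDepth 100000

namespace Pool.Agent.Strip051.LC.E0.Ch

open Pool.Agent.Strip051.PB

def x_t2a_c3_u2_n_M_t0 : T :=
  (.b (.c (.a (.b (.c (.a (.b (.c (.a (.b (.l 131) (.l 115)) (.l 32)) (.a (.b (.l 131) (.l 115))
      (.l 32))) (.l 115)) (.b (.l 32) (.l 115))) (.a (.b (.c (.a (.b (.l 131) (.l 115)) (.l 32))
      (.a (.b (.l 131) (.l 115)) (.l 32))) (.l 115)) (.b (.l 32) (.l 115)))) (.l 115)) (.b (.b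
      (.b (.a (.l 0) (.l 0)) (.l 115)) (.l 115)) (.l 115))) (.a (.b (.c (.a (.b (.c (.a (.b (.l
      131) (.l 115)) (.l 32)) (.a (.b (.l 131) (.l 115)) (.l 32))) (.l 115)) (.b (.l 32) (.l
      115))) (.a (.b (.c (.a (.b (.l 131) (.l 115)) (.l 32)) (.a (.b (.l 131) (.l 115)) (.l 32)))
      (.l 115)) (.b (.l 32) (.l 115)))) (.l 115)) (.b (.b (.b (.a (.l 0) (.l 0)) (.l 115)) (.l
      115)) (.l 115)))) (.l 115))

theorem x_t2a_c3_u2_n_M_h0 : chk3 (onCell 0 6442450944 0 6442450944 0 34359739 T_t2a_c3_u2_n) x_t2a_c3_u2_n_M_t0 8 4 1 = true := by decide +kernel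

def x_t2a_c3_u2_n_M_t1 : T :=
  (.b (.a (.b (.a (.b (.l 0) (.l 115)) (.b (.b (.l 0) (.l 115)) (.l 115))) (.l 115)) (.b (.a (.b
      (.a (.b (.l 0) (.l 115)) (.l 2)) (.l 115)) (.b (.l 2) (.l 115))) (.l 115))) (.l 115))

theorem x_t2a_c3_u2_n_M_h1 : chk3 (onCell 0 6442450944 0 6442450944 0 34359739 T_t2a_c3_u2_n) x_t2a_c3_u2_n_M_t1 9 4 1 = true := by decide +kernel

def x_t2a_c3_u2_n_M_t2 : T :=
  (.l 115)

theorem x_t2a_c3_u2_n_M_h2 : chk3 (onCell 0 6442450944 0 6442450944 0 34359739 T_t2a_c3_u2_n) x_t2a_c3_u2_n_M_t2 4 5 1 = true := by decide +kernel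

def x_t2a_c3_u2_n_M_t3 : T :=
  (.b (.a (.b (.a (.b (.a (.l 2) (.l 2)) (.l 115)) (.l 34)) (.l 115)) (.l 99)) (.l 99))

theorem x_t2a_c3_u2_n_M_h3 : chk3 (onCell 0 6442450944 0 6442450944 0 34359739 T_t2a_c3_u2_n) x_t2a_c3_u2_n_M_t3 5 2 1 = true := by decide +kernel

def x_t2a_c3_u2_n_M_t4 : T :=
  (.l 115)

theorem x_t2a_c3_u2_n_M_h4 : chk3 (onCell 0 6442450944 0 6442450944 0 34359739 T_t2a_c3_u2_n) x_t2a_c3_u2_n_M_t4 2 3 1 = true := by decide +kernel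

def x_t2a_c3_u2_n_M_t5 : T :=
  (.l 99)

theorem x_t2a_c3_u2_n_M_h5 : chk3 (onCell 0 6442450944 0 6442450944 0 34359739 T_t2a_c3_u2_n) x_t2a_c3_u2_n_M_t5 3 1 1 = true := by decide +kernel

theorem x_t2a_c3_u2_n_M : Tree 0 6442450944 0 6442450944 0 34359739 T_t2a_c3_u2_n :=
  ⟨_, (chk3_a (chk3_b (chk3_a (chk3_b (chk3_a x_t2a_c3_u2_n_M_h0 x_t2a_c3_u2_n_M_h1)
      x_t2a_c3_u2_n_M_h2) x_t2a_c3_u2_n_M_h3) x_t2a_c3_u2_n_M_h4) x_t2a_c3_u2_n_M_h5)⟩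

end Pool.Agent.Strip051.LC.E0.Ch
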