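import Pool.Agent.Strip051.LC.E0.Ch.Cert.X_t2b_W_d_f_M_1
import Pool.Agent.Strip051.LC.E0.Ch.Cert.X_t2b_W_d_f_M_2

/-! # Small rests: certificate X_t2b_W_d_f_M -/

set_option maxRecDepth 100000

namespace Pool.Agent.Strip051.LC.E0.Ch

open Pool.Agent.Strip051.PB

theorem x_t2b_W_d_f_M : Tree 0 8589934592 0 8589934592 0 34359739 T_t2b_W_d_f :=
  ⟨_, (chk3_b (chk3_a (chk3_b (chk3_a (chk3_a (chk3_b (chk3_a (chk3_b (chk3_c (chk3_a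
      x_t2b_W_d_f_M_h0 (chk3_b x_t2b_W_d_f_M_h1 x_t2b_W_d_f_M_h2)) (chk3_a x_t2b_W_d_f_M_h3
      (chk3_b x_t2b_W_d_f_M_h4 x_t2b_W_d_f_M_h5))) x_t2b_W_d_f_M_h6) (chk3_b (chk3_c (chk3_a
      x_t2b_W_d_f_M_h7 x_t2b_W_d_f_M_h8) (chk3_b x_t2b_W_d_f_M_h9 x_t2b_W_d_f_M_h10)) (chk3_c
      (chk3_b (chk3_a (chk3_c x_t2b_W_d_f_M_h11 x_t2b_W_d_f_M_h12) x_t2b_W_d_f_M_h13) (chk3_a
      x_t2b_W_d_f_M_h14 (chk3_c (chk3_b (chk3_a x_t2b_W_d_f_M_h15 x_t2b_W_d_f_M_h16) (chk3_a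
      x_t2b_W_d_f_M_h17 (chk3_c x_t2b_W_d_f_M_h18 x_t2b_W_d_f_M_h19))) (chk3_b x_t2b_W_d_f_M_h20
      (chk3_a x_t2b_W_d_f_M_h21 (chk3_c x_t2b_W_d_f_M_h22 x_t2b_W_d_f_M_h23)))))) (chk3_b (chk3_a
      (chk3_c x_t2b_W_d_f_M_h24 x_t2b_W_d_f_M_h25) x_t2b_W_d_f_M_h26) (chk3_a x_t2b_W_d_f_M_h27
      (chk3_c (chk3_b x_t2b_W_d_f_M_h28 (chk3_a x_t2b_W_d_f_M_h29 (chk3_c x_t2b_W_d_f_M_h30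
      x_t2b_W_d_f_M_h31))) (chk3_b x_t2b_W_d_f_M_h32 x_t2b_W_d_f_M_h33))))))) x_t2b_W_d_f_M_h34)
      (chk3_b (chk3_a (chk3_a (chk3_a (chk3_a (chk3_b x_t2b_W_d_f_M_h35 (chk3_c x_t2b_W_d_f_M_h36
      x_t2b_W_d_f_M_h37)) x_t2b_W_d_f_M_h38) x_t2b_W_d_f_M_h39) x_t2b_W_d_f_M_h40)
      x_t2b_W_d_f_M_h41) (chk3_a x_t2b_W_d_f_M_h42 x_t2b_W_d_f_M_h43))) x_t2b_W_d_f_M_h44)
      x_t2b_W_d_f_M_h45) x_t2b_W_d_f_M_h46) x_t2b_W_d_f_M_h47)⟩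

end Pool.Agent.Strip051.LC.E0.Ch
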