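import Pool.Agent.Strip051.LC.E0.Ch.Te

/-! # Small rests: certificate X_t2b_W_u_n_M -/

set_option maxRecDepth 100000

namespace Pool.Agent.Strip051.LC.E0.Ch

open Pool.Agent.Strip051.PB

def x_t2b_W_u_n_M_t0 : T :=
  (.b (.a (.b (.a (.b (.c (.a (.b (.c (.a (.b (.c (.a (.l 131) (.l 0)) (.a (.l 131) (.l 0))) (.l
      115)) (.l 0)) (.a (.b (.c (.a (.l 131) (.l 0)) (.a (.l 131) (.l 0))) (.l 115)) (.l 0))) (.l
      115)) (.b (.b (.l 0) (.l 115)) (.l 115))) (.a (.b (.c (.a (.b (.c (.a (.l 131) (.l 0)) (.a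
      (.l 131) (.l 0))) (.l 115)) (.l 0)) (.a (.b (.c (.a (.l 131) (.l 0)) (.a (.l 131) (.l 0)))
      (.l 115)) (.l 32))) (.l 115)) (.b (.b (.l 0) (.l 115)) (.l 115)))) (.l 115)) (.a (.b (.b
      (.b (.l 0) (.l 115)) (.l 115)) (.l 115)) (.b (.b (.b (.l 0) (.l 115)) (.l 115)) (.l 115))))
      (.l 115)) (.b (.a (.b (.a (.b (.a (.b (.l 0) (.l 115)) (.b (.l 0) (.l 115))) (.l 115)) (.b
      (.a (.l 2) (.l 2)) (.l 115))) (.l 115)) (.b (.a (.b (.l 2) (.l 115)) (.l 34)) (.l 115)))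
      (.l 115))) (.l 115))

theorem x_t2b_W_u_n_M_h0 : chk3 (onCell 0 8589934592 0 8589934592 0 34359739 T_t2b_W_u_n) x_t2b_W_u_n_M_t0 4 2 1 = true := by decide +kernel

def x_t2b_W_u_n_M_t1 : T :=
  (.b (.a (.b (.a (.b (.l 34) (.l 99)) (.l 99)) (.l 99)) (.l 99)) (.l 99))

theorem x_t2b_W_u_n_M_h1 : chk3 (onCell 0 8589934592 0 8589934592 0 34359739 T_t2b_W_u_n) x_t2b_W_u_n_M_t1 5 2 1 = true := by decide +kernel

def x_t2b_W_u_n_M_t2 : T :=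
  (.a (.l 99) (.b (.l 99) (.a (.l 99) (.l 83))))

theorem x_t2b_W_u_n_M_h2 : chk3 (onCell 0 8589934592 0 8589934592 0 34359739 T_t2b_W_u_n) x_t2b_W_u_n_M_t2 2 3 1 = true := by decide +kernel

def x_t2b_W_u_n_M_t3 : T :=
  (.b (.a (.l 99) (.b (.l 99) (.a (.l 99) (.l 83)))) (.a (.b (.a (.l 99) (.l 83)) (.l 83)) (.l
      83)))

theorem x_t2b_W_u_n_M_h3 : chk3 (onCell 0 8589934592 0 8589934592 0 34359739 T_t2b_W_u_n) x_t2b_W_u_n_M_t3 3 1 1 = true := by decide +kernel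

theorem x_t2b_W_u_n_M : Tree 0 8589934592 0 8589934592 0 34359739 T_t2b_W_u_n :=
  ⟨_, (chk3_a (chk3_b (chk3_a x_t2b_W_u_n_M_h0 x_t2b_W_u_n_M_h1) x_t2b_W_u_n_M_h2)
      x_t2b_W_u_n_M_h3)⟩

end Pool.Agent.Strip051.LC.E0.Ch
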