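import Pool.Agent.Strip051.LC.E0.Ch.Te

/-! # Small rests: certificate X_t2b_c1_dd_f_M -/

set_option maxRecDepth 100000

namespace Pool.Agent.Strip051.LC.E0.Ch

open Pool.Agent.Strip051.PB

def x_t2b_c1_dd_f_M_t0 : T :=
  (.a (.c (.a (.b (.l 5) (.l 3)) (.b (.l 36) (.a (.l 33) (.l 36)))) (.a (.b (.l 5) (.l 3)) (.b
      (.l 36) (.a (.l 4) (.l 36))))) (.a (.a (.l 36) (.b (.l 20) (.l 20))) (.b (.c (.b (.a (.l
      20) (.l 20)) (.c (.a (.l 20) (.l 20)) (.a (.l 20) (.l 20)))) (.b (.a (.l 20) (.l 20)) (.a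
      (.l 20) (.l 20)))) (.c (.c (.a (.l 20) (.l 20)) (.a (.l 20) (.l 20))) (.c (.a (.l 20) (.l
      20)) (.a (.l 20) (.l 20)))))))

theorem x_t2b_c1_dd_f_M_h0 : chk3 (onCell 0 6442450944 0 3758096384 0 34359739 T_t2b_c1_dd_f) x_t2b_c1_dd_f_M_t0 8 16 2 = true := by decide +kernel

def x_t2b_c1_dd_f_M_t1 : T :=
  (.a (.c (.a (.b (.l 5) (.l 3)) (.b (.l 36) (.a (.l 4) (.l 36)))) (.a (.b (.a (.l 5) (.l 4)) (.l
      3)) (.b (.l 36) (.a (.l 4) (.l 36))))) (.a (.a (.l 36) (.b (.l 20) (.l 20))) (.b (.c (.b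
      (.a (.l 20) (.l 20)) (.a (.l 20) (.l 20))) (.b (.a (.l 20) (.l 20)) (.a (.l 20) (.l 20))))
      (.c (.c (.a (.l 20) (.l 20)) (.a (.l 20) (.l 20))) (.c (.a (.l 20) (.l 20)) (.a (.l 20) (.l
      20)))))))

theorem x_t2b_c1_dd_f_M_h1 : chk3 (onCell 0 6442450944 0 3758096384 0 34359739 T_t2b_c1_dd_f) x_t2b_c1_dd_f_M_t1 8 16 3 = true := by decide +kernel

def x_t2b_c1_dd_f_M_t2 : T :=
  (.a (.a (.a (.b (.l 20) (.c (.c (.c (.a (.b (.l 20) (.l 20)) (.l 20)) (.a (.b (.l 20) (.l 20))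
      (.l 20))) (.c (.a (.b (.l 20) (.l 20)) (.l 20)) (.a (.b (.l 20) (.l 20)) (.l 20)))) (.c (.c
      (.a (.b (.l 20) (.l 20)) (.l 20)) (.a (.b (.l 20) (.l 20)) (.l 20))) (.c (.a (.l 20) (.l
      20)) (.a (.l 20) (.l 20)))))) (.b (.l 20) (.c (.l 20) (.l 20)))) (.a (.b (.l 22) (.l 22))
      (.l 22))) (.a (.l 22) (.l 22)))

theorem x_t2b_c1_dd_f_M_h2 : chk3 (onCell 0 6442450944 0 3758096384 0 34359739 T_t2b_c1_dd_f) x_t2b_c1_dd_f_M_t2 9 16 1 = true := by decide +kernel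

def x_t2b_c1_dd_f_M_t3 : T :=
  (.a (.a (.l 22) (.l 22)) (.c (.a (.a (.l 22) (.l 38)) (.l 38)) (.a (.a (.l 22) (.l 38)) (.a (.l
      38) (.l 38)))))

theorem x_t2b_c1_dd_f_M_h3 : chk3 (onCell 0 6442450944 0 3758096384 0 34359739 T_t2b_c1_dd_f) x_t2b_c1_dd_f_M_t3 5 16 1 = true := by decide +kernel

def x_t2b_c1_dd_f_M_t4 : T :=
  (.c (.a (.l 3) (.c (.a (.a (.b (.l 36) (.l 3)) (.l 36)) (.b (.a (.l 20) (.c (.a (.l 20) (.l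
      20)) (.l 20))) (.a (.l 36) (.c (.a (.l 20) (.l 20)) (.a (.l 20) (.l 20)))))) (.b (.a (.a
      (.l 36) (.l 36)) (.a (.l 20) (.c (.l 20) (.l 20)))) (.a (.l 3) (.a (.l 36) (.c (.a (.l 20)
      (.l 20)) (.a (.l 20) (.l 20)))))))) (.a (.l 3) (.c (.b (.a (.a (.l 36) (.l 36)) (.a (.l 20)
      (.c (.l 20) (.l 20)))) (.a (.l 3) (.a (.l 36) (.c (.a (.l 20) (.l 20)) (.a (.l 20) (.l
      20)))))) (.b (.a (.a (.l 36) (.l 36)) (.a (.l 20) (.l 20))) (.a (.l 3) (.a (.l 36) (.c (.a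
      (.l 20) (.l 20)) (.a (.l 20) (.l 20)))))))))

theorem x_t2b_c1_dd_f_M_h4 : chk3 (onCell 0 6442450944 0 3758096384 0 34359739 T_t2b_c1_dd_f) x_t2b_c1_dd_f_M_t4 8 17 1 = true := by decide +kernel

def x_t2b_c1_dd_f_M_t5 : T :=
  (.c (.a (.c (.b (.c (.a (.l 16) (.l 20)) (.a (.l 16) (.l 20))) (.l 20)) (.b (.c (.a (.l 16) (.l
      20)) (.a (.l 16) (.l 20))) (.l 20))) (.a (.c (.b (.l 16) (.c (.b (.l 20) (.l 20)) (.b (.l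
      20) (.l 20)))) (.b (.l 16) (.c (.b (.l 20) (.l 20)) (.b (.l 20) (.l 20))))) (.l 20))) (.a
      (.c (.b (.c (.a (.l 16) (.l 20)) (.a (.l 16) (.l 20))) (.l 20)) (.b (.c (.a (.l 16) (.l
      20)) (.a (.l 16) (.l 20))) (.l 20))) (.a (.c (.b (.l 16) (.c (.b (.l 20) (.l 20)) (.b (.l
      16) (.l 20)))) (.b (.l 16) (.c (.b (.l 16) (.l 20)) (.b (.l 16) (.l 20))))) (.l 20))))

theorem x_t2b_c1_dd_f_M_h5 : chk3 (onCell 0 6442450944 0 3758096384 0 34359739 T_t2b_c1_dd_f) x_t2b_c1_dd_f_M_t5 36 34 2 = true := by decide +kernel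

def x_t2b_c1_dd_f_M_t6 : T :=
  (.c (.a (.c (.b (.c (.a (.l 16) (.l 20)) (.a (.l 16) (.l 20))) (.l 20)) (.b (.c (.a (.l 16) (.l
      20)) (.a (.l 16) (.l 20))) (.l 20))) (.a (.b (.l 16) (.c (.c (.b (.l 16) (.l 20)) (.b (.l
      16) (.l 20))) (.c (.b (.l 16) (.l 20)) (.b (.l 16) (.l 20))))) (.l 20))) (.a (.c (.b (.c
      (.a (.l 16) (.l 20)) (.a (.l 16) (.l 20))) (.l 20)) (.b (.c (.a (.l 16) (.l 20)) (.a (.l
      16) (.l 20))) (.l 20))) (.a (.b (.l 16) (.c (.c (.b (.l 16) (.l 20)) (.b (.l 16) (.l 20)))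
      (.c (.b (.l 16) (.l 20)) (.b (.l 16) (.l 20))))) (.l 20))))

theorem x_t2b_c1_dd_f_M_h6 : chk3 (onCell 0 6442450944 0 3758096384 0 34359739 T_t2b_c1_dd_f) x_t2b_c1_dd_f_M_t6 36 34 3 = true := by decide +kernel

def x_t2b_c1_dd_f_M_t7 : T :=
  (.a (.a (.c (.l 20) (.l 20)) (.l 18)) (.l 18))

theorem x_t2b_c1_dd_f_M_h7 : chk3 (onCell 0 6442450944 0 3758096384 0 34359739 T_t2b_c1_dd_f) x_t2b_c1_dd_f_M_t7 37 34 1 = true := by decide +kernel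

def x_t2b_c1_dd_f_M_t8 : T :=
  (.a (.l 22) (.l 18))

theorem x_t2b_c1_dd_f_M_h8 : chk3 (onCell 0 6442450944 0 3758096384 0 34359739 T_t2b_c1_dd_f) x_t2b_c1_dd_f_M_t8 19 34 1 = true := by decide +kernel

def x_t2b_c1_dd_f_M_t9 : T :=
  (.c (.a (.a (.l 20) (.b (.l 20) (.l 20))) (.b (.a (.l 20) (.c (.b (.l 20) (.a (.l 16) (.l 16)))
      (.b (.l 20) (.a (.l 16) (.l 16))))) (.c (.a (.l 20) (.b (.a (.l 16) (.c (.b (.l 16) (.l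
      16)) (.b (.l 16) (.l 16)))) (.l 20))) (.a (.l 20) (.b (.a (.l 16) (.c (.b (.l 16) (.l 16))
      (.b (.l 16) (.l 16)))) (.l 20)))))) (.a (.a (.l 20) (.b (.l 20) (.l 20))) (.b (.a (.c (.l
      20) (.l 20)) (.c (.b (.l 20) (.a (.l 16) (.l 16))) (.b (.l 20) (.a (.l 16) (.l 16))))) (.c
      (.a (.l 20) (.b (.a (.l 16) (.c (.b (.l 16) (.l 16)) (.b (.l 16) (.l 16)))) (.l 20))) (.a
      (.l 20) (.b (.a (.l 16) (.c (.b (.l 16) (.l 16)) (.b (.l 16) (.l 16)))) (.l 20)))))))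

theorem x_t2b_c1_dd_f_M_h9 : chk3 (onCell 0 6442450944 0 3758096384 0 34359739 T_t2b_c1_dd_f) x_t2b_c1_dd_f_M_t9 36 35 4 = true := by decide +kernel

def x_t2b_c1_dd_f_M_t10 : T :=
  (.c (.a (.a (.l 20) (.b (.l 20) (.l 20))) (.b (.a (.c (.l 20) (.l 20)) (.c (.b (.l 20) (.a (.l
      16) (.l 16))) (.b (.l 16) (.a (.l 16) (.l 16))))) (.c (.a (.l 20) (.b (.a (.l 16) (.c (.b
      (.l 16) (.l 16)) (.b (.l 16) (.l 16)))) (.l 20))) (.a (.l 20) (.b (.a (.l 16) (.c (.b (.l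
      16) (.l 16)) (.b (.l 16) (.l 16)))) (.l 20)))))) (.a (.a (.l 20) (.b (.l 20) (.l 20))) (.b
      (.a (.c (.l 20) (.l 20)) (.a (.c (.b (.l 16) (.l 16)) (.b (.l 16) (.l 16))) (.l 16))) (.c
      (.a (.l 20) (.b (.a (.l 16) (.c (.b (.l 16) (.l 16)) (.b (.l 16) (.l 16)))) (.l 20))) (.a
      (.l 20) (.b (.a (.l 16) (.c (.b (.l 16) (.l 16)) (.b (.l 16) (.l 16)))) (.l 20)))))))

theorem x_t2b_c1_dd_f_M_h10 : chk3 (onCell 0 6442450944 0 3758096384 0 34359739 T_t2b_c1_dd_f) x_t2b_c1_dd_f_M_t10 36 35 5 = true := by decide +kernel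

def x_t2b_c1_dd_f_M_t11 : T :=
  (.c (.a (.a (.l 20) (.b (.l 20) (.l 20))) (.b (.a (.c (.l 20) (.l 20)) (.a (.c (.b (.l 16) (.l
      16)) (.b (.l 16) (.l 16))) (.l 16))) (.c (.a (.l 20) (.b (.a (.l 16) (.c (.b (.l 16) (.l
      16)) (.b (.l 16) (.l 16)))) (.l 20))) (.a (.l 20) (.b (.a (.l 16) (.c (.b (.l 16) (.l 16))
      (.b (.l 16) (.l 16)))) (.l 20)))))) (.a (.a (.l 20) (.b (.l 20) (.l 20))) (.b (.a (.c (.b
      (.l 20) (.l 16)) (.b (.l 20) (.l 16))) (.a (.c (.b (.l 16) (.l 16)) (.b (.l 16) (.l 16)))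
      (.l 16))) (.c (.a (.l 20) (.b (.a (.l 16) (.c (.b (.l 16) (.l 16)) (.b (.l 16) (.l 16))))
      (.l 20))) (.a (.l 20) (.b (.a (.l 16) (.c (.l 20) (.l 20))) (.l 20)))))))

theorem x_t2b_c1_dd_f_M_h11 : chk3 (onCell 0 6442450944 0 3758096384 0 34359739 T_t2b_c1_dd_f) x_t2b_c1_dd_f_M_t11 36 35 6 = true := by decide +kernel

def x_t2b_c1_dd_f_M_t12 : T :=
  (.c (.a (.a (.l 20) (.b (.l 20) (.l 20))) (.b (.a (.c (.b (.l 20) (.l 16)) (.b (.l 20) (.l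
      16))) (.a (.c (.b (.l 16) (.l 16)) (.b (.l 16) (.l 16))) (.l 16))) (.c (.a (.l 20) (.b (.a
      (.l 16) (.l 20)) (.a (.l 16) (.l 16)))) (.a (.l 20) (.b (.a (.l 16) (.l 20)) (.a (.l 16)
      (.l 20))))))) (.a (.a (.l 20) (.b (.l 20) (.l 20))) (.b (.a (.c (.b (.l 20) (.l 16)) (.b
      (.l 20) (.l 16))) (.a (.c (.b (.l 16) (.l 16)) (.b (.l 16) (.l 16))) (.l 16))) (.c (.a (.l
      20) (.b (.a (.l 16) (.l 20)) (.a (.l 16) (.l 20)))) (.a (.l 20) (.b (.a (.l 16) (.l 20))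
      (.a (.l 16) (.l 20))))))))

theorem x_t2b_c1_dd_f_M_h12 : chk3 (onCell 0 6442450944 0 3758096384 0 34359739 T_t2b_c1_dd_f) x_t2b_c1_dd_f_M_t12 36 35 7 = true := by decide +kernel

def x_t2b_c1_dd_f_M_t13 : T :=
  (.b (.l 20) (.c (.a (.c (.c (.b (.l 16) (.c (.b (.a (.l 16) (.l 16)) (.l 12)) (.b (.l 20) (.l
      12)))) (.b (.l 16) (.c (.b (.l 20) (.l 12)) (.b (.l 20) (.l 12))))) (.c (.b (.l 16) (.c (.b
      (.l 20) (.l 12)) (.b (.l 20) (.l 12)))) (.b (.l 16) (.c (.b (.l 20) (.l 12)) (.b (.l 20)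
      (.l 12)))))) (.l 16)) (.a (.c (.c (.b (.l 16) (.c (.b (.l 16) (.l 12)) (.b (.l 16) (.a (.l
      16) (.l 16))))) (.b (.l 16) (.c (.b (.l 16) (.a (.l 16) (.l 16))) (.b (.l 16) (.a (.l 16)
      (.l 16)))))) (.c (.b (.l 16) (.c (.b (.l 16) (.a (.l 16) (.l 16))) (.b (.l 16) (.a (.l 16)
      (.l 16))))) (.b (.l 16) (.c (.b (.l 16) (.a (.l 16) (.l 16))) (.b (.l 16) (.a (.l 16) (.l
      16))))))) (.l 16))))

theorem x_t2b_c1_dd_f_M_h13 : chk3 (onCell 0 6442450944 0 3758096384 0 34359739 T_t2b_c1_dd_f) x_t2b_c1_dd_f_M_t13 148 35 2 = true := by decide +kernel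

def x_t2b_c1_dd_f_M_t14 : T :=
  (.b (.l 20) (.c (.a (.c (.c (.b (.l 16) (.c (.b (.l 16) (.a (.l 16) (.l 16))) (.b (.l 16) (.a
      (.l 16) (.l 16))))) (.b (.l 16) (.c (.b (.l 16) (.a (.l 16) (.l 16))) (.b (.l 16) (.a (.l
      16) (.l 16)))))) (.b (.l 16) (.c (.c (.b (.l 16) (.a (.l 16) (.l 16))) (.b (.l 16) (.a (.l
      16) (.l 16)))) (.c (.b (.l 16) (.a (.l 16) (.l 16))) (.b (.l 16) (.a (.l 16) (.l 16)))))))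
      (.l 16)) (.a (.c (.b (.l 16) (.c (.c (.b (.l 16) (.a (.l 16) (.l 16))) (.b (.l 16) (.a (.l
      16) (.l 16)))) (.c (.b (.l 16) (.a (.l 16) (.l 16))) (.b (.l 16) (.a (.l 16) (.l 16))))))
      (.b (.l 16) (.c (.c (.b (.l 16) (.a (.l 16) (.l 16))) (.b (.l 16) (.l 20))) (.c (.b (.l 16)
      (.l 20)) (.b (.l 16) (.l 20)))))) (.l 16))))

theorem x_t2b_c1_dd_f_M_h14 : chk3 (onCell 0 6442450944 0 3758096384 0 34359739 T_t2b_c1_dd_f) x_t2b_c1_dd_f_M_t14 148 35 3 = true := by decide +kernel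

def x_t2b_c1_dd_f_M_t15 : T :=
  (.c (.b (.l 18) (.a (.c (.l 16) (.l 16)) (.l 18))) (.b (.l 18) (.a (.c (.l 16) (.l 16)) (.l
      16))))

theorem x_t2b_c1_dd_f_M_h15 : chk3 (onCell 0 6442450944 0 3758096384 0 34359739 T_t2b_c1_dd_f) x_t2b_c1_dd_f_M_t15 149 35 1 = true := by decide +kernel

def x_t2b_c1_dd_f_M_t16 : T :=
  (.a (.c (.l 18) (.l 18)) (.l 18))

theorem x_t2b_c1_dd_f_M_h16 : chk3 (onCell 0 6442450944 0 3758096384 0 34359739 T_t2b_c1_dd_f) x_t2b_c1_dd_f_M_t16 75 35 1 = true := by decide +kernel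

def x_t2b_c1_dd_f_M_t17 : T :=
  (.a (.a (.l 18) (.l 18)) (.l 18))

theorem x_t2b_c1_dd_f_M_h17 : chk3 (onCell 0 6442450944 0 3758096384 0 34359739 T_t2b_c1_dd_f) x_t2b_c1_dd_f_M_t17 19 35 1 = true := by decide +kernel

def x_t2b_c1_dd_f_M_t18 : T :=
  (.a (.a (.l 22) (.l 22)) (.c (.a (.l 34) (.l 34)) (.a (.l 34) (.b (.l 34) (.l 34)))))

theorem x_t2b_c1_dd_f_M_h18 : chk3 (onCell 0 6442450944 0 3758096384 0 34359739 T_t2b_c1_dd_f) x_t2b_c1_dd_f_M_t18 5 17 1 = true := by decide +kernel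

def x_t2b_c1_dd_f_M_t19 : T :=
  (.a (.b (.a (.a (.l 22) (.l 38)) (.c (.l 38) (.a (.c (.l 38) (.l 38)) (.l 67)))) (.c (.a (.l
      38) (.l 38)) (.a (.l 38) (.b (.c (.l 38) (.l 38)) (.a (.l 34) (.b (.a (.l 18) (.l 67)) (.l
      34))))))) (.l 67))

theorem x_t2b_c1_dd_f_M_h19 : chk3 (onCell 0 6442450944 0 3758096384 0 34359739 T_t2b_c1_dd_f) x_t2b_c1_dd_f_M_t19 3 8 1 = true := by decide +kernel

def x_t2b_c1_dd_f_M_t20 : T :=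
  (.l 3)

theorem x_t2b_c1_dd_f_M_h20 : chk3 (onCell 0 6442450944 0 3758096384 0 34359739 T_t2b_c1_dd_f) x_t2b_c1_dd_f_M_t20 8 9 1 = true := by decide +kernel

def x_t2b_c1_dd_f_M_t21 : T :=
  (.c (.a (.l 3) (.a (.b (.c (.b (.l 10) (.l 3)) (.b (.l 10) (.l 3))) (.l 3)) (.c (.b (.l 10) (.l
      3)) (.b (.l 10) (.l 3))))) (.a (.l 3) (.a (.b (.c (.l 10) (.l 10)) (.l 3)) (.c (.b (.l 10)
      (.l 3)) (.b (.l 10) (.l 3))))))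

theorem x_t2b_c1_dd_f_M_h21 : chk3 (onCell 0 6442450944 0 3758096384 0 34359739 T_t2b_c1_dd_f) x_t2b_c1_dd_f_M_t21 36 18 1 = true := by decide +kernel

def x_t2b_c1_dd_f_M_t22 : T :=
  (.b (.c (.a (.c (.b (.a (.l 12) (.l 12)) (.l 12)) (.b (.a (.l 12) (.l 12)) (.l 12))) (.a (.b
      (.l 16) (.l 12)) (.b (.l 16) (.l 11)))) (.a (.c (.b (.a (.l 12) (.l 12)) (.l 12)) (.b (.a
      (.l 12) (.l 12)) (.l 12))) (.a (.b (.l 16) (.l 12)) (.b (.l 16) (.l 11))))) (.c (.a (.l 10)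
      (.c (.b (.a (.l 12) (.l 12)) (.l 3)) (.b (.a (.l 12) (.l 12)) (.l 3)))) (.a (.l 10) (.c (.b
      (.a (.l 12) (.l 12)) (.l 3)) (.b (.a (.l 12) (.l 12)) (.l 3))))))

theorem x_t2b_c1_dd_f_M_h22 : chk3 (onCell 0 6442450944 0 3758096384 0 34359739 T_t2b_c1_dd_f) x_t2b_c1_dd_f_M_t22 74 36 4 = true := by decide +kernel

def x_t2b_c1_dd_f_M_t23 : T :=
  (.b (.c (.a (.c (.b (.a (.l 12) (.l 12)) (.l 12)) (.b (.a (.l 12) (.l 12)) (.l 12))) (.a (.b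
      (.l 16) (.l 12)) (.b (.l 16) (.l 11)))) (.a (.b (.c (.a (.l 12) (.l 12)) (.a (.l 12) (.b
      (.l 16) (.l 12)))) (.l 12)) (.a (.b (.l 16) (.l 12)) (.b (.l 16) (.l 16))))) (.c (.a (.l
      10) (.c (.b (.a (.l 12) (.l 12)) (.a (.l 3) (.l 12))) (.b (.a (.l 12) (.l 12)) (.a (.l 3)
      (.l 12))))) (.a (.l 10) (.c (.b (.a (.l 12) (.l 12)) (.a (.l 3) (.l 12))) (.b (.a (.l 12)
      (.l 12)) (.a (.l 3) (.l 12)))))))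

theorem x_t2b_c1_dd_f_M_h23 : chk3 (onCell 0 6442450944 0 3758096384 0 34359739 T_t2b_c1_dd_f) x_t2b_c1_dd_f_M_t23 74 36 5 = true := by decide +kernel

def x_t2b_c1_dd_f_M_t24 : T :=
  (.a (.b (.a (.c (.l 18) (.l 18)) (.l 18)) (.a (.l 11) (.b (.l 18) (.c (.a (.l 18) (.l 18)) (.a
      (.l 18) (.l 18)))))) (.b (.l 18) (.a (.l 18) (.l 18))))

theorem x_t2b_c1_dd_f_M_h24 : chk3 (onCell 0 6442450944 0 3758096384 0 34359739 T_t2b_c1_dd_f) x_t2b_c1_dd_f_M_t24 75 36 2 = true := by decide +kernel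

def x_t2b_c1_dd_f_M_t25 : T :=
  (.c (.b (.a (.l 3) (.a (.l 3) (.a (.b (.a (.l 18) (.l 18)) (.l 3)) (.b (.l 18) (.l 3))))) (.l
      3)) (.b (.a (.l 3) (.a (.l 3) (.a (.b (.l 18) (.l 3)) (.b (.l 18) (.l 3))))) (.l 3)))

theorem x_t2b_c1_dd_f_M_h25 : chk3 (onCell 0 6442450944 0 3758096384 0 34359739 T_t2b_c1_dd_f) x_t2b_c1_dd_f_M_t25 37 37 2 = true := by decide +kernel

def x_t2b_c1_dd_f_M_t26 : T :=
  (.b (.c (.a (.b (.c (.a (.l 12) (.b (.l 16) (.l 12))) (.a (.l 12) (.c (.b (.l 16) (.l 12)) (.b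
      (.l 16) (.l 12))))) (.l 12)) (.a (.b (.l 16) (.l 12)) (.b (.l 16) (.l 16)))) (.a (.b (.c
      (.a (.l 12) (.c (.b (.l 16) (.l 12)) (.b (.l 16) (.l 12)))) (.a (.l 12) (.c (.b (.l 16) (.l
      12)) (.b (.l 16) (.l 12))))) (.l 12)) (.a (.b (.l 16) (.l 12)) (.b (.l 16) (.l 16))))) (.c
      (.a (.l 10) (.c (.b (.a (.l 12) (.l 12)) (.l 12)) (.b (.a (.l 12) (.l 12)) (.l 12)))) (.a
      (.l 10) (.c (.b (.a (.l 12) (.l 11)) (.l 12)) (.b (.a (.l 12) (.l 11)) (.l 12))))))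

theorem x_t2b_c1_dd_f_M_h26 : chk3 (onCell 0 6442450944 0 3758096384 0 34359739 T_t2b_c1_dd_f) x_t2b_c1_dd_f_M_t26 74 36 6 = true := by decide +kernel

def x_t2b_c1_dd_f_M_t27 : T :=
  (.b (.a (.c (.b (.c (.a (.l 12) (.c (.b (.l 16) (.l 12)) (.b (.l 16) (.l 12)))) (.a (.l 12) (.c
      (.b (.l 16) (.l 12)) (.b (.l 16) (.l 12))))) (.l 12)) (.b (.c (.a (.l 12) (.c (.b (.l 16)
      (.l 12)) (.b (.l 16) (.l 12)))) (.a (.l 12) (.c (.b (.l 16) (.l 12)) (.b (.l 16) (.l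
      12))))) (.l 12))) (.a (.b (.l 16) (.l 12)) (.b (.l 16) (.c (.l 16) (.l 16))))) (.c (.a (.l
      10) (.c (.b (.a (.l 12) (.l 11)) (.l 12)) (.b (.a (.l 12) (.l 11)) (.l 12)))) (.a (.l 10)
      (.b (.a (.l 12) (.l 11)) (.l 12)))))

theorem x_t2b_c1_dd_f_M_h27 : chk3 (onCell 0 6442450944 0 3758096384 0 34359739 T_t2b_c1_dd_f) x_t2b_c1_dd_f_M_t27 74 36 7 = true := by decide +kernel

def x_t2b_c1_dd_f_M_t28 : T :=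
  (.a (.b (.a (.l 18) (.l 18)) (.a (.c (.l 11) (.b (.l 18) (.l 11))) (.b (.l 18) (.c (.l 18) (.l
      18))))) (.b (.l 18) (.l 18)))

theorem x_t2b_c1_dd_f_M_h28 : chk3 (onCell 0 6442450944 0 3758096384 0 34359739 T_t2b_c1_dd_f) x_t2b_c1_dd_f_M_t28 75 36 3 = true := by decide +kernel

def x_t2b_c1_dd_f_M_t29 : T :=
  (.c (.b (.a (.l 3) (.a (.c (.b (.a (.l 3) (.l 11)) (.l 3)) (.b (.a (.l 3) (.l 11)) (.l 3))) (.a
      (.b (.l 18) (.l 3)) (.b (.l 18) (.l 3))))) (.l 3)) (.b (.a (.l 3) (.a (.b (.c (.l 12) (.l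
      12)) (.l 3)) (.a (.b (.l 18) (.l 3)) (.l 18)))) (.l 3)))

theorem x_t2b_c1_dd_f_M_h29 : chk3 (onCell 0 6442450944 0 3758096384 0 34359739 T_t2b_c1_dd_f) x_t2b_c1_dd_f_M_t29 37 37 3 = true := by decide +kernel

def x_t2b_c1_dd_f_M_t30 : T :=
  (.a (.a (.b (.a (.l 18) (.l 18)) (.a (.b (.c (.l 18) (.l 18)) (.c (.l 3) (.a (.l 3) (.l 18))))
      (.b (.l 18) (.l 18)))) (.a (.b (.l 18) (.l 18)) (.l 18))) (.a (.l 18) (.l 18)))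

theorem x_t2b_c1_dd_f_M_h30 : chk3 (onCell 0 6442450944 0 3758096384 0 34359739 T_t2b_c1_dd_f) x_t2b_c1_dd_f_M_t30 19 18 1 = true := by decide +kernel

def x_t2b_c1_dd_f_M_t31 : T :=
  (.a (.l 3) (.a (.a (.l 3) (.b (.a (.l 3) (.l 18)) (.l 3))) (.a (.b (.l 18) (.l 3)) (.a (.l 18)
      (.l 18)))))

theorem x_t2b_c1_dd_f_M_h31 : chk3 (onCell 0 6442450944 0 3758096384 0 34359739 T_t2b_c1_dd_f) x_t2b_c1_dd_f_M_t31 9 19 1 = true := by decide +kernel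

def x_t2b_c1_dd_f_M_t32 : T :=
  (.a (.a (.a (.a (.a (.l 18) (.l 18)) (.l 18)) (.l 18)) (.b (.l 18) (.l 18))) (.c (.b (.b (.a
      (.l 34) (.l 34)) (.a (.l 34) (.l 34))) (.a (.l 34) (.l 34))) (.a (.l 34) (.l 34))))

theorem x_t2b_c1_dd_f_M_h32 : chk3 (onCell 0 6442450944 0 3758096384 0 34359739 T_t2b_c1_dd_f) x_t2b_c1_dd_f_M_t32 5 9 1 = true := by decide +kernel

def x_t2b_c1_dd_f_M_t33 : T :=
  (.a (.a (.c (.b (.l 34) (.l 34)) (.a (.l 34) (.l 34))) (.c (.a (.l 34) (.l 34)) (.a (.l 34) (.b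
      (.b (.l 34) (.l 34)) (.l 34))))) (.b (.c (.l 67) (.l 67)) (.a (.c (.l 34) (.b (.l 67) (.a
      (.l 18) (.l 67)))) (.l 67))))

theorem x_t2b_c1_dd_f_M_h33 : chk3 (onCell 0 6442450944 0 3758096384 0 34359739 T_t2b_c1_dd_f) x_t2b_c1_dd_f_M_t33 3 9 1 = true := by decide +kernel

def x_t2b_c1_dd_f_M_t34 : T :=
  (.a (.a (.l 3) (.a (.b (.a (.a (.b (.a (.l 3) (.l 18)) (.l 3)) (.a (.b (.l 18) (.l 3)) (.b (.l
      18) (.l 3)))) (.a (.l 18) (.l 18))) (.l 3)) (.a (.a (.a (.a (.b (.l 18) (.l 3)) (.l 18))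
      (.l 18)) (.b (.l 18) (.l 18))) (.b (.l 34) (.l 34))))) (.a (.a (.c (.b (.b (.l 34) (.l 34))
      (.l 34)) (.b (.b (.l 34) (.l 34)) (.a (.l 2) (.l 2)))) (.c (.b (.l 34) (.l 34)) (.b (.a (.l
      34) (.l 34)) (.l 34)))) (.a (.c (.b (.l 34) (.l 34)) (.b (.b (.b (.a (.l 18) (.l 67)) (.l
      34)) (.b (.l 34) (.l 34))) (.b (.l 34) (.l 34)))) (.l 67))))

theorem x_t2b_c1_dd_f_M_h34 : chk3 (onCell 0 6442450944 0 3758096384 0 34359739 T_t2b_c1_dd_f) x_t2b_c1_dd_f_M_t34 1 5 1 = true := by decide +kernel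

def x_t2b_c1_dd_f_M_t35 : T :=
  (.a (.l 3) (.a (.b (.a (.a (.a (.l 3) (.l 34)) (.l 34)) (.b (.a (.l 2) (.l 34)) (.a (.l 2) (.l
      34)))) (.l 3)) (.b (.a (.b (.a (.l 34) (.l 34)) (.l 34)) (.c (.l 34) (.a (.l 34) (.l 18))))
      (.a (.a (.l 34) (.l 34)) (.b (.c (.l 34) (.l 34)) (.l 34))))))

theorem x_t2b_c1_dd_f_M_h35 : chk3 (onCell 0 6442450944 0 3758096384 0 34359739 T_t2b_c1_dd_f) x_t2b_c1_dd_f_M_t35 1 3 1 = true := by decide +kernel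

theorem x_t2b_c1_dd_f_M : Tree 0 6442450944 0 3758096384 0 34359739 T_t2b_c1_dd_f :=
  ⟨_, (chk3_b (chk3_b (chk3_b (chk3_a (chk3_b (chk3_a (chk3_a (chk3_c x_t2b_c1_dd_f_M_h0
      x_t2b_c1_dd_f_M_h1) x_t2b_c1_dd_f_M_h2) x_t2b_c1_dd_f_M_h3) (chk3_a (chk3_a
      x_t2b_c1_dd_f_M_h4 (chk3_b (chk3_a (chk3_a (chk3_c x_t2b_c1_dd_f_M_h5 x_t2b_c1_dd_f_M_h6)
      x_t2b_c1_dd_f_M_h7) x_t2b_c1_dd_f_M_h8) (chk3_a (chk3_a (chk3_c (chk3_c x_t2b_c1_dd_f_M_h9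
      x_t2b_c1_dd_f_M_h10) (chk3_c x_t2b_c1_dd_f_M_h11 x_t2b_c1_dd_f_M_h12)) (chk3_a (chk3_a
      (chk3_c x_t2b_c1_dd_f_M_h13 x_t2b_c1_dd_f_M_h14) x_t2b_c1_dd_f_M_h15) x_t2b_c1_dd_f_M_h16))
      x_t2b_c1_dd_f_M_h17))) x_t2b_c1_dd_f_M_h18)) x_t2b_c1_dd_f_M_h19) (chk3_a (chk3_a (chk3_a
      x_t2b_c1_dd_f_M_h20 (chk3_b (chk3_a (chk3_a x_t2b_c1_dd_f_M_h21 (chk3_c (chk3_b (chk3_a
      (chk3_c x_t2b_c1_dd_f_M_h22 x_t2b_c1_dd_f_M_h23) x_t2b_c1_dd_f_M_h24) x_t2b_c1_dd_f_M_h25)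
      (chk3_b (chk3_a (chk3_c x_t2b_c1_dd_f_M_h26 x_t2b_c1_dd_f_M_h27) x_t2b_c1_dd_f_M_h28)
      x_t2b_c1_dd_f_M_h29))) x_t2b_c1_dd_f_M_h30) x_t2b_c1_dd_f_M_h31)) x_t2b_c1_dd_f_M_h32)
      x_t2b_c1_dd_f_M_h33)) x_t2b_c1_dd_f_M_h34) x_t2b_c1_dd_f_M_h35)⟩

end Pool.Agent.Strip051.LC.E0.Ch
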