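import Pool.Agent.Strip051.LC.E0.Ch.Te

/-! # Small rests: certificate X_t2b_c1_dd_n_M -/

set_option maxRecDepth 100000

namespace Pool.Agent.Strip051.LC.E0.Ch

open Pool.Agent.Strip051.PB

def x_t2b_c1_dd_n_M_t0 : T :=
  (.c (.a (.l 131) (.b (.a (.l 36) (.l 36)) (.a (.c (.a (.l 131) (.l 32)) (.a (.l 131) (.l 32)))
      (.l 36)))) (.a (.l 131) (.b (.a (.l 36) (.l 36)) (.a (.c (.a (.l 131) (.l 32)) (.a (.l 131)
      (.l 32))) (.l 36)))))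

theorem x_t2b_c1_dd_n_M_h0 : chk3 (onCell 0 6442450944 0 3758096384 0 34359739 T_t2b_c1_dd_n) x_t2b_c1_dd_n_M_t0 16 16 2 = true := by decide +kernel

def x_t2b_c1_dd_n_M_t1 : T :=
  (.a (.a (.b (.a (.l 23) (.l 23)) (.c (.b (.l 32) (.l 32)) (.b (.l 32) (.l 32)))) (.c (.b (.l
      23) (.c (.b (.l 16) (.l 16)) (.b (.l 16) (.l 16)))) (.b (.l 23) (.c (.b (.l 16) (.l 16))
      (.b (.l 16) (.l 16)))))) (.c (.b (.b (.l 23) (.c (.a (.l 16) (.l 16)) (.a (.l 16) (.l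
      16)))) (.c (.a (.c (.b (.l 16) (.l 16)) (.b (.l 16) (.l 16))) (.b (.l 16) (.l 16))) (.a (.c
      (.b (.l 16) (.l 16)) (.b (.l 16) (.l 16))) (.b (.l 16) (.l 16))))) (.b (.b (.l 23) (.c (.a
      (.l 16) (.l 16)) (.a (.l 16) (.l 16)))) (.c (.a (.c (.b (.l 16) (.l 16)) (.b (.l 16) (.l
      16))) (.b (.l 16) (.l 16))) (.a (.c (.b (.l 16) (.l 16)) (.b (.l 16) (.l 16))) (.b (.l 16)
      (.l 16)))))))

theorem x_t2b_c1_dd_n_M_h1 : chk3 (onCell 0 6442450944 0 3758096384 0 34359739 T_t2b_c1_dd_n) x_t2b_c1_dd_n_M_t1 17 16 2 = true := by decide +kernel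

def x_t2b_c1_dd_n_M_t2 : T :=
  (.c (.a (.l 131) (.b (.a (.l 36) (.l 36)) (.a (.c (.a (.l 131) (.l 32)) (.a (.l 131) (.l 32)))
      (.l 36)))) (.a (.l 131) (.b (.a (.l 36) (.l 36)) (.a (.c (.a (.l 131) (.l 32)) (.a (.l 131)
      (.l 32))) (.l 36)))))

theorem x_t2b_c1_dd_n_M_h2 : chk3 (onCell 0 6442450944 0 3758096384 0 34359739 T_t2b_c1_dd_n) x_t2b_c1_dd_n_M_t2 16 16 3 = true := by decide +kernel

def x_t2b_c1_dd_n_M_t3 : T :=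
  (.a (.a (.b (.a (.l 20) (.l 23)) (.c (.b (.l 32) (.l 32)) (.b (.l 32) (.l 32)))) (.c (.a (.b
      (.l 23) (.l 16)) (.b (.l 23) (.l 16))) (.a (.b (.l 23) (.l 16)) (.b (.l 23) (.l 16))))) (.c
      (.b (.b (.l 23) (.c (.a (.l 16) (.l 16)) (.a (.l 16) (.l 16)))) (.c (.a (.c (.b (.l 16) (.l
      16)) (.b (.l 16) (.l 16))) (.b (.l 16) (.l 16))) (.a (.c (.b (.l 16) (.l 16)) (.b (.l 16)
      (.l 16))) (.b (.l 16) (.l 16))))) (.b (.b (.l 23) (.c (.a (.l 16) (.l 16)) (.a (.l 16) (.l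
      16)))) (.c (.a (.c (.b (.l 16) (.l 16)) (.l 23)) (.b (.l 16) (.l 16))) (.a (.c (.l 23) (.l
      23)) (.b (.l 16) (.l 16)))))))

theorem x_t2b_c1_dd_n_M_h3 : chk3 (onCell 0 6442450944 0 3758096384 0 34359739 T_t2b_c1_dd_n) x_t2b_c1_dd_n_M_t3 17 16 3 = true := by decide +kernel

def x_t2b_c1_dd_n_M_t4 : T :=
  (.a (.a (.a (.b (.l 23) (.c (.c (.a (.c (.l 16) (.l 16)) (.l 16)) (.a (.c (.l 16) (.l 16)) (.l
      16))) (.c (.a (.c (.l 16) (.l 16)) (.l 16)) (.a (.c (.l 16) (.l 16)) (.l 16))))) (.b (.l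
      22) (.c (.l 23) (.l 23)))) (.a (.b (.l 22) (.l 22)) (.l 22))) (.a (.l 22) (.l 22)))

theorem x_t2b_c1_dd_n_M_h4 : chk3 (onCell 0 6442450944 0 3758096384 0 34359739 T_t2b_c1_dd_n) x_t2b_c1_dd_n_M_t4 9 16 1 = true := by decide +kernel

def x_t2b_c1_dd_n_M_t5 : T :=
  (.a (.l 22) (.c (.a (.a (.l 22) (.l 38)) (.l 38)) (.a (.a (.l 22) (.l 38)) (.a (.l 38) (.l
      38)))))

theorem x_t2b_c1_dd_n_M_h5 : chk3 (onCell 0 6442450944 0 3758096384 0 34359739 T_t2b_c1_dd_n) x_t2b_c1_dd_n_M_t5 5 16 1 = true := by decide +kernel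

def x_t2b_c1_dd_n_M_t6 : T :=
  (.a (.l 3) (.a (.c (.a (.b (.c (.a (.l 3) (.l 32)) (.a (.l 3) (.l 32))) (.l 3)) (.c (.b (.b (.l
      32) (.l 32)) (.l 3)) (.b (.b (.l 32) (.l 32)) (.l 3)))) (.a (.b (.c (.a (.l 3) (.l 32)) (.a
      (.l 3) (.l 32))) (.l 3)) (.c (.b (.b (.l 32) (.l 32)) (.l 3)) (.b (.b (.l 32) (.l 32)) (.l
      3))))) (.c (.b (.a (.c (.a (.l 16) (.l 16)) (.a (.l 16) (.l 16))) (.c (.b (.l 16) (.l 16))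
      (.b (.l 16) (.l 16)))) (.c (.a (.a (.l 3) (.l 16)) (.a (.b (.l 16) (.l 3)) (.l 10))) (.a
      (.a (.l 3) (.l 16)) (.a (.b (.l 16) (.l 3)) (.l 10))))) (.b (.a (.c (.a (.l 16) (.l 16))
      (.a (.l 16) (.l 16))) (.c (.b (.l 16) (.l 16)) (.b (.l 16) (.l 16)))) (.c (.a (.a (.l 3)
      (.l 16)) (.a (.b (.l 16) (.l 3)) (.l 10))) (.a (.a (.l 3) (.l 16)) (.a (.b (.l 16) (.l 3))
      (.l 10))))))))

theorem x_t2b_c1_dd_n_M_h6 : chk3 (onCell 0 6442450944 0 3758096384 0 34359739 T_t2b_c1_dd_n) x_t2b_c1_dd_n_M_t6 8 17 2 = true := by decide +kernel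

def x_t2b_c1_dd_n_M_t7 : T :=
  (.a (.l 3) (.a (.c (.a (.b (.c (.l 36) (.l 36)) (.l 3)) (.c (.b (.b (.l 32) (.l 32)) (.l 3))
      (.b (.b (.l 32) (.l 32)) (.l 3)))) (.a (.b (.c (.l 36) (.l 36)) (.l 3)) (.c (.b (.b (.l 32)
      (.l 32)) (.l 3)) (.b (.b (.l 32) (.l 32)) (.l 3))))) (.c (.b (.a (.c (.a (.l 16) (.l 16))
      (.a (.l 16) (.l 16))) (.c (.b (.l 16) (.l 16)) (.b (.l 16) (.l 16)))) (.c (.a (.a (.l 3)
      (.l 16)) (.a (.b (.l 16) (.l 3)) (.l 10))) (.a (.a (.l 3) (.l 16)) (.a (.b (.l 16) (.l 3))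
      (.l 10))))) (.b (.a (.c (.a (.l 16) (.l 16)) (.a (.l 16) (.l 16))) (.c (.b (.l 16) (.l 16))
      (.b (.l 16) (.l 16)))) (.c (.a (.a (.l 3) (.l 16)) (.a (.b (.l 16) (.l 3)) (.l 10))) (.a
      (.a (.l 3) (.l 16)) (.a (.b (.l 16) (.l 3)) (.l 10))))))))

theorem x_t2b_c1_dd_n_M_h7 : chk3 (onCell 0 6442450944 0 3758096384 0 34359739 T_t2b_c1_dd_n) x_t2b_c1_dd_n_M_t7 8 17 3 = true := by decide +kernel

def x_t2b_c1_dd_n_M_t8 : T :=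
  (.c (.a (.c (.b (.a (.l 16) (.l 16)) (.c (.a (.l 16) (.l 16)) (.a (.l 16) (.l 16)))) (.b (.a
      (.l 16) (.l 16)) (.c (.a (.l 16) (.l 16)) (.a (.l 16) (.l 16))))) (.a (.b (.l 16) (.c (.l
      16) (.l 16))) (.l 16))) (.a (.c (.b (.a (.l 16) (.l 16)) (.c (.a (.l 16) (.l 16)) (.a (.l
      16) (.l 16)))) (.b (.a (.l 16) (.l 16)) (.c (.a (.l 16) (.l 16)) (.a (.l 16) (.l 16)))))
      (.a (.b (.l 16) (.l 16)) (.l 16))))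

theorem x_t2b_c1_dd_n_M_h8 : chk3 (onCell 0 6442450944 0 3758096384 0 34359739 T_t2b_c1_dd_n) x_t2b_c1_dd_n_M_t8 36 34 2 = true := by decide +kernel

def x_t2b_c1_dd_n_M_t9 : T :=
  (.c (.a (.c (.b (.a (.l 16) (.l 16)) (.c (.a (.l 16) (.l 16)) (.a (.l 16) (.l 16)))) (.b (.a
      (.l 16) (.l 16)) (.c (.a (.l 16) (.l 16)) (.a (.l 16) (.l 16))))) (.a (.b (.l 16) (.l 16))
      (.l 16))) (.a (.c (.b (.a (.l 16) (.l 16)) (.c (.a (.l 16) (.l 16)) (.a (.l 16) (.l 16))))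
      (.b (.a (.l 16) (.l 16)) (.c (.a (.l 16) (.l 16)) (.a (.l 16) (.l 16))))) (.a (.b (.l 16)
      (.l 16)) (.l 16))))

theorem x_t2b_c1_dd_n_M_h9 : chk3 (onCell 0 6442450944 0 3758096384 0 34359739 T_t2b_c1_dd_n) x_t2b_c1_dd_n_M_t9 36 34 3 = true := by decide +kernel

def x_t2b_c1_dd_n_M_t10 : T :=
  (.a (.a (.c (.l 16) (.l 16)) (.l 18)) (.l 18))

theorem x_t2b_c1_dd_n_M_h10 : chk3 (onCell 0 6442450944 0 3758096384 0 34359739 T_t2b_c1_dd_n) x_t2b_c1_dd_n_M_t10 37 34 1 = true := by decide +kernel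

def x_t2b_c1_dd_n_M_t11 : T :=
  (.c (.a (.b (.c (.a (.l 16) (.l 16)) (.a (.l 16) (.l 16))) (.l 10)) (.b (.a (.c (.l 16) (.l
      16)) (.b (.l 16) (.c (.l 16) (.l 16)))) (.a (.c (.b (.l 16) (.l 16)) (.b (.l 16) (.l 16)))
      (.b (.c (.a (.l 16) (.l 16)) (.a (.l 16) (.l 16))) (.l 10))))) (.a (.b (.c (.a (.l 16) (.l
      16)) (.a (.l 16) (.l 16))) (.l 10)) (.b (.a (.c (.b (.l 16) (.l 16)) (.b (.l 16) (.l 16)))
      (.b (.l 16) (.l 16))) (.a (.c (.b (.l 16) (.l 16)) (.b (.l 16) (.l 16))) (.b (.c (.a (.l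
      16) (.l 16)) (.a (.l 16) (.l 16))) (.c (.a (.l 16) (.l 16)) (.a (.l 16) (.l 16))))))))

theorem x_t2b_c1_dd_n_M_h11 : chk3 (onCell 0 6442450944 0 3758096384 0 34359739 T_t2b_c1_dd_n) x_t2b_c1_dd_n_M_t11 36 35 4 = true := by decide +kernel

def x_t2b_c1_dd_n_M_t12 : T :=
  (.c (.a (.b (.c (.a (.l 16) (.l 16)) (.a (.l 16) (.l 16))) (.l 10)) (.b (.a (.c (.b (.l 16) (.l
      16)) (.b (.l 16) (.l 16))) (.b (.l 16) (.l 16))) (.a (.c (.b (.l 16) (.l 16)) (.b (.l 16)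
      (.l 16))) (.b (.c (.a (.l 16) (.l 16)) (.a (.l 16) (.l 16))) (.c (.a (.l 16) (.l 16)) (.a
      (.l 16) (.l 16))))))) (.a (.b (.c (.a (.l 16) (.l 16)) (.a (.l 16) (.l 16))) (.l 10)) (.b
      (.a (.c (.b (.l 16) (.l 16)) (.b (.l 16) (.l 16))) (.b (.l 16) (.l 16))) (.a (.c (.b (.l
      16) (.l 16)) (.b (.l 16) (.l 16))) (.b (.c (.a (.l 16) (.l 16)) (.a (.l 16) (.l 16))) (.c
      (.a (.l 16) (.l 16)) (.a (.l 16) (.l 16))))))))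

theorem x_t2b_c1_dd_n_M_h12 : chk3 (onCell 0 6442450944 0 3758096384 0 34359739 T_t2b_c1_dd_n) x_t2b_c1_dd_n_M_t12 36 35 5 = true := by decide +kernel

def x_t2b_c1_dd_n_M_t13 : T :=
  (.c (.a (.b (.c (.a (.l 16) (.l 16)) (.a (.l 16) (.l 16))) (.l 10)) (.b (.a (.c (.b (.l 16) (.l
      16)) (.b (.l 16) (.l 16))) (.a (.l 16) (.l 16))) (.a (.c (.b (.l 16) (.l 16)) (.b (.l 16)
      (.l 16))) (.b (.c (.a (.l 16) (.l 16)) (.a (.l 16) (.l 16))) (.c (.a (.l 16) (.l 16)) (.a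
      (.l 16) (.l 16))))))) (.a (.b (.c (.a (.l 16) (.l 16)) (.a (.l 16) (.l 16))) (.l 10)) (.b
      (.a (.c (.b (.l 16) (.l 16)) (.b (.l 16) (.l 16))) (.a (.l 16) (.l 16))) (.a (.c (.b (.l
      16) (.l 16)) (.b (.l 16) (.l 16))) (.b (.c (.a (.l 16) (.l 16)) (.a (.l 16) (.l 16))) (.c
      (.a (.l 16) (.l 16)) (.a (.l 16) (.l 16))))))))

theorem x_t2b_c1_dd_n_M_h13 : chk3 (onCell 0 6442450944 0 3758096384 0 34359739 T_t2b_c1_dd_n) x_t2b_c1_dd_n_M_t13 36 35 6 = true := by decide +kernel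

def x_t2b_c1_dd_n_M_t14 : T :=
  (.c (.a (.b (.c (.a (.l 16) (.l 16)) (.a (.l 16) (.l 16))) (.l 10)) (.b (.a (.c (.b (.l 16) (.l
      16)) (.b (.l 16) (.l 16))) (.a (.l 16) (.l 16))) (.a (.c (.b (.l 16) (.l 16)) (.b (.l 16)
      (.l 16))) (.b (.c (.a (.l 16) (.l 16)) (.a (.l 16) (.l 16))) (.c (.a (.l 16) (.l 16)) (.a
      (.l 16) (.l 16))))))) (.a (.b (.c (.a (.l 16) (.l 16)) (.a (.l 16) (.l 16))) (.l 10)) (.b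
      (.a (.c (.b (.l 16) (.l 16)) (.b (.l 16) (.l 16))) (.a (.l 16) (.l 16))) (.a (.c (.b (.l
      16) (.l 16)) (.b (.l 16) (.l 16))) (.b (.c (.a (.l 16) (.l 16)) (.a (.l 16) (.l 16))) (.c
      (.a (.l 16) (.l 16)) (.a (.l 16) (.l 16))))))))

theorem x_t2b_c1_dd_n_M_h14 : chk3 (onCell 0 6442450944 0 3758096384 0 34359739 T_t2b_c1_dd_n) x_t2b_c1_dd_n_M_t14 36 35 7 = true := by decide +kernel

def x_t2b_c1_dd_n_M_t15 : T :=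
  (.a (.a (.c (.b (.l 16) (.c (.a (.c (.b (.l 16) (.c (.b (.l 16) (.l 16)) (.b (.l 16) (.l 16))))
      (.b (.l 16) (.c (.b (.l 16) (.l 16)) (.b (.l 16) (.l 16))))) (.l 16)) (.a (.c (.b (.l 16)
      (.c (.b (.l 16) (.l 16)) (.b (.l 16) (.l 16)))) (.b (.l 16) (.c (.l 16) (.l 16)))) (.l
      16)))) (.b (.l 16) (.c (.a (.c (.b (.l 16) (.l 16)) (.b (.l 16) (.l 16))) (.l 16)) (.a (.c
      (.b (.l 16) (.l 16)) (.b (.l 16) (.l 16))) (.l 16))))) (.c (.b (.l 16) (.a (.l 16) (.l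
      16))) (.b (.l 16) (.l 16)))) (.a (.c (.l 18) (.l 18)) (.l 18)))

theorem x_t2b_c1_dd_n_M_h15 : chk3 (onCell 0 6442450944 0 3758096384 0 34359739 T_t2b_c1_dd_n) x_t2b_c1_dd_n_M_t15 37 35 1 = true := by decide +kernel

def x_t2b_c1_dd_n_M_t16 : T :=
  (.a (.a (.l 22) (.l 18)) (.l 18))

theorem x_t2b_c1_dd_n_M_h16 : chk3 (onCell 0 6442450944 0 3758096384 0 34359739 T_t2b_c1_dd_n) x_t2b_c1_dd_n_M_t16 19 17 1 = true := by decide +kernel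

def x_t2b_c1_dd_n_M_t17 : T :=
  (.a (.a (.l 22) (.l 34)) (.c (.a (.l 34) (.l 34)) (.a (.l 34) (.b (.l 34) (.l 34)))))

theorem x_t2b_c1_dd_n_M_h17 : chk3 (onCell 0 6442450944 0 3758096384 0 34359739 T_t2b_c1_dd_n) x_t2b_c1_dd_n_M_t17 5 17 1 = true := by decide +kernel

def x_t2b_c1_dd_n_M_t18 : T :=
  (.a (.b (.a (.a (.l 22) (.l 38)) (.c (.l 38) (.a (.c (.l 38) (.l 38)) (.l 67)))) (.c (.a (.l
      38) (.l 38)) (.a (.l 38) (.b (.c (.l 38) (.l 38)) (.a (.l 34) (.b (.a (.l 18) (.l 67)) (.l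
      34))))))) (.l 67))

theorem x_t2b_c1_dd_n_M_h18 : chk3 (onCell 0 6442450944 0 3758096384 0 34359739 T_t2b_c1_dd_n) x_t2b_c1_dd_n_M_t18 3 8 1 = true := by decide +kernel

def x_t2b_c1_dd_n_M_t19 : T :=
  (.l 3)

theorem x_t2b_c1_dd_n_M_h19 : chk3 (onCell 0 6442450944 0 3758096384 0 34359739 T_t2b_c1_dd_n) x_t2b_c1_dd_n_M_t19 8 9 1 = true := by decide +kernel

def x_t2b_c1_dd_n_M_t20 : T :=
  (.c (.c (.a (.l 3) (.b (.l 10) (.l 3))) (.a (.l 3) (.b (.l 10) (.l 3)))) (.c (.a (.l 3) (.b (.l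
      10) (.l 3))) (.a (.l 3) (.a (.l 10) (.l 10)))))

theorem x_t2b_c1_dd_n_M_h20 : chk3 (onCell 0 6442450944 0 3758096384 0 34359739 T_t2b_c1_dd_n) x_t2b_c1_dd_n_M_t20 36 18 1 = true := by decide +kernel

def x_t2b_c1_dd_n_M_t21 : T :=
  (.b (.a (.c (.b (.c (.a (.l 12) (.a (.b (.l 16) (.l 12)) (.b (.l 16) (.l 16)))) (.a (.l 12) (.a
      (.b (.l 16) (.l 12)) (.b (.l 16) (.l 16))))) (.a (.l 10) (.l 12))) (.b (.c (.a (.l 12) (.a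
      (.b (.l 16) (.l 12)) (.l 16))) (.a (.b (.c (.l 12) (.a (.l 12) (.b (.l 16) (.l 12)))) (.l
      12)) (.a (.b (.l 16) (.l 12)) (.l 16)))) (.a (.l 10) (.l 12)))) (.a (.b (.a (.l 18) (.l
      16)) (.a (.l 11) (.b (.l 18) (.c (.a (.l 11) (.l 18)) (.a (.l 18) (.l 18)))))) (.b (.l 18)
      (.a (.l 18) (.l 18))))) (.c (.b (.a (.l 3) (.a (.l 3) (.a (.b (.a (.l 18) (.l 18)) (.l 3))
      (.b (.l 18) (.l 3))))) (.l 3)) (.b (.a (.l 3) (.a (.l 3) (.a (.b (.a (.l 18) (.l 18)) (.l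
      3)) (.b (.l 18) (.l 3))))) (.l 3))))

theorem x_t2b_c1_dd_n_M_h21 : chk3 (onCell 0 6442450944 0 3758096384 0 34359739 T_t2b_c1_dd_n) x_t2b_c1_dd_n_M_t21 37 18 2 = true := by decide +kernel

def x_t2b_c1_dd_n_M_t22 : T :=
  (.a (.c (.b (.c (.a (.b (.c (.a (.l 12) (.b (.l 16) (.l 12))) (.a (.l 12) (.b (.l 16) (.l
      12)))) (.l 12)) (.a (.b (.l 16) (.l 12)) (.l 16))) (.a (.b (.c (.a (.l 12) (.b (.l 16) (.l
      12))) (.a (.l 12) (.b (.l 16) (.l 12)))) (.l 12)) (.a (.b (.l 16) (.l 12)) (.l 16)))) (.a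
      (.l 10) (.l 12))) (.b (.a (.c (.b (.c (.a (.l 12) (.b (.l 16) (.l 16))) (.a (.l 12) (.b (.l
      16) (.l 16)))) (.l 12)) (.b (.c (.a (.l 12) (.b (.l 16) (.l 16))) (.a (.l 12) (.l 16))) (.l
      12))) (.a (.b (.l 16) (.l 12)) (.l 16))) (.a (.l 10) (.l 12)))) (.a (.b (.a (.l 18) (.l
      16)) (.a (.c (.l 11) (.b (.l 18) (.l 11))) (.b (.l 18) (.c (.a (.l 18) (.l 18)) (.l 18)))))
      (.b (.l 16) (.a (.l 18) (.l 18)))))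

theorem x_t2b_c1_dd_n_M_h22 : chk3 (onCell 0 6442450944 0 3758096384 0 34359739 T_t2b_c1_dd_n) x_t2b_c1_dd_n_M_t22 37 36 3 = true := by decide +kernel

def x_t2b_c1_dd_n_M_t23 : T :=
  (.c (.b (.a (.l 3) (.a (.l 12) (.a (.b (.l 18) (.l 3)) (.b (.l 18) (.l 3))))) (.l 3)) (.b (.a
      (.l 3) (.a (.l 12) (.a (.b (.l 18) (.l 3)) (.b (.l 18) (.l 18))))) (.l 3)))

theorem x_t2b_c1_dd_n_M_h23 : chk3 (onCell 0 6442450944 0 3758096384 0 34359739 T_t2b_c1_dd_n) x_t2b_c1_dd_n_M_t23 37 37 3 = true := by decide +kernel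

def x_t2b_c1_dd_n_M_t24 : T :=
  (.a (.a (.b (.a (.l 18) (.l 18)) (.a (.b (.c (.l 18) (.l 18)) (.c (.l 3) (.a (.l 3) (.l 18))))
      (.b (.l 18) (.l 18)))) (.a (.b (.l 18) (.l 18)) (.l 18))) (.a (.l 18) (.l 18)))

theorem x_t2b_c1_dd_n_M_h24 : chk3 (onCell 0 6442450944 0 3758096384 0 34359739 T_t2b_c1_dd_n) x_t2b_c1_dd_n_M_t24 19 18 1 = true := by decide +kernel

def x_t2b_c1_dd_n_M_t25 : T :=
  (.a (.l 3) (.a (.a (.l 3) (.b (.a (.l 3) (.l 18)) (.l 3))) (.a (.b (.l 18) (.l 3)) (.b (.l 18)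
      (.l 18)))))

theorem x_t2b_c1_dd_n_M_h25 : chk3 (onCell 0 6442450944 0 3758096384 0 34359739 T_t2b_c1_dd_n) x_t2b_c1_dd_n_M_t25 9 19 1 = true := by decide +kernel

def x_t2b_c1_dd_n_M_t26 : T :=
  (.a (.a (.a (.a (.a (.l 18) (.l 18)) (.l 18)) (.l 18)) (.b (.l 18) (.l 18))) (.c (.b (.b (.a
      (.l 34) (.l 34)) (.a (.l 34) (.l 34))) (.a (.l 34) (.l 34))) (.a (.l 34) (.l 34))))

theorem x_t2b_c1_dd_n_M_h26 : chk3 (onCell 0 6442450944 0 3758096384 0 34359739 T_t2b_c1_dd_n) x_t2b_c1_dd_n_M_t26 5 9 1 = true := by decide +kernel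

def x_t2b_c1_dd_n_M_t27 : T :=
  (.a (.a (.c (.b (.l 34) (.l 34)) (.a (.l 34) (.l 34))) (.c (.a (.l 34) (.l 34)) (.a (.l 34) (.b
      (.b (.l 34) (.l 34)) (.l 34))))) (.b (.c (.l 67) (.l 67)) (.a (.c (.l 34) (.b (.l 67) (.a
      (.l 18) (.l 67)))) (.l 67))))

theorem x_t2b_c1_dd_n_M_h27 : chk3 (onCell 0 6442450944 0 3758096384 0 34359739 T_t2b_c1_dd_n) x_t2b_c1_dd_n_M_t27 3 9 1 = true := by decide +kernel

def x_t2b_c1_dd_n_M_t28 : T :=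
  (.a (.a (.l 3) (.a (.c (.b (.a (.a (.l 3) (.a (.b (.l 18) (.l 3)) (.l 18))) (.a (.l 18) (.l
      18))) (.l 3)) (.b (.a (.a (.b (.a (.l 3) (.l 18)) (.l 3)) (.a (.b (.l 18) (.l 3)) (.l 18)))
      (.a (.l 18) (.l 18))) (.l 3))) (.a (.a (.a (.a (.l 18) (.l 18)) (.l 18)) (.b (.l 18) (.l
      18))) (.b (.l 34) (.l 34))))) (.a (.a (.c (.b (.b (.l 34) (.l 34)) (.l 34)) (.b (.b (.l 34)
      (.l 34)) (.l 34))) (.c (.b (.l 34) (.l 34)) (.b (.a (.l 34) (.l 34)) (.l 34)))) (.a (.c (.b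
      (.l 34) (.l 34)) (.b (.a (.l 34) (.l 67)) (.b (.l 34) (.l 34)))) (.l 67))))

theorem x_t2b_c1_dd_n_M_h28 : chk3 (onCell 0 6442450944 0 3758096384 0 34359739 T_t2b_c1_dd_n) x_t2b_c1_dd_n_M_t28 1 5 1 = true := by decide +kernel

def x_t2b_c1_dd_n_M_t29 : T :=
  (.a (.l 3) (.a (.b (.a (.a (.a (.l 3) (.l 34)) (.l 34)) (.b (.a (.l 2) (.l 34)) (.a (.l 2) (.l
      34)))) (.l 3)) (.b (.a (.b (.a (.l 34) (.l 34)) (.l 34)) (.c (.l 34) (.a (.l 34) (.l 18))))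
      (.a (.a (.l 34) (.l 34)) (.b (.c (.l 34) (.l 34)) (.l 34))))))

theorem x_t2b_c1_dd_n_M_h29 : chk3 (onCell 0 6442450944 0 3758096384 0 34359739 T_t2b_c1_dd_n) x_t2b_c1_dd_n_M_t29 1 3 1 = true := by decide +kernel

theorem x_t2b_c1_dd_n_M : Tree 0 6442450944 0 3758096384 0 34359739 T_t2b_c1_dd_n :=
  ⟨_, (chk3_b (chk3_b (chk3_b (chk3_a (chk3_b (chk3_a (chk3_a (chk3_c (chk3_a x_t2b_c1_dd_n_M_h0
      x_t2b_c1_dd_n_M_h1) (chk3_a x_t2b_c1_dd_n_M_h2 x_t2b_c1_dd_n_M_h3)) x_t2b_c1_dd_n_M_h4)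
      x_t2b_c1_dd_n_M_h5) (chk3_a (chk3_a (chk3_c x_t2b_c1_dd_n_M_h6 x_t2b_c1_dd_n_M_h7) (chk3_a
      (chk3_b (chk3_a (chk3_c x_t2b_c1_dd_n_M_h8 x_t2b_c1_dd_n_M_h9) x_t2b_c1_dd_n_M_h10) (chk3_a
      (chk3_c (chk3_c x_t2b_c1_dd_n_M_h11 x_t2b_c1_dd_n_M_h12) (chk3_c x_t2b_c1_dd_n_M_h13
      x_t2b_c1_dd_n_M_h14)) x_t2b_c1_dd_n_M_h15)) x_t2b_c1_dd_n_M_h16)) x_t2b_c1_dd_n_M_h17))
      x_t2b_c1_dd_n_M_h18) (chk3_a (chk3_a (chk3_a x_t2b_c1_dd_n_M_h19 (chk3_b (chk3_a (chk3_a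
      x_t2b_c1_dd_n_M_h20 (chk3_c x_t2b_c1_dd_n_M_h21 (chk3_b x_t2b_c1_dd_n_M_h22
      x_t2b_c1_dd_n_M_h23))) x_t2b_c1_dd_n_M_h24) x_t2b_c1_dd_n_M_h25)) x_t2b_c1_dd_n_M_h26)
      x_t2b_c1_dd_n_M_h27)) x_t2b_c1_dd_n_M_h28) x_t2b_c1_dd_n_M_h29)⟩

end Pool.Agent.Strip051.LC.E0.Ch
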