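import Pool.Agent.Strip051.LC.E0.Ch.Te

/-! # Small rests: certificate X_t2b_c1_u_f_M -/

set_option maxRecDepth 100000

namespace Pool.Agent.Strip051.LC.E0.Ch

open Pool.Agent.Strip051.PB

def x_t2b_c1_u_f_M_t0 : T :=
  (.a (.b (.c (.a (.b (.c (.a (.b (.l 131) (.a (.l 131) (.l 16))) (.b (.l 16) (.l 16))) (.a (.b
      (.l 131) (.a (.l 131) (.l 16))) (.b (.l 16) (.l 16)))) (.a (.a (.l 16) (.l 16)) (.l 16)))
      (.b (.b (.a (.l 16) (.l 16)) (.l 16)) (.l 16))) (.a (.b (.c (.a (.b (.l 131) (.a (.l 131)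
      (.l 16))) (.b (.l 16) (.l 16))) (.a (.b (.l 131) (.a (.l 131) (.l 16))) (.b (.l 17) (.l
      16)))) (.a (.b (.l 16) (.l 16)) (.l 16))) (.b (.b (.a (.l 16) (.l 16)) (.l 16)) (.l 16))))
      (.b (.a (.a (.l 16) (.l 16)) (.l 16)) (.a (.l 16) (.l 16)))) (.b (.b (.b (.b (.a (.l 32)
      (.l 32)) (.a (.l 32) (.l 32))) (.a (.l 16) (.l 32))) (.b (.a (.l 16) (.l 32)) (.a (.l 16)
      (.l 16)))) (.a (.b (.l 16) (.l 32)) (.b (.l 32) (.a (.l 32) (.l 34))))))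

theorem x_t2b_c1_u_f_M_h0 : chk3 (onCell 0 6442450944 0 6442450944 0 34359739 T_t2b_c1_u_f) x_t2b_c1_u_f_M_t0 8 8 2 = true := by decide +kernel

def x_t2b_c1_u_f_M_t1 : T :=
  (.a (.b (.c (.a (.b (.c (.a (.b (.l 131) (.a (.l 131) (.l 16))) (.b (.l 17) (.l 16))) (.a (.b
      (.l 131) (.a (.l 131) (.l 16))) (.b (.l 17) (.l 16)))) (.a (.b (.l 16) (.l 16)) (.l 16)))
      (.b (.b (.a (.l 16) (.l 16)) (.l 16)) (.l 16))) (.a (.b (.c (.a (.b (.l 131) (.a (.l 131)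
      (.l 16))) (.b (.b (.l 131) (.l 16)) (.l 16))) (.a (.b (.l 131) (.a (.l 131) (.l 16))) (.b
      (.b (.l 131) (.l 16)) (.l 16)))) (.b (.a (.l 16) (.l 16)) (.l 16))) (.b (.b (.a (.l 16) (.l
      16)) (.l 16)) (.b (.l 16) (.l 16))))) (.b (.a (.a (.l 16) (.l 16)) (.l 16)) (.a (.l 16) (.l
      16)))) (.b (.b (.b (.b (.a (.l 32) (.l 32)) (.a (.l 16) (.l 32))) (.a (.l 16) (.l 32))) (.b
      (.a (.l 16) (.l 16)) (.a (.l 16) (.l 16)))) (.a (.b (.l 16) (.l 32)) (.b (.b (.l 32) (.l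
      32)) (.a (.l 32) (.l 34))))))

theorem x_t2b_c1_u_f_M_h1 : chk3 (onCell 0 6442450944 0 6442450944 0 34359739 T_t2b_c1_u_f) x_t2b_c1_u_f_M_t1 8 8 3 = true := by decide +kernel

def x_t2b_c1_u_f_M_t2 : T :=
  (.a (.b (.a (.b (.a (.l 16) (.l 16)) (.a (.l 16) (.l 32))) (.b (.a (.l 16) (.l 32)) (.a (.l 32)
      (.l 34)))) (.a (.b (.a (.b (.l 16) (.l 34)) (.l 34)) (.l 34)) (.b (.l 34) (.l 34)))) (.b
      (.a (.b (.a (.l 32) (.l 34)) (.l 34)) (.b (.l 34) (.l 34))) (.a (.l 34) (.l 34))))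

theorem x_t2b_c1_u_f_M_h2 : chk3 (onCell 0 6442450944 0 6442450944 0 34359739 T_t2b_c1_u_f) x_t2b_c1_u_f_M_t2 8 9 1 = true := by decide +kernel

def x_t2b_c1_u_f_M_t3 : T :=
  (.b (.a (.b (.b (.a (.c (.b (.l 32) (.l 32)) (.b (.b (.l 32) (.l 32)) (.l 32))) (.b (.a (.b (.c
      (.l 0) (.l 32)) (.l 32)) (.b (.a (.c (.l 0) (.l 0)) (.l 34)) (.a (.l 34) (.l 34)))) (.a (.b
      (.l 32) (.l 34)) (.b (.l 34) (.l 34))))) (.a (.b (.a (.l 32) (.l 32)) (.a (.l 32) (.l 32)))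
      (.b (.a (.l 34) (.l 34)) (.l 34)))) (.a (.b (.b (.a (.l 32) (.l 34)) (.l 34)) (.l 34)) (.b
      (.l 34) (.l 2)))) (.b (.a (.b (.b (.a (.b (.l 34) (.l 34)) (.l 34)) (.l 34)) (.l 34)) (.b
      (.l 2) (.l 2))) (.a (.l 34) (.l 34)))) (.a (.b (.a (.l 34) (.l 34)) (.l 34)) (.b (.l 34)
      (.l 34))))

theorem x_t2b_c1_u_f_M_h3 : chk3 (onCell 0 6442450944 0 6442450944 0 34359739 T_t2b_c1_u_f) x_t2b_c1_u_f_M_t3 9 4 1 = true := by decide +kernel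

def x_t2b_c1_u_f_M_t4 : T :=
  (.a (.b (.a (.b (.a (.l 34) (.l 34)) (.l 34)) (.b (.l 34) (.l 34))) (.a (.b (.l 34) (.l 34))
      (.b (.l 34) (.l 34)))) (.b (.a (.b (.l 34) (.l 34)) (.l 34)) (.a (.b (.l 34) (.l 99)) (.l
      99))))

theorem x_t2b_c1_u_f_M_h4 : chk3 (onCell 0 6442450944 0 6442450944 0 34359739 T_t2b_c1_u_f) x_t2b_c1_u_f_M_t4 4 5 1 = true := by decide +kernel

def x_t2b_c1_u_f_M_t5 : T :=
  (.a (.b (.a (.b (.a (.l 34) (.l 2)) (.l 34)) (.b (.l 34) (.l 34))) (.a (.l 34) (.l 34))) (.b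
      (.a (.l 34) (.l 34)) (.a (.l 99) (.l 99))))

theorem x_t2b_c1_u_f_M_h5 : chk3 (onCell 0 6442450944 0 6442450944 0 34359739 T_t2b_c1_u_f) x_t2b_c1_u_f_M_t5 5 4 1 = true := by decide +kernel

def x_t2b_c1_u_f_M_t6 : T :=
  (.b (.a (.l 99) (.l 99)) (.c (.l 99) (.a (.b (.l 99) (.c (.l 99) (.a (.l 99) (.b (.l 99) (.c
      (.l 99) (.l 51)))))) (.b (.c (.l 99) (.a (.l 99) (.b (.l 99) (.c (.l 99) (.l 51))))) (.c
      (.l 99) (.a (.b (.c (.l 99) (.l 51)) (.c (.l 99) (.l 51))) (.b (.c (.l 99) (.l 51)) (.c (.l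
      99) (.l 51)))))))))

theorem x_t2b_c1_u_f_M_h6 : chk3 (onCell 0 6442450944 0 6442450944 0 34359739 T_t2b_c1_u_f) x_t2b_c1_u_f_M_t6 10 5 1 = true := by decide +kernel

def x_t2b_c1_u_f_M_t7 : T :=
  (.b (.c (.l 99) (.a (.b (.l 99) (.c (.l 99) (.a (.l 99) (.b (.l 99) (.c (.l 99) (.l 51))))))
      (.b (.c (.l 99) (.a (.l 99) (.b (.l 99) (.c (.l 99) (.l 51))))) (.c (.l 99) (.a (.b (.c (.l
      99) (.l 51)) (.c (.l 99) (.l 51))) (.b (.c (.l 99) (.l 51)) (.c (.l 99) (.l 51)))))))) (.c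
      (.l 99) (.a (.b (.c (.l 99) (.a (.b (.c (.l 99) (.l 51)) (.c (.l 99) (.l 51))) (.b (.c (.l
      99) (.l 51)) (.c (.l 99) (.l 51))))) (.c (.l 99) (.a (.b (.c (.l 99) (.l 51)) (.c (.l 51)
      (.l 51))) (.b (.c (.l 51) (.l 51)) (.l 51))))) (.b (.c (.l 99) (.a (.b (.c (.l 99) (.l 51))
      (.c (.l 51) (.l 51))) (.b (.c (.l 51) (.l 51)) (.l 51)))) (.c (.l 99) (.l 51))))))

theorem x_t2b_c1_u_f_M_h7 : chk3 (onCell 0 6442450944 0 6442450944 0 34359739 T_t2b_c1_u_f) x_t2b_c1_u_f_M_t7 11 5 1 = true := by decide +kernel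

def x_t2b_c1_u_f_M_t8 : T :=
  (.b (.a (.b (.l 34) (.l 99)) (.l 99)) (.c (.l 99) (.a (.b (.l 99) (.c (.l 99) (.a (.l 99) (.b
      (.l 99) (.c (.l 99) (.l 35)))))) (.b (.c (.l 99) (.a (.l 99) (.b (.l 99) (.c (.l 99) (.l
      51))))) (.c (.l 99) (.a (.b (.c (.l 99) (.l 51)) (.c (.l 99) (.l 35))) (.b (.c (.l 99) (.l
      51)) (.c (.l 99) (.l 35)))))))))

theorem x_t2b_c1_u_f_M_h8 : chk3 (onCell 0 6442450944 0 6442450944 0 34359739 T_t2b_c1_u_f) x_t2b_c1_u_f_M_t8 8 6 1 = true := by decide +kernel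

def x_t2b_c1_u_f_M_t9 : T :=
  (.b (.c (.l 99) (.a (.b (.l 99) (.c (.l 99) (.a (.l 99) (.b (.l 99) (.c (.l 99) (.l 51))))))
      (.b (.c (.l 99) (.a (.l 99) (.b (.l 99) (.c (.l 99) (.l 51))))) (.c (.l 99) (.a (.b (.c (.l
      99) (.l 51)) (.c (.l 99) (.l 51))) (.b (.c (.l 99) (.l 51)) (.c (.l 99) (.l 51)))))))) (.c
      (.l 99) (.a (.b (.c (.l 99) (.a (.b (.c (.l 99) (.l 51)) (.c (.l 99) (.l 51))) (.b (.c (.l
      99) (.l 51)) (.c (.l 99) (.l 51))))) (.c (.l 99) (.a (.b (.c (.l 99) (.l 51)) (.c (.l 51)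
      (.l 35))) (.b (.c (.l 51) (.l 51)) (.l 51))))) (.b (.c (.l 99) (.a (.b (.c (.l 99) (.l 51))
      (.c (.l 51) (.l 51))) (.b (.c (.l 51) (.l 51)) (.l 51)))) (.c (.l 99) (.l 51))))))

theorem x_t2b_c1_u_f_M_h9 : chk3 (onCell 0 6442450944 0 6442450944 0 34359739 T_t2b_c1_u_f) x_t2b_c1_u_f_M_t9 9 6 1 = true := by decide +kernel

def x_t2b_c1_u_f_M_t10 : T :=
  (.a (.b (.c (.l 99) (.a (.b (.c (.l 99) (.a (.b (.c (.l 99) (.l 35)) (.c (.l 99) (.l 35))) (.b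
      (.c (.l 99) (.l 35)) (.c (.l 99) (.l 35))))) (.c (.l 99) (.a (.b (.c (.l 99) (.l 35)) (.l
      35)) (.b (.c (.l 51) (.l 35)) (.l 35))))) (.b (.c (.l 99) (.a (.b (.c (.l 99) (.l 35)) (.c
      (.l 51) (.l 35))) (.b (.c (.l 51) (.l 35)) (.l 51)))) (.c (.l 99) (.l 51))))) (.c (.l 99)
      (.a (.b (.c (.l 99) (.l 35)) (.c (.l 99) (.l 35))) (.b (.c (.l 99) (.l 35)) (.c (.a (.b (.l
      99) (.l 83)) (.l 83)) (.l 35)))))) (.b (.c (.l 99) (.a (.b (.c (.l 99) (.l 51)) (.c (.l 99)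
      (.l 51))) (.b (.c (.l 99) (.l 51)) (.c (.a (.b (.l 99) (.l 83)) (.l 83)) (.l 51))))) (.c
      (.l 99) (.a (.b (.c (.a (.b (.l 99) (.l 83)) (.l 83)) (.l 35)) (.l 83)) (.l 83)))))

theorem x_t2b_c1_u_f_M_h10 : chk3 (onCell 0 6442450944 0 6442450944 0 34359739 T_t2b_c1_u_f) x_t2b_c1_u_f_M_t10 4 7 1 = true := by decide +kernel

def x_t2b_c1_u_f_M_t11 : T :=
  (.a (.b (.c (.l 99) (.a (.b (.c (.l 99) (.a (.b (.c (.l 99) (.l 51)) (.c (.l 99) (.l 51))) (.b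
      (.c (.l 99) (.l 51)) (.c (.l 99) (.l 51))))) (.c (.l 99) (.a (.b (.c (.l 99) (.l 51)) (.c
      (.l 51) (.l 51))) (.b (.c (.l 51) (.l 51)) (.l 51))))) (.b (.c (.l 99) (.a (.b (.c (.l 99)
      (.l 51)) (.c (.l 51) (.l 51))) (.b (.c (.l 51) (.l 51)) (.l 51)))) (.c (.l 99) (.l 51)))))
      (.c (.l 99) (.a (.b (.c (.l 99) (.l 51)) (.c (.l 99) (.l 51))) (.b (.c (.l 99) (.l 51)) (.c
      (.a (.b (.l 99) (.l 83)) (.l 83)) (.l 51)))))) (.b (.c (.l 99) (.a (.b (.c (.l 99) (.l 51))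
      (.c (.l 99) (.l 51))) (.b (.c (.l 99) (.l 51)) (.c (.a (.b (.l 99) (.l 83)) (.l 83)) (.l
      51))))) (.c (.l 99) (.a (.b (.c (.a (.b (.l 99) (.l 83)) (.l 83)) (.l 51)) (.l 83)) (.l
      83)))))

theorem x_t2b_c1_u_f_M_h11 : chk3 (onCell 0 6442450944 0 6442450944 0 34359739 T_t2b_c1_u_f) x_t2b_c1_u_f_M_t11 5 6 1 = true := by decide +kernel

def x_t2b_c1_u_f_M_t12 : T :=
  (.a (.b (.c (.l 99) (.a (.b (.c (.a (.b (.l 99) (.l 83)) (.l 83)) (.l 51)) (.l 83)) (.l 83)))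
      (.l 83)) (.l 83))

theorem x_t2b_c1_u_f_M_h12 : chk3 (onCell 0 6442450944 0 6442450944 0 34359739 T_t2b_c1_u_f) x_t2b_c1_u_f_M_t12 5 7 1 = true := by decide +kernel

def x_t2b_c1_u_f_M_t13 : T :=
  (.b (.a (.l 99) (.l 99)) (.c (.l 99) (.a (.b (.l 99) (.c (.l 99) (.a (.l 99) (.b (.l 99) (.c
      (.l 99) (.l 51)))))) (.b (.c (.l 99) (.a (.l 99) (.b (.l 99) (.c (.l 99) (.l 51))))) (.c
      (.l 99) (.a (.b (.c (.l 99) (.l 51)) (.c (.l 99) (.l 51))) (.b (.c (.l 99) (.l 51)) (.c (.l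
      99) (.l 51)))))))))

theorem x_t2b_c1_u_f_M_h13 : chk3 (onCell 0 6442450944 0 6442450944 0 34359739 T_t2b_c1_u_f) x_t2b_c1_u_f_M_t13 12 4 1 = true := by decide +kernel

def x_t2b_c1_u_f_M_t14 : T :=
  (.b (.c (.l 99) (.a (.b (.l 99) (.c (.l 99) (.a (.l 99) (.b (.l 99) (.c (.l 99) (.l 51))))))
      (.b (.c (.l 99) (.a (.l 99) (.b (.l 99) (.c (.l 99) (.l 51))))) (.c (.l 99) (.a (.b (.c (.l
      99) (.l 51)) (.c (.l 99) (.l 51))) (.b (.c (.l 99) (.l 51)) (.c (.l 99) (.l 51)))))))) (.c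
      (.l 99) (.a (.b (.c (.l 99) (.a (.b (.c (.l 99) (.l 51)) (.c (.l 99) (.l 51))) (.b (.c (.l
      99) (.l 51)) (.c (.l 99) (.l 51))))) (.c (.l 99) (.a (.b (.c (.l 99) (.l 51)) (.c (.l 51)
      (.l 51))) (.b (.c (.l 51) (.l 51)) (.l 51))))) (.b (.c (.l 99) (.a (.b (.c (.l 99) (.l 51))
      (.c (.l 51) (.l 51))) (.b (.c (.l 51) (.l 51)) (.l 51)))) (.c (.l 99) (.l 51))))))

theorem x_t2b_c1_u_f_M_h14 : chk3 (onCell 0 6442450944 0 6442450944 0 34359739 T_t2b_c1_u_f) x_t2b_c1_u_f_M_t14 13 4 1 = true := by decide +kernel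

def x_t2b_c1_u_f_M_t15 : T :=
  (.a (.b (.c (.l 99) (.a (.b (.c (.l 99) (.a (.b (.c (.l 99) (.l 51)) (.c (.l 99) (.l 51))) (.b
      (.c (.l 99) (.l 51)) (.c (.l 99) (.l 51))))) (.c (.l 99) (.a (.b (.c (.l 99) (.l 51)) (.c
      (.l 51) (.l 51))) (.b (.c (.l 51) (.l 51)) (.l 51))))) (.b (.c (.l 99) (.a (.b (.c (.l 99)
      (.l 51)) (.c (.l 51) (.l 51))) (.b (.c (.l 51) (.l 51)) (.l 51)))) (.c (.l 99) (.l 51)))))
      (.c (.l 99) (.a (.b (.c (.l 99) (.l 51)) (.c (.l 99) (.l 51))) (.b (.c (.l 99) (.l 51)) (.c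
      (.a (.b (.l 99) (.l 83)) (.l 83)) (.l 51)))))) (.b (.c (.l 99) (.a (.b (.c (.l 99) (.l 51))
      (.c (.l 99) (.l 51))) (.b (.c (.l 99) (.l 51)) (.c (.a (.b (.l 99) (.l 83)) (.l 83)) (.l
      51))))) (.c (.l 99) (.a (.b (.c (.a (.b (.l 99) (.l 83)) (.l 83)) (.l 51)) (.l 83)) (.l
      83)))))

theorem x_t2b_c1_u_f_M_h15 : chk3 (onCell 0 6442450944 0 6442450944 0 34359739 T_t2b_c1_u_f) x_t2b_c1_u_f_M_t15 6 5 1 = true := by decide +kernel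

def x_t2b_c1_u_f_M_t16 : T :=
  (.a (.b (.c (.l 99) (.a (.b (.c (.l 99) (.a (.b (.c (.l 99) (.l 51)) (.c (.l 99) (.l 51))) (.b
      (.c (.l 99) (.l 51)) (.c (.l 99) (.l 51))))) (.c (.l 99) (.a (.b (.c (.l 99) (.l 51)) (.c
      (.l 51) (.l 51))) (.b (.c (.l 51) (.l 51)) (.l 51))))) (.b (.c (.l 99) (.a (.b (.c (.l 99)
      (.l 51)) (.c (.l 51) (.l 51))) (.b (.c (.l 51) (.l 51)) (.l 51)))) (.c (.l 99) (.l 51)))))
      (.c (.l 99) (.a (.b (.c (.l 99) (.l 51)) (.c (.l 99) (.l 51))) (.b (.c (.l 99) (.l 51)) (.c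
      (.a (.b (.l 99) (.l 83)) (.l 83)) (.l 51)))))) (.b (.c (.l 99) (.a (.b (.c (.l 99) (.l 51))
      (.c (.l 99) (.l 51))) (.b (.c (.l 99) (.l 51)) (.c (.a (.b (.l 99) (.l 83)) (.l 83)) (.l
      51))))) (.c (.l 99) (.a (.b (.c (.a (.b (.l 99) (.l 83)) (.l 83)) (.l 51)) (.l 83)) (.l
      83)))))

theorem x_t2b_c1_u_f_M_h16 : chk3 (onCell 0 6442450944 0 6442450944 0 34359739 T_t2b_c1_u_f) x_t2b_c1_u_f_M_t16 7 4 1 = true := by decide +kernel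

def x_t2b_c1_u_f_M_t17 : T :=
  (.a (.b (.c (.l 99) (.a (.b (.c (.a (.b (.l 99) (.l 83)) (.l 83)) (.l 51)) (.l 83)) (.l 83)))
      (.l 83)) (.l 83))

theorem x_t2b_c1_u_f_M_h17 : chk3 (onCell 0 6442450944 0 6442450944 0 34359739 T_t2b_c1_u_f) x_t2b_c1_u_f_M_t17 7 5 1 = true := by decide +kernel

def x_t2b_c1_u_f_M_t18 : T :=
  (.a (.b (.a (.b (.c (.l 99) (.a (.b (.c (.a (.b (.l 99) (.l 83)) (.l 83)) (.l 51)) (.l 83)) (.l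
      83))) (.l 83)) (.l 83)) (.l 83)) (.l 83))

theorem x_t2b_c1_u_f_M_h18 : chk3 (onCell 0 6442450944 0 6442450944 0 34359739 T_t2b_c1_u_f) x_t2b_c1_u_f_M_t18 3 3 1 = true := by decide +kernel

theorem x_t2b_c1_u_f_M : Tree 0 6442450944 0 6442450944 0 34359739 T_t2b_c1_u_f :=
  ⟨_, (chk3_a (chk3_b (chk3_a (chk3_b (chk3_a (chk3_b (chk3_c x_t2b_c1_u_f_M_h0
      x_t2b_c1_u_f_M_h1) x_t2b_c1_u_f_M_h2) x_t2b_c1_u_f_M_h3) x_t2b_c1_u_f_M_h4) (chk3_b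
      x_t2b_c1_u_f_M_h5 (chk3_a x_t2b_c1_u_f_M_h6 x_t2b_c1_u_f_M_h7))) (chk3_a (chk3_b (chk3_a
      x_t2b_c1_u_f_M_h8 x_t2b_c1_u_f_M_h9) x_t2b_c1_u_f_M_h10) (chk3_b x_t2b_c1_u_f_M_h11
      x_t2b_c1_u_f_M_h12))) (chk3_b (chk3_a (chk3_b (chk3_a x_t2b_c1_u_f_M_h13
      x_t2b_c1_u_f_M_h14) x_t2b_c1_u_f_M_h15) (chk3_b x_t2b_c1_u_f_M_h16 x_t2b_c1_u_f_M_h17))
      x_t2b_c1_u_f_M_h18))⟩

end Pool.Agent.Strip051.LC.E0.Ch
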