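import Pool.Agent.Strip051.LC.E0.Ch.Te

/-! # Small rests: certificate X_t3a_c1_n_M -/

set_option maxRecDepth 100000

namespace Pool.Agent.Strip051.LC.E0.Ch

open Pool.Agent.Strip051.PB

def x_t3a_c1_n_M_t0 : T :=
  (.b (.a (.a (.a (.a (.a (.c (.l 20) (.l 20)) (.l 20)) (.l 20)) (.l 20)) (.a (.a (.l 21) (.l
      22)) (.l 38))) (.a (.a (.l 38) (.l 38)) (.a (.c (.l 38) (.l 38)) (.l 38)))) (.a (.b (.a (.c
      (.a (.l 20) (.l 20)) (.a (.l 20) (.l 20))) (.a (.l 38) (.l 34))) (.a (.c (.a (.l 20) (.l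
      20)) (.a (.a (.l 20) (.l 16)) (.l 20))) (.a (.l 38) (.l 34)))) (.a (.c (.b (.l 38) (.l 34))
      (.b (.b (.l 38) (.l 38)) (.a (.l 34) (.l 34)))) (.c (.l 38) (.b (.b (.a (.l 34) (.l 34))
      (.a (.l 34) (.l 34))) (.b (.a (.l 34) (.l 34)) (.a (.l 34) (.l 34))))))))

theorem x_t3a_c1_n_M_h0 : chk3 (onCell 0 6442450944 0 6979321856 0 34359739 T_t3a_c1_n) x_t3a_c1_n_M_t0 2 16 1 = true := by decide +kernel

def x_t3a_c1_n_M_t1 : T :=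
  (.a (.a (.a (.b (.a (.c (.b (.l 16) (.l 16)) (.b (.l 16) (.l 16))) (.b (.l 16) (.l 16))) (.a
      (.c (.l 16) (.l 16)) (.l 16))) (.b (.a (.l 16) (.b (.l 18) (.l 18))) (.a (.b (.l 18) (.l
      18)) (.l 18)))) (.b (.a (.a (.l 34) (.l 34)) (.l 34)) (.a (.l 34) (.l 34)))) (.a (.b (.b
      (.a (.l 34) (.l 34)) (.a (.l 34) (.l 34))) (.b (.a (.l 34) (.l 34)) (.c (.l 34) (.l 34))))
      (.c (.b (.l 34) (.l 34)) (.a (.b (.l 34) (.l 34)) (.c (.l 34) (.b (.a (.l 34) (.c (.l 34)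
      (.l 51))) (.a (.c (.l 18) (.l 51)) (.c (.l 18) (.l 51)))))))))

theorem x_t3a_c1_n_M_h1 : chk3 (onCell 0 6442450944 0 6979321856 0 34359739 T_t3a_c1_n) x_t3a_c1_n_M_t1 2 17 1 = true := by decide +kernel

def x_t3a_c1_n_M_t2 : T :=
  (.b (.a (.b (.a (.c (.l 38) (.a (.c (.l 22) (.a (.c (.l 22) (.l 51)) (.c (.l 22) (.l 51)))) (.c
      (.l 38) (.a (.c (.l 38) (.l 51)) (.l 51))))) (.c (.l 38) (.a (.c (.l 38) (.l 51)) (.c (.l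
      83) (.l 51))))) (.c (.l 38) (.a (.a (.c (.l 34) (.a (.c (.l 34) (.l 51)) (.c (.l 34) (.l
      51)))) (.c (.l 34) (.l 51))) (.b (.c (.a (.l 34) (.l 83)) (.l 51)) (.a (.c (.a (.l 34) (.l
      83)) (.l 51)) (.l 83)))))) (.l 83)) (.a (.a (.c (.l 34) (.a (.c (.l 34) (.b (.a (.c (.l 34)
      (.l 51)) (.l 51)) (.a (.c (.l 34) (.l 51)) (.l 51)))) (.c (.l 34) (.l 51)))) (.c (.b (.l
      34) (.l 83)) (.a (.c (.b (.a (.l 34) (.l 83)) (.l 83)) (.l 51)) (.l 83)))) (.l 83)))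

theorem x_t3a_c1_n_M_h2 : chk3 (onCell 0 6442450944 0 6979321856 0 34359739 T_t3a_c1_n) x_t3a_c1_n_M_t2 3 8 1 = true := by decide +kernel

def x_t3a_c1_n_M_t3 : T :=
  (.a (.b (.a (.b (.a (.l 16) (.a (.l 16) (.l 18))) (.a (.a (.l 16) (.b (.l 16) (.l 18))) (.l
      34))) (.b (.a (.l 34) (.l 34)) (.l 34))) (.a (.b (.a (.a (.l 34) (.l 34)) (.l 34)) (.a (.l
      34) (.l 34))) (.l 34))) (.b (.b (.a (.l 34) (.l 34)) (.l 34)) (.b (.l 34) (.l 34))))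

theorem x_t3a_c1_n_M_h3 : chk3 (onCell 0 6442450944 0 6979321856 0 34359739 T_t3a_c1_n) x_t3a_c1_n_M_t3 4 9 1 = true := by decide +kernel

def x_t3a_c1_n_M_t4 : T :=
  (.a (.c (.b (.l 34) (.l 34)) (.b (.b (.l 34) (.l 34)) (.a (.l 34) (.c (.l 34) (.b (.l 34) (.a
      (.l 34) (.c (.l 18) (.l 51)))))))) (.c (.b (.l 34) (.l 34)) (.b (.a (.c (.l 34) (.b (.a (.l
      34) (.c (.l 18) (.l 51))) (.a (.l 34) (.c (.l 18) (.l 51))))) (.c (.l 34) (.b (.a (.c (.l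
      18) (.l 51)) (.c (.l 18) (.l 51))) (.a (.c (.l 18) (.l 51)) (.l 51))))) (.a (.c (.l 34) (.b
      (.a (.c (.l 18) (.l 51)) (.c (.l 18) (.l 51))) (.a (.c (.l 18) (.l 51)) (.c (.l 18) (.l
      51))))) (.c (.l 34) (.b (.a (.l 51) (.l 51)) (.l 51)))))))

theorem x_t3a_c1_n_M_h4 : chk3 (onCell 0 6442450944 0 6979321856 0 34359739 T_t3a_c1_n) x_t3a_c1_n_M_t4 5 9 1 = true := by decide +kernel

def x_t3a_c1_n_M_t5 : T :=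
  (.a (.a (.c (.b (.l 34) (.l 34)) (.b (.a (.c (.l 34) (.l 51)) (.c (.b (.a (.l 34) (.l 83)) (.a
      (.c (.l 18) (.b (.l 18) (.l 51))) (.l 83))) (.l 51))) (.a (.c (.b (.l 34) (.a (.l 34) (.l
      83))) (.l 51)) (.l 83)))) (.l 83)) (.l 83))

theorem x_t3a_c1_n_M_h5 : chk3 (onCell 0 6442450944 0 6979321856 0 34359739 T_t3a_c1_n) x_t3a_c1_n_M_t5 3 9 1 = true := by decide +kernel

def x_t3a_c1_n_M_t6 : T :=
  (.b (.a (.b (.a (.b (.l 34) (.l 34)) (.l 34)) (.a (.l 34) (.l 34))) (.b (.b (.l 34) (.l 34))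
      (.b (.a (.l 34) (.l 34)) (.a (.l 34) (.c (.l 34) (.l 34)))))) (.a (.b (.a (.l 34) (.l 34))
      (.a (.l 34) (.b (.l 34) (.c (.l 34) (.l 34))))) (.c (.l 34) (.b (.a (.l 34) (.c (.l 34) (.b
      (.a (.l 34) (.c (.l 18) (.l 51))) (.a (.l 34) (.c (.l 18) (.l 51)))))) (.a (.c (.l 34) (.b
      (.l 34) (.a (.l 34) (.c (.l 99) (.l 51))))) (.c (.l 34) (.b (.a (.c (.l 18) (.l 51)) (.c
      (.l 18) (.l 51))) (.a (.l 99) (.l 99)))))))))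

theorem x_t3a_c1_n_M_h6 : chk3 (onCell 0 6442450944 0 6979321856 0 34359739 T_t3a_c1_n) x_t3a_c1_n_M_t6 4 5 1 = true := by decide +kernel

def x_t3a_c1_n_M_t7 : T :=
  (.a (.c (.l 34) (.b (.a (.l 34) (.c (.l 34) (.b (.a (.c (.l 18) (.l 51)) (.c (.l 18) (.l 51)))
      (.a (.c (.l 18) (.l 51)) (.c (.l 18) (.l 51)))))) (.a (.c (.l 34) (.b (.a (.l 34) (.c (.l
      18) (.l 51))) (.a (.c (.l 18) (.l 51)) (.c (.l 18) (.l 51))))) (.c (.l 34) (.b (.a (.c (.l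
      18) (.l 51)) (.l 51)) (.a (.c (.l 34) (.l 51)) (.l 51))))))) (.c (.l 34) (.b (.a (.c (.l
      34) (.b (.a (.c (.l 18) (.l 51)) (.l 51)) (.l 51))) (.c (.b (.l 34) (.a (.l 18) (.c (.l 18)
      (.b (.l 18) (.l 51))))) (.l 51))) (.a (.c (.l 34) (.l 51)) (.c (.b (.a (.l 34) (.l 83)) (.l
      83)) (.l 51))))))

theorem x_t3a_c1_n_M_h7 : chk3 (onCell 0 6442450944 0 6979321856 0 34359739 T_t3a_c1_n) x_t3a_c1_n_M_t7 5 10 1 = true := by decide +kernel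

def x_t3a_c1_n_M_t8 : T :=
  (.a (.c (.l 34) (.b (.a (.c (.l 34) (.b (.a (.c (.l 18) (.l 51)) (.c (.l 18) (.l 51))) (.a (.c
      (.l 18) (.l 51)) (.l 51)))) (.c (.l 34) (.l 51))) (.a (.c (.l 34) (.b (.a (.c (.l 51) (.l
      51)) (.l 51)) (.l 51))) (.c (.b (.l 34) (.l 99)) (.l 51))))) (.c (.l 34) (.b (.a (.c (.b
      (.a (.l 18) (.l 83)) (.a (.c (.l 18) (.b (.l 18) (.l 51))) (.l 83))) (.l 51)) (.l 83)) (.l
      83))))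

theorem x_t3a_c1_n_M_h8 : chk3 (onCell 0 6442450944 0 6979321856 0 34359739 T_t3a_c1_n) x_t3a_c1_n_M_t8 5 11 1 = true := by decide +kernel

def x_t3a_c1_n_M_t9 : T :=
  (.a (.b (.a (.c (.l 83) (.l 83)) (.l 83)) (.l 83)) (.l 83))

theorem x_t3a_c1_n_M_h9 : chk3 (onCell 0 6442450944 0 6979321856 0 34359739 T_t3a_c1_n) x_t3a_c1_n_M_t9 3 5 1 = true := by decide +kernel

def x_t3a_c1_n_M_t10 : T :=
  (.a (.b (.a (.c (.l 99) (.b (.a (.l 99) (.l 99)) (.l 99))) (.c (.l 34) (.b (.a (.l 99) (.l 99))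
      (.l 99)))) (.a (.c (.l 99) (.b (.a (.l 99) (.c (.l 99) (.b (.l 99) (.a (.l 99) (.l 51)))))
      (.a (.c (.l 99) (.b (.a (.l 99) (.c (.l 99) (.l 35))) (.a (.c (.l 99) (.l 35)) (.c (.l 99)
      (.l 35))))) (.c (.l 99) (.b (.a (.c (.l 99) (.l 35)) (.l 51)) (.l 51)))))) (.c (.l 99) (.b
      (.a (.c (.l 99) (.l 51)) (.c (.l 99) (.l 51))) (.a (.c (.l 99) (.l 51)) (.l 83)))))) (.b
      (.a (.c (.l 34) (.b (.a (.l 99) (.l 83)) (.a (.c (.l 99) (.l 51)) (.l 83)))) (.l 83)) (.l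
      83)))

theorem x_t3a_c1_n_M_h10 : chk3 (onCell 0 6442450944 0 6979321856 0 34359739 T_t3a_c1_n) x_t3a_c1_n_M_t10 2 6 1 = true := by decide +kernel

def x_t3a_c1_n_M_t11 : T :=
  (.a (.b (.a (.c (.l 99) (.b (.a (.c (.l 99) (.b (.a (.c (.l 99) (.l 35)) (.l 51)) (.l 35))) (.c
      (.l 99) (.l 51))) (.a (.c (.l 99) (.l 35)) (.c (.l 99) (.l 35))))) (.c (.l 99) (.b (.a (.c
      (.l 99) (.l 35)) (.l 83)) (.l 83)))) (.a (.c (.l 99) (.b (.a (.c (.l 99) (.l 35)) (.l 83))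
      (.l 83))) (.l 83))) (.l 83))

theorem x_t3a_c1_n_M_h11 : chk3 (onCell 0 6442450944 0 6979321856 0 34359739 T_t3a_c1_n) x_t3a_c1_n_M_t11 2 7 1 = true := by decide +kernel

def x_t3a_c1_n_M_t12 : T :=
  (.l 83)

theorem x_t3a_c1_n_M_h12 : chk3 (onCell 0 6442450944 0 6979321856 0 34359739 T_t3a_c1_n) x_t3a_c1_n_M_t12 3 3 1 = true := by decide +kernel

theorem x_t3a_c1_n_M : Tree 0 6442450944 0 6979321856 0 34359739 T_t3a_c1_n :=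
  ⟨_, (chk3_b (chk3_b (chk3_b (chk3_a (chk3_b x_t3a_c1_n_M_h0 x_t3a_c1_n_M_h1) x_t3a_c1_n_M_h2)
      (chk3_a (chk3_a x_t3a_c1_n_M_h3 x_t3a_c1_n_M_h4) x_t3a_c1_n_M_h5)) (chk3_a (chk3_a
      x_t3a_c1_n_M_h6 (chk3_b x_t3a_c1_n_M_h7 x_t3a_c1_n_M_h8)) x_t3a_c1_n_M_h9)) (chk3_a (chk3_b
      x_t3a_c1_n_M_h10 x_t3a_c1_n_M_h11) x_t3a_c1_n_M_h12))⟩

end Pool.Agent.Strip051.LC.E0.Ch
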