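import Pool.Agent.Strip051.LC.E0.Ch.Te

/-! # Small rests: certificate X_t3a_c1_x_f_M_2 -/

set_option maxRecDepth 100000

namespace Pool.Agent.Strip051.LC.E0.Ch

open Pool.Agent.Strip051.PB

def x_t3a_c1_x_f_M_t30 : T :=
  (.a (.c (.l 99) (.b (.a (.c (.l 99) (.b (.a (.c (.l 99) (.l 35)) (.c (.l 99) (.l 35))) (.a (.c
      (.l 99) (.l 35)) (.c (.l 99) (.l 35))))) (.c (.l 99) (.b (.a (.c (.l 99) (.l 35)) (.c (.l
      99) (.l 35))) (.a (.c (.l 99) (.l 35)) (.l 51))))) (.a (.c (.l 99) (.b (.a (.c (.l 99) (.l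
      35)) (.c (.l 99) (.l 35))) (.a (.c (.l 99) (.l 35)) (.l 83)))) (.l 83)))) (.l 83))

theorem x_t3a_c1_x_f_M_h30 : chk3 (onCell 0 4294967296 0 10737418240 0 34359739 T_t3a_c1_x_f) x_t3a_c1_x_f_M_t30 8 63 2 = true := by decide +kernel

def x_t3a_c1_x_f_M_t31 : T :=
  (.l 35)

theorem x_t3a_c1_x_f_M_h31 : chk3 (onCell 0 4294967296 0 10737418240 0 34359739 T_t3a_c1_x_f) x_t3a_c1_x_f_M_t31 8 31 3 = true := by decide +kernel

def x_t3a_c1_x_f_M_t32 : T :=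
  (.l 83)

theorem x_t3a_c1_x_f_M_h32 : chk3 (onCell 0 4294967296 0 10737418240 0 34359739 T_t3a_c1_x_f) x_t3a_c1_x_f_M_t32 9 31 1 = true := by decide +kernel

def x_t3a_c1_x_f_M_t33 : T :=
  (.l 83)

theorem x_t3a_c1_x_f_M_h33 : chk3 (onCell 0 4294967296 0 10737418240 0 34359739 T_t3a_c1_x_f) x_t3a_c1_x_f_M_t33 5 15 1 = true := by decide +kernel

def x_t3a_c1_x_f_M_t34 : T :=
  (.l 83)

theorem x_t3a_c1_x_f_M_h34 : chk3 (onCell 0 4294967296 0 10737418240 0 34359739 T_t3a_c1_x_f) x_t3a_c1_x_f_M_t34 3 7 1 = true := by decide +kernel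

end Pool.Agent.Strip051.LC.E0.Ch
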