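import Pool.Agent.Strip051.LC.E0.Ch.Cert.X_t3a_c1_x_f_M_1
import Pool.Agent.Strip051.LC.E0.Ch.Cert.X_t3a_c1_x_f_M_2

/-! # Small rests: certificate X_t3a_c1_x_f_M -/

set_option maxRecDepth 100000

namespace Pool.Agent.Strip051.LC.E0.Ch

open Pool.Agent.Strip051.PB

theorem x_t3a_c1_x_f_M : Tree 0 4294967296 0 10737418240 0 34359739 T_t3a_c1_x_f :=
  ⟨_, (chk3_b (chk3_b (chk3_b (chk3_b (chk3_b x_t3a_c1_x_f_M_h0 x_t3a_c1_x_f_M_h1) (chk3_a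
      x_t3a_c1_x_f_M_h2 (chk3_a x_t3a_c1_x_f_M_h3 x_t3a_c1_x_f_M_h4))) (chk3_a x_t3a_c1_x_f_M_h5
      (chk3_a (chk3_b x_t3a_c1_x_f_M_h6 x_t3a_c1_x_f_M_h7) (chk3_b (chk3_a x_t3a_c1_x_f_M_h8
      x_t3a_c1_x_f_M_h9) (chk3_a x_t3a_c1_x_f_M_h10 x_t3a_c1_x_f_M_h11))))) (chk3_a (chk3_b
      (chk3_a x_t3a_c1_x_f_M_h12 x_t3a_c1_x_f_M_h13) (chk3_a x_t3a_c1_x_f_M_h14
      x_t3a_c1_x_f_M_h15)) (chk3_b (chk3_a (chk3_b x_t3a_c1_x_f_M_h16 x_t3a_c1_x_f_M_h17)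
      x_t3a_c1_x_f_M_h18) x_t3a_c1_x_f_M_h19))) (chk3_b (chk3_a (chk3_b (chk3_a
      x_t3a_c1_x_f_M_h20 x_t3a_c1_x_f_M_h21) (chk3_a (chk3_b (chk3_a x_t3a_c1_x_f_M_h22
      x_t3a_c1_x_f_M_h23) x_t3a_c1_x_f_M_h24) x_t3a_c1_x_f_M_h25)) x_t3a_c1_x_f_M_h26) (chk3_a
      (chk3_b x_t3a_c1_x_f_M_h27 (chk3_a (chk3_b x_t3a_c1_x_f_M_h28 (chk3_a (chk3_c (chk3_b
      x_t3a_c1_x_f_M_h29 x_t3a_c1_x_f_M_h30) x_t3a_c1_x_f_M_h31) x_t3a_c1_x_f_M_h32))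
      x_t3a_c1_x_f_M_h33)) x_t3a_c1_x_f_M_h34)))⟩

end Pool.Agent.Strip051.LC.E0.Ch
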