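import Pool.Agent.Strip051.LC.E0.Ch.Te

/-! # Small rests: certificate X_t3b_c3_f_M -/

set_option maxRecDepth 100000

namespace Pool.Agent.Strip051.LC.E0.Ch

open Pool.Agent.Strip051.PB

def x_t3b_c3_f_M_t0 : T :=
  (.b (.a (.a (.c (.a (.l 20) (.l 20)) (.a (.l 20) (.l 20))) (.a (.a (.l 21) (.l 38)) (.l 22)))
      (.a (.a (.l 38) (.l 38)) (.a (.l 38) (.l 38)))) (.a (.b (.a (.c (.a (.l 20) (.l 20)) (.a
      (.l 20) (.l 20))) (.a (.l 38) (.l 34))) (.a (.c (.a (.l 20) (.l 36)) (.a (.l 20) (.l 36)))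
      (.a (.l 38) (.l 34)))) (.a (.c (.b (.a (.l 34) (.l 34)) (.l 34)) (.b (.b (.a (.l 34) (.l
      34)) (.l 34)) (.a (.l 34) (.l 34)))) (.c (.l 38) (.b (.l 38) (.l 34))))))

theorem x_t3b_c3_f_M_h0 : chk3 (onCell 0 6442450944 0 6979321856 0 34359739 T_t3b_c3_f) x_t3b_c3_f_M_t0 2 16 1 = true := by decide +kernel

def x_t3b_c3_f_M_t1 : T :=
  (.a (.a (.a (.b (.c (.a (.l 16) (.l 16)) (.b (.l 20) (.l 16))) (.c (.a (.l 16) (.l 16)) (.a (.l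
      16) (.l 16)))) (.b (.a (.b (.l 16) (.l 16)) (.b (.l 18) (.l 18))) (.a (.b (.l 18) (.l 18))
      (.l 18)))) (.b (.a (.b (.l 34) (.l 34)) (.l 34)) (.a (.l 34) (.l 34)))) (.a (.b (.b (.a (.l
      34) (.l 34)) (.a (.l 34) (.l 34))) (.b (.l 34) (.l 34))) (.c (.b (.l 34) (.l 34)) (.b (.b
      (.l 34) (.l 34)) (.l 34)))))

theorem x_t3b_c3_f_M_h1 : chk3 (onCell 0 6442450944 0 6979321856 0 34359739 T_t3b_c3_f) x_t3b_c3_f_M_t1 2 17 1 = true := by decide +kernel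

def x_t3b_c3_f_M_t2 : T :=
  (.b (.a (.b (.a (.a (.l 38) (.c (.l 38) (.l 38))) (.c (.l 38) (.c (.l 38) (.l 51)))) (.c (.l
      38) (.a (.l 38) (.b (.c (.l 38) (.l 51)) (.b (.b (.a (.l 34) (.l 83)) (.a (.l 34) (.l 83)))
      (.a (.l 34) (.l 83))))))) (.l 83)) (.a (.a (.c (.l 34) (.a (.l 34) (.b (.l 34) (.l 34))))
      (.c (.l 34) (.a (.b (.l 34) (.l 83)) (.l 83)))) (.l 83)))

theorem x_t3b_c3_f_M_h2 : chk3 (onCell 0 6442450944 0 6979321856 0 34359739 T_t3b_c3_f) x_t3b_c3_f_M_t2 3 8 1 = true := by decide +kernel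

def x_t3b_c3_f_M_t3 : T :=
  (.a (.a (.a (.b (.a (.b (.a (.l 16) (.a (.l 16) (.l 18))) (.a (.a (.l 32) (.b (.l 16) (.l 34)))
      (.l 34))) (.b (.a (.l 34) (.l 34)) (.l 34))) (.a (.b (.a (.a (.l 34) (.l 34)) (.l 34)) (.a
      (.l 34) (.l 2))) (.b (.l 34) (.l 34)))) (.b (.b (.a (.l 34) (.l 34)) (.l 34)) (.b (.l 34)
      (.l 34)))) (.a (.c (.b (.l 34) (.l 34)) (.b (.b (.l 34) (.l 34)) (.l 34))) (.c (.b (.l 34)
      (.l 34)) (.b (.l 34) (.l 34))))) (.a (.a (.c (.l 34) (.b (.l 34) (.l 34))) (.l 83)) (.l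
      83)))

theorem x_t3b_c3_f_M_h3 : chk3 (onCell 0 6442450944 0 6979321856 0 34359739 T_t3b_c3_f) x_t3b_c3_f_M_t3 1 9 1 = true := by decide +kernel

def x_t3b_c3_f_M_t4 : T :=
  (.a (.a (.b (.b (.a (.a (.b (.l 34) (.l 2)) (.l 34)) (.b (.l 34) (.l 34))) (.a (.a (.l 2) (.l
      2)) (.l 34))) (.a (.b (.a (.l 2) (.l 34)) (.a (.l 34) (.l 34))) (.b (.b (.l 34) (.l 34))
      (.b (.l 34) (.a (.l 34) (.l 34)))))) (.b (.a (.b (.l 34) (.b (.l 34) (.l 34))) (.c (.l 34)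
      (.b (.l 34) (.l 34)))) (.a (.c (.l 34) (.b (.l 34) (.b (.l 34) (.l 34)))) (.c (.l 34) (.b
      (.b (.l 34) (.l 34)) (.l 83)))))) (.a (.b (.a (.c (.l 83) (.l 83)) (.l 83)) (.l 83)) (.l
      83)))

theorem x_t3b_c3_f_M_h4 : chk3 (onCell 0 6442450944 0 6979321856 0 34359739 T_t3b_c3_f) x_t3b_c3_f_M_t4 1 5 1 = true := by decide +kernel

def x_t3b_c3_f_M_t5 : T :=
  (.a (.b (.a (.b (.a (.l 99) (.l 99)) (.l 99)) (.b (.a (.c (.l 99) (.l 99)) (.l 83)) (.l 83)))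
      (.l 99)) (.l 83))

theorem x_t3b_c3_f_M_h5 : chk3 (onCell 0 6442450944 0 6979321856 0 34359739 T_t3b_c3_f) x_t3b_c3_f_M_t5 1 3 1 = true := by decide +kernel

theorem x_t3b_c3_f_M : Tree 0 6442450944 0 6979321856 0 34359739 T_t3b_c3_f :=
  ⟨_, (chk3_b (chk3_b (chk3_b (chk3_a (chk3_b x_t3b_c3_f_M_h0 x_t3b_c3_f_M_h1) x_t3b_c3_f_M_h2)
      x_t3b_c3_f_M_h3) x_t3b_c3_f_M_h4) x_t3b_c3_f_M_h5)⟩

end Pool.Agent.Strip051.LC.E0.Ch
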