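import Pool.Agent.Strip051.LC.E0.Ch.Te

/-! # Small rests: certificate X_t1a_c1_d_f_M_2 -/

set_option maxRecDepth 100000

namespace Pool.Agent.Strip051.LC.E0.Ch

open Pool.Agent.Strip051.PB

def x_t1a_c1_d_f_M_t37 : T :=
  (.a (.b (.c (.a (.b (.l 0) (.l 0)) (.b (.l 0) (.l 0))) (.a (.b (.l 0) (.l 0)) (.b (.l 0) (.l
      0)))) (.c (.a (.b (.a (.l 0) (.l 0)) (.c (.a (.l 19) (.b (.a (.l 19) (.l 0)) (.l 19))) (.a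
      (.l 19) (.b (.a (.l 19) (.l 0)) (.l 19))))) (.l 10)) (.a (.b (.a (.l 0) (.l 0)) (.c (.a (.l
      19) (.b (.a (.l 19) (.l 0)) (.l 19))) (.a (.l 19) (.b (.a (.l 19) (.l 0)) (.l 19))))) (.l
      10)))) (.b (.c (.a (.b (.l 0) (.l 0)) (.b (.l 0) (.l 0))) (.a (.b (.l 0) (.l 0)) (.b (.l 0)
      (.l 0)))) (.c (.a (.b (.l 0) (.l 10)) (.b (.l 0) (.c (.a (.l 0) (.l 0)) (.a (.l 0) (.l
      0))))) (.a (.b (.l 0) (.l 10)) (.b (.l 0) (.c (.a (.l 0) (.l 0)) (.a (.l 0) (.l 0))))))))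

theorem x_t1a_c1_d_f_M_h37 : chk3 (onCell 0 6442450944 0 3758096384 0 34359739 T_t1a_c1_d_f) x_t1a_c1_d_f_M_t37 35 34 8 = true := by decide +kernel

def x_t1a_c1_d_f_M_t38 : T :=
  (.a (.b (.c (.a (.b (.l 0) (.l 0)) (.b (.l 0) (.l 0))) (.a (.b (.l 0) (.l 0)) (.b (.l 0) (.l
      0)))) (.c (.a (.b (.a (.l 0) (.l 0)) (.c (.a (.l 19) (.b (.a (.l 19) (.l 0)) (.l 19))) (.a
      (.l 19) (.b (.a (.l 19) (.l 0)) (.l 19))))) (.l 10)) (.a (.b (.a (.l 0) (.l 0)) (.c (.a (.l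
      19) (.b (.a (.l 19) (.l 0)) (.l 19))) (.a (.l 19) (.b (.a (.l 19) (.l 0)) (.l 19))))) (.l
      10)))) (.b (.c (.a (.b (.l 0) (.l 0)) (.b (.l 0) (.l 0))) (.a (.b (.l 0) (.l 0)) (.b (.l 0)
      (.l 0)))) (.c (.a (.b (.l 0) (.l 10)) (.b (.l 0) (.c (.a (.l 0) (.l 0)) (.a (.l 0) (.l
      0))))) (.a (.b (.l 0) (.l 10)) (.b (.l 0) (.c (.a (.l 0) (.l 0)) (.a (.l 0) (.l 0))))))))

theorem x_t1a_c1_d_f_M_h38 : chk3 (onCell 0 6442450944 0 3758096384 0 34359739 T_t1a_c1_d_f) x_t1a_c1_d_f_M_t38 35 34 9 = true := by decide +kernel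

def x_t1a_c1_d_f_M_t39 : T :=
  (.c (.a (.b (.c (.a (.l 19) (.l 10)) (.a (.l 19) (.l 10))) (.l 19)) (.a (.c (.b (.l 10) (.l
      19)) (.b (.l 10) (.l 19))) (.c (.l 10) (.l 10)))) (.a (.b (.c (.a (.l 19) (.l 10)) (.a (.l
      19) (.l 10))) (.l 19)) (.a (.c (.b (.l 10) (.l 19)) (.b (.l 10) (.l 19))) (.l 10))))

theorem x_t1a_c1_d_f_M_h39 : chk3 (onCell 0 6442450944 0 3758096384 0 34359739 T_t1a_c1_d_f) x_t1a_c1_d_f_M_t39 35 35 4 = true := by decide +kernel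

def x_t1a_c1_d_f_M_t40 : T :=
  (.b (.a (.c (.b (.a (.l 19) (.c (.b (.l 4) (.l 19)) (.b (.l 4) (.l 19)))) (.l 19)) (.b (.a (.l
      19) (.c (.b (.l 4) (.l 19)) (.b (.l 4) (.l 19)))) (.l 19))) (.b (.c (.a (.c (.b (.l 0) (.a
      (.b (.l 0) (.l 19)) (.l 0))) (.b (.l 0) (.a (.b (.l 0) (.l 19)) (.l 0)))) (.c (.b (.l 0)
      (.l 0)) (.b (.l 0) (.l 0)))) (.a (.c (.b (.l 0) (.a (.b (.l 0) (.l 19)) (.l 0))) (.b (.l 0)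
      (.a (.b (.l 0) (.l 19)) (.l 0)))) (.c (.b (.l 0) (.l 0)) (.b (.l 0) (.l 0))))) (.c (.a (.l
      19) (.b (.a (.l 19) (.c (.b (.l 0) (.l 19)) (.b (.l 0) (.l 19)))) (.l 19))) (.a (.l 19) (.b
      (.a (.l 19) (.c (.b (.l 0) (.l 19)) (.b (.l 0) (.l 19)))) (.l 19)))))) (.l 19))

theorem x_t1a_c1_d_f_M_h40 : chk3 (onCell 0 6442450944 0 3758096384 0 34359739 T_t1a_c1_d_f) x_t1a_c1_d_f_M_t40 34 17 10 = true := by decide +kernel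

def x_t1a_c1_d_f_M_t41 : T :=
  (.b (.a (.c (.b (.a (.l 19) (.c (.b (.l 4) (.l 19)) (.b (.l 4) (.l 19)))) (.l 19)) (.b (.a (.l
      19) (.c (.b (.l 4) (.l 19)) (.b (.l 4) (.l 19)))) (.l 19))) (.b (.c (.a (.c (.b (.l 0) (.a
      (.b (.l 0) (.l 19)) (.l 0))) (.b (.l 0) (.a (.b (.l 0) (.l 19)) (.l 0)))) (.c (.b (.l 0)
      (.l 0)) (.b (.l 0) (.l 0)))) (.a (.c (.b (.l 0) (.a (.b (.l 0) (.l 19)) (.l 0))) (.b (.l 0)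
      (.a (.b (.l 0) (.l 19)) (.l 0)))) (.c (.b (.l 0) (.l 0)) (.b (.l 0) (.l 0))))) (.c (.a (.l
      19) (.b (.a (.l 19) (.c (.b (.l 0) (.l 19)) (.b (.l 0) (.l 19)))) (.l 19))) (.a (.l 19) (.b
      (.a (.l 19) (.c (.b (.l 0) (.l 19)) (.b (.l 0) (.l 19)))) (.l 19)))))) (.l 19))

theorem x_t1a_c1_d_f_M_h41 : chk3 (onCell 0 6442450944 0 3758096384 0 34359739 T_t1a_c1_d_f) x_t1a_c1_d_f_M_t41 34 17 11 = true := by decide +kernel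

def x_t1a_c1_d_f_M_t42 : T :=
  (.a (.b (.c (.a (.b (.l 0) (.l 0)) (.b (.l 0) (.l 0))) (.a (.b (.l 0) (.l 0)) (.b (.l 0) (.l
      0)))) (.c (.a (.b (.a (.l 0) (.l 0)) (.c (.a (.l 19) (.b (.a (.l 19) (.l 0)) (.l 19))) (.a
      (.l 19) (.b (.a (.l 19) (.l 0)) (.l 19))))) (.l 10)) (.a (.b (.a (.l 0) (.l 0)) (.c (.a (.l
      19) (.b (.a (.l 19) (.l 0)) (.l 19))) (.a (.l 19) (.b (.a (.l 19) (.l 0)) (.l 19))))) (.l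
      10)))) (.b (.c (.a (.b (.l 0) (.l 0)) (.b (.l 0) (.l 0))) (.a (.b (.l 0) (.l 0)) (.b (.l 0)
      (.l 0)))) (.c (.a (.b (.l 0) (.l 10)) (.b (.l 0) (.c (.a (.l 0) (.l 0)) (.a (.l 0) (.l
      0))))) (.a (.b (.l 0) (.l 10)) (.b (.l 0) (.c (.a (.l 0) (.l 0)) (.a (.l 0) (.l 0))))))))

theorem x_t1a_c1_d_f_M_h42 : chk3 (onCell 0 6442450944 0 3758096384 0 34359739 T_t1a_c1_d_f) x_t1a_c1_d_f_M_t42 35 34 10 = true := by decide +kernel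

def x_t1a_c1_d_f_M_t43 : T :=
  (.a (.b (.c (.a (.b (.l 0) (.l 0)) (.b (.l 0) (.l 0))) (.a (.b (.l 0) (.l 0)) (.b (.l 0) (.l
      0)))) (.c (.a (.b (.a (.l 0) (.l 0)) (.c (.a (.l 19) (.b (.a (.l 19) (.l 0)) (.l 19))) (.a
      (.l 19) (.b (.a (.l 19) (.l 0)) (.l 19))))) (.l 10)) (.a (.b (.a (.l 0) (.l 0)) (.c (.a (.l
      19) (.b (.a (.l 0) (.l 0)) (.l 19))) (.a (.l 19) (.b (.a (.l 0) (.l 0)) (.l 19))))) (.l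
      10)))) (.b (.c (.a (.b (.l 0) (.l 0)) (.b (.l 0) (.l 0))) (.a (.b (.l 0) (.l 0)) (.b (.l 0)
      (.l 0)))) (.c (.a (.b (.l 0) (.l 10)) (.b (.l 0) (.c (.a (.l 0) (.l 0)) (.a (.l 0) (.l
      0))))) (.a (.b (.l 0) (.l 10)) (.b (.l 0) (.c (.a (.l 0) (.l 0)) (.a (.l 0) (.l 0))))))))

theorem x_t1a_c1_d_f_M_h43 : chk3 (onCell 0 6442450944 0 3758096384 0 34359739 T_t1a_c1_d_f) x_t1a_c1_d_f_M_t43 35 34 11 = true := by decide +kernel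

def x_t1a_c1_d_f_M_t44 : T :=
  (.c (.a (.b (.c (.a (.l 19) (.l 10)) (.a (.l 19) (.l 10))) (.l 19)) (.a (.c (.b (.l 10) (.l
      19)) (.b (.l 10) (.l 19))) (.l 10))) (.a (.b (.c (.a (.l 19) (.l 10)) (.a (.l 19) (.l 10)))
      (.l 19)) (.a (.c (.b (.l 10) (.l 19)) (.b (.l 10) (.l 19))) (.l 10))))

theorem x_t1a_c1_d_f_M_h44 : chk3 (onCell 0 6442450944 0 3758096384 0 34359739 T_t1a_c1_d_f) x_t1a_c1_d_f_M_t44 35 35 5 = true := by decide +kernel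

def x_t1a_c1_d_f_M_t45 : T :=
  (.l 19)

theorem x_t1a_c1_d_f_M_h45 : chk3 (onCell 0 6442450944 0 3758096384 0 34359739 T_t1a_c1_d_f) x_t1a_c1_d_f_M_t45 16 17 3 = true := by decide +kernel

def x_t1a_c1_d_f_M_t46 : T :=
  (.a (.c (.b (.a (.l 19) (.c (.b (.l 4) (.l 19)) (.b (.l 4) (.l 19)))) (.l 19)) (.b (.a (.l 19)
      (.c (.b (.l 4) (.l 19)) (.b (.l 4) (.l 19)))) (.l 19))) (.b (.c (.a (.c (.b (.l 0) (.a (.b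
      (.l 0) (.l 19)) (.l 0))) (.b (.l 0) (.a (.b (.l 0) (.l 19)) (.l 0)))) (.b (.l 0) (.l 0)))
      (.a (.c (.b (.l 0) (.a (.b (.l 0) (.l 19)) (.l 0))) (.b (.l 0) (.a (.b (.l 0) (.l 19)) (.l
      0)))) (.b (.l 0) (.l 0)))) (.c (.a (.l 19) (.b (.a (.l 19) (.c (.b (.l 0) (.l 19)) (.b (.l
      0) (.l 19)))) (.l 19))) (.a (.l 19) (.b (.a (.l 19) (.c (.b (.l 0) (.l 19)) (.b (.l 0) (.l
      19)))) (.l 19))))))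

theorem x_t1a_c1_d_f_M_h46 : chk3 (onCell 0 6442450944 0 3758096384 0 34359739 T_t1a_c1_d_f) x_t1a_c1_d_f_M_t46 34 34 12 = true := by decide +kernel

def x_t1a_c1_d_f_M_t47 : T :=
  (.a (.c (.b (.a (.l 19) (.c (.b (.l 4) (.l 19)) (.b (.l 4) (.l 19)))) (.l 19)) (.b (.a (.l 19)
      (.c (.b (.l 4) (.l 19)) (.b (.l 4) (.l 19)))) (.l 19))) (.b (.c (.a (.c (.b (.l 0) (.a (.b
      (.l 0) (.l 19)) (.l 0))) (.b (.l 0) (.a (.b (.l 0) (.l 19)) (.l 0)))) (.b (.l 0) (.l 0)))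
      (.a (.c (.b (.l 0) (.a (.b (.l 0) (.l 19)) (.l 0))) (.b (.l 0) (.a (.b (.l 0) (.l 19)) (.l
      0)))) (.b (.l 0) (.l 0)))) (.c (.a (.l 19) (.b (.a (.l 19) (.c (.b (.l 0) (.l 19)) (.b (.l
      0) (.l 19)))) (.l 19))) (.a (.l 19) (.b (.a (.l 19) (.c (.b (.l 0) (.l 19)) (.b (.l 0) (.l
      19)))) (.l 19))))))

theorem x_t1a_c1_d_f_M_h47 : chk3 (onCell 0 6442450944 0 3758096384 0 34359739 T_t1a_c1_d_f) x_t1a_c1_d_f_M_t47 34 34 13 = true := by decide +kernel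

def x_t1a_c1_d_f_M_t48 : T :=
  (.l 19)

theorem x_t1a_c1_d_f_M_h48 : chk3 (onCell 0 6442450944 0 3758096384 0 34359739 T_t1a_c1_d_f) x_t1a_c1_d_f_M_t48 34 35 6 = true := by decide +kernel

def x_t1a_c1_d_f_M_t49 : T :=
  (.a (.b (.c (.a (.b (.l 0) (.l 0)) (.b (.l 0) (.l 0))) (.a (.b (.l 0) (.l 0)) (.b (.l 0) (.l
      0)))) (.c (.a (.b (.a (.l 0) (.l 0)) (.c (.a (.l 19) (.b (.a (.l 0) (.l 0)) (.l 19))) (.a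
      (.l 19) (.b (.a (.l 0) (.l 0)) (.l 19))))) (.l 10)) (.a (.b (.a (.l 0) (.l 0)) (.c (.a (.l
      19) (.b (.a (.l 0) (.l 0)) (.l 19))) (.a (.l 19) (.b (.a (.l 0) (.l 0)) (.l 19))))) (.l
      10)))) (.b (.c (.a (.b (.l 0) (.l 0)) (.b (.l 0) (.l 0))) (.a (.b (.l 0) (.l 0)) (.b (.l 0)
      (.l 0)))) (.c (.a (.b (.l 0) (.l 10)) (.b (.l 0) (.c (.a (.l 0) (.l 0)) (.a (.l 0) (.l
      0))))) (.a (.b (.l 0) (.l 10)) (.b (.l 0) (.c (.a (.l 0) (.l 0)) (.a (.l 0) (.l 0))))))))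

theorem x_t1a_c1_d_f_M_h49 : chk3 (onCell 0 6442450944 0 3758096384 0 34359739 T_t1a_c1_d_f) x_t1a_c1_d_f_M_t49 35 34 12 = true := by decide +kernel

def x_t1a_c1_d_f_M_t50 : T :=
  (.a (.b (.c (.a (.b (.l 0) (.l 0)) (.b (.l 0) (.l 0))) (.a (.b (.l 0) (.l 0)) (.b (.l 0) (.l
      0)))) (.c (.a (.b (.a (.l 0) (.l 0)) (.c (.a (.l 19) (.b (.a (.l 0) (.l 0)) (.l 19))) (.a
      (.l 19) (.b (.a (.l 0) (.l 0)) (.l 19))))) (.l 10)) (.a (.b (.a (.l 0) (.l 0)) (.c (.a (.l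
      19) (.b (.a (.l 0) (.l 0)) (.l 19))) (.a (.l 19) (.b (.a (.l 0) (.l 0)) (.l 19))))) (.l
      10)))) (.b (.c (.a (.b (.l 0) (.l 0)) (.b (.l 0) (.l 0))) (.a (.b (.l 0) (.l 0)) (.b (.l 0)
      (.l 0)))) (.c (.a (.b (.l 0) (.l 10)) (.b (.l 0) (.c (.a (.l 0) (.l 0)) (.a (.l 0) (.l
      0))))) (.a (.b (.l 0) (.l 10)) (.b (.l 0) (.c (.a (.l 0) (.l 0)) (.a (.l 0) (.l 0))))))))

theorem x_t1a_c1_d_f_M_h50 : chk3 (onCell 0 6442450944 0 3758096384 0 34359739 T_t1a_c1_d_f) x_t1a_c1_d_f_M_t50 35 34 13 = true := by decide +kernel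

def x_t1a_c1_d_f_M_t51 : T :=
  (.c (.a (.b (.c (.a (.l 19) (.l 10)) (.a (.l 19) (.l 10))) (.l 19)) (.a (.c (.b (.l 10) (.l
      19)) (.b (.l 10) (.l 19))) (.l 10))) (.a (.b (.c (.a (.l 19) (.l 10)) (.a (.l 19) (.l 10)))
      (.l 19)) (.a (.b (.l 10) (.l 19)) (.l 10))))

theorem x_t1a_c1_d_f_M_h51 : chk3 (onCell 0 6442450944 0 3758096384 0 34359739 T_t1a_c1_d_f) x_t1a_c1_d_f_M_t51 35 35 6 = true := by decide +kernel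

def x_t1a_c1_d_f_M_t52 : T :=
  (.a (.c (.b (.a (.l 19) (.c (.b (.l 4) (.l 19)) (.b (.l 4) (.l 19)))) (.l 19)) (.b (.a (.l 19)
      (.c (.b (.l 4) (.l 19)) (.b (.l 4) (.l 19)))) (.l 19))) (.b (.c (.a (.c (.b (.l 0) (.a (.b
      (.l 0) (.l 19)) (.l 0))) (.b (.l 0) (.a (.b (.l 0) (.l 19)) (.l 0)))) (.b (.l 0) (.l 0)))
      (.a (.c (.b (.l 0) (.a (.b (.l 0) (.l 19)) (.l 0))) (.b (.l 0) (.a (.b (.l 0) (.l 19)) (.l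
      0)))) (.b (.l 0) (.l 0)))) (.c (.a (.l 19) (.b (.a (.l 19) (.c (.b (.l 0) (.l 19)) (.b (.l
      0) (.l 19)))) (.l 19))) (.a (.l 19) (.b (.a (.l 19) (.c (.b (.l 0) (.l 19)) (.b (.l 0) (.l
      19)))) (.l 19))))))

theorem x_t1a_c1_d_f_M_h52 : chk3 (onCell 0 6442450944 0 3758096384 0 34359739 T_t1a_c1_d_f) x_t1a_c1_d_f_M_t52 34 34 14 = true := by decide +kernel

def x_t1a_c1_d_f_M_t53 : T :=
  (.a (.c (.b (.a (.l 19) (.c (.b (.l 4) (.l 19)) (.b (.l 4) (.l 19)))) (.l 19)) (.b (.a (.l 19)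
      (.c (.b (.l 4) (.l 19)) (.b (.l 4) (.l 19)))) (.l 19))) (.b (.c (.a (.c (.b (.l 0) (.a (.b
      (.l 0) (.l 19)) (.l 0))) (.b (.l 0) (.a (.b (.l 0) (.l 19)) (.l 0)))) (.b (.l 0) (.l 0)))
      (.a (.c (.b (.l 0) (.a (.b (.l 0) (.l 19)) (.l 0))) (.b (.l 0) (.a (.b (.l 0) (.l 19)) (.l
      0)))) (.b (.l 0) (.l 0)))) (.c (.a (.l 19) (.b (.a (.l 19) (.c (.b (.l 0) (.l 19)) (.b (.l
      0) (.l 19)))) (.l 19))) (.a (.l 19) (.b (.a (.l 19) (.c (.b (.l 0) (.l 19)) (.b (.l 0) (.l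
      19)))) (.l 19))))))

theorem x_t1a_c1_d_f_M_h53 : chk3 (onCell 0 6442450944 0 3758096384 0 34359739 T_t1a_c1_d_f) x_t1a_c1_d_f_M_t53 34 34 15 = true := by decide +kernel

def x_t1a_c1_d_f_M_t54 : T :=
  (.l 19)

theorem x_t1a_c1_d_f_M_h54 : chk3 (onCell 0 6442450944 0 3758096384 0 34359739 T_t1a_c1_d_f) x_t1a_c1_d_f_M_t54 34 35 7 = true := by decide +kernel

def x_t1a_c1_d_f_M_t55 : T :=
  (.a (.b (.c (.a (.b (.l 0) (.l 0)) (.b (.l 0) (.l 0))) (.a (.b (.l 0) (.l 0)) (.b (.l 0) (.l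
      0)))) (.c (.a (.b (.a (.l 0) (.l 0)) (.c (.a (.l 19) (.b (.a (.l 0) (.l 0)) (.l 19))) (.a
      (.l 19) (.b (.a (.l 0) (.l 0)) (.l 19))))) (.l 10)) (.a (.b (.a (.l 0) (.l 0)) (.c (.a (.l
      19) (.b (.a (.l 0) (.l 0)) (.l 19))) (.a (.l 19) (.b (.a (.l 0) (.l 0)) (.l 19))))) (.l
      10)))) (.b (.c (.a (.b (.l 0) (.l 0)) (.b (.l 0) (.l 0))) (.a (.b (.l 0) (.l 0)) (.b (.l 0)
      (.l 0)))) (.c (.a (.b (.l 0) (.l 10)) (.b (.l 0) (.c (.a (.l 0) (.l 0)) (.a (.l 0) (.l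
      0))))) (.a (.b (.l 0) (.l 10)) (.b (.l 0) (.c (.a (.l 0) (.l 0)) (.a (.l 0) (.l 0))))))))

theorem x_t1a_c1_d_f_M_h55 : chk3 (onCell 0 6442450944 0 3758096384 0 34359739 T_t1a_c1_d_f) x_t1a_c1_d_f_M_t55 35 34 14 = true := by decide +kernel

def x_t1a_c1_d_f_M_t56 : T :=
  (.a (.b (.c (.a (.b (.l 0) (.l 0)) (.b (.l 0) (.l 0))) (.a (.b (.l 0) (.l 0)) (.b (.l 0) (.l
      0)))) (.c (.a (.b (.a (.l 0) (.l 0)) (.c (.a (.l 19) (.b (.l 0) (.l 19))) (.a (.l 19) (.b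
      (.l 0) (.l 19))))) (.l 10)) (.a (.b (.a (.l 0) (.l 0)) (.c (.a (.l 19) (.b (.l 0) (.l 19)))
      (.a (.l 19) (.b (.l 0) (.l 19))))) (.l 10)))) (.b (.c (.a (.b (.l 0) (.l 0)) (.b (.l 0) (.l
      0))) (.a (.b (.l 0) (.l 0)) (.b (.l 0) (.l 0)))) (.c (.a (.b (.l 0) (.l 10)) (.b (.l 0) (.c
      (.a (.l 0) (.l 0)) (.a (.l 0) (.l 0))))) (.a (.b (.l 0) (.l 10)) (.b (.l 0) (.c (.a (.l 0)
      (.l 0)) (.a (.l 0) (.l 0))))))))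

theorem x_t1a_c1_d_f_M_h56 : chk3 (onCell 0 6442450944 0 3758096384 0 34359739 T_t1a_c1_d_f) x_t1a_c1_d_f_M_t56 35 34 15 = true := by decide +kernel

def x_t1a_c1_d_f_M_t57 : T :=
  (.c (.a (.b (.c (.a (.l 19) (.l 10)) (.a (.l 19) (.l 10))) (.l 19)) (.a (.b (.l 10) (.l 19))
      (.l 10))) (.a (.b (.c (.a (.l 19) (.l 10)) (.a (.l 19) (.l 10))) (.l 19)) (.a (.b (.l 10)
      (.l 19)) (.l 10))))

theorem x_t1a_c1_d_f_M_h57 : chk3 (onCell 0 6442450944 0 3758096384 0 34359739 T_t1a_c1_d_f) x_t1a_c1_d_f_M_t57 35 35 7 = true := by decide +kernel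

def x_t1a_c1_d_f_M_t58 : T :=
  (.a (.b (.c (.a (.b (.l 0) (.l 0)) (.b (.l 0) (.l 0))) (.a (.b (.l 0) (.l 0)) (.b (.l 0) (.l
      0)))) (.c (.a (.b (.l 0) (.c (.l 0) (.l 0))) (.b (.l 0) (.l 0))) (.a (.b (.l 0) (.c (.l 0)
      (.l 0))) (.b (.l 0) (.c (.l 0) (.l 0)))))) (.b (.c (.a (.b (.l 0) (.l 0)) (.l 0)) (.a (.l
      0) (.l 0))) (.c (.a (.b (.l 0) (.c (.a (.l 0) (.l 0)) (.a (.l 0) (.l 0)))) (.b (.l 0) (.l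
      0))) (.a (.b (.l 0) (.c (.a (.l 0) (.l 0)) (.a (.l 0) (.l 0)))) (.b (.l 0) (.l 0))))))

theorem x_t1a_c1_d_f_M_h58 : chk3 (onCell 0 6442450944 0 3758096384 0 34359739 T_t1a_c1_d_f) x_t1a_c1_d_f_M_t58 36 34 8 = true := by decide +kernel

def x_t1a_c1_d_f_M_t59 : T :=
  (.a (.b (.c (.a (.b (.l 0) (.l 0)) (.b (.l 0) (.l 0))) (.a (.b (.l 0) (.l 0)) (.b (.l 0) (.l
      0)))) (.c (.a (.b (.l 0) (.c (.l 0) (.l 0))) (.b (.l 0) (.c (.l 0) (.l 0)))) (.a (.b (.l 0)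
      (.c (.l 0) (.l 0))) (.b (.l 0) (.c (.l 0) (.l 0)))))) (.b (.c (.a (.l 0) (.l 0)) (.a (.l 0)
      (.l 0))) (.c (.a (.b (.l 0) (.c (.a (.l 0) (.l 0)) (.a (.l 0) (.l 0)))) (.b (.l 0) (.l 0)))
      (.a (.b (.l 0) (.c (.a (.l 0) (.l 0)) (.a (.l 0) (.l 0)))) (.b (.l 0) (.l 0))))))

theorem x_t1a_c1_d_f_M_h59 : chk3 (onCell 0 6442450944 0 3758096384 0 34359739 T_t1a_c1_d_f) x_t1a_c1_d_f_M_t59 36 34 9 = true := by decide +kernel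

def x_t1a_c1_d_f_M_t60 : T :=
  (.b (.c (.a (.b (.c (.a (.l 0) (.l 0)) (.a (.l 0) (.b (.l 0) (.l 0)))) (.l 10)) (.b (.c (.a (.b
      (.l 0) (.l 0)) (.l 0)) (.a (.b (.l 0) (.l 0)) (.l 0))) (.c (.a (.l 10) (.b (.l 0) (.l 0)))
      (.a (.l 10) (.b (.l 0) (.l 0)))))) (.a (.b (.c (.a (.l 0) (.b (.l 0) (.l 0))) (.a (.l 0)
      (.b (.l 0) (.l 0)))) (.l 10)) (.b (.c (.a (.b (.l 0) (.l 0)) (.l 0)) (.a (.b (.l 0) (.l 0))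
      (.l 0))) (.c (.a (.l 10) (.b (.l 0) (.l 0))) (.a (.l 10) (.b (.l 0) (.l 0))))))) (.l 10))

theorem x_t1a_c1_d_f_M_h60 : chk3 (onCell 0 6442450944 0 3758096384 0 34359739 T_t1a_c1_d_f) x_t1a_c1_d_f_M_t60 72 35 8 = true := by decide +kernel

def x_t1a_c1_d_f_M_t61 : T :=
  (.b (.c (.a (.b (.c (.a (.l 0) (.l 0)) (.a (.l 0) (.l 0))) (.c (.a (.l 0) (.l 0)) (.a (.l 0)
      (.l 0)))) (.b (.c (.l 0) (.l 0)) (.c (.a (.l 0) (.l 0)) (.a (.l 0) (.l 0))))) (.a (.b (.c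
      (.a (.l 0) (.l 0)) (.a (.l 0) (.l 0))) (.c (.a (.l 0) (.l 0)) (.a (.l 0) (.l 0)))) (.b (.c
      (.l 0) (.l 0)) (.c (.a (.l 0) (.l 0)) (.a (.l 0) (.l 0)))))) (.c (.a (.b (.c (.a (.l 10)
      (.b (.l 0) (.l 0))) (.a (.l 10) (.b (.l 0) (.l 0)))) (.l 10)) (.b (.c (.a (.b (.l 0) (.l
      0)) (.b (.l 0) (.l 0))) (.a (.b (.l 0) (.l 0)) (.b (.l 0) (.l 0)))) (.l 10))) (.a (.b (.c
      (.a (.l 10) (.b (.l 0) (.l 0))) (.a (.l 10) (.b (.l 0) (.l 0)))) (.l 10)) (.b (.c (.a (.b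
      (.l 0) (.l 0)) (.b (.l 0) (.l 0))) (.a (.b (.l 0) (.l 0)) (.b (.l 0) (.l 0)))) (.l 10)))))

theorem x_t1a_c1_d_f_M_h61 : chk3 (onCell 0 6442450944 0 3758096384 0 34359739 T_t1a_c1_d_f) x_t1a_c1_d_f_M_t61 73 35 8 = true := by decide +kernel

def x_t1a_c1_d_f_M_t62 : T :=
  (.b (.c (.a (.b (.c (.a (.l 0) (.b (.l 0) (.l 0))) (.a (.l 0) (.b (.l 0) (.l 0)))) (.l 10)) (.b
      (.c (.a (.b (.l 0) (.l 0)) (.l 0)) (.a (.b (.l 0) (.l 0)) (.l 0))) (.c (.a (.l 10) (.b (.l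
      0) (.l 0))) (.a (.l 10) (.b (.l 0) (.l 0)))))) (.a (.b (.c (.a (.l 0) (.b (.l 0) (.l 0)))
      (.a (.l 0) (.b (.l 0) (.l 0)))) (.l 10)) (.b (.c (.a (.b (.l 0) (.l 0)) (.l 0)) (.a (.b (.l
      0) (.l 0)) (.l 0))) (.c (.a (.l 10) (.l 0)) (.a (.l 10) (.l 0)))))) (.l 10))

theorem x_t1a_c1_d_f_M_h62 : chk3 (onCell 0 6442450944 0 3758096384 0 34359739 T_t1a_c1_d_f) x_t1a_c1_d_f_M_t62 72 35 9 = true := by decide +kernel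

def x_t1a_c1_d_f_M_t63 : T :=
  (.c (.a (.b (.c (.a (.l 0) (.l 0)) (.a (.l 0) (.l 0))) (.c (.a (.l 0) (.l 0)) (.a (.l 0) (.l
      0)))) (.b (.c (.l 0) (.l 0)) (.c (.a (.l 0) (.l 0)) (.a (.l 0) (.l 0))))) (.a (.b (.c (.a
      (.l 0) (.l 0)) (.a (.l 0) (.l 0))) (.c (.a (.l 0) (.l 0)) (.a (.l 0) (.l 0)))) (.b (.c (.l
      0) (.l 0)) (.c (.a (.l 0) (.l 0)) (.a (.l 0) (.l 0))))))

theorem x_t1a_c1_d_f_M_h63 : chk3 (onCell 0 6442450944 0 3758096384 0 34359739 T_t1a_c1_d_f) x_t1a_c1_d_f_M_t63 73 70 9 = true := by decide +kernel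

def x_t1a_c1_d_f_M_t64 : T :=
  (.c (.a (.b (.c (.a (.l 10) (.b (.l 0) (.l 0))) (.a (.l 10) (.b (.l 0) (.l 0)))) (.l 10)) (.b
      (.c (.a (.b (.l 0) (.l 0)) (.b (.l 0) (.l 0))) (.a (.b (.l 0) (.l 0)) (.b (.l 0) (.l 0))))
      (.c (.a (.l 10) (.b (.l 0) (.l 10))) (.a (.l 10) (.b (.l 0) (.l 10)))))) (.a (.b (.c (.a
      (.l 10) (.b (.l 0) (.l 0))) (.a (.l 10) (.b (.l 0) (.l 0)))) (.l 10)) (.b (.c (.a (.b (.l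
      0) (.l 0)) (.b (.l 0) (.l 0))) (.a (.b (.l 0) (.l 0)) (.l 0))) (.c (.a (.l 10) (.b (.l 0)
      (.l 10))) (.a (.l 10) (.b (.l 0) (.l 10)))))))

theorem x_t1a_c1_d_f_M_h64 : chk3 (onCell 0 6442450944 0 3758096384 0 34359739 T_t1a_c1_d_f) x_t1a_c1_d_f_M_t64 73 71 9 = true := by decide +kernel

def x_t1a_c1_d_f_M_t65 : T :=
  (.c (.b (.c (.a (.b (.l 0) (.l 0)) (.b (.l 0) (.l 0))) (.a (.b (.l 0) (.l 0)) (.b (.l 0) (.l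
      0)))) (.c (.a (.b (.l 0) (.l 0)) (.b (.l 0) (.l 0))) (.a (.b (.l 0) (.l 0)) (.b (.l 0) (.l
      0))))) (.b (.c (.a (.b (.l 0) (.l 0)) (.b (.l 0) (.l 0))) (.a (.b (.l 0) (.l 0)) (.b (.l 0)
      (.l 0)))) (.c (.a (.b (.l 0) (.l 0)) (.b (.l 0) (.l 0))) (.a (.b (.l 0) (.l 0)) (.b (.l 0)
      (.l 0))))))

theorem x_t1a_c1_d_f_M_h65 : chk3 (onCell 0 6442450944 0 3758096384 0 34359739 T_t1a_c1_d_f) x_t1a_c1_d_f_M_t65 74 34 4 = true := by decide +kernel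

end Pool.Agent.Strip051.LC.E0.Ch
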