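import Pool.Agent.Strip051.LC.E0.Ch.Te

/-! # Small rests: certificate X_t1a_c1_d_f_M_3 -/

set_option maxRecDepth 100000

namespace Pool.Agent.Strip051.LC.E0.Ch

open Pool.Agent.Strip051.PB

def x_t1a_c1_d_f_M_t66 : T :=
  (.c (.a (.b (.l 0) (.c (.a (.l 0) (.l 0)) (.a (.l 0) (.l 0)))) (.b (.l 0) (.c (.a (.l 0) (.l
      0)) (.a (.l 0) (.l 0))))) (.a (.b (.l 0) (.c (.a (.l 0) (.l 0)) (.a (.l 0) (.l 0)))) (.b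
      (.l 0) (.c (.a (.l 0) (.l 0)) (.a (.l 0) (.l 0))))))

theorem x_t1a_c1_d_f_M_h66 : chk3 (onCell 0 6442450944 0 3758096384 0 34359739 T_t1a_c1_d_f) x_t1a_c1_d_f_M_t66 74 70 8 = true := by decide +kernel

def x_t1a_c1_d_f_M_t67 : T :=
  (.c (.a (.b (.c (.a (.b (.l 0) (.l 0)) (.l 0)) (.a (.b (.l 0) (.l 0)) (.l 0))) (.c (.a (.b (.l
      0) (.l 10)) (.b (.l 0) (.l 0))) (.a (.b (.l 0) (.l 10)) (.b (.l 0) (.l 0))))) (.b (.c (.a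
      (.l 0) (.l 0)) (.a (.l 0) (.l 0))) (.c (.a (.b (.l 0) (.l 0)) (.b (.l 0) (.l 0))) (.a (.b
      (.l 0) (.l 0)) (.b (.l 0) (.l 0)))))) (.a (.b (.c (.a (.b (.l 0) (.l 0)) (.l 0)) (.a (.l 0)
      (.l 0))) (.c (.a (.b (.l 0) (.l 10)) (.b (.l 0) (.l 0))) (.a (.b (.l 0) (.l 0)) (.b (.l 0)
      (.l 0))))) (.b (.c (.a (.l 0) (.l 0)) (.a (.l 0) (.l 0))) (.c (.a (.b (.l 0) (.l 0)) (.b
      (.l 0) (.l 0))) (.a (.b (.l 0) (.l 0)) (.b (.l 0) (.l 0)))))))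

theorem x_t1a_c1_d_f_M_h67 : chk3 (onCell 0 6442450944 0 3758096384 0 34359739 T_t1a_c1_d_f) x_t1a_c1_d_f_M_t67 74 71 8 = true := by decide +kernel

def x_t1a_c1_d_f_M_t68 : T :=
  (.c (.a (.b (.l 0) (.c (.a (.l 0) (.l 0)) (.a (.l 0) (.l 0)))) (.b (.l 0) (.c (.a (.l 0) (.l
      0)) (.a (.l 0) (.l 0))))) (.a (.b (.l 0) (.c (.a (.l 0) (.l 0)) (.a (.l 0) (.l 0)))) (.b
      (.l 0) (.c (.a (.l 0) (.l 0)) (.l 0)))))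

theorem x_t1a_c1_d_f_M_h68 : chk3 (onCell 0 6442450944 0 3758096384 0 34359739 T_t1a_c1_d_f) x_t1a_c1_d_f_M_t68 74 70 9 = true := by decide +kernel

def x_t1a_c1_d_f_M_t69 : T :=
  (.c (.a (.b (.c (.a (.l 0) (.l 0)) (.a (.l 0) (.l 0))) (.c (.a (.b (.l 0) (.l 0)) (.b (.l 0)
      (.l 0))) (.a (.b (.l 0) (.l 0)) (.b (.l 0) (.l 0))))) (.b (.c (.a (.l 0) (.l 0)) (.a (.l 0)
      (.l 0))) (.c (.a (.b (.l 0) (.l 0)) (.b (.l 0) (.l 0))) (.a (.b (.l 0) (.l 0)) (.b (.l 0)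
      (.l 0)))))) (.a (.b (.c (.a (.l 0) (.l 0)) (.a (.l 0) (.l 0))) (.c (.a (.b (.l 0) (.l 0))
      (.b (.l 0) (.l 0))) (.a (.b (.l 0) (.l 0)) (.b (.l 0) (.l 0))))) (.b (.c (.a (.l 0) (.l 0))
      (.a (.l 0) (.l 0))) (.c (.a (.b (.l 0) (.l 0)) (.b (.l 0) (.l 0))) (.a (.b (.l 0) (.l 0))
      (.b (.l 0) (.l 0)))))))

theorem x_t1a_c1_d_f_M_h69 : chk3 (onCell 0 6442450944 0 3758096384 0 34359739 T_t1a_c1_d_f) x_t1a_c1_d_f_M_t69 74 71 9 = true := by decide +kernel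

def x_t1a_c1_d_f_M_t70 : T :=
  (.a (.b (.c (.a (.c (.b (.l 0) (.l 0)) (.b (.l 0) (.l 0))) (.b (.l 0) (.l 2))) (.a (.c (.b (.l
      0) (.l 0)) (.b (.l 0) (.l 0))) (.b (.l 0) (.l 2)))) (.a (.c (.c (.b (.l 2) (.l 2)) (.b (.l
      2) (.l 2))) (.c (.b (.l 2) (.l 2)) (.b (.l 2) (.l 2)))) (.c (.b (.l 2) (.l 2)) (.b (.l 2)
      (.l 2))))) (.b (.a (.l 2) (.l 2)) (.a (.l 2) (.l 2))))

theorem x_t1a_c1_d_f_M_h70 : chk3 (onCell 0 6442450944 0 3758096384 0 34359739 T_t1a_c1_d_f) x_t1a_c1_d_f_M_t70 75 17 4 = true := by decide +kernel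

def x_t1a_c1_d_f_M_t71 : T :=
  (.a (.b (.c (.a (.b (.l 0) (.l 0)) (.b (.l 0) (.l 0))) (.a (.b (.l 0) (.l 0)) (.b (.l 0) (.l
      0)))) (.c (.a (.b (.l 0) (.c (.l 0) (.l 0))) (.b (.l 0) (.c (.l 0) (.l 0)))) (.a (.b (.l 0)
      (.c (.l 0) (.l 0))) (.b (.l 0) (.c (.l 0) (.l 0)))))) (.b (.c (.a (.l 0) (.l 0)) (.a (.l 0)
      (.l 0))) (.c (.a (.b (.l 0) (.c (.a (.l 0) (.l 0)) (.a (.l 0) (.l 0)))) (.b (.l 0) (.l 0)))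
      (.a (.b (.l 0) (.c (.l 0) (.l 0))) (.b (.l 0) (.l 0))))))

theorem x_t1a_c1_d_f_M_h71 : chk3 (onCell 0 6442450944 0 3758096384 0 34359739 T_t1a_c1_d_f) x_t1a_c1_d_f_M_t71 36 34 10 = true := by decide +kernel

def x_t1a_c1_d_f_M_t72 : T :=
  (.a (.b (.c (.a (.b (.l 0) (.l 0)) (.b (.l 0) (.l 0))) (.a (.b (.l 0) (.l 0)) (.b (.l 0) (.l
      0)))) (.c (.a (.b (.l 0) (.c (.l 0) (.l 0))) (.b (.l 0) (.c (.l 0) (.l 0)))) (.a (.b (.l 0)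
      (.c (.l 0) (.l 0))) (.b (.l 0) (.c (.l 0) (.l 0)))))) (.b (.c (.a (.l 0) (.l 0)) (.a (.l 0)
      (.l 0))) (.c (.a (.b (.l 0) (.c (.l 0) (.l 0))) (.b (.l 0) (.l 0))) (.a (.b (.l 0) (.c (.l
      0) (.l 0))) (.b (.l 0) (.l 0))))))

theorem x_t1a_c1_d_f_M_h72 : chk3 (onCell 0 6442450944 0 3758096384 0 34359739 T_t1a_c1_d_f) x_t1a_c1_d_f_M_t72 36 34 11 = true := by decide +kernel

def x_t1a_c1_d_f_M_t73 : T :=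
  (.b (.c (.a (.b (.c (.a (.l 0) (.b (.l 0) (.l 0))) (.a (.l 0) (.b (.l 0) (.l 0)))) (.l 10)) (.b
      (.c (.a (.b (.l 0) (.l 0)) (.l 0)) (.a (.b (.l 0) (.l 0)) (.l 0))) (.c (.a (.l 10) (.l 0))
      (.a (.l 10) (.l 0))))) (.a (.b (.c (.a (.l 0) (.b (.l 0) (.l 0))) (.a (.l 0) (.b (.l 0) (.l
      0)))) (.l 10)) (.b (.c (.a (.b (.l 0) (.l 0)) (.l 0)) (.a (.b (.l 0) (.l 0)) (.l 0))) (.c
      (.a (.l 10) (.l 0)) (.a (.l 10) (.l 0)))))) (.l 10))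

theorem x_t1a_c1_d_f_M_h73 : chk3 (onCell 0 6442450944 0 3758096384 0 34359739 T_t1a_c1_d_f) x_t1a_c1_d_f_M_t73 72 35 10 = true := by decide +kernel

def x_t1a_c1_d_f_M_t74 : T :=
  (.c (.a (.b (.c (.a (.l 0) (.l 0)) (.a (.l 0) (.l 0))) (.c (.a (.l 0) (.l 0)) (.a (.l 0) (.l
      0)))) (.b (.l 0) (.c (.a (.l 0) (.l 0)) (.a (.l 0) (.l 0))))) (.a (.b (.c (.l 0) (.l 0))
      (.c (.a (.l 0) (.l 0)) (.a (.l 0) (.l 0)))) (.b (.l 0) (.c (.a (.l 0) (.l 0)) (.a (.l 0)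
      (.l 0))))))

theorem x_t1a_c1_d_f_M_h74 : chk3 (onCell 0 6442450944 0 3758096384 0 34359739 T_t1a_c1_d_f) x_t1a_c1_d_f_M_t74 73 70 10 = true := by decide +kernel

def x_t1a_c1_d_f_M_t75 : T :=
  (.c (.a (.b (.c (.a (.l 10) (.b (.l 0) (.l 0))) (.a (.l 10) (.b (.l 0) (.l 0)))) (.l 10)) (.b
      (.c (.a (.b (.l 0) (.l 0)) (.l 0)) (.a (.b (.l 0) (.l 0)) (.l 0))) (.c (.a (.l 10) (.b (.l
      0) (.l 10))) (.a (.l 10) (.b (.l 0) (.l 10)))))) (.a (.b (.c (.a (.l 10) (.b (.l 0) (.l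
      0))) (.a (.l 10) (.b (.l 0) (.l 0)))) (.l 10)) (.b (.c (.a (.b (.l 0) (.l 0)) (.l 0)) (.a
      (.b (.l 0) (.l 0)) (.l 0))) (.c (.a (.l 10) (.b (.l 0) (.l 0))) (.a (.l 10) (.b (.l 0) (.l
      0)))))))

theorem x_t1a_c1_d_f_M_h75 : chk3 (onCell 0 6442450944 0 3758096384 0 34359739 T_t1a_c1_d_f) x_t1a_c1_d_f_M_t75 73 71 10 = true := by decide +kernel

def x_t1a_c1_d_f_M_t76 : T :=
  (.b (.c (.a (.b (.c (.a (.l 0) (.b (.l 0) (.l 0))) (.a (.l 0) (.b (.l 0) (.l 0)))) (.l 10)) (.b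
      (.c (.a (.b (.l 0) (.l 0)) (.l 0)) (.a (.l 0) (.l 0))) (.c (.a (.l 10) (.l 0)) (.a (.l 10)
      (.l 0))))) (.a (.b (.c (.a (.l 0) (.b (.l 0) (.l 0))) (.a (.l 0) (.b (.l 0) (.l 0)))) (.l
      10)) (.b (.c (.a (.l 0) (.l 0)) (.a (.l 0) (.l 0))) (.c (.a (.l 10) (.l 0)) (.a (.l 10) (.l
      0)))))) (.l 10))

theorem x_t1a_c1_d_f_M_h76 : chk3 (onCell 0 6442450944 0 3758096384 0 34359739 T_t1a_c1_d_f) x_t1a_c1_d_f_M_t76 72 35 11 = true := by decide +kernel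

def x_t1a_c1_d_f_M_t77 : T :=
  (.b (.c (.a (.b (.c (.l 0) (.l 0)) (.c (.a (.l 0) (.l 0)) (.a (.l 0) (.l 0)))) (.b (.l 0) (.c
      (.a (.l 0) (.l 0)) (.a (.l 0) (.l 0))))) (.a (.b (.c (.l 0) (.l 0)) (.c (.a (.l 0) (.l 0))
      (.a (.l 0) (.l 0)))) (.b (.l 0) (.c (.a (.l 0) (.l 0)) (.a (.l 0) (.l 0)))))) (.c (.a (.b
      (.c (.a (.l 10) (.b (.l 0) (.l 0))) (.a (.l 10) (.b (.l 0) (.l 0)))) (.l 10)) (.b (.c (.a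
      (.b (.l 0) (.l 0)) (.l 0)) (.a (.b (.l 0) (.l 0)) (.l 0))) (.c (.a (.l 10) (.b (.l 0) (.l
      0))) (.a (.l 10) (.b (.l 0) (.l 0)))))) (.a (.b (.c (.a (.l 10) (.b (.l 0) (.l 0))) (.a (.l
      10) (.b (.l 0) (.l 0)))) (.l 10)) (.b (.c (.a (.l 0) (.l 0)) (.a (.l 0) (.l 0))) (.c (.a
      (.l 10) (.b (.l 0) (.l 0))) (.a (.l 10) (.b (.l 0) (.l 0))))))))

theorem x_t1a_c1_d_f_M_h77 : chk3 (onCell 0 6442450944 0 3758096384 0 34359739 T_t1a_c1_d_f) x_t1a_c1_d_f_M_t77 73 35 11 = true := by decide +kernel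

def x_t1a_c1_d_f_M_t78 : T :=
  (.c (.b (.c (.a (.b (.l 0) (.l 0)) (.b (.l 0) (.l 0))) (.a (.b (.l 0) (.l 0)) (.b (.l 0) (.l
      0)))) (.c (.a (.b (.l 0) (.l 0)) (.b (.l 0) (.l 0))) (.a (.b (.l 0) (.l 0)) (.b (.l 0) (.l
      0))))) (.b (.c (.a (.l 0) (.l 0)) (.a (.l 0) (.l 0))) (.c (.a (.b (.l 0) (.l 0)) (.b (.l 0)
      (.l 0))) (.a (.b (.l 0) (.l 0)) (.b (.l 0) (.l 0))))))

theorem x_t1a_c1_d_f_M_h78 : chk3 (onCell 0 6442450944 0 3758096384 0 34359739 T_t1a_c1_d_f) x_t1a_c1_d_f_M_t78 74 34 5 = true := by decide +kernel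

def x_t1a_c1_d_f_M_t79 : T :=
  (.b (.c (.a (.b (.l 0) (.c (.a (.l 0) (.l 0)) (.a (.l 0) (.l 0)))) (.b (.l 0) (.c (.l 0) (.l
      0)))) (.a (.b (.l 0) (.c (.a (.l 0) (.l 0)) (.a (.l 0) (.l 0)))) (.b (.l 0) (.c (.l 0) (.l
      0))))) (.c (.a (.b (.c (.a (.l 0) (.l 0)) (.a (.l 0) (.l 0))) (.c (.a (.b (.l 0) (.l 0))
      (.b (.l 0) (.l 0))) (.a (.b (.l 0) (.l 0)) (.b (.l 0) (.l 0))))) (.b (.c (.a (.l 0) (.l 0))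
      (.a (.l 0) (.l 0))) (.c (.a (.b (.l 0) (.l 0)) (.l 0)) (.a (.b (.l 0) (.l 0)) (.l 0)))))
      (.a (.b (.c (.a (.l 0) (.l 0)) (.a (.l 0) (.l 0))) (.c (.a (.b (.l 0) (.l 0)) (.b (.l 0)
      (.l 0))) (.a (.b (.l 0) (.l 0)) (.b (.l 0) (.l 0))))) (.b (.c (.a (.l 0) (.l 0)) (.a (.l 0)
      (.l 0))) (.c (.a (.b (.l 0) (.l 0)) (.l 0)) (.a (.b (.l 0) (.l 0)) (.l 0)))))))

theorem x_t1a_c1_d_f_M_h79 : chk3 (onCell 0 6442450944 0 3758096384 0 34359739 T_t1a_c1_d_f) x_t1a_c1_d_f_M_t79 74 35 10 = true := by decide +kernel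

def x_t1a_c1_d_f_M_t80 : T :=
  (.b (.c (.a (.b (.l 0) (.c (.a (.l 0) (.l 0)) (.l 0))) (.b (.l 0) (.c (.l 0) (.l 0)))) (.a (.b
      (.l 0) (.c (.l 0) (.l 0))) (.b (.l 0) (.l 0)))) (.c (.a (.b (.c (.a (.l 0) (.l 0)) (.a (.l
      0) (.l 0))) (.c (.a (.b (.l 0) (.l 0)) (.b (.l 0) (.l 0))) (.a (.b (.l 0) (.l 0)) (.b (.l
      0) (.l 0))))) (.b (.c (.a (.l 0) (.l 0)) (.a (.l 0) (.l 0))) (.c (.a (.b (.l 0) (.l 0)) (.l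
      0)) (.a (.l 0) (.l 0))))) (.a (.b (.c (.a (.l 0) (.l 0)) (.a (.l 0) (.l 0))) (.c (.a (.b
      (.l 0) (.l 0)) (.b (.l 0) (.l 0))) (.a (.b (.l 0) (.l 0)) (.b (.l 0) (.l 0))))) (.b (.c (.a
      (.l 0) (.l 0)) (.a (.l 0) (.l 0))) (.c (.a (.l 0) (.l 0)) (.a (.l 0) (.l 0)))))))

theorem x_t1a_c1_d_f_M_h80 : chk3 (onCell 0 6442450944 0 3758096384 0 34359739 T_t1a_c1_d_f) x_t1a_c1_d_f_M_t80 74 35 11 = true := by decide +kernel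

def x_t1a_c1_d_f_M_t81 : T :=
  (.a (.b (.c (.a (.c (.b (.l 0) (.l 0)) (.b (.l 0) (.l 0))) (.b (.l 0) (.l 0))) (.a (.c (.b (.l
      0) (.l 0)) (.b (.l 0) (.l 0))) (.b (.l 0) (.l 0)))) (.a (.c (.c (.b (.l 2) (.l 2)) (.b (.l
      2) (.l 2))) (.c (.b (.l 2) (.l 2)) (.b (.l 2) (.l 2)))) (.c (.b (.l 2) (.l 2)) (.b (.l 2)
      (.l 2))))) (.b (.a (.l 2) (.l 2)) (.a (.l 2) (.l 2))))

theorem x_t1a_c1_d_f_M_h81 : chk3 (onCell 0 6442450944 0 3758096384 0 34359739 T_t1a_c1_d_f) x_t1a_c1_d_f_M_t81 75 17 5 = true := by decide +kernel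

def x_t1a_c1_d_f_M_t82 : T :=
  (.a (.b (.c (.a (.b (.l 0) (.l 0)) (.b (.l 0) (.l 0))) (.a (.b (.l 0) (.l 0)) (.b (.l 0) (.l
      0)))) (.c (.a (.b (.l 0) (.c (.l 0) (.l 0))) (.b (.l 0) (.c (.l 0) (.l 0)))) (.a (.b (.l 0)
      (.c (.l 0) (.l 0))) (.b (.l 0) (.c (.l 0) (.l 0)))))) (.b (.c (.a (.l 0) (.l 0)) (.a (.l 0)
      (.l 0))) (.c (.a (.b (.l 0) (.c (.l 0) (.l 0))) (.b (.l 0) (.l 0))) (.a (.b (.l 0) (.l 0))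
      (.b (.l 0) (.l 0))))))

theorem x_t1a_c1_d_f_M_h82 : chk3 (onCell 0 6442450944 0 3758096384 0 34359739 T_t1a_c1_d_f) x_t1a_c1_d_f_M_t82 36 34 12 = true := by decide +kernel

def x_t1a_c1_d_f_M_t83 : T :=
  (.a (.b (.c (.a (.b (.l 0) (.l 0)) (.b (.l 0) (.l 0))) (.a (.b (.l 0) (.l 0)) (.b (.l 0) (.l
      0)))) (.c (.a (.b (.l 0) (.c (.l 0) (.l 0))) (.b (.l 0) (.c (.l 0) (.l 0)))) (.a (.b (.l 0)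
      (.c (.l 0) (.l 0))) (.b (.l 0) (.c (.l 0) (.l 0)))))) (.b (.c (.a (.l 0) (.l 0)) (.a (.l 0)
      (.l 0))) (.c (.a (.b (.l 0) (.l 0)) (.b (.l 0) (.l 0))) (.a (.b (.l 0) (.l 0)) (.b (.l 0)
      (.l 0))))))

theorem x_t1a_c1_d_f_M_h83 : chk3 (onCell 0 6442450944 0 3758096384 0 34359739 T_t1a_c1_d_f) x_t1a_c1_d_f_M_t83 36 34 13 = true := by decide +kernel

def x_t1a_c1_d_f_M_t84 : T :=
  (.b (.c (.a (.b (.c (.a (.l 0) (.b (.l 0) (.l 0))) (.a (.l 0) (.b (.l 0) (.l 0)))) (.l 10)) (.b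
      (.c (.a (.l 0) (.l 0)) (.a (.l 0) (.l 0))) (.c (.a (.l 10) (.l 0)) (.a (.l 10) (.l 0)))))
      (.a (.b (.c (.a (.l 0) (.b (.l 0) (.l 0))) (.a (.l 0) (.b (.l 0) (.l 0)))) (.l 10)) (.b (.c
      (.a (.l 0) (.l 0)) (.a (.l 0) (.l 0))) (.c (.a (.l 10) (.l 0)) (.a (.l 10) (.l 0)))))) (.l
      10))

theorem x_t1a_c1_d_f_M_h84 : chk3 (onCell 0 6442450944 0 3758096384 0 34359739 T_t1a_c1_d_f) x_t1a_c1_d_f_M_t84 72 35 12 = true := by decide +kernel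

def x_t1a_c1_d_f_M_t85 : T :=
  (.b (.c (.a (.b (.c (.l 0) (.l 0)) (.c (.a (.l 0) (.l 0)) (.a (.l 0) (.l 0)))) (.b (.l 0) (.c
      (.a (.l 0) (.l 0)) (.a (.l 0) (.l 0))))) (.a (.b (.c (.l 0) (.l 0)) (.c (.a (.l 0) (.l 0))
      (.a (.l 0) (.l 0)))) (.b (.l 0) (.c (.a (.l 0) (.l 0)) (.a (.l 0) (.l 0)))))) (.c (.a (.b
      (.c (.a (.l 10) (.b (.l 0) (.l 0))) (.a (.l 10) (.b (.l 0) (.l 0)))) (.l 10)) (.b (.c (.a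
      (.l 0) (.l 0)) (.a (.l 0) (.l 0))) (.c (.a (.l 10) (.b (.l 0) (.l 0))) (.a (.l 10) (.b (.l
      0) (.l 0)))))) (.a (.b (.c (.a (.l 10) (.b (.l 0) (.l 0))) (.a (.l 10) (.b (.l 0) (.l 0))))
      (.l 10)) (.b (.c (.a (.l 0) (.l 0)) (.a (.l 0) (.l 0))) (.c (.a (.l 10) (.b (.l 0) (.l 0)))
      (.a (.l 10) (.b (.l 0) (.l 0))))))))

theorem x_t1a_c1_d_f_M_h85 : chk3 (onCell 0 6442450944 0 3758096384 0 34359739 T_t1a_c1_d_f) x_t1a_c1_d_f_M_t85 73 35 12 = true := by decide +kernel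

def x_t1a_c1_d_f_M_t86 : T :=
  (.b (.c (.a (.b (.c (.a (.b (.l 0) (.l 0)) (.b (.l 0) (.l 0))) (.a (.b (.l 0) (.l 0)) (.b (.l
      0) (.l 0)))) (.l 10)) (.b (.c (.a (.l 0) (.l 0)) (.a (.l 0) (.l 0))) (.c (.a (.l 10) (.l
      0)) (.a (.b (.l 0) (.l 0)) (.l 0))))) (.a (.b (.c (.a (.b (.l 0) (.l 0)) (.b (.l 0) (.l
      0))) (.a (.b (.l 0) (.l 0)) (.b (.l 0) (.l 0)))) (.l 10)) (.b (.c (.a (.l 0) (.l 0)) (.a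
      (.l 0) (.l 0))) (.c (.a (.b (.l 0) (.l 0)) (.l 0)) (.a (.l 0) (.l 0)))))) (.l 10))

theorem x_t1a_c1_d_f_M_h86 : chk3 (onCell 0 6442450944 0 3758096384 0 34359739 T_t1a_c1_d_f) x_t1a_c1_d_f_M_t86 72 35 13 = true := by decide +kernel

def x_t1a_c1_d_f_M_t87 : T :=
  (.b (.c (.a (.b (.c (.l 0) (.l 0)) (.c (.a (.l 0) (.l 0)) (.a (.l 0) (.l 0)))) (.b (.l 0) (.c
      (.a (.l 0) (.l 0)) (.a (.l 0) (.l 0))))) (.a (.b (.c (.l 0) (.l 0)) (.c (.a (.l 0) (.l 0))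
      (.a (.l 0) (.l 0)))) (.b (.l 0) (.c (.a (.l 0) (.l 0)) (.a (.l 0) (.l 0)))))) (.c (.a (.b
      (.c (.a (.l 10) (.b (.l 0) (.l 0))) (.a (.l 10) (.b (.l 0) (.l 0)))) (.l 10)) (.b (.c (.a
      (.l 0) (.l 0)) (.a (.l 0) (.l 0))) (.c (.a (.l 10) (.b (.l 0) (.l 0))) (.a (.l 10) (.b (.l
      0) (.l 0)))))) (.a (.b (.c (.a (.l 10) (.b (.l 0) (.l 0))) (.a (.l 10) (.b (.l 0) (.l 0))))
      (.l 10)) (.b (.c (.a (.l 0) (.l 0)) (.a (.l 0) (.l 0))) (.c (.a (.l 10) (.b (.l 0) (.l 0)))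
      (.a (.l 10) (.b (.l 0) (.l 0))))))))

theorem x_t1a_c1_d_f_M_h87 : chk3 (onCell 0 6442450944 0 3758096384 0 34359739 T_t1a_c1_d_f) x_t1a_c1_d_f_M_t87 73 35 13 = true := by decide +kernel

def x_t1a_c1_d_f_M_t88 : T :=
  (.c (.b (.c (.a (.l 0) (.l 0)) (.a (.l 0) (.l 0))) (.c (.a (.b (.l 0) (.l 0)) (.b (.l 0) (.l
      0))) (.a (.b (.l 0) (.l 0)) (.b (.l 0) (.l 0))))) (.b (.c (.a (.l 0) (.l 0)) (.a (.l 0) (.l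
      0))) (.c (.a (.b (.l 0) (.l 0)) (.b (.l 0) (.l 0))) (.a (.b (.l 0) (.l 0)) (.b (.l 0) (.l
      0))))))

theorem x_t1a_c1_d_f_M_h88 : chk3 (onCell 0 6442450944 0 3758096384 0 34359739 T_t1a_c1_d_f) x_t1a_c1_d_f_M_t88 74 34 6 = true := by decide +kernel

def x_t1a_c1_d_f_M_t89 : T :=
  (.b (.c (.a (.b (.l 0) (.c (.l 0) (.l 0))) (.b (.l 0) (.l 0))) (.a (.b (.l 0) (.c (.l 0) (.l
      0))) (.b (.l 0) (.l 0)))) (.c (.a (.b (.c (.a (.l 0) (.l 0)) (.a (.l 0) (.l 0))) (.c (.a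
      (.b (.l 0) (.l 0)) (.b (.l 0) (.l 0))) (.a (.b (.l 0) (.l 0)) (.b (.l 0) (.l 0))))) (.b (.c
      (.a (.l 0) (.l 0)) (.a (.l 0) (.l 0))) (.c (.a (.l 0) (.l 0)) (.a (.l 0) (.l 0))))) (.a (.b
      (.c (.a (.l 0) (.l 0)) (.a (.l 0) (.l 0))) (.c (.a (.b (.l 0) (.l 0)) (.b (.l 0) (.l 0)))
      (.a (.b (.l 0) (.l 0)) (.l 0)))) (.b (.c (.a (.l 0) (.l 0)) (.a (.l 0) (.l 0))) (.c (.a (.l
      0) (.l 0)) (.a (.l 0) (.l 0)))))))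

theorem x_t1a_c1_d_f_M_h89 : chk3 (onCell 0 6442450944 0 3758096384 0 34359739 T_t1a_c1_d_f) x_t1a_c1_d_f_M_t89 74 35 12 = true := by decide +kernel

def x_t1a_c1_d_f_M_t90 : T :=
  (.b (.c (.a (.b (.l 0) (.c (.l 0) (.l 0))) (.b (.l 0) (.l 0))) (.a (.b (.l 0) (.l 0)) (.b (.l
      0) (.l 0)))) (.c (.a (.b (.c (.a (.l 0) (.l 0)) (.a (.l 0) (.l 0))) (.c (.a (.b (.l 0) (.l
      0)) (.l 0)) (.a (.b (.l 0) (.l 0)) (.l 0)))) (.b (.c (.a (.l 0) (.l 0)) (.a (.l 0) (.l 0)))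
      (.c (.a (.l 0) (.l 0)) (.a (.l 0) (.l 0))))) (.a (.b (.c (.a (.l 0) (.l 0)) (.a (.l 0) (.l
      0))) (.c (.a (.b (.l 0) (.l 0)) (.l 0)) (.a (.b (.l 0) (.l 0)) (.l 0)))) (.b (.c (.l 0) (.l
      0)) (.c (.a (.l 0) (.l 0)) (.a (.l 0) (.l 0)))))))

theorem x_t1a_c1_d_f_M_h90 : chk3 (onCell 0 6442450944 0 3758096384 0 34359739 T_t1a_c1_d_f) x_t1a_c1_d_f_M_t90 74 35 13 = true := by decide +kernel

def x_t1a_c1_d_f_M_t91 : T :=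
  (.a (.b (.c (.a (.c (.b (.l 0) (.l 0)) (.b (.l 0) (.l 0))) (.b (.l 0) (.l 0))) (.a (.c (.b (.l
      0) (.l 0)) (.b (.l 0) (.l 0))) (.b (.l 0) (.l 0)))) (.a (.c (.c (.b (.l 2) (.l 2)) (.b (.l
      2) (.l 2))) (.c (.b (.l 0) (.l 2)) (.b (.l 0) (.l 2)))) (.c (.b (.l 2) (.l 2)) (.b (.l 2)
      (.l 2))))) (.b (.a (.l 2) (.l 2)) (.a (.c (.l 2) (.l 2)) (.l 2))))

theorem x_t1a_c1_d_f_M_h91 : chk3 (onCell 0 6442450944 0 3758096384 0 34359739 T_t1a_c1_d_f) x_t1a_c1_d_f_M_t91 75 17 6 = true := by decide +kernel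

def x_t1a_c1_d_f_M_t92 : T :=
  (.c (.a (.b (.c (.a (.b (.l 0) (.l 0)) (.b (.l 0) (.l 0))) (.a (.b (.l 0) (.l 0)) (.b (.l 0)
      (.l 0)))) (.c (.a (.b (.l 0) (.l 0)) (.b (.l 0) (.c (.l 0) (.l 0)))) (.a (.b (.l 0) (.l 0))
      (.b (.l 0) (.c (.l 0) (.l 0)))))) (.b (.c (.a (.l 0) (.l 0)) (.a (.l 0) (.l 0))) (.c (.a
      (.b (.l 0) (.l 0)) (.b (.l 0) (.l 0))) (.a (.b (.l 0) (.l 0)) (.b (.l 0) (.l 0)))))) (.a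
      (.b (.c (.a (.b (.l 0) (.l 0)) (.b (.l 0) (.l 0))) (.a (.b (.l 0) (.l 0)) (.b (.l 0) (.l
      0)))) (.c (.a (.b (.l 0) (.l 0)) (.b (.l 0) (.c (.l 0) (.l 0)))) (.a (.b (.l 0) (.l 0)) (.b
      (.l 0) (.c (.l 0) (.l 0)))))) (.b (.c (.a (.l 0) (.l 0)) (.a (.l 0) (.l 0))) (.c (.a (.b
      (.l 0) (.l 0)) (.b (.l 0) (.l 0))) (.a (.b (.l 0) (.l 0)) (.b (.l 0) (.l 0)))))))

theorem x_t1a_c1_d_f_M_h92 : chk3 (onCell 0 6442450944 0 3758096384 0 34359739 T_t1a_c1_d_f) x_t1a_c1_d_f_M_t92 36 34 7 = true := by decide +kernel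

def x_t1a_c1_d_f_M_t93 : T :=
  (.b (.c (.a (.b (.c (.a (.b (.l 0) (.l 0)) (.b (.l 0) (.l 0))) (.a (.b (.l 0) (.l 0)) (.b (.l
      0) (.l 0)))) (.l 10)) (.b (.c (.a (.l 0) (.l 0)) (.a (.l 0) (.l 0))) (.c (.a (.l 0) (.l 0))
      (.a (.l 0) (.l 0))))) (.a (.b (.c (.a (.b (.l 0) (.l 0)) (.l 0)) (.a (.b (.l 0) (.l 0)) (.l
      0))) (.l 10)) (.b (.c (.a (.l 0) (.l 0)) (.a (.l 0) (.l 0))) (.c (.a (.l 0) (.l 0)) (.a (.l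
      0) (.l 0)))))) (.l 10))

theorem x_t1a_c1_d_f_M_h93 : chk3 (onCell 0 6442450944 0 3758096384 0 34359739 T_t1a_c1_d_f) x_t1a_c1_d_f_M_t93 72 35 14 = true := by decide +kernel

end Pool.Agent.Strip051.LC.E0.Ch
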