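import Pool.Agent.Strip051.LC.E0.Ch.Te

/-! # Small rests: certificate X_t1a_c1_d_f_M_4 -/

set_option maxRecDepth 100000

namespace Pool.Agent.Strip051.LC.E0.Ch

open Pool.Agent.Strip051.PB

def x_t1a_c1_d_f_M_t94 : T :=
  (.b (.c (.a (.b (.l 0) (.c (.a (.l 0) (.l 0)) (.a (.l 0) (.l 0)))) (.b (.l 0) (.c (.a (.l 0)
      (.l 0)) (.l 0)))) (.a (.b (.l 0) (.c (.a (.l 0) (.l 0)) (.a (.l 0) (.l 0)))) (.b (.l 0) (.c
      (.l 0) (.l 0))))) (.c (.a (.b (.c (.a (.l 10) (.l 0)) (.a (.l 10) (.l 0))) (.l 10)) (.b (.c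
      (.a (.l 0) (.l 0)) (.a (.l 0) (.l 0))) (.c (.a (.l 10) (.b (.l 0) (.l 0))) (.a (.l 10) (.b
      (.l 0) (.l 0)))))) (.a (.b (.c (.a (.l 10) (.l 0)) (.a (.l 10) (.l 0))) (.l 10)) (.b (.c
      (.a (.l 0) (.l 0)) (.a (.l 0) (.l 0))) (.c (.a (.l 10) (.b (.l 0) (.l 0))) (.a (.l 10) (.b
      (.l 0) (.l 0))))))))

theorem x_t1a_c1_d_f_M_h94 : chk3 (onCell 0 6442450944 0 3758096384 0 34359739 T_t1a_c1_d_f) x_t1a_c1_d_f_M_t94 73 35 14 = true := by decide +kernel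

def x_t1a_c1_d_f_M_t95 : T :=
  (.b (.c (.a (.b (.c (.a (.b (.l 0) (.l 0)) (.l 0)) (.a (.b (.l 0) (.l 0)) (.l 0))) (.l 10)) (.b
      (.c (.a (.l 0) (.l 0)) (.a (.l 0) (.l 0))) (.c (.a (.l 0) (.l 0)) (.a (.l 0) (.l 0))))) (.a
      (.b (.c (.a (.b (.l 0) (.l 0)) (.l 0)) (.a (.b (.l 0) (.l 0)) (.l 0))) (.l 10)) (.b (.c (.a
      (.l 0) (.l 0)) (.a (.l 0) (.l 0))) (.c (.a (.l 0) (.l 0)) (.a (.l 0) (.l 0)))))) (.l 10))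

theorem x_t1a_c1_d_f_M_h95 : chk3 (onCell 0 6442450944 0 3758096384 0 34359739 T_t1a_c1_d_f) x_t1a_c1_d_f_M_t95 72 35 15 = true := by decide +kernel

def x_t1a_c1_d_f_M_t96 : T :=
  (.b (.c (.a (.b (.l 0) (.c (.a (.l 0) (.l 0)) (.a (.l 0) (.l 0)))) (.b (.l 0) (.c (.l 0) (.l
      0)))) (.a (.b (.l 0) (.c (.a (.l 0) (.l 0)) (.a (.l 0) (.l 0)))) (.b (.l 0) (.c (.l 0) (.l
      0))))) (.c (.a (.b (.c (.a (.l 10) (.l 0)) (.a (.l 10) (.l 0))) (.l 10)) (.b (.c (.a (.l 0)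
      (.l 0)) (.a (.l 0) (.l 0))) (.c (.a (.l 10) (.b (.l 0) (.l 0))) (.a (.l 10) (.b (.l 0) (.l
      0)))))) (.a (.b (.c (.a (.l 10) (.l 0)) (.a (.l 10) (.l 0))) (.l 10)) (.b (.c (.a (.l 0)
      (.l 0)) (.a (.l 0) (.l 0))) (.c (.a (.l 10) (.b (.l 0) (.l 0))) (.a (.l 10) (.b (.l 0) (.l
      0))))))))

theorem x_t1a_c1_d_f_M_h96 : chk3 (onCell 0 6442450944 0 3758096384 0 34359739 T_t1a_c1_d_f) x_t1a_c1_d_f_M_t96 73 35 15 = true := by decide +kernel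

def x_t1a_c1_d_f_M_t97 : T :=
  (.c (.b (.c (.a (.l 0) (.l 0)) (.a (.l 0) (.l 0))) (.c (.a (.b (.l 0) (.l 0)) (.b (.l 0) (.l
      0))) (.a (.b (.l 0) (.l 0)) (.b (.l 0) (.l 0))))) (.b (.c (.a (.l 0) (.l 0)) (.a (.l 0) (.l
      0))) (.c (.a (.b (.l 0) (.l 0)) (.l 0)) (.a (.b (.l 0) (.l 0)) (.l 0)))))

theorem x_t1a_c1_d_f_M_h97 : chk3 (onCell 0 6442450944 0 3758096384 0 34359739 T_t1a_c1_d_f) x_t1a_c1_d_f_M_t97 74 34 7 = true := by decide +kernel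

def x_t1a_c1_d_f_M_t98 : T :=
  (.b (.c (.a (.b (.l 0) (.l 0)) (.b (.l 0) (.l 0))) (.a (.b (.l 0) (.l 0)) (.b (.l 0) (.l 0))))
      (.c (.a (.b (.c (.a (.l 0) (.l 0)) (.a (.l 0) (.l 0))) (.c (.a (.b (.l 0) (.l 0)) (.l 0))
      (.a (.b (.l 0) (.l 0)) (.l 0)))) (.b (.c (.l 0) (.l 0)) (.c (.a (.l 0) (.l 0)) (.a (.l 0)
      (.l 0))))) (.a (.b (.c (.a (.l 0) (.l 0)) (.a (.l 0) (.l 0))) (.c (.a (.b (.l 0) (.l 0))
      (.l 0)) (.a (.l 0) (.l 0)))) (.b (.c (.l 0) (.l 0)) (.c (.a (.l 0) (.l 0)) (.a (.l 0) (.l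
      0)))))))

theorem x_t1a_c1_d_f_M_h98 : chk3 (onCell 0 6442450944 0 3758096384 0 34359739 T_t1a_c1_d_f) x_t1a_c1_d_f_M_t98 74 35 14 = true := by decide +kernel

def x_t1a_c1_d_f_M_t99 : T :=
  (.b (.c (.a (.b (.l 0) (.l 0)) (.b (.l 0) (.l 0))) (.a (.b (.l 0) (.l 0)) (.b (.l 0) (.l 0))))
      (.c (.a (.b (.c (.a (.l 0) (.l 0)) (.a (.l 0) (.l 0))) (.c (.a (.l 0) (.l 0)) (.a (.l 0)
      (.l 0)))) (.b (.c (.l 0) (.l 0)) (.c (.a (.l 0) (.l 0)) (.a (.l 0) (.l 0))))) (.a (.b (.c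
      (.a (.l 0) (.l 0)) (.a (.l 0) (.l 0))) (.c (.a (.l 0) (.l 0)) (.a (.l 0) (.l 0)))) (.b (.l
      0) (.c (.a (.l 0) (.l 0)) (.a (.l 0) (.l 0)))))))

theorem x_t1a_c1_d_f_M_h99 : chk3 (onCell 0 6442450944 0 3758096384 0 34359739 T_t1a_c1_d_f) x_t1a_c1_d_f_M_t99 74 35 15 = true := by decide +kernel

def x_t1a_c1_d_f_M_t100 : T :=
  (.a (.b (.c (.a (.c (.b (.l 0) (.l 0)) (.b (.l 0) (.l 0))) (.b (.l 0) (.l 0))) (.a (.c (.b (.l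
      0) (.l 0)) (.b (.l 0) (.l 0))) (.b (.l 0) (.l 0)))) (.a (.c (.c (.b (.l 0) (.l 2)) (.b (.l
      0) (.l 2))) (.c (.b (.l 0) (.l 2)) (.b (.l 0) (.l 2)))) (.c (.b (.l 2) (.l 2)) (.b (.l 2)
      (.l 2))))) (.b (.a (.l 2) (.l 2)) (.a (.c (.l 2) (.b (.l 0) (.l 2))) (.l 2))))

theorem x_t1a_c1_d_f_M_h100 : chk3 (onCell 0 6442450944 0 3758096384 0 34359739 T_t1a_c1_d_f) x_t1a_c1_d_f_M_t100 75 17 7 = true := by decide +kernel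

def x_t1a_c1_d_f_M_t101 : T :=
  (.a (.a (.c (.a (.b (.l 2) (.a (.l 2) (.l 2))) (.b (.l 2) (.l 2))) (.a (.b (.l 2) (.c (.l 2)
      (.l 2))) (.b (.l 2) (.l 2)))) (.b (.c (.l 2) (.l 2)) (.a (.l 2) (.l 2)))) (.b (.a (.l 2)
      (.l 2)) (.a (.l 2) (.l 2))))

theorem x_t1a_c1_d_f_M_h101 : chk3 (onCell 0 6442450944 0 3758096384 0 34359739 T_t1a_c1_d_f) x_t1a_c1_d_f_M_t101 19 17 1 = true := by decide +kernel

def x_t1a_c1_d_f_M_t102 : T :=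
  (.a (.a (.a (.b (.l 2) (.l 34)) (.b (.l 34) (.l 34))) (.b (.c (.l 34) (.b (.l 34) (.l 34))) (.a
      (.l 34) (.l 34)))) (.c (.b (.a (.l 34) (.l 34)) (.a (.l 18) (.l 34))) (.a (.b (.b (.l 34)
      (.l 18)) (.l 18)) (.b (.b (.l 34) (.l 34)) (.l 34)))))

theorem x_t1a_c1_d_f_M_h102 : chk3 (onCell 0 6442450944 0 3758096384 0 34359739 T_t1a_c1_d_f) x_t1a_c1_d_f_M_t102 5 17 1 = true := by decide +kernel

def x_t1a_c1_d_f_M_t103 : T :=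
  (.a (.b (.a (.c (.l 38) (.a (.l 6) (.l 38))) (.c (.a (.l 38) (.l 38)) (.a (.a (.l 38) (.l 38))
      (.l 38)))) (.c (.a (.b (.a (.l 34) (.l 34)) (.a (.l 34) (.l 34))) (.a (.l 34) (.l 34))) (.a
      (.a (.b (.b (.l 34) (.l 34)) (.b (.l 34) (.l 34))) (.l 38)) (.b (.c (.l 38) (.a (.l 34) (.l
      38))) (.a (.l 34) (.l 34)))))) (.b (.a (.c (.l 38) (.l 38)) (.c (.l 38) (.l 38))) (.c (.a
      (.l 38) (.l 38)) (.a (.b (.l 38) (.l 38)) (.l 38)))))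

theorem x_t1a_c1_d_f_M_h103 : chk3 (onCell 0 6442450944 0 3758096384 0 34359739 T_t1a_c1_d_f) x_t1a_c1_d_f_M_t103 3 8 1 = true := by decide +kernel

def x_t1a_c1_d_f_M_t104 : T :=
  (.l 19)

theorem x_t1a_c1_d_f_M_h104 : chk3 (onCell 0 6442450944 0 3758096384 0 34359739 T_t1a_c1_d_f) x_t1a_c1_d_f_M_t104 8 9 1 = true := by decide +kernel

def x_t1a_c1_d_f_M_t105 : T :=
  (.b (.c (.a (.l 19) (.c (.a (.l 10) (.b (.l 10) (.l 19))) (.a (.l 10) (.b (.l 10) (.l 19)))))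
      (.a (.l 19) (.a (.l 10) (.c (.b (.l 10) (.l 19)) (.b (.l 10) (.l 19)))))) (.l 19))

theorem x_t1a_c1_d_f_M_h105 : chk3 (onCell 0 6442450944 0 3758096384 0 34359739 T_t1a_c1_d_f) x_t1a_c1_d_f_M_t105 36 18 4 = true := by decide +kernel

def x_t1a_c1_d_f_M_t106 : T :=
  (.c (.a (.l 10) (.c (.b (.a (.b (.a (.l 0) (.l 0)) (.l 12)) (.b (.l 0) (.a (.l 0) (.l 0)))) (.a
      (.l 12) (.a (.a (.l 11) (.l 11)) (.a (.b (.l 0) (.l 2)) (.b (.l 0) (.l 2)))))) (.b (.a (.b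
      (.a (.l 0) (.l 0)) (.l 12)) (.b (.l 0) (.a (.l 0) (.l 0)))) (.a (.l 12) (.a (.l 11) (.b (.l
      2) (.b (.l 2) (.l 2)))))))) (.a (.l 10) (.b (.c (.a (.b (.a (.l 0) (.l 0)) (.l 12)) (.b (.l
      0) (.a (.l 0) (.l 0)))) (.a (.b (.a (.l 0) (.l 0)) (.l 12)) (.b (.l 0) (.a (.l 0) (.l
      0))))) (.c (.a (.l 12) (.a (.l 11) (.b (.l 0) (.b (.l 2) (.l 2))))) (.a (.l 12) (.a (.l 11)
      (.b (.l 0) (.b (.l 2) (.l 2)))))))))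

theorem x_t1a_c1_d_f_M_h106 : chk3 (onCell 0 6442450944 0 3758096384 0 34359739 T_t1a_c1_d_f) x_t1a_c1_d_f_M_t106 74 72 8 = true := by decide +kernel

def x_t1a_c1_d_f_M_t107 : T :=
  (.a (.c (.b (.a (.l 19) (.l 10)) (.l 19)) (.b (.a (.l 19) (.l 10)) (.l 19))) (.b (.c (.a (.b
      (.c (.a (.l 10) (.l 12)) (.l 12)) (.l 19)) (.b (.c (.b (.a (.l 11) (.l 2)) (.l 11)) (.b (.l
      11) (.l 11))) (.l 11))) (.a (.b (.l 12) (.l 19)) (.l 11))) (.l 19)))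

theorem x_t1a_c1_d_f_M_h107 : chk3 (onCell 0 6442450944 0 3758096384 0 34359739 T_t1a_c1_d_f) x_t1a_c1_d_f_M_t107 74 73 8 = true := by decide +kernel

def x_t1a_c1_d_f_M_t108 : T :=
  (.b (.c (.a (.l 10) (.b (.c (.a (.b (.l 0) (.l 12)) (.b (.l 0) (.a (.l 0) (.l 0)))) (.a (.b (.l
      0) (.l 12)) (.b (.l 0) (.a (.l 0) (.l 0))))) (.c (.a (.l 12) (.a (.l 11) (.b (.l 0) (.b (.l
      2) (.l 2))))) (.a (.l 12) (.a (.l 11) (.b (.l 2) (.l 11))))))) (.a (.l 10) (.b (.c (.a (.b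
      (.l 0) (.l 12)) (.b (.l 0) (.a (.l 0) (.l 0)))) (.a (.b (.l 0) (.l 12)) (.b (.l 0) (.a (.l
      0) (.l 0))))) (.a (.l 12) (.c (.a (.l 11) (.b (.l 2) (.l 11))) (.a (.l 11) (.b (.l 2) (.l
      2)))))))) (.a (.b (.c (.a (.l 19) (.l 10)) (.l 10)) (.l 19)) (.b (.c (.a (.l 12) (.l 11))
      (.a (.l 12) (.l 11))) (.l 19))))

theorem x_t1a_c1_d_f_M_h108 : chk3 (onCell 0 6442450944 0 3758096384 0 34359739 T_t1a_c1_d_f) x_t1a_c1_d_f_M_t108 74 36 9 = true := by decide +kernel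

def x_t1a_c1_d_f_M_t109 : T :=
  (.l 19)

theorem x_t1a_c1_d_f_M_h109 : chk3 (onCell 0 6442450944 0 3758096384 0 34359739 T_t1a_c1_d_f) x_t1a_c1_d_f_M_t109 74 37 4 = true := by decide +kernel

def x_t1a_c1_d_f_M_t110 : T :=
  (.a (.a (.b (.c (.a (.b (.c (.b (.l 2) (.c (.l 2) (.l 2))) (.b (.l 2) (.c (.l 2) (.l 2)))) (.l
      11)) (.b (.c (.b (.l 2) (.l 2)) (.b (.l 2) (.l 2))) (.l 2))) (.a (.c (.b (.b (.l 2) (.b (.l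
      2) (.l 2))) (.l 11)) (.b (.b (.l 2) (.l 2)) (.l 11))) (.b (.c (.b (.l 2) (.l 2)) (.b (.l 2)
      (.l 2))) (.l 2)))) (.l 19)) (.b (.c (.a (.b (.l 2) (.l 2)) (.b (.l 2) (.l 2))) (.a (.b (.l
      2) (.l 2)) (.b (.l 2) (.l 2)))) (.l 19))) (.a (.b (.c (.l 2) (.l 2)) (.l 2)) (.b (.l 2) (.l
      2))))

theorem x_t1a_c1_d_f_M_h110 : chk3 (onCell 0 6442450944 0 3758096384 0 34359739 T_t1a_c1_d_f) x_t1a_c1_d_f_M_t110 75 18 4 = true := by decide +kernel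

def x_t1a_c1_d_f_M_t111 : T :=
  (.b (.a (.l 19) (.c (.a (.l 10) (.b (.l 10) (.l 19))) (.b (.l 10) (.l 19)))) (.l 19))

theorem x_t1a_c1_d_f_M_h111 : chk3 (onCell 0 6442450944 0 3758096384 0 34359739 T_t1a_c1_d_f) x_t1a_c1_d_f_M_t111 36 18 5 = true := by decide +kernel

def x_t1a_c1_d_f_M_t112 : T :=
  (.b (.c (.b (.c (.a (.l 10) (.b (.c (.a (.b (.l 0) (.l 12)) (.b (.l 0) (.l 0))) (.a (.b (.l 0)
      (.l 12)) (.b (.l 0) (.l 0)))) (.a (.l 12) (.c (.b (.l 11) (.l 11)) (.l 11))))) (.a (.l 10)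
      (.b (.c (.a (.b (.l 0) (.l 12)) (.b (.l 0) (.l 0))) (.a (.b (.l 0) (.l 12)) (.b (.l 0) (.l
      0)))) (.a (.l 12) (.l 11))))) (.a (.b (.c (.l 10) (.l 10)) (.l 19)) (.b (.l 12) (.l 12))))
      (.b (.c (.a (.l 10) (.b (.c (.a (.b (.l 0) (.l 12)) (.b (.l 0) (.l 0))) (.a (.b (.l 0) (.l
      12)) (.b (.l 0) (.l 0)))) (.a (.l 12) (.l 11)))) (.a (.b (.c (.a (.l 10) (.b (.l 0) (.l
      10))) (.a (.l 10) (.b (.l 0) (.l 10)))) (.l 10)) (.b (.c (.a (.b (.l 0) (.l 12)) (.b (.l 0)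
      (.l 0))) (.a (.b (.l 0) (.l 0)) (.b (.l 0) (.l 0)))) (.l 12)))) (.a (.b (.l 10) (.l 19))
      (.l 12)))) (.l 19))

theorem x_t1a_c1_d_f_M_h112 : chk3 (onCell 0 6442450944 0 3758096384 0 34359739 T_t1a_c1_d_f) x_t1a_c1_d_f_M_t112 74 18 5 = true := by decide +kernel

def x_t1a_c1_d_f_M_t113 : T :=
  (.a (.a (.b (.c (.a (.c (.b (.b (.l 2) (.l 2)) (.l 11)) (.b (.b (.l 2) (.l 2)) (.l 11))) (.b
      (.c (.b (.l 2) (.l 2)) (.b (.l 2) (.l 2))) (.l 2))) (.a (.c (.b (.b (.l 2) (.l 2)) (.l 11))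
      (.b (.b (.l 2) (.l 2)) (.l 11))) (.b (.c (.b (.l 2) (.l 2)) (.b (.l 2) (.l 2))) (.l 2))))
      (.l 19)) (.c (.b (.a (.b (.l 2) (.l 2)) (.b (.l 2) (.l 2))) (.l 19)) (.b (.a (.b (.l 2) (.l
      2)) (.b (.l 2) (.l 2))) (.l 19)))) (.a (.b (.c (.l 2) (.l 2)) (.l 2)) (.b (.l 2) (.l 2))))

theorem x_t1a_c1_d_f_M_h113 : chk3 (onCell 0 6442450944 0 3758096384 0 34359739 T_t1a_c1_d_f) x_t1a_c1_d_f_M_t113 75 18 5 = true := by decide +kernel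

def x_t1a_c1_d_f_M_t114 : T :=
  (.b (.a (.l 19) (.c (.b (.l 10) (.l 19)) (.b (.l 10) (.l 19)))) (.l 19))

theorem x_t1a_c1_d_f_M_h114 : chk3 (onCell 0 6442450944 0 3758096384 0 34359739 T_t1a_c1_d_f) x_t1a_c1_d_f_M_t114 36 18 6 = true := by decide +kernel

def x_t1a_c1_d_f_M_t115 : T :=
  (.b (.c (.a (.b (.c (.a (.l 10) (.b (.l 0) (.l 10))) (.a (.l 10) (.b (.l 0) (.l 10)))) (.l 10))
      (.b (.c (.a (.b (.l 0) (.l 0)) (.b (.l 0) (.l 0))) (.a (.b (.l 0) (.l 0)) (.b (.l 0) (.l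
      0)))) (.l 12))) (.a (.b (.c (.a (.l 10) (.b (.l 0) (.l 10))) (.a (.l 10) (.b (.l 0) (.l
      10)))) (.l 10)) (.b (.c (.a (.b (.l 0) (.l 0)) (.b (.l 0) (.a (.l 0) (.l 0)))) (.a (.b (.l
      0) (.l 0)) (.b (.l 0) (.a (.l 0) (.l 2))))) (.l 12)))) (.a (.l 10) (.l 12)))

theorem x_t1a_c1_d_f_M_h115 : chk3 (onCell 0 6442450944 0 3758096384 0 34359739 T_t1a_c1_d_f) x_t1a_c1_d_f_M_t115 74 36 12 = true := by decide +kernel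

def x_t1a_c1_d_f_M_t116 : T :=
  (.b (.c (.a (.b (.c (.a (.l 10) (.b (.l 0) (.l 10))) (.a (.l 10) (.b (.l 0) (.l 10)))) (.l 10))
      (.b (.c (.a (.b (.l 0) (.l 0)) (.b (.l 0) (.a (.l 0) (.l 2)))) (.a (.b (.l 0) (.l 0)) (.b
      (.l 0) (.a (.l 0) (.l 2))))) (.l 12))) (.a (.b (.c (.a (.l 10) (.b (.l 0) (.l 10))) (.a (.l
      10) (.b (.l 0) (.l 10)))) (.l 10)) (.b (.c (.a (.b (.l 0) (.l 0)) (.b (.l 0) (.a (.l 0) (.l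
      2)))) (.a (.b (.l 0) (.l 0)) (.b (.l 0) (.a (.l 0) (.l 2))))) (.c (.l 12) (.a (.l 12) (.b
      (.a (.l 11) (.l 0)) (.l 11))))))) (.a (.l 10) (.l 12)))

theorem x_t1a_c1_d_f_M_h116 : chk3 (onCell 0 6442450944 0 3758096384 0 34359739 T_t1a_c1_d_f) x_t1a_c1_d_f_M_t116 74 36 13 = true := by decide +kernel

def x_t1a_c1_d_f_M_t117 : T :=
  (.l 19)

theorem x_t1a_c1_d_f_M_h117 : chk3 (onCell 0 6442450944 0 3758096384 0 34359739 T_t1a_c1_d_f) x_t1a_c1_d_f_M_t117 74 37 6 = true := by decide +kernel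

def x_t1a_c1_d_f_M_t118 : T :=
  (.a (.a (.b (.c (.a (.c (.b (.b (.l 2) (.l 2)) (.l 11)) (.b (.b (.l 2) (.l 2)) (.l 11))) (.b
      (.c (.b (.l 2) (.l 2)) (.b (.l 2) (.l 0))) (.l 2))) (.a (.c (.b (.b (.l 2) (.l 2)) (.l 11))
      (.b (.b (.l 2) (.l 2)) (.l 11))) (.b (.c (.b (.l 2) (.l 0)) (.b (.l 2) (.l 0))) (.l 2))))
      (.l 19)) (.c (.b (.a (.b (.l 2) (.l 2)) (.l 2)) (.l 11)) (.b (.a (.b (.l 2) (.l 2)) (.l 2))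
      (.l 11)))) (.a (.b (.l 2) (.a (.l 2) (.l 2))) (.b (.l 2) (.l 2))))

theorem x_t1a_c1_d_f_M_h118 : chk3 (onCell 0 6442450944 0 3758096384 0 34359739 T_t1a_c1_d_f) x_t1a_c1_d_f_M_t118 75 18 6 = true := by decide +kernel

def x_t1a_c1_d_f_M_t119 : T :=
  (.b (.a (.l 19) (.c (.b (.l 10) (.l 19)) (.b (.l 10) (.l 19)))) (.l 19))

theorem x_t1a_c1_d_f_M_h119 : chk3 (onCell 0 6442450944 0 3758096384 0 34359739 T_t1a_c1_d_f) x_t1a_c1_d_f_M_t119 36 18 7 = true := by decide +kernel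

def x_t1a_c1_d_f_M_t120 : T :=
  (.b (.c (.a (.b (.c (.a (.l 10) (.b (.l 0) (.l 0))) (.a (.l 10) (.b (.l 0) (.l 0)))) (.l 10))
      (.b (.c (.a (.b (.l 0) (.l 0)) (.b (.l 0) (.a (.b (.l 0) (.a (.l 0) (.l 0))) (.l 2)))) (.a
      (.b (.l 0) (.l 0)) (.b (.l 0) (.a (.b (.l 0) (.a (.l 0) (.l 2))) (.l 2))))) (.c (.a (.l 12)
      (.b (.a (.l 11) (.l 0)) (.l 11))) (.a (.l 12) (.b (.a (.l 11) (.l 0)) (.l 11)))))) (.a (.b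
      (.c (.a (.l 10) (.b (.l 0) (.l 0))) (.a (.l 10) (.b (.l 0) (.l 0)))) (.l 10)) (.b (.c (.a
      (.b (.l 0) (.l 0)) (.b (.l 0) (.a (.b (.l 0) (.a (.l 0) (.l 2))) (.l 2)))) (.a (.b (.l 0)
      (.l 0)) (.b (.l 0) (.a (.b (.l 0) (.a (.l 0) (.l 2))) (.l 2))))) (.c (.a (.l 12) (.b (.a
      (.l 11) (.l 0)) (.l 0))) (.a (.l 12) (.b (.a (.l 0) (.l 0)) (.l 0))))))) (.a (.l 10) (.l
      12)))

theorem x_t1a_c1_d_f_M_h120 : chk3 (onCell 0 6442450944 0 3758096384 0 34359739 T_t1a_c1_d_f) x_t1a_c1_d_f_M_t120 74 36 14 = true := by decide +kernel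

def x_t1a_c1_d_f_M_t121 : T :=
  (.a (.b (.c (.a (.l 10) (.b (.l 0) (.l 0))) (.a (.l 10) (.b (.l 0) (.l 0)))) (.l 10)) (.b (.c
      (.a (.b (.l 0) (.a (.l 0) (.l 0))) (.b (.l 0) (.a (.b (.l 0) (.a (.l 2) (.l 2))) (.l 2))))
      (.a (.b (.l 0) (.a (.l 0) (.b (.l 0) (.l 12)))) (.b (.l 0) (.a (.b (.l 0) (.a (.l 2) (.l
      0))) (.l 2))))) (.c (.a (.l 12) (.b (.l 0) (.l 0))) (.a (.l 12) (.b (.l 0) (.l 0))))))

theorem x_t1a_c1_d_f_M_h121 : chk3 (onCell 0 6442450944 0 3758096384 0 34359739 T_t1a_c1_d_f) x_t1a_c1_d_f_M_t121 74 72 30 = true := by decide +kernel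

def x_t1a_c1_d_f_M_t122 : T :=
  (.a (.b (.c (.a (.l 10) (.b (.l 0) (.l 0))) (.a (.l 10) (.b (.l 0) (.l 0)))) (.l 10)) (.b (.c
      (.a (.b (.l 0) (.a (.l 0) (.b (.l 0) (.l 12)))) (.b (.l 0) (.a (.b (.l 0) (.a (.l 2) (.l
      0))) (.l 2)))) (.a (.b (.l 0) (.a (.l 0) (.b (.l 0) (.l 12)))) (.b (.l 0) (.a (.b (.l 0)
      (.a (.l 0) (.l 0))) (.l 2))))) (.c (.a (.l 12) (.b (.l 0) (.l 0))) (.a (.l 12) (.b (.l 0)
      (.l 0))))))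

theorem x_t1a_c1_d_f_M_h122 : chk3 (onCell 0 6442450944 0 3758096384 0 34359739 T_t1a_c1_d_f) x_t1a_c1_d_f_M_t122 74 72 31 = true := by decide +kernel

def x_t1a_c1_d_f_M_t123 : T :=
  (.l 12)

theorem x_t1a_c1_d_f_M_h123 : chk3 (onCell 0 6442450944 0 3758096384 0 34359739 T_t1a_c1_d_f) x_t1a_c1_d_f_M_t123 74 73 15 = true := by decide +kernel

def x_t1a_c1_d_f_M_t124 : T :=
  (.l 19)

theorem x_t1a_c1_d_f_M_h124 : chk3 (onCell 0 6442450944 0 3758096384 0 34359739 T_t1a_c1_d_f) x_t1a_c1_d_f_M_t124 74 37 7 = true := by decide +kernel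

def x_t1a_c1_d_f_M_t125 : T :=
  (.a (.a (.b (.c (.a (.c (.b (.b (.l 2) (.l 0)) (.l 11)) (.b (.b (.l 2) (.l 0)) (.l 11))) (.c
      (.b (.l 2) (.l 2)) (.b (.l 2) (.l 2)))) (.a (.c (.b (.b (.l 2) (.l 0)) (.l 11)) (.b (.b (.l
      2) (.l 0)) (.l 11))) (.c (.b (.l 2) (.l 2)) (.b (.l 2) (.l 2))))) (.l 19)) (.b (.c (.a (.b
      (.l 2) (.l 2)) (.l 2)) (.a (.b (.l 2) (.l 2)) (.l 2))) (.b (.l 11) (.l 19)))) (.a (.b (.l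
      2) (.a (.b (.l 2) (.l 19)) (.c (.l 2) (.l 2)))) (.b (.l 2) (.l 2))))

theorem x_t1a_c1_d_f_M_h125 : chk3 (onCell 0 6442450944 0 3758096384 0 34359739 T_t1a_c1_d_f) x_t1a_c1_d_f_M_t125 75 18 7 = true := by decide +kernel

def x_t1a_c1_d_f_M_t126 : T :=
  (.a (.a (.a (.c (.a (.b (.l 2) (.l 2)) (.b (.l 2) (.l 2))) (.a (.c (.b (.l 2) (.l 2)) (.b (.l
      2) (.l 2))) (.b (.l 2) (.l 2)))) (.c (.b (.l 2) (.l 2)) (.a (.b (.l 2) (.l 2)) (.b (.l 2)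
      (.l 2))))) (.a (.c (.b (.l 2) (.l 2)) (.b (.l 2) (.l 2))) (.b (.l 2) (.l 34)))) (.a (.a (.b
      (.l 2) (.l 34)) (.b (.l 2) (.l 34))) (.b (.l 34) (.l 34))))

theorem x_t1a_c1_d_f_M_h126 : chk3 (onCell 0 6442450944 0 3758096384 0 34359739 T_t1a_c1_d_f) x_t1a_c1_d_f_M_t126 19 18 1 = true := by decide +kernel

def x_t1a_c1_d_f_M_t127 : T :=
  (.a (.l 19) (.a (.a (.l 19) (.a (.l 19) (.b (.l 34) (.l 19)))) (.a (.a (.b (.l 34) (.l 19)) (.l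
      34)) (.a (.l 34) (.l 34)))))

theorem x_t1a_c1_d_f_M_h127 : chk3 (onCell 0 6442450944 0 3758096384 0 34359739 T_t1a_c1_d_f) x_t1a_c1_d_f_M_t127 9 19 1 = true := by decide +kernel

def x_t1a_c1_d_f_M_t128 : T :=
  (.a (.a (.a (.b (.a (.l 34) (.l 34)) (.a (.l 34) (.l 34))) (.b (.l 34) (.l 34))) (.b (.b (.l
      34) (.l 34)) (.a (.l 18) (.b (.l 18) (.l 18))))) (.c (.b (.a (.l 18) (.l 34)) (.a (.l 18)
      (.l 34))) (.b (.a (.l 18) (.b (.l 34) (.l 34))) (.a (.b (.l 18) (.l 18)) (.l 34)))))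

theorem x_t1a_c1_d_f_M_h128 : chk3 (onCell 0 6442450944 0 3758096384 0 34359739 T_t1a_c1_d_f) x_t1a_c1_d_f_M_t128 5 9 1 = true := by decide +kernel

def x_t1a_c1_d_f_M_t129 : T :=
  (.a (.a (.c (.b (.a (.l 34) (.l 34)) (.l 34)) (.a (.b (.b (.l 34) (.l 34)) (.l 34)) (.b (.b (.l
      34) (.l 34)) (.l 34)))) (.c (.b (.b (.l 34) (.l 34)) (.l 34)) (.a (.b (.l 34) (.l 34)) (.b
      (.l 34) (.l 34))))) (.b (.c (.a (.b (.l 34) (.l 34)) (.b (.l 34) (.l 34))) (.a (.a (.l 34)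
      (.b (.l 34) (.l 34))) (.a (.b (.l 34) (.l 34)) (.c (.l 34) (.l 34))))) (.a (.c (.l 34) (.b
      (.c (.l 34) (.l 34)) (.l 34))) (.c (.l 34) (.a (.b (.l 34) (.l 34)) (.b (.l 34) (.l
      34)))))))

theorem x_t1a_c1_d_f_M_h129 : chk3 (onCell 0 6442450944 0 3758096384 0 34359739 T_t1a_c1_d_f) x_t1a_c1_d_f_M_t129 3 9 1 = true := by decide +kernel

def x_t1a_c1_d_f_M_t130 : T :=
  (.a (.l 19) (.a (.b (.a (.a (.b (.a (.l 19) (.l 18)) (.l 19)) (.b (.a (.l 18) (.l 18)) (.l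
      19))) (.b (.a (.b (.l 18) (.l 18)) (.l 18)) (.a (.l 19) (.l 18)))) (.l 19)) (.c (.b (.a (.b
      (.l 18) (.l 18)) (.l 18)) (.a (.l 18) (.l 18))) (.b (.a (.b (.l 18) (.l 18)) (.b (.l 18)
      (.l 18))) (.a (.b (.l 18) (.l 19)) (.l 34))))))

theorem x_t1a_c1_d_f_M_h130 : chk3 (onCell 0 6442450944 0 3758096384 0 34359739 T_t1a_c1_d_f) x_t1a_c1_d_f_M_t130 2 5 1 = true := by decide +kernel

def x_t1a_c1_d_f_M_t131 : T :=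
  (.a (.a (.c (.b (.b (.l 34) (.l 34)) (.l 34)) (.b (.b (.l 34) (.l 34)) (.b (.l 34) (.l 34))))
      (.c (.b (.b (.l 34) (.l 34)) (.l 34)) (.b (.b (.b (.l 34) (.l 34)) (.l 34)) (.b (.l 34) (.l
      34))))) (.a (.c (.b (.l 34) (.l 34)) (.b (.a (.b (.l 34) (.l 34)) (.b (.l 34) (.l 34))) (.b
      (.b (.l 34) (.l 34)) (.b (.l 34) (.c (.l 34) (.l 34)))))) (.c (.b (.l 34) (.l 34)) (.b (.a
      (.b (.l 34) (.l 34)) (.c (.l 34) (.l 34))) (.a (.b (.l 34) (.b (.l 34) (.l 34))) (.c (.l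
      34) (.b (.l 34) (.l 34))))))))

theorem x_t1a_c1_d_f_M_h131 : chk3 (onCell 0 6442450944 0 3758096384 0 34359739 T_t1a_c1_d_f) x_t1a_c1_d_f_M_t131 3 5 1 = true := by decide +kernel

def x_t1a_c1_d_f_M_t132 : T :=
  (.l 19)

theorem x_t1a_c1_d_f_M_h132 : chk3 (onCell 0 6442450944 0 3758096384 0 34359739 T_t1a_c1_d_f) x_t1a_c1_d_f_M_t132 2 3 1 = true := by decide +kernel

def x_t1a_c1_d_f_M_t133 : T :=
  (.b (.a (.c (.b (.l 34) (.l 19)) (.b (.b (.l 34) (.a (.l 19) (.l 34))) (.l 19))) (.c (.b (.l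
      34) (.l 34)) (.b (.b (.b (.l 34) (.l 34)) (.b (.l 34) (.a (.l 34) (.l 34)))) (.b (.a (.b
      (.l 34) (.l 19)) (.b (.l 34) (.c (.l 34) (.l 34)))) (.b (.a (.l 19) (.c (.l 34) (.l 34)))
      (.l 19)))))) (.l 19))

theorem x_t1a_c1_d_f_M_h133 : chk3 (onCell 0 6442450944 0 3758096384 0 34359739 T_t1a_c1_d_f) x_t1a_c1_d_f_M_t133 6 3 1 = true := by decide +kernel

def x_t1a_c1_d_f_M_t134 : T :=
  (.c (.b (.l 34) (.l 34)) (.b (.b (.b (.c (.l 34) (.l 34)) (.c (.l 34) (.l 34))) (.b (.c (.l 34)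
      (.l 34)) (.c (.l 34) (.l 34)))) (.a (.b (.b (.c (.l 34) (.l 34)) (.c (.l 34) (.l 34))) (.b
      (.c (.l 34) (.l 34)) (.c (.l 34) (.b (.a (.l 34) (.l 34)) (.a (.l 34) (.c (.l 34) (.l
      51))))))) (.c (.l 34) (.b (.b (.l 34) (.b (.l 34) (.c (.l 34) (.l 51)))) (.a (.c (.l 34)
      (.l 51)) (.c (.l 34) (.l 51))))))))

theorem x_t1a_c1_d_f_M_h134 : chk3 (onCell 0 6442450944 0 3758096384 0 34359739 T_t1a_c1_d_f) x_t1a_c1_d_f_M_t134 14 6 1 = true := by decide +kernel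

end Pool.Agent.Strip051.LC.E0.Ch
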