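import Pool.Agent.Strip051.LC.E0.Ch.Te

/-! # Small rests: certificate X_t1a_c1_d_f_M_5 -/

set_option maxRecDepth 100000

namespace Pool.Agent.Strip051.LC.E0.Ch

open Pool.Agent.Strip051.PB

def x_t1a_c1_d_f_M_t135 : T :=
  (.c (.b (.l 34) (.l 34)) (.b (.a (.c (.l 34) (.b (.l 34) (.b (.l 34) (.l 34)))) (.c (.l 34) (.b
      (.l 34) (.b (.b (.l 34) (.l 34)) (.b (.c (.l 34) (.l 51)) (.c (.l 34) (.l 51))))))) (.a (.c
      (.l 34) (.b (.a (.b (.l 34) (.b (.l 34) (.c (.l 34) (.l 51)))) (.c (.l 34) (.l 51))) (.a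
      (.c (.l 34) (.l 51)) (.c (.l 34) (.l 51))))) (.c (.l 34) (.b (.a (.c (.l 34) (.l 51)) (.c
      (.l 34) (.l 51))) (.a (.c (.l 34) (.l 51)) (.c (.l 34) (.l 51))))))))

theorem x_t1a_c1_d_f_M_h135 : chk3 (onCell 0 6442450944 0 3758096384 0 34359739 T_t1a_c1_d_f) x_t1a_c1_d_f_M_t135 15 6 1 = true := by decide +kernel

def x_t1a_c1_d_f_M_t136 : T :=
  (.a (.c (.b (.l 34) (.l 19)) (.b (.a (.c (.l 34) (.b (.a (.l 19) (.c (.l 34) (.l 51))) (.l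
      19))) (.c (.l 34) (.b (.a (.c (.l 34) (.l 51)) (.c (.l 34) (.l 51))) (.l 51)))) (.l 19)))
      (.c (.b (.l 34) (.l 34)) (.b (.a (.c (.l 34) (.b (.a (.c (.l 34) (.l 51)) (.l 51)) (.l
      51))) (.c (.l 34) (.l 51))) (.a (.c (.b (.l 34) (.l 19)) (.l 51)) (.c (.b (.l 34) (.b (.l
      34) (.l 19))) (.l 51))))))

theorem x_t1a_c1_d_f_M_h136 : chk3 (onCell 0 6442450944 0 3758096384 0 34359739 T_t1a_c1_d_f) x_t1a_c1_d_f_M_t136 7 7 1 = true := by decide +kernel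

end Pool.Agent.Strip051.LC.E0.Ch
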