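import Pool.Agent.Strip051.LC.E0.Ch.Cert.X_t1a_c1_d_f_M_1
import Pool.Agent.Strip051.LC.E0.Ch.Cert.X_t1a_c1_d_f_M_2
import Pool.Agent.Strip051.LC.E0.Ch.Cert.X_t1a_c1_d_f_M_3
import Pool.Agent.Strip051.LC.E0.Ch.Cert.X_t1a_c1_d_f_M_4
import Pool.Agent.Strip051.LC.E0.Ch.Cert.X_t1a_c1_d_f_M_5

/-! # Small rests: certificate X_t1a_c1_d_f_M -/

set_option maxRecDepth 100000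

namespace Pool.Agent.Strip051.LC.E0.Ch

open Pool.Agent.Strip051.PB

theorem x_t1a_c1_d_f_M : Tree 0 6442450944 0 3758096384 0 34359739 T_t1a_c1_d_f :=
  ⟨_, (chk3_b (chk3_b (chk3_b (chk3_a (chk3_b (chk3_a (chk3_a (chk3_c (chk3_a (chk3_c (chk3_a
      x_t1a_c1_d_f_M_h0 (chk3_b x_t1a_c1_d_f_M_h1 (chk3_c x_t1a_c1_d_f_M_h2 x_t1a_c1_d_f_M_h3)))
      (chk3_a x_t1a_c1_d_f_M_h4 (chk3_b x_t1a_c1_d_f_M_h5 (chk3_c x_t1a_c1_d_f_M_h6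
      x_t1a_c1_d_f_M_h7)))) (chk3_a x_t1a_c1_d_f_M_h8 (chk3_b x_t1a_c1_d_f_M_h9 (chk3_c
      x_t1a_c1_d_f_M_h10 x_t1a_c1_d_f_M_h11)))) (chk3_a (chk3_c (chk3_a x_t1a_c1_d_f_M_h12
      (chk3_b x_t1a_c1_d_f_M_h13 (chk3_c x_t1a_c1_d_f_M_h14 x_t1a_c1_d_f_M_h15))) (chk3_a
      x_t1a_c1_d_f_M_h16 (chk3_b x_t1a_c1_d_f_M_h17 (chk3_c x_t1a_c1_d_f_M_h18
      x_t1a_c1_d_f_M_h19)))) (chk3_a x_t1a_c1_d_f_M_h20 (chk3_b x_t1a_c1_d_f_M_h21 (chk3_c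
      x_t1a_c1_d_f_M_h22 x_t1a_c1_d_f_M_h23))))) (chk3_a (chk3_c (chk3_c (chk3_a
      x_t1a_c1_d_f_M_h24 x_t1a_c1_d_f_M_h25) (chk3_a x_t1a_c1_d_f_M_h26 x_t1a_c1_d_f_M_h27))
      (chk3_c (chk3_a x_t1a_c1_d_f_M_h28 x_t1a_c1_d_f_M_h29) (chk3_a x_t1a_c1_d_f_M_h30
      x_t1a_c1_d_f_M_h31))) x_t1a_c1_d_f_M_h32)) x_t1a_c1_d_f_M_h33) (chk3_a (chk3_a (chk3_c
      (chk3_a x_t1a_c1_d_f_M_h34 (chk3_c (chk3_a (chk3_c x_t1a_c1_d_f_M_h35 x_t1a_c1_d_f_M_h36)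
      (chk3_b (chk3_c x_t1a_c1_d_f_M_h37 x_t1a_c1_d_f_M_h38) x_t1a_c1_d_f_M_h39)) (chk3_a (chk3_c
      x_t1a_c1_d_f_M_h40 x_t1a_c1_d_f_M_h41) (chk3_b (chk3_c x_t1a_c1_d_f_M_h42
      x_t1a_c1_d_f_M_h43) x_t1a_c1_d_f_M_h44)))) (chk3_a x_t1a_c1_d_f_M_h45 (chk3_c (chk3_a
      (chk3_b (chk3_c x_t1a_c1_d_f_M_h46 x_t1a_c1_d_f_M_h47) x_t1a_c1_d_f_M_h48) (chk3_b (chk3_c
      x_t1a_c1_d_f_M_h49 x_t1a_c1_d_f_M_h50) x_t1a_c1_d_f_M_h51)) (chk3_a (chk3_b (chk3_c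
      x_t1a_c1_d_f_M_h52 x_t1a_c1_d_f_M_h53) x_t1a_c1_d_f_M_h54) (chk3_b (chk3_c
      x_t1a_c1_d_f_M_h55 x_t1a_c1_d_f_M_h56) x_t1a_c1_d_f_M_h57))))) (chk3_a (chk3_c (chk3_c
      (chk3_a (chk3_b (chk3_c x_t1a_c1_d_f_M_h58 x_t1a_c1_d_f_M_h59) (chk3_c (chk3_a
      x_t1a_c1_d_f_M_h60 x_t1a_c1_d_f_M_h61) (chk3_a x_t1a_c1_d_f_M_h62 (chk3_b
      x_t1a_c1_d_f_M_h63 x_t1a_c1_d_f_M_h64)))) (chk3_a (chk3_b x_t1a_c1_d_f_M_h65 (chk3_c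
      (chk3_b x_t1a_c1_d_f_M_h66 x_t1a_c1_d_f_M_h67) (chk3_b x_t1a_c1_d_f_M_h68
      x_t1a_c1_d_f_M_h69))) x_t1a_c1_d_f_M_h70)) (chk3_a (chk3_b (chk3_c x_t1a_c1_d_f_M_h71
      x_t1a_c1_d_f_M_h72) (chk3_c (chk3_a x_t1a_c1_d_f_M_h73 (chk3_b x_t1a_c1_d_f_M_h74
      x_t1a_c1_d_f_M_h75)) (chk3_a x_t1a_c1_d_f_M_h76 x_t1a_c1_d_f_M_h77))) (chk3_a (chk3_b
      x_t1a_c1_d_f_M_h78 (chk3_c x_t1a_c1_d_f_M_h79 x_t1a_c1_d_f_M_h80)) x_t1a_c1_d_f_M_h81)))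
      (chk3_c (chk3_a (chk3_b (chk3_c x_t1a_c1_d_f_M_h82 x_t1a_c1_d_f_M_h83) (chk3_c (chk3_a
      x_t1a_c1_d_f_M_h84 x_t1a_c1_d_f_M_h85) (chk3_a x_t1a_c1_d_f_M_h86 x_t1a_c1_d_f_M_h87)))
      (chk3_a (chk3_b x_t1a_c1_d_f_M_h88 (chk3_c x_t1a_c1_d_f_M_h89 x_t1a_c1_d_f_M_h90))
      x_t1a_c1_d_f_M_h91)) (chk3_a (chk3_b x_t1a_c1_d_f_M_h92 (chk3_c (chk3_a x_t1a_c1_d_f_M_h93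
      x_t1a_c1_d_f_M_h94) (chk3_a x_t1a_c1_d_f_M_h95 x_t1a_c1_d_f_M_h96))) (chk3_a (chk3_b
      x_t1a_c1_d_f_M_h97 (chk3_c x_t1a_c1_d_f_M_h98 x_t1a_c1_d_f_M_h99)) x_t1a_c1_d_f_M_h100))))
      x_t1a_c1_d_f_M_h101)) x_t1a_c1_d_f_M_h102)) x_t1a_c1_d_f_M_h103) (chk3_a (chk3_a (chk3_a
      x_t1a_c1_d_f_M_h104 (chk3_b (chk3_a (chk3_c (chk3_c (chk3_a x_t1a_c1_d_f_M_h105 (chk3_a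
      (chk3_b (chk3_c (chk3_b x_t1a_c1_d_f_M_h106 x_t1a_c1_d_f_M_h107) x_t1a_c1_d_f_M_h108)
      x_t1a_c1_d_f_M_h109) x_t1a_c1_d_f_M_h110)) (chk3_a x_t1a_c1_d_f_M_h111 (chk3_a
      x_t1a_c1_d_f_M_h112 x_t1a_c1_d_f_M_h113))) (chk3_c (chk3_a x_t1a_c1_d_f_M_h114 (chk3_a
      (chk3_b (chk3_c x_t1a_c1_d_f_M_h115 x_t1a_c1_d_f_M_h116) x_t1a_c1_d_f_M_h117)
      x_t1a_c1_d_f_M_h118)) (chk3_a x_t1a_c1_d_f_M_h119 (chk3_a (chk3_b (chk3_c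
      x_t1a_c1_d_f_M_h120 (chk3_b (chk3_c x_t1a_c1_d_f_M_h121 x_t1a_c1_d_f_M_h122)
      x_t1a_c1_d_f_M_h123)) x_t1a_c1_d_f_M_h124) x_t1a_c1_d_f_M_h125)))) x_t1a_c1_d_f_M_h126)
      x_t1a_c1_d_f_M_h127)) x_t1a_c1_d_f_M_h128) x_t1a_c1_d_f_M_h129)) (chk3_a
      x_t1a_c1_d_f_M_h130 x_t1a_c1_d_f_M_h131)) (chk3_a x_t1a_c1_d_f_M_h132 (chk3_a
      x_t1a_c1_d_f_M_h133 (chk3_b (chk3_a x_t1a_c1_d_f_M_h134 x_t1a_c1_d_f_M_h135)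
      x_t1a_c1_d_f_M_h136))))⟩

end Pool.Agent.Strip051.LC.E0.Ch
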