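import Pool.Agent.Strip051.LC.E0.Ch.Te

/-! # Small rests: certificate X_t1a_c1_d_f_M_1 -/

set_option maxRecDepth 100000

namespace Pool.Agent.Strip051.LC.E0.Ch

open Pool.Agent.Strip051.PB

def x_t1a_c1_d_f_M_t0 : T :=
  (.b (.c (.a (.b (.a (.b (.l 4) (.l 19)) (.l 4)) (.l 19)) (.b (.l 4) (.a (.b (.l 4) (.l 19)) (.l
      4)))) (.a (.b (.a (.b (.l 4) (.l 19)) (.l 4)) (.l 19)) (.b (.l 4) (.a (.b (.l 4) (.l 19))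
      (.l 4))))) (.l 19))

theorem x_t1a_c1_d_f_M_h0 : chk3 (onCell 0 6442450944 0 3758096384 0 34359739 T_t1a_c1_d_f) x_t1a_c1_d_f_M_t0 32 16 4 = true := by decide +kernel

def x_t1a_c1_d_f_M_t1 : T :=
  (.a (.l 4) (.l 4))

theorem x_t1a_c1_d_f_M_h1 : chk3 (onCell 0 6442450944 0 3758096384 0 34359739 T_t1a_c1_d_f) x_t1a_c1_d_f_M_t1 33 32 4 = true := by decide +kernel

def x_t1a_c1_d_f_M_t2 : T :=
  (.a (.c (.b (.a (.c (.b (.l 4) (.l 19)) (.b (.l 4) (.l 19))) (.l 4)) (.l 19)) (.b (.a (.c (.b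
      (.l 4) (.l 19)) (.b (.l 4) (.l 19))) (.l 4)) (.l 19))) (.c (.b (.l 4) (.a (.c (.b (.l 4)
      (.l 19)) (.b (.l 4) (.l 19))) (.c (.b (.l 0) (.l 19)) (.b (.l 0) (.l 19))))) (.b (.l 4) (.a
      (.c (.b (.l 4) (.l 19)) (.b (.l 4) (.l 19))) (.c (.b (.l 0) (.l 19)) (.b (.l 0) (.l
      19)))))))

theorem x_t1a_c1_d_f_M_h2 : chk3 (onCell 0 6442450944 0 3758096384 0 34359739 T_t1a_c1_d_f) x_t1a_c1_d_f_M_t2 33 33 8 = true := by decide +kernel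

def x_t1a_c1_d_f_M_t3 : T :=
  (.a (.c (.b (.a (.c (.b (.l 4) (.l 19)) (.b (.l 4) (.l 19))) (.l 4)) (.l 19)) (.b (.a (.c (.b
      (.l 4) (.l 19)) (.b (.l 4) (.l 19))) (.l 4)) (.l 19))) (.c (.b (.l 4) (.a (.c (.b (.l 4)
      (.l 19)) (.b (.a (.l 19) (.l 0)) (.l 19))) (.c (.b (.l 0) (.l 19)) (.b (.l 0) (.l 19)))))
      (.b (.l 4) (.a (.c (.b (.a (.l 19) (.l 0)) (.l 19)) (.b (.a (.l 19) (.l 0)) (.l 19))) (.c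
      (.b (.l 0) (.l 19)) (.b (.l 0) (.l 19)))))))

theorem x_t1a_c1_d_f_M_h3 : chk3 (onCell 0 6442450944 0 3758096384 0 34359739 T_t1a_c1_d_f) x_t1a_c1_d_f_M_t3 33 33 9 = true := by decide +kernel

def x_t1a_c1_d_f_M_t4 : T :=
  (.b (.c (.a (.b (.a (.b (.l 4) (.l 19)) (.l 4)) (.l 19)) (.b (.l 4) (.a (.b (.l 4) (.l 19)) (.l
      4)))) (.a (.b (.a (.b (.l 4) (.l 19)) (.l 4)) (.l 19)) (.b (.l 4) (.a (.b (.l 4) (.l 19))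
      (.l 4))))) (.l 19))

theorem x_t1a_c1_d_f_M_h4 : chk3 (onCell 0 6442450944 0 3758096384 0 34359739 T_t1a_c1_d_f) x_t1a_c1_d_f_M_t4 32 16 5 = true := by decide +kernel

def x_t1a_c1_d_f_M_t5 : T :=
  (.a (.l 4) (.l 4))

theorem x_t1a_c1_d_f_M_h5 : chk3 (onCell 0 6442450944 0 3758096384 0 34359739 T_t1a_c1_d_f) x_t1a_c1_d_f_M_t5 33 32 5 = true := by decide +kernel

def x_t1a_c1_d_f_M_t6 : T :=
  (.a (.c (.b (.a (.c (.b (.l 4) (.l 19)) (.b (.l 4) (.l 19))) (.l 4)) (.l 19)) (.b (.a (.c (.b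
      (.l 4) (.l 19)) (.b (.l 4) (.l 19))) (.l 4)) (.l 19))) (.c (.b (.l 4) (.a (.c (.b (.a (.l
      19) (.l 0)) (.l 19)) (.b (.a (.l 19) (.l 0)) (.l 19))) (.c (.b (.l 0) (.l 19)) (.b (.l 0)
      (.l 19))))) (.b (.l 4) (.a (.c (.b (.a (.l 19) (.l 0)) (.l 19)) (.b (.a (.l 19) (.l 0)) (.l
      19))) (.c (.b (.l 0) (.l 19)) (.b (.l 0) (.l 19)))))))

theorem x_t1a_c1_d_f_M_h6 : chk3 (onCell 0 6442450944 0 3758096384 0 34359739 T_t1a_c1_d_f) x_t1a_c1_d_f_M_t6 33 33 10 = true := by decide +kernel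

def x_t1a_c1_d_f_M_t7 : T :=
  (.a (.c (.b (.a (.c (.b (.l 4) (.l 19)) (.b (.l 4) (.l 19))) (.l 4)) (.l 19)) (.b (.a (.c (.b
      (.l 4) (.l 19)) (.b (.l 4) (.l 19))) (.l 4)) (.l 19))) (.c (.b (.l 4) (.a (.c (.b (.a (.l
      19) (.l 0)) (.l 19)) (.b (.a (.l 19) (.l 0)) (.l 19))) (.c (.b (.l 0) (.l 19)) (.b (.l 0)
      (.l 19))))) (.b (.l 4) (.a (.c (.b (.a (.l 19) (.l 0)) (.l 19)) (.b (.a (.l 19) (.l 0)) (.l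
      19))) (.c (.b (.l 0) (.l 19)) (.b (.l 0) (.l 19)))))))

theorem x_t1a_c1_d_f_M_h7 : chk3 (onCell 0 6442450944 0 3758096384 0 34359739 T_t1a_c1_d_f) x_t1a_c1_d_f_M_t7 33 33 11 = true := by decide +kernel

def x_t1a_c1_d_f_M_t8 : T :=
  (.c (.b (.l 4) (.c (.a (.c (.b (.l 4) (.a (.l 4) (.l 4))) (.b (.l 4) (.a (.l 4) (.l 4)))) (.c
      (.b (.l 4) (.a (.l 4) (.l 0))) (.b (.l 4) (.a (.l 4) (.l 0))))) (.a (.c (.b (.l 4) (.a (.l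
      4) (.l 4))) (.b (.l 4) (.a (.l 4) (.l 4)))) (.c (.b (.l 4) (.a (.l 4) (.l 0))) (.b (.l 4)
      (.a (.l 4) (.l 0))))))) (.b (.l 4) (.c (.a (.c (.b (.l 4) (.a (.l 4) (.l 4))) (.b (.l 4)
      (.a (.l 4) (.l 4)))) (.c (.b (.l 4) (.a (.l 4) (.l 0))) (.b (.l 4) (.a (.l 4) (.l 0)))))
      (.a (.c (.b (.l 4) (.a (.l 4) (.l 4))) (.b (.l 4) (.a (.l 4) (.l 4)))) (.c (.b (.l 4) (.a
      (.l 4) (.l 4))) (.b (.l 4) (.a (.l 4) (.l 4))))))))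

theorem x_t1a_c1_d_f_M_h8 : chk3 (onCell 0 6442450944 0 3758096384 0 34359739 T_t1a_c1_d_f) x_t1a_c1_d_f_M_t8 34 16 2 = true := by decide +kernel

def x_t1a_c1_d_f_M_t9 : T :=
  (.c (.a (.c (.l 4) (.l 4)) (.l 4)) (.a (.c (.l 4) (.l 4)) (.l 4)))

theorem x_t1a_c1_d_f_M_h9 : chk3 (onCell 0 6442450944 0 3758096384 0 34359739 T_t1a_c1_d_f) x_t1a_c1_d_f_M_t9 35 32 2 = true := by decide +kernel

def x_t1a_c1_d_f_M_t10 : T :=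
  (.c (.a (.c (.b (.l 4) (.a (.l 0) (.c (.l 0) (.l 0)))) (.b (.l 4) (.a (.l 0) (.c (.l 0) (.l
      0))))) (.c (.b (.a (.l 4) (.l 4)) (.a (.l 0) (.l 0))) (.b (.a (.l 4) (.l 4)) (.a (.l 0) (.l
      0))))) (.a (.c (.b (.l 4) (.a (.c (.l 0) (.l 0)) (.c (.l 0) (.l 0)))) (.b (.l 4) (.a (.c
      (.l 0) (.l 0)) (.c (.l 0) (.l 0))))) (.c (.b (.a (.l 4) (.l 4)) (.a (.l 0) (.l 0))) (.b (.a
      (.l 4) (.l 4)) (.a (.l 0) (.l 0))))))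

theorem x_t1a_c1_d_f_M_h10 : chk3 (onCell 0 6442450944 0 3758096384 0 34359739 T_t1a_c1_d_f) x_t1a_c1_d_f_M_t10 35 33 4 = true := by decide +kernel

def x_t1a_c1_d_f_M_t11 : T :=
  (.c (.a (.c (.b (.l 4) (.a (.c (.l 0) (.l 0)) (.c (.l 0) (.l 0)))) (.b (.l 4) (.a (.c (.l 0)
      (.l 0)) (.c (.l 0) (.l 0))))) (.c (.b (.a (.l 4) (.l 4)) (.a (.l 0) (.l 0))) (.b (.a (.l 4)
      (.l 4)) (.a (.l 0) (.l 0))))) (.a (.c (.b (.l 4) (.a (.c (.l 0) (.l 0)) (.c (.l 0) (.l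
      0)))) (.b (.l 4) (.a (.c (.l 0) (.l 0)) (.c (.l 0) (.l 0))))) (.c (.b (.a (.l 4) (.l 4))
      (.a (.l 0) (.l 0))) (.b (.a (.l 4) (.l 4)) (.a (.l 0) (.l 0))))))

theorem x_t1a_c1_d_f_M_h11 : chk3 (onCell 0 6442450944 0 3758096384 0 34359739 T_t1a_c1_d_f) x_t1a_c1_d_f_M_t11 35 33 5 = true := by decide +kernel

def x_t1a_c1_d_f_M_t12 : T :=
  (.b (.c (.a (.b (.a (.b (.l 4) (.l 19)) (.l 4)) (.l 19)) (.b (.l 4) (.a (.b (.l 4) (.l 19)) (.l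
      4)))) (.a (.b (.a (.b (.l 4) (.l 19)) (.l 4)) (.l 19)) (.b (.l 4) (.a (.b (.l 4) (.l 19))
      (.l 4))))) (.l 19))

theorem x_t1a_c1_d_f_M_h12 : chk3 (onCell 0 6442450944 0 3758096384 0 34359739 T_t1a_c1_d_f) x_t1a_c1_d_f_M_t12 32 16 6 = true := by decide +kernel

def x_t1a_c1_d_f_M_t13 : T :=
  (.a (.l 4) (.l 4))

theorem x_t1a_c1_d_f_M_h13 : chk3 (onCell 0 6442450944 0 3758096384 0 34359739 T_t1a_c1_d_f) x_t1a_c1_d_f_M_t13 33 32 6 = true := by decide +kernel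

def x_t1a_c1_d_f_M_t14 : T :=
  (.a (.c (.b (.a (.c (.b (.l 4) (.l 19)) (.b (.l 4) (.l 19))) (.l 4)) (.l 19)) (.b (.a (.c (.b
      (.l 4) (.l 19)) (.b (.l 4) (.l 19))) (.c (.l 4) (.l 4))) (.l 19))) (.c (.b (.l 4) (.a (.c
      (.b (.a (.l 19) (.l 0)) (.l 19)) (.b (.a (.l 19) (.l 0)) (.l 19))) (.c (.b (.l 0) (.l 19))
      (.b (.l 0) (.l 19))))) (.b (.l 4) (.a (.c (.b (.a (.l 19) (.l 0)) (.l 19)) (.b (.a (.l 19)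
      (.l 0)) (.l 19))) (.c (.b (.l 0) (.l 19)) (.b (.l 0) (.l 19)))))))

theorem x_t1a_c1_d_f_M_h14 : chk3 (onCell 0 6442450944 0 3758096384 0 34359739 T_t1a_c1_d_f) x_t1a_c1_d_f_M_t14 33 33 12 = true := by decide +kernel

def x_t1a_c1_d_f_M_t15 : T :=
  (.a (.c (.b (.a (.c (.b (.l 4) (.l 19)) (.b (.l 4) (.l 19))) (.c (.l 4) (.l 4))) (.l 19)) (.b
      (.a (.c (.b (.l 4) (.l 19)) (.b (.l 4) (.l 19))) (.c (.l 4) (.b (.l 0) (.l 4)))) (.l 19)))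
      (.c (.b (.l 4) (.a (.c (.b (.a (.l 19) (.l 0)) (.l 19)) (.b (.a (.l 19) (.l 0)) (.l 19)))
      (.c (.b (.l 0) (.l 19)) (.b (.l 0) (.l 19))))) (.b (.l 4) (.a (.c (.b (.a (.l 19) (.l 0))
      (.l 19)) (.b (.a (.l 19) (.l 0)) (.l 19))) (.c (.b (.l 0) (.l 19)) (.b (.l 0) (.l 19)))))))

theorem x_t1a_c1_d_f_M_h15 : chk3 (onCell 0 6442450944 0 3758096384 0 34359739 T_t1a_c1_d_f) x_t1a_c1_d_f_M_t15 33 33 13 = true := by decide +kernel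

def x_t1a_c1_d_f_M_t16 : T :=
  (.b (.a (.b (.a (.c (.b (.l 4) (.l 19)) (.b (.l 4) (.l 19))) (.l 4)) (.l 19)) (.b (.l 4) (.c
      (.a (.b (.l 4) (.l 19)) (.l 4)) (.a (.b (.l 4) (.l 19)) (.l 4))))) (.l 19))

theorem x_t1a_c1_d_f_M_h16 : chk3 (onCell 0 6442450944 0 3758096384 0 34359739 T_t1a_c1_d_f) x_t1a_c1_d_f_M_t16 32 16 7 = true := by decide +kernel

def x_t1a_c1_d_f_M_t17 : T :=
  (.a (.l 4) (.l 4))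

theorem x_t1a_c1_d_f_M_h17 : chk3 (onCell 0 6442450944 0 3758096384 0 34359739 T_t1a_c1_d_f) x_t1a_c1_d_f_M_t17 33 32 7 = true := by decide +kernel

def x_t1a_c1_d_f_M_t18 : T :=
  (.a (.c (.b (.a (.c (.b (.l 4) (.l 19)) (.b (.l 4) (.l 19))) (.c (.b (.l 0) (.l 4)) (.b (.l 0)
      (.l 4)))) (.l 19)) (.b (.a (.c (.b (.l 4) (.l 19)) (.b (.l 4) (.l 19))) (.c (.b (.l 0) (.l
      4)) (.b (.l 0) (.l 4)))) (.l 19))) (.c (.b (.l 4) (.a (.c (.b (.a (.l 19) (.l 0)) (.l 19))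
      (.b (.a (.l 19) (.l 0)) (.l 19))) (.c (.b (.l 0) (.l 19)) (.b (.l 4) (.l 19))))) (.b (.l 4)
      (.a (.c (.b (.a (.l 19) (.l 4)) (.l 19)) (.b (.a (.l 19) (.l 4)) (.l 19))) (.c (.b (.l 4)
      (.l 19)) (.b (.l 4) (.l 19)))))))

theorem x_t1a_c1_d_f_M_h18 : chk3 (onCell 0 6442450944 0 3758096384 0 34359739 T_t1a_c1_d_f) x_t1a_c1_d_f_M_t18 33 33 14 = true := by decide +kernel

def x_t1a_c1_d_f_M_t19 : T :=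
  (.a (.c (.b (.a (.c (.b (.l 4) (.l 19)) (.b (.l 4) (.l 19))) (.c (.b (.l 0) (.l 4)) (.b (.l 0)
      (.l 4)))) (.l 19)) (.b (.a (.c (.b (.l 4) (.l 19)) (.b (.l 4) (.l 19))) (.c (.b (.l 0) (.l
      4)) (.b (.l 4) (.a (.l 19) (.l 0))))) (.l 19))) (.c (.b (.l 4) (.a (.c (.b (.a (.l 19) (.l
      4)) (.l 19)) (.b (.a (.l 19) (.l 4)) (.l 19))) (.c (.b (.l 4) (.l 19)) (.b (.l 4) (.l
      19))))) (.b (.l 4) (.a (.c (.b (.a (.l 19) (.l 4)) (.l 19)) (.b (.a (.l 19) (.l 4)) (.l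
      19))) (.c (.b (.l 4) (.l 19)) (.b (.l 4) (.l 19)))))))

theorem x_t1a_c1_d_f_M_h19 : chk3 (onCell 0 6442450944 0 3758096384 0 34359739 T_t1a_c1_d_f) x_t1a_c1_d_f_M_t19 33 33 15 = true := by decide +kernel

def x_t1a_c1_d_f_M_t20 : T :=
  (.c (.b (.l 4) (.c (.a (.c (.b (.l 4) (.a (.l 4) (.l 4))) (.b (.l 4) (.a (.l 4) (.l 4)))) (.c
      (.b (.l 4) (.a (.l 4) (.l 4))) (.b (.l 4) (.a (.l 4) (.l 4))))) (.a (.c (.b (.l 4) (.a (.l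
      4) (.l 4))) (.b (.l 4) (.a (.c (.l 4) (.l 4)) (.l 4)))) (.c (.b (.l 4) (.a (.l 4) (.l 4)))
      (.b (.l 4) (.a (.l 4) (.l 4))))))) (.b (.l 4) (.c (.a (.c (.b (.l 4) (.a (.c (.l 4) (.l 4))
      (.l 4))) (.b (.l 4) (.a (.c (.l 4) (.l 4)) (.l 4)))) (.c (.b (.l 4) (.a (.l 4) (.l 4))) (.b
      (.l 4) (.a (.l 4) (.l 4))))) (.a (.c (.b (.l 4) (.a (.c (.l 4) (.l 4)) (.l 4))) (.b (.l 4)
      (.a (.c (.l 4) (.l 4)) (.l 4)))) (.c (.b (.l 4) (.a (.l 4) (.l 4))) (.b (.l 4) (.a (.l 4)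
      (.l 4))))))))

theorem x_t1a_c1_d_f_M_h20 : chk3 (onCell 0 6442450944 0 3758096384 0 34359739 T_t1a_c1_d_f) x_t1a_c1_d_f_M_t20 34 16 3 = true := by decide +kernel

def x_t1a_c1_d_f_M_t21 : T :=
  (.c (.a (.c (.l 4) (.l 4)) (.l 4)) (.a (.c (.l 4) (.l 4)) (.l 4)))

theorem x_t1a_c1_d_f_M_h21 : chk3 (onCell 0 6442450944 0 3758096384 0 34359739 T_t1a_c1_d_f) x_t1a_c1_d_f_M_t21 35 32 3 = true := by decide +kernel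

def x_t1a_c1_d_f_M_t22 : T :=
  (.c (.a (.c (.b (.l 4) (.a (.c (.l 0) (.l 0)) (.c (.l 0) (.l 0)))) (.b (.l 4) (.a (.c (.l 0)
      (.l 0)) (.c (.l 0) (.l 0))))) (.c (.b (.a (.l 4) (.l 4)) (.a (.l 0) (.l 0))) (.b (.a (.l 4)
      (.l 4)) (.a (.l 0) (.l 0))))) (.a (.c (.b (.l 4) (.a (.c (.l 0) (.l 0)) (.c (.l 0) (.l
      0)))) (.b (.l 4) (.a (.c (.l 0) (.l 0)) (.c (.l 0) (.l 0))))) (.c (.b (.a (.l 4) (.l 4))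
      (.a (.l 0) (.l 0))) (.b (.a (.l 4) (.l 4)) (.a (.l 0) (.l 0))))))

theorem x_t1a_c1_d_f_M_h22 : chk3 (onCell 0 6442450944 0 3758096384 0 34359739 T_t1a_c1_d_f) x_t1a_c1_d_f_M_t22 35 33 6 = true := by decide +kernel

def x_t1a_c1_d_f_M_t23 : T :=
  (.c (.a (.c (.b (.l 4) (.a (.c (.l 0) (.l 0)) (.c (.l 0) (.l 0)))) (.b (.l 4) (.a (.c (.b (.l
      0) (.l 0)) (.b (.l 0) (.l 0))) (.c (.l 0) (.l 0))))) (.c (.b (.a (.l 4) (.l 4)) (.a (.l 0)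
      (.l 0))) (.b (.a (.l 4) (.l 4)) (.a (.l 0) (.l 0))))) (.a (.c (.b (.l 4) (.a (.c (.b (.l 0)
      (.l 0)) (.b (.l 0) (.l 0))) (.c (.l 0) (.l 0)))) (.b (.l 4) (.a (.c (.b (.l 0) (.l 0)) (.b
      (.l 0) (.l 0))) (.c (.l 0) (.l 0))))) (.c (.b (.a (.l 4) (.l 4)) (.a (.l 0) (.l 0))) (.b
      (.a (.l 4) (.l 4)) (.a (.l 0) (.l 0))))))

theorem x_t1a_c1_d_f_M_h23 : chk3 (onCell 0 6442450944 0 3758096384 0 34359739 T_t1a_c1_d_f) x_t1a_c1_d_f_M_t23 35 33 7 = true := by decide +kernel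

def x_t1a_c1_d_f_M_t24 : T :=
  (.b (.b (.a (.l 4) (.l 4)) (.a (.l 4) (.l 4))) (.c (.a (.c (.b (.a (.l 4) (.l 0)) (.a (.l 0)
      (.l 0))) (.b (.a (.l 4) (.l 0)) (.a (.l 0) (.l 0)))) (.c (.b (.l 4) (.a (.l 0) (.l 0))) (.b
      (.l 4) (.a (.l 0) (.l 0))))) (.a (.c (.b (.a (.l 4) (.l 0)) (.a (.l 0) (.l 0))) (.b (.a (.l
      4) (.l 0)) (.a (.l 0) (.l 0)))) (.c (.b (.l 4) (.a (.l 0) (.l 0))) (.b (.l 4) (.a (.l 0)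
      (.l 0)))))))

theorem x_t1a_c1_d_f_M_h24 : chk3 (onCell 0 6442450944 0 3758096384 0 34359739 T_t1a_c1_d_f) x_t1a_c1_d_f_M_t24 36 16 4 = true := by decide +kernel

def x_t1a_c1_d_f_M_t25 : T :=
  (.a (.b (.b (.c (.b (.l 4) (.l 4)) (.l 4)) (.c (.a (.l 4) (.l 4)) (.a (.l 4) (.l 4)))) (.c (.b
      (.c (.a (.l 0) (.l 0)) (.a (.l 0) (.l 0))) (.c (.a (.l 0) (.l 0)) (.a (.l 0) (.l 0)))) (.b
      (.c (.a (.l 0) (.l 0)) (.a (.l 0) (.l 0))) (.c (.a (.l 0) (.l 0)) (.a (.l 0) (.l 0))))))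
      (.a (.a (.b (.l 4) (.l 4)) (.b (.l 4) (.c (.b (.l 0) (.l 0)) (.b (.l 0) (.l 0))))) (.a (.a
      (.b (.l 4) (.c (.l 2) (.l 2))) (.b (.l 4) (.l 2))) (.a (.b (.l 4) (.l 2)) (.c (.b (.l 4)
      (.l 2)) (.b (.l 4) (.l 2)))))))

theorem x_t1a_c1_d_f_M_h25 : chk3 (onCell 0 6442450944 0 3758096384 0 34359739 T_t1a_c1_d_f) x_t1a_c1_d_f_M_t25 37 16 4 = true := by decide +kernel

def x_t1a_c1_d_f_M_t26 : T :=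
  (.b (.a (.b (.l 4) (.l 4)) (.b (.l 4) (.l 4))) (.c (.a (.c (.b (.a (.l 4) (.l 0)) (.a (.l 0)
      (.l 0))) (.b (.a (.l 4) (.l 0)) (.a (.l 0) (.l 0)))) (.c (.b (.l 4) (.a (.l 0) (.l 0))) (.b
      (.l 4) (.a (.l 0) (.l 0))))) (.a (.c (.b (.a (.l 4) (.l 0)) (.a (.l 0) (.l 0))) (.b (.a (.l
      4) (.l 0)) (.a (.l 0) (.l 0)))) (.c (.b (.l 4) (.a (.l 0) (.l 0))) (.b (.l 4) (.a (.l 0)
      (.l 0)))))))

theorem x_t1a_c1_d_f_M_h26 : chk3 (onCell 0 6442450944 0 3758096384 0 34359739 T_t1a_c1_d_f) x_t1a_c1_d_f_M_t26 36 16 5 = true := by decide +kernel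

def x_t1a_c1_d_f_M_t27 : T :=
  (.a (.b (.b (.c (.l 4) (.l 4)) (.c (.a (.l 4) (.l 4)) (.a (.l 4) (.l 4)))) (.c (.b (.c (.a (.l
      0) (.l 0)) (.a (.l 0) (.l 0))) (.c (.a (.l 0) (.l 0)) (.a (.l 0) (.l 0)))) (.b (.c (.a (.l
      0) (.l 0)) (.a (.l 0) (.l 0))) (.c (.a (.l 0) (.l 0)) (.a (.l 0) (.l 0)))))) (.a (.a (.b
      (.l 4) (.c (.b (.l 0) (.l 0)) (.b (.l 0) (.l 0)))) (.b (.l 4) (.c (.b (.l 0) (.l 0)) (.b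
      (.l 0) (.l 0))))) (.a (.a (.b (.l 4) (.c (.l 2) (.l 2))) (.b (.l 4) (.l 2))) (.a (.b (.l 4)
      (.l 2)) (.b (.l 4) (.l 2))))))

theorem x_t1a_c1_d_f_M_h27 : chk3 (onCell 0 6442450944 0 3758096384 0 34359739 T_t1a_c1_d_f) x_t1a_c1_d_f_M_t27 37 16 5 = true := by decide +kernel

def x_t1a_c1_d_f_M_t28 : T :=
  (.b (.a (.b (.l 4) (.l 4)) (.b (.l 4) (.l 4))) (.c (.a (.c (.b (.l 4) (.a (.l 0) (.l 0))) (.b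
      (.l 4) (.a (.l 0) (.l 0)))) (.c (.b (.l 4) (.a (.l 0) (.l 0))) (.b (.l 4) (.a (.l 0) (.l
      0))))) (.a (.c (.b (.l 4) (.a (.l 0) (.l 0))) (.b (.l 4) (.a (.l 0) (.l 0)))) (.c (.b (.l
      4) (.a (.l 0) (.l 0))) (.b (.l 4) (.a (.l 0) (.l 0)))))))

theorem x_t1a_c1_d_f_M_h28 : chk3 (onCell 0 6442450944 0 3758096384 0 34359739 T_t1a_c1_d_f) x_t1a_c1_d_f_M_t28 36 16 6 = true := by decide +kernel

def x_t1a_c1_d_f_M_t29 : T :=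
  (.a (.b (.b (.c (.l 4) (.l 4)) (.c (.a (.l 4) (.l 4)) (.a (.l 4) (.l 4)))) (.c (.b (.c (.a (.l
      0) (.l 0)) (.a (.l 0) (.l 0))) (.c (.a (.l 0) (.l 0)) (.a (.l 0) (.l 0)))) (.b (.c (.a (.l
      0) (.l 0)) (.a (.l 0) (.l 0))) (.c (.a (.l 0) (.l 0)) (.a (.l 0) (.l 0)))))) (.a (.a (.b
      (.l 4) (.c (.b (.l 0) (.l 0)) (.b (.l 0) (.l 0)))) (.b (.l 4) (.c (.b (.l 0) (.l 0)) (.b
      (.l 0) (.l 0))))) (.a (.a (.b (.l 4) (.c (.l 2) (.l 2))) (.b (.l 4) (.l 2))) (.a (.b (.l 4)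
      (.l 2)) (.b (.l 4) (.l 2))))))

theorem x_t1a_c1_d_f_M_h29 : chk3 (onCell 0 6442450944 0 3758096384 0 34359739 T_t1a_c1_d_f) x_t1a_c1_d_f_M_t29 37 16 6 = true := by decide +kernel

def x_t1a_c1_d_f_M_t30 : T :=
  (.b (.a (.b (.l 4) (.l 4)) (.b (.l 4) (.l 4))) (.c (.a (.c (.b (.l 4) (.a (.l 0) (.l 0))) (.b
      (.l 4) (.a (.l 0) (.l 0)))) (.c (.b (.l 4) (.a (.l 0) (.l 0))) (.b (.l 4) (.a (.l 0) (.l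
      0))))) (.a (.c (.b (.l 4) (.a (.l 0) (.l 0))) (.b (.l 4) (.a (.l 0) (.l 0)))) (.b (.l 4)
      (.c (.a (.l 0) (.l 0)) (.a (.l 0) (.l 0)))))))

theorem x_t1a_c1_d_f_M_h30 : chk3 (onCell 0 6442450944 0 3758096384 0 34359739 T_t1a_c1_d_f) x_t1a_c1_d_f_M_t30 36 16 7 = true := by decide +kernel

def x_t1a_c1_d_f_M_t31 : T :=
  (.a (.b (.b (.c (.l 4) (.l 4)) (.c (.a (.l 4) (.l 4)) (.l 4))) (.c (.b (.c (.a (.l 0) (.l 0))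
      (.a (.l 0) (.l 0))) (.c (.a (.l 0) (.l 0)) (.a (.l 0) (.l 0)))) (.b (.c (.a (.l 0) (.l 0))
      (.a (.l 0) (.l 0))) (.c (.a (.l 0) (.l 0)) (.a (.l 0) (.l 0)))))) (.a (.a (.b (.l 4) (.c
      (.b (.l 0) (.l 0)) (.b (.l 0) (.l 0)))) (.b (.l 4) (.c (.b (.l 0) (.l 0)) (.b (.l 0) (.l
      0))))) (.a (.a (.b (.l 4) (.c (.l 2) (.l 2))) (.b (.l 4) (.l 2))) (.a (.b (.l 4) (.l 2))
      (.b (.l 4) (.l 2))))))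

theorem x_t1a_c1_d_f_M_h31 : chk3 (onCell 0 6442450944 0 3758096384 0 34359739 T_t1a_c1_d_f) x_t1a_c1_d_f_M_t31 37 16 7 = true := by decide +kernel

def x_t1a_c1_d_f_M_t32 : T :=
  (.a (.a (.a (.c (.a (.c (.a (.c (.l 6) (.l 6)) (.l 6)) (.a (.l 6) (.l 6))) (.l 6)) (.a (.c (.l
      6) (.l 6)) (.l 6))) (.a (.c (.l 6) (.l 6)) (.l 6))) (.a (.l 6) (.l 6))) (.a (.l 6) (.l 6)))

theorem x_t1a_c1_d_f_M_h32 : chk3 (onCell 0 6442450944 0 3758096384 0 34359739 T_t1a_c1_d_f) x_t1a_c1_d_f_M_t32 19 16 1 = true := by decide +kernel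

def x_t1a_c1_d_f_M_t33 : T :=
  (.a (.a (.a (.l 6) (.l 6)) (.a (.a (.l 6) (.a (.a (.l 6) (.b (.l 6) (.l 2))) (.a (.b (.l 6) (.l
      34)) (.l 38)))) (.a (.l 38) (.l 38)))) (.c (.a (.a (.l 38) (.a (.a (.b (.l 38) (.l 18)) (.b
      (.a (.c (.b (.l 38) (.l 18)) (.b (.c (.l 38) (.l 38)) (.l 18))) (.c (.l 38) (.l 38))) (.l
      18))) (.l 38))) (.a (.l 38) (.l 38))) (.a (.a (.l 38) (.a (.a (.b (.l 38) (.l 18)) (.b (.a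
      (.c (.b (.c (.l 38) (.l 38)) (.c (.l 18) (.l 38))) (.b (.c (.l 38) (.l 38)) (.b (.c (.l 38)
      (.l 38)) (.l 18)))) (.b (.l 38) (.l 38))) (.l 18))) (.l 38))) (.a (.l 38) (.l 38)))))

theorem x_t1a_c1_d_f_M_h33 : chk3 (onCell 0 6442450944 0 3758096384 0 34359739 T_t1a_c1_d_f) x_t1a_c1_d_f_M_t33 5 16 1 = true := by decide +kernel

def x_t1a_c1_d_f_M_t34 : T :=
  (.l 19)

theorem x_t1a_c1_d_f_M_h34 : chk3 (onCell 0 6442450944 0 3758096384 0 34359739 T_t1a_c1_d_f) x_t1a_c1_d_f_M_t34 16 17 2 = true := by decide +kernel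

def x_t1a_c1_d_f_M_t35 : T :=
  (.b (.a (.c (.b (.a (.l 19) (.c (.b (.l 4) (.l 19)) (.b (.l 4) (.l 19)))) (.l 19)) (.b (.a (.l
      19) (.c (.b (.l 4) (.l 19)) (.b (.l 4) (.l 19)))) (.l 19))) (.b (.c (.a (.c (.b (.l 0) (.a
      (.b (.l 0) (.l 19)) (.l 0))) (.b (.l 0) (.a (.b (.l 0) (.l 19)) (.l 0)))) (.c (.b (.l 0)
      (.l 0)) (.b (.l 0) (.l 0)))) (.a (.c (.b (.l 0) (.a (.b (.l 0) (.l 19)) (.l 0))) (.b (.l 0)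
      (.a (.b (.l 0) (.l 19)) (.l 0)))) (.c (.b (.l 0) (.l 0)) (.b (.l 0) (.l 0))))) (.c (.a (.l
      19) (.b (.a (.l 19) (.c (.b (.l 0) (.l 19)) (.b (.l 0) (.l 19)))) (.l 19))) (.a (.l 19) (.b
      (.a (.l 19) (.c (.b (.l 0) (.l 19)) (.b (.l 0) (.l 19)))) (.l 19)))))) (.l 19))

theorem x_t1a_c1_d_f_M_h35 : chk3 (onCell 0 6442450944 0 3758096384 0 34359739 T_t1a_c1_d_f) x_t1a_c1_d_f_M_t35 34 17 8 = true := by decide +kernel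

def x_t1a_c1_d_f_M_t36 : T :=
  (.b (.a (.c (.b (.a (.l 19) (.c (.b (.l 4) (.l 19)) (.b (.l 4) (.l 19)))) (.l 19)) (.b (.a (.l
      19) (.c (.b (.l 4) (.l 19)) (.b (.l 4) (.l 19)))) (.l 19))) (.b (.c (.a (.c (.b (.l 0) (.a
      (.b (.l 0) (.l 19)) (.l 0))) (.b (.l 0) (.a (.b (.l 0) (.l 19)) (.l 0)))) (.c (.b (.l 0)
      (.l 0)) (.b (.l 0) (.l 0)))) (.a (.c (.b (.l 0) (.a (.b (.l 0) (.l 19)) (.l 0))) (.b (.l 0)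
      (.a (.b (.l 0) (.l 19)) (.l 0)))) (.c (.b (.l 0) (.l 0)) (.b (.l 0) (.l 0))))) (.c (.a (.l
      19) (.b (.a (.l 19) (.c (.b (.l 0) (.l 19)) (.b (.l 0) (.l 19)))) (.l 19))) (.a (.l 19) (.b
      (.a (.l 19) (.c (.b (.l 0) (.l 19)) (.b (.l 0) (.l 19)))) (.l 19)))))) (.l 19))

theorem x_t1a_c1_d_f_M_h36 : chk3 (onCell 0 6442450944 0 3758096384 0 34359739 T_t1a_c1_d_f) x_t1a_c1_d_f_M_t36 34 17 9 = true := by decide +kernel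

end Pool.Agent.Strip051.LC.E0.Ch
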