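import Pool.Agent.Strip051.LC.E0.Ch.Te

/-! # Small rests: certificate X_t1a_c1_d_n_M_1 -/

set_option maxRecDepth 100000

namespace Pool.Agent.Strip051.LC.E0.Ch

open Pool.Agent.Strip051.PB

def x_t1a_c1_d_n_M_t0 : T :=
  (.l 131)

theorem x_t1a_c1_d_n_M_h0 : chk3 (onCell 0 6442450944 0 3758096384 0 34359739 T_t1a_c1_d_n) x_t1a_c1_d_n_M_t0 32 16 4 = true := by decide +kernel

def x_t1a_c1_d_n_M_t1 : T :=
  (.a (.b (.c (.a (.l 131) (.l 7)) (.a (.l 131) (.l 7))) (.c (.a (.l 131) (.l 0)) (.a (.l 131)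
      (.b (.l 0) (.l 0))))) (.b (.l 7) (.c (.a (.l 0) (.l 0)) (.a (.l 0) (.l 0)))))

theorem x_t1a_c1_d_n_M_h1 : chk3 (onCell 0 6442450944 0 3758096384 0 34359739 T_t1a_c1_d_n) x_t1a_c1_d_n_M_t1 33 32 4 = true := by decide +kernel

def x_t1a_c1_d_n_M_t2 : T :=
  (.c (.b (.a (.l 131) (.c (.b (.a (.c (.b (.l 0) (.a (.l 131) (.l 0))) (.b (.l 0) (.a (.l 131)
      (.l 0)))) (.l 0)) (.a (.l 19) (.c (.b (.a (.l 19) (.l 0)) (.l 19)) (.b (.a (.l 19) (.l 0))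
      (.l 19))))) (.b (.a (.c (.b (.l 0) (.a (.l 131) (.l 0))) (.b (.l 0) (.a (.l 131) (.l 0))))
      (.l 0)) (.a (.l 19) (.c (.b (.a (.l 19) (.l 0)) (.l 19)) (.b (.a (.l 19) (.l 0)) (.l
      19))))))) (.l 19)) (.b (.a (.l 131) (.c (.b (.a (.c (.b (.l 0) (.a (.l 131) (.l 0))) (.b
      (.l 0) (.a (.l 131) (.l 0)))) (.l 0)) (.a (.l 19) (.c (.b (.a (.l 19) (.l 0)) (.l 19)) (.b
      (.a (.l 19) (.l 0)) (.l 19))))) (.b (.a (.c (.b (.l 0) (.a (.l 131) (.l 0))) (.b (.l 0) (.a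
      (.l 131) (.l 0)))) (.l 0)) (.a (.l 19) (.c (.b (.a (.l 19) (.l 0)) (.l 19)) (.b (.a (.l 19)
      (.l 0)) (.l 19))))))) (.l 19)))

theorem x_t1a_c1_d_n_M_h2 : chk3 (onCell 0 6442450944 0 3758096384 0 34359739 T_t1a_c1_d_n) x_t1a_c1_d_n_M_t2 66 33 4 = true := by decide +kernel

def x_t1a_c1_d_n_M_t3 : T :=
  (.b (.a (.c (.b (.l 0) (.a (.c (.b (.l 0) (.a (.l 19) (.l 0))) (.b (.l 0) (.a (.l 19) (.l 0))))
      (.l 0))) (.b (.l 0) (.a (.c (.b (.l 0) (.a (.l 19) (.l 0))) (.b (.l 0) (.a (.l 19) (.l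
      0)))) (.l 0)))) (.l 0)) (.a (.c (.b (.a (.l 19) (.c (.b (.a (.l 19) (.l 0)) (.l 19)) (.b
      (.a (.l 19) (.l 0)) (.l 19)))) (.l 19)) (.b (.a (.l 19) (.c (.b (.a (.l 19) (.l 0)) (.l
      19)) (.b (.a (.l 19) (.l 0)) (.l 19)))) (.l 19))) (.c (.b (.a (.c (.b (.l 0) (.l 19)) (.b
      (.l 0) (.l 19))) (.l 0)) (.l 19)) (.b (.a (.c (.b (.l 0) (.l 19)) (.b (.l 0) (.l 19))) (.l
      0)) (.l 19)))))

theorem x_t1a_c1_d_n_M_h3 : chk3 (onCell 0 6442450944 0 3758096384 0 34359739 T_t1a_c1_d_n) x_t1a_c1_d_n_M_t3 67 33 8 = true := by decide +kernel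

def x_t1a_c1_d_n_M_t4 : T :=
  (.b (.a (.c (.b (.l 0) (.a (.c (.b (.l 0) (.a (.l 19) (.l 0))) (.b (.l 0) (.a (.l 19) (.l 0))))
      (.l 0))) (.b (.l 0) (.a (.c (.b (.l 0) (.a (.l 19) (.l 0))) (.b (.l 0) (.a (.l 19) (.l
      0)))) (.l 0)))) (.l 0)) (.a (.c (.b (.a (.l 19) (.c (.b (.a (.l 19) (.l 0)) (.l 19)) (.b
      (.a (.l 19) (.l 0)) (.l 19)))) (.l 19)) (.b (.a (.l 19) (.c (.b (.a (.l 19) (.l 0)) (.l
      19)) (.b (.a (.l 19) (.l 0)) (.l 19)))) (.l 19))) (.c (.b (.a (.c (.b (.l 0) (.l 19)) (.b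
      (.l 0) (.l 19))) (.l 0)) (.l 19)) (.b (.a (.c (.b (.l 0) (.l 19)) (.b (.l 0) (.l 19))) (.l
      0)) (.l 19)))))

theorem x_t1a_c1_d_n_M_h4 : chk3 (onCell 0 6442450944 0 3758096384 0 34359739 T_t1a_c1_d_n) x_t1a_c1_d_n_M_t4 67 33 9 = true := by decide +kernel

def x_t1a_c1_d_n_M_t5 : T :=
  (.l 131)

theorem x_t1a_c1_d_n_M_h5 : chk3 (onCell 0 6442450944 0 3758096384 0 34359739 T_t1a_c1_d_n) x_t1a_c1_d_n_M_t5 32 16 5 = true := by decide +kernel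

def x_t1a_c1_d_n_M_t6 : T :=
  (.a (.b (.c (.l 7) (.l 7)) (.c (.a (.l 131) (.b (.l 0) (.l 0))) (.a (.l 131) (.b (.l 0) (.l
      0))))) (.b (.l 7) (.c (.a (.l 0) (.l 0)) (.a (.l 0) (.l 0)))))

theorem x_t1a_c1_d_n_M_h6 : chk3 (onCell 0 6442450944 0 3758096384 0 34359739 T_t1a_c1_d_n) x_t1a_c1_d_n_M_t6 33 32 5 = true := by decide +kernel

def x_t1a_c1_d_n_M_t7 : T :=
  (.c (.b (.a (.l 131) (.c (.b (.a (.c (.b (.l 0) (.a (.l 131) (.l 0))) (.b (.l 0) (.a (.l 131)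
      (.l 0)))) (.l 0)) (.a (.l 19) (.c (.b (.a (.l 19) (.l 0)) (.l 19)) (.b (.a (.l 19) (.l 0))
      (.l 19))))) (.b (.a (.c (.b (.l 0) (.a (.l 131) (.l 0))) (.b (.l 0) (.a (.l 131) (.l 0))))
      (.l 0)) (.a (.l 19) (.c (.b (.a (.l 19) (.l 0)) (.l 19)) (.b (.a (.l 19) (.l 0)) (.l
      19))))))) (.l 19)) (.b (.a (.l 131) (.c (.b (.a (.c (.b (.l 0) (.a (.l 131) (.l 0))) (.b
      (.l 0) (.a (.l 131) (.l 0)))) (.l 0)) (.a (.l 19) (.c (.b (.a (.l 19) (.l 0)) (.l 19)) (.b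
      (.a (.l 19) (.l 0)) (.l 19))))) (.b (.a (.c (.b (.l 0) (.a (.l 131) (.l 0))) (.b (.l 0) (.a
      (.l 131) (.l 0)))) (.l 0)) (.a (.l 19) (.c (.b (.a (.l 19) (.l 0)) (.l 19)) (.b (.a (.l 19)
      (.l 0)) (.l 19))))))) (.l 19)))

theorem x_t1a_c1_d_n_M_h7 : chk3 (onCell 0 6442450944 0 3758096384 0 34359739 T_t1a_c1_d_n) x_t1a_c1_d_n_M_t7 66 33 5 = true := by decide +kernel

def x_t1a_c1_d_n_M_t8 : T :=
  (.b (.a (.c (.b (.l 0) (.a (.c (.b (.l 0) (.a (.l 19) (.l 0))) (.b (.l 0) (.a (.l 19) (.l 0))))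
      (.l 0))) (.b (.l 0) (.a (.c (.b (.l 0) (.a (.l 19) (.l 0))) (.b (.l 0) (.a (.l 19) (.l
      0)))) (.l 0)))) (.c (.l 0) (.l 0))) (.a (.c (.b (.a (.l 19) (.c (.b (.a (.l 19) (.l 0)) (.l
      19)) (.b (.a (.l 19) (.l 0)) (.l 19)))) (.l 19)) (.b (.a (.l 19) (.c (.b (.a (.l 19) (.l
      0)) (.l 19)) (.b (.a (.l 19) (.l 0)) (.l 19)))) (.l 19))) (.c (.b (.a (.c (.b (.l 0) (.l
      19)) (.b (.l 0) (.l 19))) (.l 0)) (.l 19)) (.b (.a (.c (.b (.l 0) (.l 19)) (.b (.l 0) (.l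
      19))) (.l 0)) (.l 19)))))

theorem x_t1a_c1_d_n_M_h8 : chk3 (onCell 0 6442450944 0 3758096384 0 34359739 T_t1a_c1_d_n) x_t1a_c1_d_n_M_t8 67 33 10 = true := by decide +kernel

def x_t1a_c1_d_n_M_t9 : T :=
  (.b (.a (.c (.b (.l 0) (.a (.c (.b (.l 0) (.a (.l 19) (.l 0))) (.b (.l 0) (.a (.l 19) (.l 0))))
      (.l 0))) (.b (.l 0) (.a (.c (.b (.l 0) (.a (.l 19) (.l 0))) (.b (.l 0) (.a (.l 19) (.l
      0)))) (.l 0)))) (.c (.l 0) (.l 0))) (.a (.c (.b (.a (.l 19) (.c (.b (.a (.l 19) (.l 0)) (.l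
      19)) (.b (.a (.l 19) (.l 0)) (.l 19)))) (.l 19)) (.b (.a (.l 19) (.c (.b (.a (.l 19) (.l
      0)) (.l 19)) (.b (.a (.l 19) (.l 0)) (.l 19)))) (.l 19))) (.c (.b (.a (.c (.b (.l 0) (.l
      19)) (.b (.l 0) (.l 19))) (.l 0)) (.l 19)) (.b (.a (.c (.b (.l 0) (.l 19)) (.b (.l 0) (.l
      19))) (.l 0)) (.l 19)))))

theorem x_t1a_c1_d_n_M_h9 : chk3 (onCell 0 6442450944 0 3758096384 0 34359739 T_t1a_c1_d_n) x_t1a_c1_d_n_M_t9 67 33 11 = true := by decide +kernel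

def x_t1a_c1_d_n_M_t10 : T :=
  (.a (.c (.a (.b (.l 7) (.l 0)) (.l 7)) (.a (.l 7) (.l 7))) (.c (.b (.l 7) (.l 7)) (.b (.l 7)
      (.l 7))))

theorem x_t1a_c1_d_n_M_h10 : chk3 (onCell 0 6442450944 0 3758096384 0 34359739 T_t1a_c1_d_n) x_t1a_c1_d_n_M_t10 17 32 2 = true := by decide +kernel

def x_t1a_c1_d_n_M_t11 : T :=
  (.a (.c (.b (.a (.l 0) (.l 0)) (.a (.c (.b (.l 0) (.a (.c (.b (.l 0) (.l 19)) (.b (.l 0) (.l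
      19))) (.l 0))) (.b (.l 0) (.a (.c (.b (.l 0) (.l 19)) (.b (.l 0) (.l 19))) (.l 0)))) (.c
      (.b (.l 0) (.l 0)) (.b (.l 0) (.l 0))))) (.b (.a (.l 0) (.l 0)) (.a (.c (.b (.l 0) (.a (.c
      (.b (.l 0) (.l 19)) (.b (.l 0) (.l 19))) (.l 0))) (.b (.l 0) (.a (.c (.b (.l 0) (.l 19))
      (.b (.l 0) (.l 19))) (.l 0)))) (.c (.b (.l 0) (.l 0)) (.b (.l 0) (.l 0)))))) (.c (.b (.l 0)
      (.a (.l 0) (.l 0))) (.b (.l 0) (.a (.l 0) (.l 0)))))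

theorem x_t1a_c1_d_n_M_h11 : chk3 (onCell 0 6442450944 0 3758096384 0 34359739 T_t1a_c1_d_n) x_t1a_c1_d_n_M_t11 34 33 4 = true := by decide +kernel

def x_t1a_c1_d_n_M_t12 : T :=
  (.a (.c (.b (.a (.l 0) (.l 0)) (.a (.c (.b (.l 0) (.a (.c (.b (.l 0) (.l 19)) (.b (.l 0) (.l
      19))) (.l 0))) (.b (.l 0) (.a (.c (.b (.l 0) (.l 19)) (.b (.l 0) (.l 19))) (.l 0)))) (.c
      (.b (.l 0) (.l 0)) (.b (.l 0) (.l 0))))) (.b (.a (.l 0) (.l 0)) (.a (.c (.b (.l 0) (.a (.c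
      (.b (.l 0) (.l 19)) (.b (.l 0) (.l 19))) (.l 0))) (.b (.l 0) (.a (.c (.b (.l 0) (.l 19))
      (.b (.l 0) (.l 19))) (.l 0)))) (.c (.b (.l 0) (.l 0)) (.b (.l 0) (.l 0)))))) (.c (.b (.l 0)
      (.a (.l 0) (.l 0))) (.b (.l 0) (.a (.l 0) (.l 0)))))

theorem x_t1a_c1_d_n_M_h12 : chk3 (onCell 0 6442450944 0 3758096384 0 34359739 T_t1a_c1_d_n) x_t1a_c1_d_n_M_t12 34 33 5 = true := by decide +kernel

def x_t1a_c1_d_n_M_t13 : T :=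
  (.c (.a (.c (.b (.l 0) (.l 0)) (.b (.l 0) (.l 0))) (.c (.b (.l 0) (.l 0)) (.b (.l 0) (.l 0))))
      (.a (.c (.b (.l 0) (.l 0)) (.b (.l 0) (.l 0))) (.c (.b (.l 0) (.l 0)) (.b (.l 0) (.l 0)))))

theorem x_t1a_c1_d_n_M_h13 : chk3 (onCell 0 6442450944 0 3758096384 0 34359739 T_t1a_c1_d_n) x_t1a_c1_d_n_M_t13 35 33 2 = true := by decide +kernel

def x_t1a_c1_d_n_M_t14 : T :=
  (.l 131)

theorem x_t1a_c1_d_n_M_h14 : chk3 (onCell 0 6442450944 0 3758096384 0 34359739 T_t1a_c1_d_n) x_t1a_c1_d_n_M_t14 32 16 6 = true := by decide +kernel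

def x_t1a_c1_d_n_M_t15 : T :=
  (.a (.b (.c (.l 7) (.l 7)) (.c (.a (.l 131) (.b (.l 0) (.l 0))) (.a (.l 131) (.b (.l 0) (.l
      0))))) (.b (.l 7) (.c (.a (.l 0) (.l 0)) (.a (.l 0) (.l 0)))))

theorem x_t1a_c1_d_n_M_h15 : chk3 (onCell 0 6442450944 0 3758096384 0 34359739 T_t1a_c1_d_n) x_t1a_c1_d_n_M_t15 33 32 6 = true := by decide +kernel

def x_t1a_c1_d_n_M_t16 : T :=
  (.c (.b (.a (.l 131) (.c (.b (.a (.c (.b (.l 0) (.a (.l 131) (.l 0))) (.b (.l 0) (.a (.l 131)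
      (.l 0)))) (.l 0)) (.a (.l 19) (.c (.b (.a (.l 19) (.l 0)) (.l 19)) (.b (.a (.l 19) (.l 0))
      (.l 19))))) (.b (.a (.c (.b (.l 0) (.a (.l 131) (.l 0))) (.b (.l 0) (.a (.l 131) (.l 0))))
      (.l 0)) (.a (.l 19) (.c (.b (.a (.l 19) (.l 0)) (.l 19)) (.b (.a (.l 19) (.l 0)) (.l
      19))))))) (.l 19)) (.b (.a (.l 131) (.c (.b (.a (.c (.b (.l 0) (.a (.l 131) (.l 0))) (.b
      (.l 0) (.a (.l 131) (.l 0)))) (.l 0)) (.a (.l 19) (.c (.b (.a (.l 19) (.l 0)) (.l 19)) (.b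
      (.a (.l 19) (.l 0)) (.l 19))))) (.b (.a (.c (.b (.l 0) (.a (.l 131) (.l 0))) (.b (.l 0) (.a
      (.l 131) (.l 0)))) (.l 0)) (.a (.l 19) (.c (.b (.a (.l 19) (.l 0)) (.l 19)) (.b (.a (.l 19)
      (.l 0)) (.l 19))))))) (.l 19)))

theorem x_t1a_c1_d_n_M_h16 : chk3 (onCell 0 6442450944 0 3758096384 0 34359739 T_t1a_c1_d_n) x_t1a_c1_d_n_M_t16 66 33 6 = true := by decide +kernel

def x_t1a_c1_d_n_M_t17 : T :=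
  (.b (.a (.c (.b (.l 0) (.a (.c (.b (.l 0) (.a (.l 19) (.l 0))) (.b (.l 0) (.a (.l 19) (.l 0))))
      (.l 0))) (.b (.l 0) (.a (.c (.b (.l 0) (.a (.l 19) (.l 0))) (.b (.l 0) (.a (.l 19) (.l
      0)))) (.l 0)))) (.c (.l 0) (.l 0))) (.a (.c (.b (.a (.l 19) (.c (.b (.a (.l 19) (.l 0)) (.l
      19)) (.b (.a (.l 19) (.l 0)) (.l 19)))) (.l 19)) (.b (.a (.l 19) (.c (.b (.a (.l 19) (.l
      0)) (.l 19)) (.b (.a (.l 19) (.l 0)) (.l 19)))) (.l 19))) (.c (.b (.a (.c (.b (.l 0) (.l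
      19)) (.b (.l 0) (.l 19))) (.l 0)) (.l 19)) (.b (.a (.c (.b (.l 0) (.l 19)) (.b (.l 0) (.l
      19))) (.l 0)) (.l 19)))))

theorem x_t1a_c1_d_n_M_h17 : chk3 (onCell 0 6442450944 0 3758096384 0 34359739 T_t1a_c1_d_n) x_t1a_c1_d_n_M_t17 67 33 12 = true := by decide +kernel

def x_t1a_c1_d_n_M_t18 : T :=
  (.b (.a (.c (.b (.l 0) (.a (.c (.b (.l 0) (.a (.l 19) (.l 0))) (.b (.l 0) (.a (.l 19) (.l 0))))
      (.l 0))) (.b (.l 0) (.a (.c (.b (.l 0) (.a (.l 19) (.l 0))) (.b (.l 0) (.a (.l 19) (.l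
      0)))) (.l 0)))) (.c (.l 0) (.l 0))) (.a (.c (.b (.a (.l 19) (.c (.b (.a (.l 19) (.l 0)) (.l
      19)) (.b (.a (.l 19) (.l 0)) (.l 19)))) (.l 19)) (.b (.a (.l 19) (.c (.b (.a (.l 19) (.l
      0)) (.l 19)) (.b (.a (.l 19) (.l 0)) (.l 19)))) (.l 19))) (.c (.b (.a (.c (.b (.l 0) (.l
      19)) (.b (.l 0) (.l 19))) (.l 0)) (.l 19)) (.b (.a (.c (.b (.l 0) (.l 19)) (.b (.l 0) (.l
      19))) (.l 0)) (.l 19)))))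

theorem x_t1a_c1_d_n_M_h18 : chk3 (onCell 0 6442450944 0 3758096384 0 34359739 T_t1a_c1_d_n) x_t1a_c1_d_n_M_t18 67 33 13 = true := by decide +kernel

def x_t1a_c1_d_n_M_t19 : T :=
  (.l 131)

theorem x_t1a_c1_d_n_M_h19 : chk3 (onCell 0 6442450944 0 3758096384 0 34359739 T_t1a_c1_d_n) x_t1a_c1_d_n_M_t19 32 16 7 = true := by decide +kernel

def x_t1a_c1_d_n_M_t20 : T :=
  (.a (.b (.l 7) (.c (.a (.l 131) (.b (.l 0) (.l 0))) (.a (.l 131) (.b (.l 0) (.l 0))))) (.b (.l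
      7) (.c (.a (.l 0) (.l 0)) (.a (.l 0) (.l 0)))))

theorem x_t1a_c1_d_n_M_h20 : chk3 (onCell 0 6442450944 0 3758096384 0 34359739 T_t1a_c1_d_n) x_t1a_c1_d_n_M_t20 33 32 7 = true := by decide +kernel

def x_t1a_c1_d_n_M_t21 : T :=
  (.c (.b (.a (.l 131) (.c (.b (.a (.c (.b (.l 0) (.a (.l 131) (.l 0))) (.b (.l 0) (.a (.l 131)
      (.l 0)))) (.l 0)) (.a (.l 19) (.c (.b (.a (.l 19) (.l 0)) (.l 19)) (.b (.a (.l 19) (.l 0))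
      (.l 19))))) (.b (.a (.c (.b (.l 0) (.a (.l 131) (.l 0))) (.b (.l 0) (.a (.l 131) (.l 0))))
      (.l 0)) (.a (.l 19) (.c (.b (.a (.l 19) (.l 0)) (.l 19)) (.b (.a (.l 19) (.l 0)) (.l
      19))))))) (.l 19)) (.b (.a (.l 131) (.c (.b (.a (.c (.b (.l 0) (.a (.l 131) (.l 0))) (.b
      (.l 0) (.a (.l 131) (.l 0)))) (.l 0)) (.a (.l 19) (.c (.b (.a (.l 19) (.l 0)) (.l 19)) (.b
      (.a (.l 19) (.l 0)) (.l 19))))) (.b (.a (.c (.b (.l 0) (.a (.l 131) (.l 0))) (.b (.l 0) (.a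
      (.l 131) (.l 0)))) (.l 0)) (.a (.l 19) (.c (.b (.a (.l 19) (.l 0)) (.l 19)) (.b (.a (.l 19)
      (.l 0)) (.l 19))))))) (.l 19)))

theorem x_t1a_c1_d_n_M_h21 : chk3 (onCell 0 6442450944 0 3758096384 0 34359739 T_t1a_c1_d_n) x_t1a_c1_d_n_M_t21 66 33 7 = true := by decide +kernel

def x_t1a_c1_d_n_M_t22 : T :=
  (.b (.a (.c (.b (.l 0) (.a (.c (.b (.l 0) (.a (.l 19) (.l 0))) (.b (.l 0) (.a (.l 19) (.l 0))))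
      (.l 0))) (.b (.l 0) (.a (.c (.b (.l 0) (.a (.l 19) (.l 0))) (.b (.l 0) (.a (.l 19) (.l
      0)))) (.l 0)))) (.c (.l 0) (.l 0))) (.a (.c (.b (.a (.l 19) (.c (.b (.a (.l 19) (.l 0)) (.l
      19)) (.b (.a (.l 19) (.l 0)) (.l 19)))) (.l 19)) (.b (.a (.l 19) (.c (.b (.a (.l 19) (.l
      0)) (.l 19)) (.b (.a (.l 19) (.l 0)) (.l 19)))) (.l 19))) (.c (.b (.a (.c (.b (.l 0) (.l
      19)) (.b (.l 0) (.l 19))) (.l 0)) (.l 19)) (.b (.a (.c (.b (.l 0) (.l 19)) (.b (.l 0) (.l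
      19))) (.l 0)) (.l 19)))))

theorem x_t1a_c1_d_n_M_h22 : chk3 (onCell 0 6442450944 0 3758096384 0 34359739 T_t1a_c1_d_n) x_t1a_c1_d_n_M_t22 67 33 14 = true := by decide +kernel

def x_t1a_c1_d_n_M_t23 : T :=
  (.b (.a (.c (.b (.l 0) (.a (.c (.b (.l 0) (.a (.l 19) (.l 0))) (.b (.l 0) (.a (.l 19) (.l 0))))
      (.l 0))) (.b (.l 0) (.a (.c (.b (.l 0) (.a (.l 19) (.l 0))) (.b (.l 0) (.a (.l 19) (.l
      0)))) (.l 0)))) (.c (.l 0) (.l 0))) (.a (.c (.b (.a (.l 19) (.c (.b (.a (.l 19) (.l 0)) (.l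
      19)) (.b (.a (.l 19) (.l 0)) (.l 19)))) (.l 19)) (.b (.a (.l 19) (.c (.b (.a (.l 19) (.l
      0)) (.l 19)) (.b (.a (.l 19) (.l 0)) (.l 19)))) (.l 19))) (.c (.b (.a (.c (.b (.l 0) (.l
      19)) (.b (.l 0) (.l 19))) (.l 0)) (.l 19)) (.b (.a (.c (.b (.l 0) (.l 19)) (.b (.l 0) (.l
      19))) (.l 0)) (.l 19)))))

theorem x_t1a_c1_d_n_M_h23 : chk3 (onCell 0 6442450944 0 3758096384 0 34359739 T_t1a_c1_d_n) x_t1a_c1_d_n_M_t23 67 33 15 = true := by decide +kernel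

def x_t1a_c1_d_n_M_t24 : T :=
  (.a (.c (.a (.l 7) (.l 7)) (.a (.l 7) (.l 7))) (.c (.b (.l 7) (.l 7)) (.a (.l 7) (.l 7))))

theorem x_t1a_c1_d_n_M_h24 : chk3 (onCell 0 6442450944 0 3758096384 0 34359739 T_t1a_c1_d_n) x_t1a_c1_d_n_M_t24 17 32 3 = true := by decide +kernel

def x_t1a_c1_d_n_M_t25 : T :=
  (.a (.c (.b (.a (.l 0) (.l 0)) (.a (.c (.b (.l 0) (.a (.c (.b (.l 0) (.l 19)) (.b (.l 0) (.l
      19))) (.l 0))) (.b (.l 0) (.a (.c (.b (.l 0) (.l 19)) (.b (.l 0) (.l 19))) (.l 0)))) (.c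
      (.b (.l 0) (.l 0)) (.b (.l 0) (.l 0))))) (.b (.a (.l 0) (.l 0)) (.a (.c (.b (.l 0) (.a (.c
      (.b (.l 0) (.l 19)) (.b (.l 0) (.l 19))) (.l 0))) (.b (.l 0) (.a (.c (.b (.l 0) (.l 19))
      (.b (.l 0) (.l 19))) (.l 0)))) (.c (.b (.l 0) (.l 0)) (.b (.l 0) (.l 0)))))) (.c (.b (.l 0)
      (.a (.l 0) (.l 0))) (.b (.l 0) (.a (.l 0) (.l 0)))))

theorem x_t1a_c1_d_n_M_h25 : chk3 (onCell 0 6442450944 0 3758096384 0 34359739 T_t1a_c1_d_n) x_t1a_c1_d_n_M_t25 34 33 6 = true := by decide +kernel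

def x_t1a_c1_d_n_M_t26 : T :=
  (.a (.c (.b (.a (.l 0) (.l 0)) (.a (.c (.b (.l 0) (.a (.c (.b (.l 0) (.l 19)) (.b (.l 0) (.l
      19))) (.l 0))) (.b (.l 0) (.a (.c (.b (.l 0) (.l 19)) (.b (.l 0) (.l 19))) (.l 0)))) (.c
      (.b (.l 0) (.l 0)) (.b (.l 0) (.l 0))))) (.b (.a (.l 0) (.l 0)) (.a (.c (.b (.l 0) (.a (.c
      (.b (.l 0) (.l 19)) (.b (.l 0) (.l 19))) (.l 0))) (.b (.l 0) (.a (.c (.b (.l 0) (.l 19))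
      (.b (.l 0) (.l 19))) (.l 0)))) (.c (.b (.l 0) (.l 0)) (.b (.l 0) (.l 0)))))) (.c (.b (.l 0)
      (.a (.l 0) (.l 0))) (.b (.l 0) (.a (.l 0) (.l 0)))))

theorem x_t1a_c1_d_n_M_h26 : chk3 (onCell 0 6442450944 0 3758096384 0 34359739 T_t1a_c1_d_n) x_t1a_c1_d_n_M_t26 34 33 7 = true := by decide +kernel

def x_t1a_c1_d_n_M_t27 : T :=
  (.c (.a (.c (.b (.l 0) (.l 0)) (.b (.l 0) (.l 0))) (.c (.b (.l 0) (.l 0)) (.b (.l 0) (.l 0))))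
      (.a (.c (.b (.l 0) (.l 0)) (.b (.l 0) (.l 0))) (.c (.b (.l 0) (.l 0)) (.b (.l 0) (.l 0)))))

theorem x_t1a_c1_d_n_M_h27 : chk3 (onCell 0 6442450944 0 3758096384 0 34359739 T_t1a_c1_d_n) x_t1a_c1_d_n_M_t27 35 33 3 = true := by decide +kernel

def x_t1a_c1_d_n_M_t28 : T :=
  (.a (.c (.b (.a (.c (.a (.l 7) (.l 7)) (.a (.l 7) (.l 7))) (.a (.l 7) (.l 7))) (.a (.c (.a (.c
      (.l 0) (.l 0)) (.l 0)) (.a (.c (.l 0) (.l 0)) (.l 0))) (.c (.a (.l 0) (.l 0)) (.a (.l 0)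
      (.l 0))))) (.b (.a (.c (.l 7) (.l 7)) (.a (.l 7) (.l 7))) (.a (.c (.a (.c (.l 0) (.l 0))
      (.l 0)) (.a (.c (.l 0) (.l 0)) (.l 0))) (.c (.a (.l 0) (.l 0)) (.a (.l 0) (.l 0)))))) (.a
      (.a (.a (.a (.c (.c (.a (.b (.l 6) (.l 0)) (.l 6)) (.a (.b (.l 6) (.l 0)) (.l 6))) (.c (.a
      (.b (.l 6) (.l 0)) (.l 6)) (.a (.l 6) (.l 6)))) (.c (.a (.l 6) (.l 6)) (.l 6))) (.a (.c (.l
      6) (.l 6)) (.l 6))) (.a (.l 6) (.l 6))) (.a (.l 6) (.l 6))))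

theorem x_t1a_c1_d_n_M_h28 : chk3 (onCell 0 6442450944 0 3758096384 0 34359739 T_t1a_c1_d_n) x_t1a_c1_d_n_M_t28 9 16 1 = true := by decide +kernel

def x_t1a_c1_d_n_M_t29 : T :=
  (.a (.a (.a (.l 6) (.l 6)) (.a (.a (.l 6) (.a (.a (.l 6) (.l 38)) (.l 38))) (.a (.l 38) (.l
      38)))) (.c (.a (.a (.l 38) (.a (.a (.c (.l 38) (.l 38)) (.c (.a (.b (.l 38) (.l 18)) (.b
      (.l 38) (.l 18))) (.a (.b (.l 38) (.l 18)) (.b (.l 38) (.l 18))))) (.l 38))) (.a (.l 38)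
      (.l 38))) (.a (.a (.l 38) (.a (.a (.c (.l 38) (.l 38)) (.a (.c (.b (.c (.l 38) (.l 38)) (.l
      18)) (.b (.c (.l 38) (.l 38)) (.l 18))) (.c (.b (.l 38) (.l 18)) (.b (.l 38) (.l 18)))))
      (.l 38))) (.a (.l 38) (.l 38)))))

theorem x_t1a_c1_d_n_M_h29 : chk3 (onCell 0 6442450944 0 3758096384 0 34359739 T_t1a_c1_d_n) x_t1a_c1_d_n_M_t29 5 16 1 = true := by decide +kernel

def x_t1a_c1_d_n_M_t30 : T :=
  (.l 19)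

theorem x_t1a_c1_d_n_M_h30 : chk3 (onCell 0 6442450944 0 3758096384 0 34359739 T_t1a_c1_d_n) x_t1a_c1_d_n_M_t30 16 17 1 = true := by decide +kernel

def x_t1a_c1_d_n_M_t31 : T :=
  (.b (.c (.a (.l 19) (.b (.c (.a (.c (.b (.l 0) (.l 19)) (.b (.l 0) (.l 19))) (.c (.b (.l 0) (.l
      0)) (.b (.l 0) (.l 0)))) (.a (.c (.b (.l 0) (.l 19)) (.b (.l 0) (.l 19))) (.c (.b (.l 0)
      (.l 0)) (.b (.l 0) (.l 0))))) (.l 19))) (.a (.l 19) (.b (.c (.a (.c (.b (.l 0) (.l 19)) (.b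
      (.l 0) (.l 19))) (.c (.b (.l 0) (.l 0)) (.b (.l 0) (.l 0)))) (.a (.c (.b (.l 0) (.l 19))
      (.b (.l 0) (.l 19))) (.c (.b (.l 0) (.l 0)) (.b (.l 0) (.l 0))))) (.l 19)))) (.l 19))

theorem x_t1a_c1_d_n_M_h31 : chk3 (onCell 0 6442450944 0 3758096384 0 34359739 T_t1a_c1_d_n) x_t1a_c1_d_n_M_t31 68 34 4 = true := by decide +kernel

def x_t1a_c1_d_n_M_t32 : T :=
  (.b (.c (.a (.c (.b (.l 0) (.a (.b (.c (.a (.l 19) (.l 0)) (.a (.l 19) (.l 0))) (.l 19)) (.b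
      (.l 0) (.l 19)))) (.b (.l 0) (.a (.b (.c (.a (.l 19) (.l 0)) (.a (.l 19) (.l 0))) (.l 19))
      (.b (.l 0) (.l 19))))) (.c (.b (.l 0) (.a (.l 0) (.l 0))) (.b (.l 0) (.a (.l 0) (.l 0)))))
      (.a (.c (.b (.l 0) (.a (.b (.c (.a (.l 19) (.l 0)) (.a (.l 19) (.l 0))) (.l 19)) (.b (.l 0)
      (.l 19)))) (.b (.l 0) (.a (.b (.c (.a (.l 19) (.l 0)) (.a (.l 19) (.l 0))) (.l 19)) (.b (.l
      0) (.l 19))))) (.c (.b (.l 0) (.a (.l 0) (.l 0))) (.b (.l 0) (.a (.l 0) (.l 0)))))) (.c (.a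
      (.l 19) (.b (.c (.a (.l 19) (.b (.l 0) (.l 19))) (.a (.l 19) (.b (.l 0) (.l 19)))) (.l
      19))) (.a (.l 19) (.b (.c (.a (.l 19) (.b (.l 0) (.l 19))) (.a (.l 19) (.b (.l 0) (.l
      19)))) (.l 19)))))

theorem x_t1a_c1_d_n_M_h32 : chk3 (onCell 0 6442450944 0 3758096384 0 34359739 T_t1a_c1_d_n) x_t1a_c1_d_n_M_t32 69 34 4 = true := by decide +kernel

end Pool.Agent.Strip051.LC.E0.Ch
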