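import Pool.Agent.Strip051.LC.E0.Ch.Te

/-! # Small rests: certificate X_t2a_c3_du_f_M_1 -/

set_option maxRecDepth 100000

namespace Pool.Agent.Strip051.LC.E0.Ch

open Pool.Agent.Strip051.PB

def x_t2a_c3_du_f_M_t0 : T :=
  (.a (.l 131) (.b (.a (.l 32) (.l 32)) (.a (.b (.a (.l 131) (.b (.l 0) (.l 0))) (.b (.a (.l 19)
      (.c (.b (.a (.l 19) (.l 0)) (.l 19)) (.b (.a (.l 19) (.l 0)) (.l 19)))) (.l 19))) (.b (.l
      0) (.b (.a (.l 0) (.l 0)) (.a (.c (.b (.a (.l 19) (.l 0)) (.l 19)) (.b (.a (.l 19) (.l 0))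
      (.l 19))) (.c (.l 0) (.b (.l 0) (.l 0)))))))))

theorem x_t2a_c3_du_f_M_h0 : chk3 (onCell 0 6442450944 0 6442450944 0 34359739 T_t2a_c3_du_f) x_t2a_c3_du_f_M_t0 16 16 4 = true := by decide +kernel

def x_t2a_c3_du_f_M_t1 : T :=
  (.a (.l 131) (.b (.a (.l 32) (.l 32)) (.a (.b (.a (.l 131) (.b (.l 0) (.c (.l 0) (.a (.l 0) (.l
      0))))) (.b (.a (.l 19) (.c (.b (.a (.l 19) (.l 0)) (.l 19)) (.b (.a (.l 19) (.l 0)) (.l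
      19)))) (.l 19))) (.b (.l 0) (.b (.a (.c (.b (.l 0) (.l 0)) (.b (.l 0) (.a (.l 0) (.l 0))))
      (.l 0)) (.a (.c (.b (.a (.l 19) (.l 0)) (.l 19)) (.b (.a (.l 19) (.l 0)) (.l 19))) (.c (.b
      (.l 0) (.a (.l 0) (.l 0))) (.b (.l 0) (.a (.c (.l 0) (.b (.l 0) (.l 19))) (.l 0))))))))))

theorem x_t2a_c3_du_f_M_h1 : chk3 (onCell 0 6442450944 0 6442450944 0 34359739 T_t2a_c3_du_f) x_t2a_c3_du_f_M_t1 16 16 5 = true := by decide +kernel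

def x_t2a_c3_du_f_M_t2 : T :=
  (.b (.a (.l 19) (.b (.a (.l 19) (.c (.b (.a (.l 19) (.c (.b (.a (.l 19) (.l 0)) (.l 19)) (.b
      (.a (.l 19) (.l 0)) (.l 19)))) (.l 19)) (.b (.a (.l 19) (.c (.b (.a (.l 19) (.c (.l 0) (.b
      (.l 0) (.l 19)))) (.l 19)) (.b (.a (.l 19) (.c (.b (.l 0) (.l 19)) (.b (.l 0) (.l 19))))
      (.l 19)))) (.l 19)))) (.l 19))) (.l 19))

theorem x_t2a_c3_du_f_M_h2 : chk3 (onCell 0 6442450944 0 6442450944 0 34359739 T_t2a_c3_du_f) x_t2a_c3_du_f_M_t2 16 17 2 = true := by decide +kernel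

def x_t2a_c3_du_f_M_t3 : T :=
  (.a (.b (.l 32) (.c (.a (.l 0) (.l 0)) (.a (.l 0) (.l 0)))) (.b (.l 32) (.l 0)))

theorem x_t2a_c3_du_f_M_h3 : chk3 (onCell 0 6442450944 0 6442450944 0 34359739 T_t2a_c3_du_f) x_t2a_c3_du_f_M_t3 17 16 2 = true := by decide +kernel

def x_t2a_c3_du_f_M_t4 : T :=
  (.b (.a (.c (.b (.l 0) (.a (.l 0) (.l 0))) (.b (.l 0) (.a (.c (.l 0) (.b (.l 0) (.l 19))) (.l
      0)))) (.l 0)) (.a (.c (.b (.a (.l 19) (.c (.b (.l 0) (.l 19)) (.b (.l 0) (.l 19)))) (.l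
      19)) (.b (.a (.l 19) (.c (.b (.l 0) (.l 19)) (.b (.l 0) (.l 19)))) (.l 19))) (.c (.b (.l 0)
      (.a (.c (.b (.l 0) (.l 19)) (.b (.l 0) (.l 19))) (.l 0))) (.b (.l 0) (.a (.c (.b (.l 0) (.l
      19)) (.b (.l 0) (.l 19))) (.l 0))))))

theorem x_t2a_c3_du_f_M_h4 : chk3 (onCell 0 6442450944 0 6442450944 0 34359739 T_t2a_c3_du_f) x_t2a_c3_du_f_M_t4 68 68 4 = true := by decide +kernel

def x_t2a_c3_du_f_M_t5 : T :=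
  (.b (.a (.c (.b (.l 0) (.a (.c (.b (.l 0) (.l 19)) (.b (.l 0) (.l 19))) (.l 0))) (.b (.l 0) (.a
      (.c (.b (.l 0) (.l 19)) (.b (.l 0) (.l 19))) (.l 0)))) (.l 0)) (.a (.c (.b (.a (.l 19) (.c
      (.b (.l 0) (.l 19)) (.b (.l 0) (.l 19)))) (.l 19)) (.b (.a (.l 19) (.c (.b (.l 0) (.l 19))
      (.b (.l 0) (.l 19)))) (.l 19))) (.c (.b (.l 0) (.a (.c (.b (.l 0) (.l 19)) (.b (.l 0) (.l
      19))) (.l 0))) (.b (.l 0) (.a (.c (.b (.l 0) (.l 19)) (.b (.l 0) (.l 19))) (.l 0))))))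

theorem x_t2a_c3_du_f_M_h5 : chk3 (onCell 0 6442450944 0 6442450944 0 34359739 T_t2a_c3_du_f) x_t2a_c3_du_f_M_t5 68 68 5 = true := by decide +kernel

def x_t2a_c3_du_f_M_t6 : T :=
  (.l 0)

theorem x_t2a_c3_du_f_M_h6 : chk3 (onCell 0 6442450944 0 6442450944 0 34359739 T_t2a_c3_du_f) x_t2a_c3_du_f_M_t6 69 68 2 = true := by decide +kernel

def x_t2a_c3_du_f_M_t7 : T :=
  (.c (.b (.a (.l 19) (.c (.b (.a (.l 19) (.c (.b (.l 0) (.l 19)) (.b (.l 0) (.l 19)))) (.l 19))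
      (.b (.a (.l 19) (.c (.b (.l 0) (.l 19)) (.b (.l 0) (.l 19)))) (.l 19)))) (.l 19)) (.b (.a
      (.l 19) (.c (.b (.a (.l 19) (.c (.b (.l 0) (.l 19)) (.b (.l 0) (.l 19)))) (.l 19)) (.b (.a
      (.l 19) (.c (.b (.l 0) (.l 19)) (.b (.l 0) (.l 19)))) (.l 19)))) (.l 19)))

theorem x_t2a_c3_du_f_M_h7 : chk3 (onCell 0 6442450944 0 6442450944 0 34359739 T_t2a_c3_du_f) x_t2a_c3_du_f_M_t7 68 69 2 = true := by decide +kernel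

def x_t2a_c3_du_f_M_t8 : T :=
  (.b (.a (.c (.b (.l 0) (.a (.c (.b (.l 0) (.l 19)) (.b (.l 0) (.l 19))) (.l 0))) (.b (.l 0) (.a
      (.c (.b (.l 0) (.l 19)) (.b (.l 0) (.l 19))) (.l 0)))) (.l 0)) (.a (.c (.b (.a (.l 19) (.c
      (.b (.l 0) (.l 19)) (.b (.l 0) (.l 19)))) (.l 19)) (.b (.a (.l 19) (.c (.b (.l 0) (.l 19))
      (.b (.a (.l 19) (.l 0)) (.l 19)))) (.l 19))) (.c (.b (.l 0) (.a (.c (.b (.a (.l 19) (.l 0))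
      (.l 19)) (.b (.a (.l 19) (.l 0)) (.l 19))) (.l 0))) (.b (.l 0) (.a (.c (.b (.a (.l 19) (.l
      0)) (.l 19)) (.b (.a (.l 19) (.l 0)) (.l 19))) (.l 0))))))

theorem x_t2a_c3_du_f_M_h8 : chk3 (onCell 0 6442450944 0 6442450944 0 34359739 T_t2a_c3_du_f) x_t2a_c3_du_f_M_t8 69 69 4 = true := by decide +kernel

def x_t2a_c3_du_f_M_t9 : T :=
  (.b (.a (.c (.b (.l 0) (.a (.c (.b (.l 0) (.l 19)) (.b (.a (.l 19) (.l 0)) (.l 19))) (.l 0)))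
      (.b (.l 0) (.a (.c (.b (.a (.l 19) (.l 0)) (.l 19)) (.b (.a (.l 19) (.l 0)) (.l 19))) (.l
      0)))) (.l 0)) (.a (.c (.b (.a (.l 19) (.c (.b (.a (.l 19) (.l 0)) (.l 19)) (.b (.a (.l 19)
      (.l 0)) (.l 19)))) (.l 19)) (.b (.a (.l 19) (.c (.b (.a (.l 19) (.l 0)) (.l 19)) (.b (.a
      (.l 19) (.l 0)) (.l 19)))) (.l 19))) (.c (.b (.l 0) (.a (.c (.b (.a (.l 19) (.l 0)) (.l
      19)) (.b (.a (.l 19) (.l 0)) (.l 19))) (.l 0))) (.b (.l 0) (.a (.c (.b (.a (.l 19) (.l 0))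
      (.l 19)) (.b (.a (.l 19) (.l 0)) (.l 19))) (.l 0))))))

theorem x_t2a_c3_du_f_M_h9 : chk3 (onCell 0 6442450944 0 6442450944 0 34359739 T_t2a_c3_du_f) x_t2a_c3_du_f_M_t9 69 69 5 = true := by decide +kernel

def x_t2a_c3_du_f_M_t10 : T :=
  (.c (.b (.l 0) (.a (.l 0) (.l 0))) (.b (.l 0) (.a (.l 0) (.l 0))))

theorem x_t2a_c3_du_f_M_h10 : chk3 (onCell 0 6442450944 0 6442450944 0 34359739 T_t2a_c3_du_f) x_t2a_c3_du_f_M_t10 35 34 2 = true := by decide +kernel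

def x_t2a_c3_du_f_M_t11 : T :=
  (.b (.a (.l 19) (.c (.b (.a (.l 19) (.c (.b (.a (.l 19) (.c (.b (.a (.l 19) (.l 0)) (.l 19))
      (.b (.a (.l 19) (.l 0)) (.l 19)))) (.l 19)) (.b (.a (.l 19) (.c (.b (.a (.l 19) (.l 0)) (.l
      19)) (.b (.a (.l 19) (.l 0)) (.l 19)))) (.l 19)))) (.l 19)) (.b (.a (.l 19) (.c (.b (.a (.l
      19) (.c (.b (.a (.l 19) (.l 0)) (.l 19)) (.b (.a (.l 19) (.l 0)) (.l 19)))) (.l 19)) (.b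
      (.a (.l 19) (.c (.b (.a (.l 19) (.l 0)) (.l 19)) (.b (.a (.l 19) (.l 0)) (.l 19)))) (.l
      19)))) (.l 19)))) (.l 19))

theorem x_t2a_c3_du_f_M_h11 : chk3 (onCell 0 6442450944 0 6442450944 0 34359739 T_t2a_c3_du_f) x_t2a_c3_du_f_M_t11 34 35 2 = true := by decide +kernel

def x_t2a_c3_du_f_M_t12 : T :=
  (.b (.a (.c (.b (.l 0) (.a (.c (.b (.a (.l 19) (.l 0)) (.l 19)) (.b (.a (.l 19) (.l 0)) (.l
      19))) (.l 0))) (.b (.l 0) (.a (.c (.b (.a (.l 19) (.l 0)) (.l 19)) (.b (.a (.l 19) (.l 0))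
      (.l 19))) (.l 0)))) (.l 0)) (.a (.c (.b (.a (.l 19) (.c (.b (.a (.l 19) (.l 0)) (.l 19))
      (.b (.a (.l 19) (.l 0)) (.l 19)))) (.l 19)) (.b (.a (.l 19) (.c (.b (.a (.l 19) (.l 0)) (.l
      19)) (.b (.a (.l 19) (.l 0)) (.l 19)))) (.l 19))) (.l 10)))

theorem x_t2a_c3_du_f_M_h12 : chk3 (onCell 0 6442450944 0 6442450944 0 34359739 T_t2a_c3_du_f) x_t2a_c3_du_f_M_t12 70 70 4 = true := by decide +kernel

def x_t2a_c3_du_f_M_t13 : T :=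
  (.b (.a (.c (.b (.l 0) (.a (.c (.b (.a (.l 19) (.l 0)) (.l 19)) (.b (.a (.l 19) (.l 0)) (.l
      19))) (.l 0))) (.b (.a (.l 0) (.l 0)) (.a (.c (.b (.a (.l 19) (.l 0)) (.l 19)) (.b (.a (.l
      19) (.l 0)) (.l 19))) (.c (.l 0) (.l 0))))) (.l 0)) (.a (.c (.b (.a (.l 19) (.c (.b (.a (.l
      19) (.l 0)) (.l 19)) (.b (.a (.l 19) (.l 0)) (.l 19)))) (.l 19)) (.b (.a (.l 19) (.c (.b
      (.a (.l 19) (.l 0)) (.l 19)) (.b (.a (.l 19) (.l 0)) (.l 19)))) (.l 19))) (.l 10)))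

theorem x_t2a_c3_du_f_M_h13 : chk3 (onCell 0 6442450944 0 6442450944 0 34359739 T_t2a_c3_du_f) x_t2a_c3_du_f_M_t13 70 70 5 = true := by decide +kernel

def x_t2a_c3_du_f_M_t14 : T :=
  (.c (.l 0) (.b (.l 0) (.l 0)))

theorem x_t2a_c3_du_f_M_h14 : chk3 (onCell 0 6442450944 0 6442450944 0 34359739 T_t2a_c3_du_f) x_t2a_c3_du_f_M_t14 71 70 2 = true := by decide +kernel

def x_t2a_c3_du_f_M_t15 : T :=
  (.a (.c (.b (.a (.l 19) (.l 10)) (.l 19)) (.b (.a (.l 19) (.l 10)) (.l 19))) (.c (.b (.a (.l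
      10) (.l 0)) (.l 10)) (.b (.a (.l 10) (.l 0)) (.l 10))))

theorem x_t2a_c3_du_f_M_h15 : chk3 (onCell 0 6442450944 0 6442450944 0 34359739 T_t2a_c3_du_f) x_t2a_c3_du_f_M_t15 35 71 2 = true := by decide +kernel

def x_t2a_c3_du_f_M_t16 : T :=
  (.l 131)

theorem x_t2a_c3_du_f_M_h16 : chk3 (onCell 0 6442450944 0 6442450944 0 34359739 T_t2a_c3_du_f) x_t2a_c3_du_f_M_t16 32 16 6 = true := by decide +kernel

def x_t2a_c3_du_f_M_t17 : T :=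
  (.a (.b (.l 32) (.l 0)) (.l 32))

theorem x_t2a_c3_du_f_M_h17 : chk3 (onCell 0 6442450944 0 6442450944 0 34359739 T_t2a_c3_du_f) x_t2a_c3_du_f_M_t17 33 32 6 = true := by decide +kernel

def x_t2a_c3_du_f_M_t18 : T :=
  (.b (.a (.l 131) (.b (.l 0) (.c (.a (.b (.l 0) (.c (.l 0) (.a (.l 19) (.l 0)))) (.l 0)) (.a (.b
      (.l 0) (.c (.a (.l 19) (.l 0)) (.a (.l 19) (.l 0)))) (.l 0))))) (.b (.a (.l 19) (.c (.b (.a
      (.l 19) (.c (.l 0) (.b (.l 0) (.l 19)))) (.l 19)) (.b (.a (.l 19) (.c (.b (.l 0) (.l 19))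
      (.b (.l 0) (.l 19)))) (.l 19)))) (.l 19)))

theorem x_t2a_c3_du_f_M_h18 : chk3 (onCell 0 6442450944 0 6442450944 0 34359739 T_t2a_c3_du_f) x_t2a_c3_du_f_M_t18 66 33 6 = true := by decide +kernel

def x_t2a_c3_du_f_M_t19 : T :=
  (.b (.l 0) (.b (.a (.c (.b (.l 0) (.a (.c (.l 0) (.b (.l 0) (.l 19))) (.l 0))) (.b (.l 0) (.a
      (.c (.b (.l 0) (.l 19)) (.b (.l 0) (.l 19))) (.l 0)))) (.l 0)) (.a (.c (.b (.a (.l 19) (.c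
      (.b (.l 0) (.l 19)) (.b (.l 0) (.l 19)))) (.l 19)) (.b (.a (.l 19) (.c (.b (.l 0) (.l 19))
      (.b (.l 0) (.l 19)))) (.l 19))) (.c (.b (.l 0) (.a (.c (.b (.l 0) (.l 19)) (.b (.l 0) (.l
      19))) (.l 0))) (.b (.l 0) (.a (.c (.b (.l 0) (.l 19)) (.b (.l 0) (.l 19))) (.l 0)))))))

theorem x_t2a_c3_du_f_M_h19 : chk3 (onCell 0 6442450944 0 6442450944 0 34359739 T_t2a_c3_du_f) x_t2a_c3_du_f_M_t19 67 33 6 = true := by decide +kernel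

def x_t2a_c3_du_f_M_t20 : T :=
  (.l 131)

theorem x_t2a_c3_du_f_M_h20 : chk3 (onCell 0 6442450944 0 6442450944 0 34359739 T_t2a_c3_du_f) x_t2a_c3_du_f_M_t20 32 16 7 = true := by decide +kernel

def x_t2a_c3_du_f_M_t21 : T :=
  (.a (.b (.l 32) (.l 0)) (.l 32))

theorem x_t2a_c3_du_f_M_h21 : chk3 (onCell 0 6442450944 0 6442450944 0 34359739 T_t2a_c3_du_f) x_t2a_c3_du_f_M_t21 33 32 7 = true := by decide +kernel

def x_t2a_c3_du_f_M_t22 : T :=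
  (.b (.a (.l 131) (.b (.l 0) (.c (.a (.b (.l 0) (.c (.a (.l 19) (.l 0)) (.a (.l 19) (.l 0))))
      (.l 0)) (.a (.b (.l 0) (.c (.a (.l 19) (.l 0)) (.a (.l 19) (.l 0)))) (.l 0))))) (.b (.a (.l
      19) (.c (.b (.a (.l 19) (.c (.b (.l 0) (.l 19)) (.b (.l 0) (.l 19)))) (.l 19)) (.b (.a (.l
      19) (.c (.b (.l 0) (.l 19)) (.b (.l 0) (.l 19)))) (.l 19)))) (.l 19)))

theorem x_t2a_c3_du_f_M_h22 : chk3 (onCell 0 6442450944 0 6442450944 0 34359739 T_t2a_c3_du_f) x_t2a_c3_du_f_M_t22 66 33 7 = true := by decide +kernel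

def x_t2a_c3_du_f_M_t23 : T :=
  (.b (.l 0) (.b (.a (.c (.b (.l 0) (.a (.c (.b (.l 0) (.l 19)) (.b (.l 0) (.l 19))) (.l 0))) (.b
      (.l 0) (.a (.c (.b (.l 0) (.l 19)) (.b (.l 0) (.l 19))) (.l 0)))) (.l 0)) (.a (.c (.b (.a
      (.l 19) (.c (.b (.l 0) (.l 19)) (.b (.l 0) (.l 19)))) (.l 19)) (.b (.a (.l 19) (.c (.b (.l
      0) (.l 19)) (.b (.l 0) (.l 19)))) (.l 19))) (.c (.b (.l 0) (.a (.c (.b (.l 0) (.l 19)) (.b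
      (.l 0) (.l 19))) (.l 0))) (.b (.l 0) (.a (.c (.b (.l 0) (.l 19)) (.b (.l 0) (.l 19))) (.l
      0)))))))

theorem x_t2a_c3_du_f_M_h23 : chk3 (onCell 0 6442450944 0 6442450944 0 34359739 T_t2a_c3_du_f) x_t2a_c3_du_f_M_t23 67 33 7 = true := by decide +kernel

def x_t2a_c3_du_f_M_t24 : T :=
  (.b (.a (.l 19) (.b (.a (.l 19) (.c (.b (.a (.l 19) (.c (.b (.a (.l 19) (.c (.b (.l 0) (.l 19))
      (.b (.l 0) (.l 19)))) (.l 19)) (.b (.a (.l 19) (.c (.b (.l 0) (.l 19)) (.b (.l 0) (.l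
      19)))) (.l 19)))) (.l 19)) (.b (.a (.l 19) (.c (.b (.a (.l 19) (.c (.b (.l 0) (.l 19)) (.b
      (.l 0) (.l 19)))) (.l 19)) (.b (.a (.l 19) (.c (.b (.l 0) (.l 19)) (.b (.l 0) (.l 19))))
      (.l 19)))) (.l 19)))) (.l 19))) (.l 19))

theorem x_t2a_c3_du_f_M_h24 : chk3 (onCell 0 6442450944 0 6442450944 0 34359739 T_t2a_c3_du_f) x_t2a_c3_du_f_M_t24 16 17 3 = true := by decide +kernel

def x_t2a_c3_du_f_M_t25 : T :=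
  (.a (.b (.l 32) (.c (.a (.b (.l 0) (.l 0)) (.l 0)) (.a (.b (.l 0) (.l 0)) (.l 0)))) (.b (.l 32)
      (.l 0)))

theorem x_t2a_c3_du_f_M_h25 : chk3 (onCell 0 6442450944 0 6442450944 0 34359739 T_t2a_c3_du_f) x_t2a_c3_du_f_M_t25 17 16 3 = true := by decide +kernel

def x_t2a_c3_du_f_M_t26 : T :=
  (.b (.a (.c (.b (.l 0) (.a (.c (.b (.l 0) (.l 19)) (.b (.l 0) (.l 19))) (.l 0))) (.b (.l 0) (.a
      (.c (.b (.l 0) (.l 19)) (.b (.l 0) (.l 19))) (.l 0)))) (.l 0)) (.a (.c (.b (.a (.l 19) (.c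
      (.b (.l 0) (.l 19)) (.b (.l 0) (.l 19)))) (.l 19)) (.b (.a (.l 19) (.c (.b (.l 0) (.l 19))
      (.b (.l 0) (.l 19)))) (.l 19))) (.c (.b (.l 0) (.a (.c (.b (.l 0) (.l 19)) (.b (.l 0) (.l
      19))) (.l 0))) (.b (.l 0) (.a (.c (.b (.a (.l 19) (.l 0)) (.l 19)) (.b (.a (.l 19) (.l 0))
      (.l 19))) (.l 0))))))

theorem x_t2a_c3_du_f_M_h26 : chk3 (onCell 0 6442450944 0 6442450944 0 34359739 T_t2a_c3_du_f) x_t2a_c3_du_f_M_t26 68 68 6 = true := by decide +kernel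

def x_t2a_c3_du_f_M_t27 : T :=
  (.b (.a (.c (.b (.l 0) (.a (.c (.b (.l 0) (.l 19)) (.b (.l 0) (.l 19))) (.l 0))) (.b (.l 0) (.a
      (.c (.b (.l 0) (.l 19)) (.b (.a (.l 19) (.l 0)) (.l 19))) (.l 0)))) (.l 0)) (.a (.c (.b (.a
      (.l 19) (.c (.b (.l 0) (.l 19)) (.b (.a (.l 19) (.l 0)) (.l 19)))) (.l 19)) (.b (.a (.l 19)
      (.c (.b (.a (.l 19) (.l 0)) (.l 19)) (.b (.a (.l 19) (.l 0)) (.l 19)))) (.l 19))) (.c (.b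
      (.l 0) (.a (.c (.b (.a (.l 19) (.l 0)) (.l 19)) (.b (.a (.l 19) (.l 0)) (.l 19))) (.l 0)))
      (.b (.l 0) (.a (.c (.b (.a (.l 19) (.l 0)) (.l 19)) (.b (.a (.l 19) (.l 0)) (.l 19))) (.l
      0))))))

theorem x_t2a_c3_du_f_M_h27 : chk3 (onCell 0 6442450944 0 6442450944 0 34359739 T_t2a_c3_du_f) x_t2a_c3_du_f_M_t27 68 68 7 = true := by decide +kernel

def x_t2a_c3_du_f_M_t28 : T :=
  (.l 0)

theorem x_t2a_c3_du_f_M_h28 : chk3 (onCell 0 6442450944 0 6442450944 0 34359739 T_t2a_c3_du_f) x_t2a_c3_du_f_M_t28 69 68 3 = true := by decide +kernel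

def x_t2a_c3_du_f_M_t29 : T :=
  (.c (.b (.a (.l 19) (.c (.b (.a (.l 19) (.c (.b (.a (.l 19) (.l 0)) (.l 19)) (.b (.a (.l 19)
      (.l 0)) (.l 19)))) (.l 19)) (.b (.a (.l 19) (.c (.b (.a (.l 19) (.l 0)) (.l 19)) (.b (.a
      (.l 19) (.l 0)) (.l 19)))) (.l 19)))) (.l 19)) (.b (.a (.l 19) (.c (.b (.a (.l 19) (.c (.b
      (.a (.l 19) (.l 0)) (.l 19)) (.b (.a (.l 19) (.l 0)) (.l 19)))) (.l 19)) (.b (.a (.l 19)
      (.c (.b (.a (.l 19) (.l 0)) (.l 19)) (.b (.a (.l 19) (.l 0)) (.l 19)))) (.l 19)))) (.l 19)))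

theorem x_t2a_c3_du_f_M_h29 : chk3 (onCell 0 6442450944 0 6442450944 0 34359739 T_t2a_c3_du_f) x_t2a_c3_du_f_M_t29 68 69 3 = true := by decide +kernel

def x_t2a_c3_du_f_M_t30 : T :=
  (.b (.a (.c (.b (.l 0) (.a (.c (.b (.a (.l 19) (.l 0)) (.l 19)) (.b (.a (.l 19) (.l 0)) (.l
      19))) (.l 0))) (.b (.l 0) (.a (.c (.b (.a (.l 19) (.l 0)) (.l 19)) (.b (.a (.l 19) (.l 0))
      (.l 19))) (.l 0)))) (.l 0)) (.a (.c (.b (.a (.l 19) (.c (.b (.a (.l 19) (.l 0)) (.l 19))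
      (.b (.a (.l 19) (.l 0)) (.l 19)))) (.l 19)) (.b (.a (.l 19) (.c (.b (.a (.l 19) (.l 0)) (.l
      19)) (.b (.a (.l 19) (.l 0)) (.l 19)))) (.l 19))) (.c (.b (.l 0) (.a (.c (.b (.a (.l 19)
      (.l 0)) (.l 19)) (.b (.a (.l 19) (.l 0)) (.l 19))) (.l 0))) (.b (.l 0) (.a (.c (.b (.a (.l
      19) (.l 0)) (.l 19)) (.b (.a (.l 19) (.l 0)) (.l 19))) (.l 0))))))

theorem x_t2a_c3_du_f_M_h30 : chk3 (onCell 0 6442450944 0 6442450944 0 34359739 T_t2a_c3_du_f) x_t2a_c3_du_f_M_t30 69 69 6 = true := by decide +kernel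

def x_t2a_c3_du_f_M_t31 : T :=
  (.a (.c (.b (.l 0) (.a (.c (.b (.a (.l 19) (.l 0)) (.l 19)) (.b (.a (.l 19) (.l 0)) (.l 19)))
      (.l 0))) (.b (.a (.l 0) (.l 0)) (.a (.c (.b (.a (.l 19) (.l 0)) (.l 19)) (.b (.a (.l 19)
      (.l 0)) (.l 19))) (.l 0)))) (.l 0))

theorem x_t2a_c3_du_f_M_h31 : chk3 (onCell 0 6442450944 0 6442450944 0 34359739 T_t2a_c3_du_f) x_t2a_c3_du_f_M_t31 69 138 7 = true := by decide +kernel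

def x_t2a_c3_du_f_M_t32 : T :=
  (.c (.b (.a (.l 19) (.c (.b (.a (.l 19) (.l 0)) (.l 19)) (.b (.a (.l 19) (.l 0)) (.l 19)))) (.l
      19)) (.b (.a (.l 19) (.c (.b (.a (.l 19) (.l 0)) (.l 19)) (.b (.a (.l 19) (.l 0)) (.l
      19)))) (.l 19)))

theorem x_t2a_c3_du_f_M_h32 : chk3 (onCell 0 6442450944 0 6442450944 0 34359739 T_t2a_c3_du_f) x_t2a_c3_du_f_M_t32 138 139 7 = true := by decide +kernel

def x_t2a_c3_du_f_M_t33 : T :=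
  (.c (.b (.a (.l 0) (.l 0)) (.a (.c (.b (.a (.l 19) (.l 0)) (.l 19)) (.b (.a (.l 19) (.l 0)) (.l
      19))) (.c (.b (.l 0) (.l 0)) (.b (.l 0) (.a (.c (.l 0) (.b (.l 0) (.l 19))) (.l 0)))))) (.b
      (.a (.c (.b (.l 0) (.l 0)) (.b (.l 0) (.a (.c (.l 0) (.b (.l 0) (.l 19))) (.l 0)))) (.l 0))
      (.a (.c (.b (.a (.l 19) (.c (.l 0) (.b (.l 0) (.l 19)))) (.l 19)) (.b (.a (.l 19) (.c (.b
      (.l 0) (.l 19)) (.b (.l 0) (.l 19)))) (.l 19))) (.c (.b (.l 0) (.a (.c (.b (.l 0) (.l 19))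
      (.b (.l 0) (.l 19))) (.l 0))) (.b (.l 0) (.a (.c (.b (.l 0) (.l 19)) (.b (.l 0) (.l 19)))
      (.l 0)))))))

theorem x_t2a_c3_du_f_M_h33 : chk3 (onCell 0 6442450944 0 6442450944 0 34359739 T_t2a_c3_du_f) x_t2a_c3_du_f_M_t33 139 139 7 = true := by decide +kernel

def x_t2a_c3_du_f_M_t34 : T :=
  (.c (.a (.b (.l 0) (.b (.l 0) (.l 0))) (.l 0)) (.a (.b (.l 0) (.b (.l 0) (.l 0))) (.l 0)))

theorem x_t2a_c3_du_f_M_h34 : chk3 (onCell 0 6442450944 0 6442450944 0 34359739 T_t2a_c3_du_f) x_t2a_c3_du_f_M_t34 35 34 3 = true := by decide +kernel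

def x_t2a_c3_du_f_M_t35 : T :=
  (.b (.a (.l 19) (.c (.b (.a (.l 19) (.c (.b (.a (.l 19) (.c (.b (.a (.l 19) (.l 0)) (.l 19))
      (.b (.a (.l 19) (.l 0)) (.l 19)))) (.l 19)) (.b (.a (.l 19) (.c (.b (.a (.l 19) (.l 0)) (.l
      19)) (.b (.a (.l 19) (.l 0)) (.l 19)))) (.l 19)))) (.l 19)) (.b (.a (.l 19) (.c (.b (.a (.l
      19) (.c (.b (.a (.l 19) (.c (.l 0) (.b (.l 0) (.l 19)))) (.l 19)) (.b (.a (.l 19) (.c (.b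
      (.l 0) (.l 19)) (.b (.l 0) (.l 19)))) (.l 19)))) (.l 19)) (.b (.a (.l 19) (.c (.b (.a (.l
      19) (.c (.b (.l 0) (.l 19)) (.b (.l 0) (.l 19)))) (.l 19)) (.b (.a (.l 19) (.c (.b (.l 0)
      (.l 19)) (.b (.l 0) (.l 19)))) (.l 19)))) (.l 19)))) (.l 19)))) (.l 19))

theorem x_t2a_c3_du_f_M_h35 : chk3 (onCell 0 6442450944 0 6442450944 0 34359739 T_t2a_c3_du_f) x_t2a_c3_du_f_M_t35 34 35 3 = true := by decide +kernel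

def x_t2a_c3_du_f_M_t36 : T :=
  (.a (.c (.b (.a (.l 0) (.l 0)) (.a (.c (.b (.a (.l 19) (.l 0)) (.l 19)) (.b (.a (.l 19) (.l 0))
      (.l 19))) (.c (.b (.l 0) (.a (.l 0) (.l 0))) (.b (.l 0) (.a (.c (.l 0) (.b (.l 0) (.l 19)))
      (.l 0)))))) (.b (.a (.c (.b (.l 0) (.l 0)) (.b (.l 0) (.a (.c (.l 0) (.b (.l 0) (.l 19)))
      (.l 0)))) (.l 0)) (.a (.c (.b (.a (.l 19) (.c (.l 0) (.b (.l 0) (.l 19)))) (.l 19)) (.b (.a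
      (.l 19) (.c (.b (.l 0) (.l 19)) (.b (.l 0) (.l 19)))) (.l 19))) (.c (.b (.l 0) (.a (.c (.b
      (.l 0) (.l 19)) (.b (.l 0) (.l 19))) (.l 0))) (.b (.l 0) (.a (.c (.b (.l 0) (.l 19)) (.b
      (.l 0) (.l 19))) (.l 0))))))) (.l 0))

theorem x_t2a_c3_du_f_M_h36 : chk3 (onCell 0 6442450944 0 6442450944 0 34359739 T_t2a_c3_du_f) x_t2a_c3_du_f_M_t36 70 140 6 = true := by decide +kernel

def x_t2a_c3_du_f_M_t37 : T :=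
  (.a (.c (.b (.a (.l 19) (.c (.b (.a (.l 19) (.c (.b (.l 0) (.l 19)) (.b (.l 0) (.l 19)))) (.l
      19)) (.b (.a (.l 19) (.c (.b (.l 0) (.l 19)) (.b (.l 0) (.l 19)))) (.l 19)))) (.l 19)) (.b
      (.a (.l 19) (.c (.b (.a (.l 19) (.c (.b (.l 0) (.l 19)) (.b (.l 0) (.l 19)))) (.l 19)) (.b
      (.a (.l 19) (.c (.b (.l 0) (.l 19)) (.b (.l 0) (.l 19)))) (.l 19)))) (.l 19))) (.l 10))

theorem x_t2a_c3_du_f_M_h37 : chk3 (onCell 0 6442450944 0 6442450944 0 34359739 T_t2a_c3_du_f) x_t2a_c3_du_f_M_t37 70 141 6 = true := by decide +kernel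

def x_t2a_c3_du_f_M_t38 : T :=
  (.b (.a (.c (.b (.l 0) (.a (.c (.b (.l 0) (.l 19)) (.b (.l 0) (.l 19))) (.l 0))) (.b (.l 0) (.a
      (.c (.b (.l 0) (.l 19)) (.b (.l 0) (.l 19))) (.l 0)))) (.l 0)) (.a (.c (.b (.a (.l 19) (.c
      (.b (.l 0) (.l 19)) (.b (.l 0) (.l 19)))) (.l 19)) (.b (.a (.l 19) (.c (.b (.l 0) (.l 19))
      (.b (.l 0) (.l 19)))) (.l 19))) (.c (.b (.l 0) (.a (.c (.b (.l 0) (.l 19)) (.b (.l 0) (.l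
      19))) (.l 0))) (.b (.l 0) (.a (.c (.b (.l 0) (.l 19)) (.b (.l 0) (.l 19))) (.l 0))))))

theorem x_t2a_c3_du_f_M_h38 : chk3 (onCell 0 6442450944 0 6442450944 0 34359739 T_t2a_c3_du_f) x_t2a_c3_du_f_M_t38 140 140 14 = true := by decide +kernel

def x_t2a_c3_du_f_M_t39 : T :=
  (.b (.a (.c (.b (.l 0) (.a (.c (.b (.l 0) (.l 19)) (.b (.l 0) (.l 19))) (.l 0))) (.b (.l 0) (.a
      (.c (.b (.l 0) (.l 19)) (.b (.l 0) (.l 19))) (.l 0)))) (.l 0)) (.a (.c (.b (.a (.l 19) (.c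
      (.b (.l 0) (.l 19)) (.b (.l 0) (.l 19)))) (.l 19)) (.b (.a (.l 19) (.c (.b (.l 0) (.l 19))
      (.b (.l 0) (.l 19)))) (.l 19))) (.c (.b (.l 0) (.a (.c (.b (.l 0) (.l 19)) (.b (.l 0) (.l
      19))) (.l 0))) (.b (.l 0) (.a (.c (.b (.l 0) (.l 19)) (.b (.l 0) (.l 19))) (.l 0))))))

theorem x_t2a_c3_du_f_M_h39 : chk3 (onCell 0 6442450944 0 6442450944 0 34359739 T_t2a_c3_du_f) x_t2a_c3_du_f_M_t39 140 140 15 = true := by decide +kernel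

def x_t2a_c3_du_f_M_t40 : T :=
  (.l 0)

theorem x_t2a_c3_du_f_M_h40 : chk3 (onCell 0 6442450944 0 6442450944 0 34359739 T_t2a_c3_du_f) x_t2a_c3_du_f_M_t40 141 140 7 = true := by decide +kernel

def x_t2a_c3_du_f_M_t41 : T :=
  (.a (.c (.b (.a (.l 19) (.c (.b (.a (.l 19) (.c (.b (.l 0) (.l 19)) (.b (.l 0) (.l 19)))) (.l
      19)) (.b (.a (.l 19) (.c (.b (.l 0) (.l 19)) (.b (.l 0) (.l 19)))) (.l 19)))) (.l 19)) (.b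
      (.a (.l 19) (.c (.b (.a (.l 19) (.c (.b (.l 0) (.l 19)) (.b (.l 0) (.l 19)))) (.l 19)) (.b
      (.a (.l 19) (.c (.b (.l 0) (.l 19)) (.b (.l 0) (.l 19)))) (.l 19)))) (.l 19))) (.l 10))

theorem x_t2a_c3_du_f_M_h41 : chk3 (onCell 0 6442450944 0 6442450944 0 34359739 T_t2a_c3_du_f) x_t2a_c3_du_f_M_t41 70 141 7 = true := by decide +kernel

def x_t2a_c3_du_f_M_t42 : T :=
  (.c (.b (.l 0) (.l 0)) (.b (.l 0) (.l 0)))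

theorem x_t2a_c3_du_f_M_h42 : chk3 (onCell 0 6442450944 0 6442450944 0 34359739 T_t2a_c3_du_f) x_t2a_c3_du_f_M_t42 71 70 3 = true := by decide +kernel

def x_t2a_c3_du_f_M_t43 : T :=
  (.a (.c (.b (.a (.l 19) (.l 10)) (.l 19)) (.b (.a (.l 19) (.l 10)) (.l 19))) (.c (.b (.a (.l
      10) (.l 0)) (.l 10)) (.b (.a (.l 10) (.l 0)) (.l 10))))

theorem x_t2a_c3_du_f_M_h43 : chk3 (onCell 0 6442450944 0 6442450944 0 34359739 T_t2a_c3_du_f) x_t2a_c3_du_f_M_t43 35 71 3 = true := by decide +kernel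

end Pool.Agent.Strip051.LC.E0.Ch
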