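import Pool.Agent.Strip051.LC.E0.Ch.Te

/-! # Small rests: certificate X_t2b_W_d_f_M_1 -/

set_option maxRecDepth 100000

namespace Pool.Agent.Strip051.LC.E0.Ch

open Pool.Agent.Strip051.PB

def x_t2b_W_d_f_M_t0 : T :=
  (.b (.c (.a (.l 131) (.b (.c (.a (.l 131) (.l 0)) (.a (.l 131) (.l 0))) (.c (.a (.l 131) (.l
      0)) (.a (.l 131) (.l 0))))) (.a (.l 131) (.b (.c (.a (.l 131) (.l 0)) (.a (.l 131) (.l 0)))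
      (.c (.a (.l 131) (.l 0)) (.a (.l 131) (.l 0)))))) (.b (.a (.l 19) (.c (.c (.b (.a (.l 19)
      (.l 0)) (.l 19)) (.b (.a (.l 19) (.l 0)) (.l 19))) (.c (.b (.a (.l 19) (.l 0)) (.l 19)) (.b
      (.a (.l 19) (.l 0)) (.l 19))))) (.l 19)))

theorem x_t2b_W_d_f_M_h0 : chk3 (onCell 0 8589934592 0 8589934592 0 34359739 T_t2b_W_d_f) x_t2b_W_d_f_M_t0 32 16 2 = true := by decide +kernel

def x_t2b_W_d_f_M_t1 : T :=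
  (.a (.c (.b (.a (.l 0) (.l 0)) (.c (.a (.l 0) (.l 0)) (.a (.l 0) (.l 0)))) (.b (.a (.l 0) (.l
      0)) (.c (.a (.l 0) (.l 0)) (.a (.l 0) (.l 0))))) (.c (.b (.l 32) (.c (.a (.l 0) (.l 0)) (.a
      (.l 0) (.l 0)))) (.b (.l 32) (.c (.a (.l 0) (.l 0)) (.a (.l 0) (.l 0))))))

theorem x_t2b_W_d_f_M_h1 : chk3 (onCell 0 8589934592 0 8589934592 0 34359739 T_t2b_W_d_f) x_t2b_W_d_f_M_t1 33 32 2 = true := by decide +kernel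

def x_t2b_W_d_f_M_t2 : T :=
  (.c (.b (.a (.c (.b (.l 0) (.l 0)) (.b (.l 0) (.l 0))) (.c (.b (.l 0) (.a (.l 0) (.l 0))) (.b
      (.l 0) (.a (.l 0) (.l 0))))) (.a (.c (.a (.l 19) (.l 0)) (.a (.l 19) (.l 0))) (.c (.b (.a
      (.l 0) (.l 0)) (.a (.l 0) (.l 0))) (.b (.a (.l 0) (.l 0)) (.a (.l 0) (.l 0)))))) (.b (.a
      (.c (.b (.a (.l 0) (.l 0)) (.l 0)) (.b (.a (.l 0) (.l 0)) (.l 0))) (.c (.b (.l 0) (.a (.l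
      0) (.l 0))) (.b (.l 0) (.a (.l 0) (.l 0))))) (.a (.c (.a (.l 19) (.b (.l 0) (.l 19))) (.a
      (.l 19) (.b (.l 0) (.l 19)))) (.c (.b (.a (.l 0) (.l 0)) (.a (.l 0) (.l 0))) (.b (.a (.l 0)
      (.l 0)) (.a (.l 0) (.l 0)))))))

theorem x_t2b_W_d_f_M_h2 : chk3 (onCell 0 8589934592 0 8589934592 0 34359739 T_t2b_W_d_f) x_t2b_W_d_f_M_t2 33 33 2 = true := by decide +kernel

def x_t2b_W_d_f_M_t3 : T :=
  (.b (.c (.a (.l 131) (.b (.c (.a (.l 131) (.l 0)) (.a (.l 131) (.l 0))) (.c (.a (.l 131) (.l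
      0)) (.a (.l 131) (.b (.l 0) (.l 0)))))) (.a (.l 131) (.b (.c (.a (.l 131) (.l 0)) (.a (.l
      131) (.b (.l 0) (.l 0)))) (.c (.a (.l 131) (.b (.l 0) (.l 0))) (.a (.l 131) (.b (.l 0) (.l
      0))))))) (.b (.a (.l 19) (.c (.c (.b (.a (.l 19) (.l 0)) (.l 19)) (.b (.a (.l 19) (.l 0))
      (.l 19))) (.c (.b (.a (.l 19) (.l 0)) (.l 19)) (.b (.a (.l 19) (.l 0)) (.l 19))))) (.l 19)))

theorem x_t2b_W_d_f_M_h3 : chk3 (onCell 0 8589934592 0 8589934592 0 34359739 T_t2b_W_d_f) x_t2b_W_d_f_M_t3 32 16 3 = true := by decide +kernel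

def x_t2b_W_d_f_M_t4 : T :=
  (.a (.c (.b (.a (.l 0) (.l 0)) (.c (.a (.l 0) (.l 0)) (.a (.b (.l 0) (.l 0)) (.l 0)))) (.b (.a
      (.l 0) (.l 0)) (.c (.a (.b (.l 0) (.l 0)) (.l 0)) (.a (.b (.l 0) (.l 0)) (.l 0))))) (.c (.b
      (.l 32) (.c (.a (.l 0) (.l 0)) (.a (.l 0) (.l 0)))) (.b (.l 32) (.c (.a (.l 0) (.l 0)) (.a
      (.l 0) (.l 0))))))

theorem x_t2b_W_d_f_M_h4 : chk3 (onCell 0 8589934592 0 8589934592 0 34359739 T_t2b_W_d_f) x_t2b_W_d_f_M_t4 33 32 3 = true := by decide +kernel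

def x_t2b_W_d_f_M_t5 : T :=
  (.c (.b (.a (.c (.b (.a (.l 0) (.l 0)) (.l 0)) (.b (.a (.l 0) (.l 0)) (.a (.l 0) (.l 0)))) (.c
      (.b (.l 0) (.a (.l 0) (.l 0))) (.b (.l 0) (.a (.l 0) (.l 0))))) (.a (.c (.a (.l 19) (.b (.l
      0) (.l 19))) (.a (.l 19) (.b (.l 0) (.l 19)))) (.c (.b (.a (.l 0) (.l 0)) (.a (.l 0) (.l
      0))) (.b (.a (.l 0) (.l 0)) (.a (.l 0) (.l 0)))))) (.b (.a (.c (.b (.a (.l 0) (.l 0)) (.a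
      (.l 0) (.l 0))) (.b (.a (.l 0) (.l 0)) (.a (.l 0) (.l 0)))) (.c (.b (.l 0) (.a (.l 0) (.l
      0))) (.b (.a (.l 0) (.l 0)) (.a (.l 0) (.l 0))))) (.a (.c (.a (.l 19) (.b (.l 0) (.l 19)))
      (.a (.l 19) (.b (.l 0) (.l 19)))) (.c (.b (.a (.l 0) (.l 0)) (.a (.l 0) (.l 0))) (.b (.a
      (.l 0) (.l 0)) (.a (.l 0) (.l 0)))))))

theorem x_t2b_W_d_f_M_h5 : chk3 (onCell 0 8589934592 0 8589934592 0 34359739 T_t2b_W_d_f) x_t2b_W_d_f_M_t5 33 33 3 = true := by decide +kernel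

def x_t2b_W_d_f_M_t6 : T :=
  (.a (.l 19) (.b (.c (.a (.l 19) (.b (.c (.c (.a (.l 19) (.b (.l 0) (.l 19))) (.a (.l 19) (.b
      (.l 0) (.l 19)))) (.c (.a (.l 19) (.b (.l 0) (.l 19))) (.a (.l 19) (.b (.l 0) (.l 19)))))
      (.l 19))) (.a (.l 19) (.b (.c (.c (.a (.l 19) (.b (.l 0) (.l 19))) (.a (.l 19) (.b (.l 0)
      (.l 19)))) (.c (.a (.l 19) (.b (.l 0) (.l 19))) (.a (.l 19) (.b (.l 0) (.l 19))))) (.l
      19)))) (.l 19)))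

theorem x_t2b_W_d_f_M_h6 : chk3 (onCell 0 8589934592 0 8589934592 0 34359739 T_t2b_W_d_f) x_t2b_W_d_f_M_t6 16 17 1 = true := by decide +kernel

def x_t2b_W_d_f_M_t7 : T :=
  (.b (.c (.a (.b (.l 32) (.l 0)) (.b (.b (.c (.b (.l 16) (.l 16)) (.b (.l 16) (.l 16))) (.l 32))
      (.l 32))) (.a (.b (.l 32) (.l 0)) (.b (.b (.c (.b (.l 16) (.l 16)) (.b (.l 16) (.l 16)))
      (.l 32)) (.l 32)))) (.b (.c (.a (.b (.l 0) (.l 0)) (.l 0)) (.a (.b (.l 0) (.l 0)) (.l 0)))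
      (.c (.a (.c (.b (.l 0) (.a (.l 0) (.l 0))) (.b (.a (.l 0) (.l 0)) (.a (.l 0) (.l 0)))) (.b
      (.l 0) (.l 0))) (.a (.c (.b (.a (.l 0) (.l 0)) (.a (.l 0) (.l 0))) (.b (.a (.l 0) (.l 0))
      (.a (.l 0) (.l 0)))) (.b (.l 0) (.l 0))))))

theorem x_t2b_W_d_f_M_h7 : chk3 (onCell 0 8589934592 0 8589934592 0 34359739 T_t2b_W_d_f) x_t2b_W_d_f_M_t7 34 16 2 = true := by decide +kernel

def x_t2b_W_d_f_M_t8 : T :=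
  (.b (.c (.b (.a (.b (.b (.l 10) (.c (.a (.l 16) (.l 16)) (.a (.l 16) (.l 16)))) (.l 16)) (.b
      (.b (.l 12) (.c (.a (.l 16) (.l 16)) (.a (.l 16) (.l 16)))) (.c (.b (.l 16) (.l 16)) (.b
      (.l 16) (.l 16))))) (.a (.l 32) (.l 32))) (.b (.a (.b (.b (.l 10) (.c (.a (.l 16) (.l 16))
      (.a (.l 16) (.l 16)))) (.l 16)) (.b (.b (.l 12) (.c (.a (.l 16) (.l 16)) (.a (.l 16) (.l
      16)))) (.c (.b (.l 16) (.l 16)) (.b (.l 16) (.l 16))))) (.a (.l 32) (.l 32)))) (.c (.a (.b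
      (.l 0) (.l 0)) (.b (.l 32) (.l 0))) (.a (.b (.l 0) (.l 0)) (.b (.l 32) (.l 0)))))

theorem x_t2b_W_d_f_M_h8 : chk3 (onCell 0 8589934592 0 8589934592 0 34359739 T_t2b_W_d_f) x_t2b_W_d_f_M_t8 35 16 2 = true := by decide +kernel

def x_t2b_W_d_f_M_t9 : T :=
  (.a (.c (.b (.a (.l 32) (.b (.c (.b (.l 16) (.l 16)) (.b (.l 16) (.l 16))) (.l 32))) (.a (.l 0)
      (.l 32))) (.b (.a (.l 32) (.b (.c (.b (.l 16) (.l 16)) (.b (.l 16) (.l 16))) (.l 32))) (.a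
      (.l 0) (.l 32)))) (.c (.b (.a (.b (.c (.b (.l 10) (.a (.l 16) (.l 16))) (.b (.l 10) (.a (.l
      16) (.l 16)))) (.l 16)) (.b (.b (.l 12) (.c (.a (.l 16) (.l 16)) (.a (.l 16) (.l 16)))) (.c
      (.b (.l 16) (.l 16)) (.b (.l 16) (.l 16))))) (.a (.l 32) (.l 32))) (.b (.a (.b (.c (.b (.l
      10) (.a (.l 16) (.l 16))) (.b (.l 10) (.a (.l 16) (.l 16)))) (.l 16)) (.b (.c (.b (.l 12)
      (.a (.l 16) (.l 16))) (.b (.l 12) (.a (.l 16) (.l 16)))) (.c (.b (.l 16) (.l 16)) (.b (.l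
      16) (.l 16))))) (.a (.l 32) (.l 32)))))

theorem x_t2b_W_d_f_M_h9 : chk3 (onCell 0 8589934592 0 8589934592 0 34359739 T_t2b_W_d_f) x_t2b_W_d_f_M_t9 17 32 3 = true := by decide +kernel

def x_t2b_W_d_f_M_t10 : T :=
  (.a (.b (.c (.a (.b (.l 0) (.l 0)) (.l 0)) (.a (.b (.l 0) (.l 0)) (.l 0))) (.c (.a (.c (.b (.a
      (.l 0) (.l 0)) (.a (.l 0) (.l 0))) (.b (.a (.l 0) (.l 0)) (.a (.l 0) (.l 0)))) (.b (.l 0)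
      (.l 0))) (.a (.c (.b (.a (.l 0) (.l 0)) (.a (.l 0) (.l 0))) (.b (.a (.l 0) (.l 0)) (.a (.l
      0) (.l 0)))) (.b (.l 0) (.l 0))))) (.c (.a (.b (.l 0) (.l 0)) (.b (.l 32) (.l 0))) (.a (.b
      (.l 0) (.l 0)) (.b (.l 32) (.l 0)))))

theorem x_t2b_W_d_f_M_h10 : chk3 (onCell 0 8589934592 0 8589934592 0 34359739 T_t2b_W_d_f) x_t2b_W_d_f_M_t10 17 33 3 = true := by decide +kernel

def x_t2b_W_d_f_M_t11 : T :=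
  (.b (.a (.c (.b (.a (.l 0) (.l 0)) (.a (.l 0) (.l 0))) (.b (.a (.l 0) (.l 0)) (.a (.l 0) (.l
      0)))) (.c (.b (.a (.l 0) (.l 0)) (.a (.l 0) (.l 0))) (.b (.a (.l 0) (.l 0)) (.a (.l 0) (.l
      0))))) (.a (.c (.a (.l 19) (.b (.l 0) (.l 19))) (.a (.l 19) (.b (.l 0) (.l 19)))) (.c (.b
      (.a (.l 0) (.l 0)) (.a (.l 0) (.c (.b (.l 0) (.l 0)) (.b (.l 0) (.l 0))))) (.b (.a (.l 0)
      (.l 0)) (.a (.b (.l 0) (.l 19)) (.c (.b (.l 0) (.l 0)) (.b (.l 0) (.l 0))))))))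

theorem x_t2b_W_d_f_M_h11 : chk3 (onCell 0 8589934592 0 8589934592 0 34359739 T_t2b_W_d_f) x_t2b_W_d_f_M_t11 34 34 4 = true := by decide +kernel

def x_t2b_W_d_f_M_t12 : T :=
  (.b (.a (.c (.b (.a (.l 0) (.l 0)) (.a (.l 0) (.l 0))) (.b (.a (.l 0) (.l 0)) (.a (.l 0) (.l
      0)))) (.c (.b (.a (.l 0) (.l 0)) (.a (.l 0) (.l 0))) (.b (.a (.l 0) (.l 0)) (.a (.l 0) (.l
      0))))) (.a (.c (.a (.l 19) (.b (.l 0) (.l 19))) (.a (.l 19) (.b (.l 0) (.l 19)))) (.c (.b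
      (.a (.l 0) (.l 0)) (.a (.b (.l 0) (.l 19)) (.c (.b (.l 0) (.l 0)) (.b (.l 0) (.l 0))))) (.b
      (.a (.l 0) (.l 0)) (.a (.b (.l 0) (.l 19)) (.c (.b (.l 0) (.l 0)) (.b (.l 0) (.l 0))))))))

theorem x_t2b_W_d_f_M_h12 : chk3 (onCell 0 8589934592 0 8589934592 0 34359739 T_t2b_W_d_f) x_t2b_W_d_f_M_t12 34 34 5 = true := by decide +kernel

def x_t2b_W_d_f_M_t13 : T :=
  (.b (.a (.c (.b (.l 0) (.a (.l 0) (.l 0))) (.b (.l 0) (.a (.l 0) (.l 0)))) (.c (.l 0) (.l 0)))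
      (.a (.c (.c (.b (.a (.l 0) (.l 0)) (.a (.c (.b (.l 0) (.l 0)) (.b (.l 0) (.l 0))) (.l 0)))
      (.b (.a (.l 0) (.l 0)) (.a (.c (.b (.l 0) (.l 0)) (.b (.l 0) (.l 0))) (.l 0)))) (.c (.b (.a
      (.l 0) (.l 0)) (.a (.c (.b (.l 0) (.l 0)) (.b (.l 0) (.l 0))) (.l 0))) (.b (.a (.l 0) (.l
      0)) (.a (.c (.b (.l 0) (.l 0)) (.b (.l 0) (.l 0))) (.l 0))))) (.c (.b (.l 0) (.a (.l 0) (.l
      0))) (.b (.l 0) (.a (.l 0) (.l 0))))))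

theorem x_t2b_W_d_f_M_h13 : chk3 (onCell 0 8589934592 0 8589934592 0 34359739 T_t2b_W_d_f) x_t2b_W_d_f_M_t13 35 34 2 = true := by decide +kernel

def x_t2b_W_d_f_M_t14 : T :=
  (.a (.l 19) (.b (.b (.c (.a (.l 19) (.c (.a (.l 19) (.b (.l 0) (.l 19))) (.a (.l 19) (.b (.l 0)
      (.l 19))))) (.a (.l 19) (.c (.b (.l 0) (.l 19)) (.b (.l 0) (.l 19))))) (.l 19)) (.l 19)))

theorem x_t2b_W_d_f_M_h14 : chk3 (onCell 0 8589934592 0 8589934592 0 34359739 T_t2b_W_d_f) x_t2b_W_d_f_M_t14 34 35 2 = true := by decide +kernel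

def x_t2b_W_d_f_M_t15 : T :=
  (.c (.b (.a (.c (.b (.a (.l 0) (.l 0)) (.l 13)) (.b (.a (.l 0) (.l 0)) (.l 13))) (.c (.b (.l 0)
      (.a (.l 0) (.l 0))) (.b (.l 0) (.a (.l 0) (.l 0))))) (.a (.a (.l 19) (.l 13)) (.c (.b (.a
      (.l 13) (.l 0)) (.l 13)) (.b (.a (.l 13) (.l 0)) (.l 13))))) (.b (.a (.c (.b (.a (.l 0) (.l
      0)) (.l 13)) (.b (.a (.l 0) (.l 0)) (.l 13))) (.c (.b (.l 0) (.a (.l 0) (.l 0))) (.b (.l 0)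
      (.a (.l 0) (.l 0))))) (.a (.l 13) (.c (.b (.a (.l 13) (.l 0)) (.l 13)) (.b (.a (.l 13) (.l
      0)) (.l 13))))))

theorem x_t2b_W_d_f_M_h15 : chk3 (onCell 0 8589934592 0 8589934592 0 34359739 T_t2b_W_d_f) x_t2b_W_d_f_M_t15 70 70 4 = true := by decide +kernel

def x_t2b_W_d_f_M_t16 : T :=
  (.b (.a (.c (.l 0) (.l 0)) (.l 0)) (.c (.a (.c (.b (.l 0) (.a (.c (.b (.l 0) (.l 0)) (.b (.l 0)
      (.l 0))) (.l 0))) (.b (.l 0) (.a (.c (.b (.l 0) (.l 0)) (.b (.l 0) (.l 0))) (.l 0)))) (.a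
      (.l 0) (.l 0))) (.a (.c (.b (.l 0) (.a (.c (.l 0) (.l 0)) (.l 0))) (.b (.l 0) (.a (.l 0)
      (.l 0)))) (.a (.l 0) (.l 0)))))

theorem x_t2b_W_d_f_M_h16 : chk3 (onCell 0 8589934592 0 8589934592 0 34359739 T_t2b_W_d_f) x_t2b_W_d_f_M_t16 71 70 4 = true := by decide +kernel

def x_t2b_W_d_f_M_t17 : T :=
  (.a (.l 19) (.b (.l 13) (.l 19)))

theorem x_t2b_W_d_f_M_h17 : chk3 (onCell 0 8589934592 0 8589934592 0 34359739 T_t2b_W_d_f) x_t2b_W_d_f_M_t17 70 71 4 = true := by decide +kernel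

def x_t2b_W_d_f_M_t18 : T :=
  (.b (.a (.c (.b (.a (.l 13) (.c (.b (.l 0) (.l 13)) (.b (.l 0) (.l 13)))) (.l 13)) (.b (.a (.l
      13) (.c (.b (.l 0) (.l 13)) (.b (.l 0) (.l 13)))) (.l 13))) (.c (.b (.a (.l 0) (.l 0)) (.a
      (.c (.b (.l 0) (.l 13)) (.b (.l 0) (.l 13))) (.l 0))) (.b (.a (.l 0) (.l 0)) (.a (.c (.b
      (.l 0) (.l 13)) (.b (.l 0) (.l 13))) (.l 0))))) (.a (.l 13) (.c (.b (.a (.l 13) (.c (.b (.l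
      0) (.l 15)) (.b (.l 0) (.l 15)))) (.l 15)) (.b (.a (.l 13) (.c (.b (.l 0) (.l 15)) (.b (.l
      0) (.l 15)))) (.l 15)))))

theorem x_t2b_W_d_f_M_h18 : chk3 (onCell 0 8589934592 0 8589934592 0 34359739 T_t2b_W_d_f) x_t2b_W_d_f_M_t18 71 71 8 = true := by decide +kernel

def x_t2b_W_d_f_M_t19 : T :=
  (.b (.a (.c (.b (.a (.l 13) (.c (.b (.l 0) (.l 0)) (.b (.l 0) (.l 0)))) (.l 13)) (.b (.a (.l
      13) (.c (.b (.l 0) (.l 0)) (.b (.l 0) (.l 0)))) (.l 13))) (.c (.b (.a (.l 0) (.l 0)) (.a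
      (.c (.b (.l 0) (.l 13)) (.b (.l 0) (.l 13))) (.l 0))) (.b (.a (.l 0) (.l 0)) (.a (.c (.b
      (.l 0) (.l 13)) (.b (.l 0) (.l 13))) (.l 0))))) (.a (.l 13) (.c (.b (.a (.l 13) (.c (.a (.l
      13) (.l 0)) (.a (.l 13) (.l 0)))) (.l 15)) (.b (.a (.l 13) (.c (.a (.l 13) (.l 0)) (.a (.l
      13) (.l 0)))) (.l 15)))))

theorem x_t2b_W_d_f_M_h19 : chk3 (onCell 0 8589934592 0 8589934592 0 34359739 T_t2b_W_d_f) x_t2b_W_d_f_M_t19 71 71 9 = true := by decide +kernel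

def x_t2b_W_d_f_M_t20 : T :=
  (.a (.c (.b (.a (.c (.b (.a (.l 0) (.l 0)) (.l 13)) (.b (.a (.l 0) (.l 0)) (.l 13))) (.c (.b
      (.l 0) (.a (.l 0) (.l 0))) (.b (.l 0) (.a (.l 0) (.l 0))))) (.a (.l 13) (.c (.b (.a (.l 13)
      (.l 0)) (.l 13)) (.b (.a (.l 13) (.l 0)) (.l 13))))) (.b (.a (.c (.b (.a (.l 0) (.l 0)) (.l
      13)) (.b (.a (.l 0) (.l 0)) (.l 13))) (.c (.b (.l 0) (.a (.l 0) (.l 0))) (.b (.l 0) (.a (.l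
      0) (.l 0))))) (.a (.l 13) (.c (.b (.a (.l 13) (.l 0)) (.l 13)) (.b (.a (.l 0) (.l 0)) (.l
      13)))))) (.c (.b (.a (.l 0) (.l 0)) (.a (.c (.b (.l 0) (.a (.l 0) (.l 0))) (.b (.l 0) (.a
      (.l 0) (.l 0)))) (.a (.l 0) (.l 0)))) (.b (.a (.l 0) (.l 0)) (.a (.c (.b (.l 0) (.a (.l 0)
      (.l 0))) (.b (.l 0) (.a (.l 0) (.l 0)))) (.a (.l 0) (.l 0))))))

theorem x_t2b_W_d_f_M_h20 : chk3 (onCell 0 8589934592 0 8589934592 0 34359739 T_t2b_W_d_f) x_t2b_W_d_f_M_t20 35 70 5 = true := by decide +kernel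

def x_t2b_W_d_f_M_t21 : T :=
  (.a (.l 19) (.b (.l 13) (.l 19)))

theorem x_t2b_W_d_f_M_h21 : chk3 (onCell 0 8589934592 0 8589934592 0 34359739 T_t2b_W_d_f) x_t2b_W_d_f_M_t21 70 71 5 = true := by decide +kernel

def x_t2b_W_d_f_M_t22 : T :=
  (.b (.a (.c (.b (.a (.l 13) (.c (.b (.l 0) (.l 0)) (.b (.l 0) (.l 0)))) (.l 13)) (.b (.a (.l
      13) (.c (.b (.l 0) (.l 0)) (.b (.l 0) (.l 0)))) (.l 13))) (.c (.b (.a (.l 0) (.l 0)) (.a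
      (.c (.b (.l 0) (.l 13)) (.b (.l 0) (.l 13))) (.l 0))) (.a (.b (.l 0) (.c (.b (.l 0) (.l
      13)) (.b (.l 0) (.l 13)))) (.l 0)))) (.a (.l 13) (.c (.b (.a (.l 13) (.c (.a (.l 13) (.l
      0)) (.a (.l 13) (.l 0)))) (.l 15)) (.b (.a (.l 13) (.c (.a (.l 13) (.l 0)) (.a (.l 0) (.l
      0)))) (.l 15)))))

theorem x_t2b_W_d_f_M_h22 : chk3 (onCell 0 8589934592 0 8589934592 0 34359739 T_t2b_W_d_f) x_t2b_W_d_f_M_t22 71 71 10 = true := by decide +kernel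

def x_t2b_W_d_f_M_t23 : T :=
  (.b (.a (.c (.b (.a (.l 13) (.c (.b (.l 0) (.l 0)) (.b (.l 0) (.l 0)))) (.l 13)) (.b (.a (.l
      13) (.c (.b (.l 0) (.l 0)) (.b (.l 0) (.l 0)))) (.l 13))) (.c (.a (.b (.l 0) (.c (.b (.l 0)
      (.l 0)) (.b (.l 0) (.l 0)))) (.l 0)) (.a (.b (.l 0) (.c (.b (.l 0) (.l 0)) (.b (.l 0) (.l
      0)))) (.l 0)))) (.a (.l 13) (.c (.b (.a (.l 13) (.c (.a (.l 0) (.l 0)) (.a (.l 0) (.l 0))))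
      (.l 15)) (.b (.a (.l 13) (.c (.a (.l 0) (.l 0)) (.a (.l 0) (.l 0)))) (.l 15)))))

theorem x_t2b_W_d_f_M_h23 : chk3 (onCell 0 8589934592 0 8589934592 0 34359739 T_t2b_W_d_f) x_t2b_W_d_f_M_t23 71 71 11 = true := by decide +kernel

def x_t2b_W_d_f_M_t24 : T :=
  (.b (.a (.c (.b (.a (.l 0) (.l 0)) (.a (.l 0) (.l 0))) (.b (.a (.l 0) (.l 0)) (.a (.l 0) (.l
      0)))) (.c (.b (.a (.l 0) (.l 0)) (.a (.l 0) (.l 0))) (.b (.a (.l 0) (.l 0)) (.a (.l 0) (.l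
      0))))) (.a (.c (.a (.l 19) (.b (.l 0) (.l 19))) (.a (.l 19) (.b (.l 0) (.l 19)))) (.c (.b
      (.a (.l 0) (.c (.l 0) (.l 0))) (.a (.b (.l 0) (.l 19)) (.c (.b (.l 0) (.l 0)) (.b (.l 0)
      (.l 0))))) (.b (.a (.l 0) (.c (.l 0) (.l 0))) (.a (.b (.l 0) (.l 19)) (.c (.b (.l 0) (.l
      0)) (.b (.l 0) (.l 0))))))))

theorem x_t2b_W_d_f_M_h24 : chk3 (onCell 0 8589934592 0 8589934592 0 34359739 T_t2b_W_d_f) x_t2b_W_d_f_M_t24 34 34 6 = true := by decide +kernel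

def x_t2b_W_d_f_M_t25 : T :=
  (.b (.a (.c (.b (.a (.l 0) (.l 0)) (.a (.l 0) (.l 0))) (.b (.a (.l 0) (.l 0)) (.a (.l 0) (.l
      0)))) (.c (.b (.a (.l 0) (.l 0)) (.a (.l 0) (.l 0))) (.b (.a (.l 0) (.l 0)) (.a (.l 0) (.l
      0))))) (.a (.c (.a (.l 19) (.b (.l 0) (.l 19))) (.a (.l 19) (.b (.c (.l 0) (.l 0)) (.l
      19)))) (.c (.b (.a (.c (.l 0) (.l 0)) (.c (.l 0) (.b (.l 0) (.l 0)))) (.a (.b (.l 0) (.l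
      19)) (.c (.b (.l 0) (.l 0)) (.b (.l 0) (.l 0))))) (.b (.a (.c (.l 0) (.b (.l 0) (.l 0)))
      (.c (.b (.l 0) (.l 0)) (.b (.l 0) (.l 0)))) (.a (.b (.l 0) (.l 19)) (.c (.b (.l 0) (.l 0))
      (.b (.l 0) (.l 0))))))))

theorem x_t2b_W_d_f_M_h25 : chk3 (onCell 0 8589934592 0 8589934592 0 34359739 T_t2b_W_d_f) x_t2b_W_d_f_M_t25 34 34 7 = true := by decide +kernel

def x_t2b_W_d_f_M_t26 : T :=
  (.b (.a (.c (.b (.l 0) (.a (.l 0) (.l 0))) (.b (.l 0) (.a (.l 0) (.l 0)))) (.c (.l 0) (.l 0)))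
      (.a (.c (.c (.b (.a (.l 0) (.l 0)) (.a (.c (.b (.l 0) (.l 0)) (.b (.l 0) (.l 0))) (.l 0)))
      (.b (.a (.l 0) (.l 0)) (.a (.c (.b (.l 0) (.l 0)) (.b (.l 0) (.l 0))) (.l 0)))) (.c (.b (.a
      (.l 0) (.l 0)) (.a (.c (.b (.l 0) (.l 0)) (.b (.l 0) (.l 0))) (.l 0))) (.b (.a (.l 0) (.l
      0)) (.a (.c (.b (.l 0) (.l 0)) (.b (.l 0) (.l 0))) (.l 0))))) (.c (.b (.l 0) (.a (.l 0) (.l
      0))) (.a (.b (.l 0) (.l 0)) (.l 0)))))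

theorem x_t2b_W_d_f_M_h26 : chk3 (onCell 0 8589934592 0 8589934592 0 34359739 T_t2b_W_d_f) x_t2b_W_d_f_M_t26 35 34 3 = true := by decide +kernel

def x_t2b_W_d_f_M_t27 : T :=
  (.a (.l 19) (.b (.b (.c (.a (.l 19) (.c (.b (.l 0) (.l 19)) (.b (.l 0) (.l 19)))) (.a (.l 19)
      (.c (.b (.a (.l 19) (.l 0)) (.l 19)) (.b (.a (.l 19) (.l 0)) (.l 19))))) (.l 19)) (.l 19)))

theorem x_t2b_W_d_f_M_h27 : chk3 (onCell 0 8589934592 0 8589934592 0 34359739 T_t2b_W_d_f) x_t2b_W_d_f_M_t27 34 35 3 = true := by decide +kernel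

def x_t2b_W_d_f_M_t28 : T :=
  (.a (.c (.b (.a (.c (.b (.a (.l 0) (.l 0)) (.l 13)) (.b (.a (.l 0) (.l 0)) (.l 13))) (.c (.b
      (.l 0) (.a (.l 0) (.l 0))) (.b (.l 0) (.a (.l 0) (.l 0))))) (.a (.l 13) (.c (.b (.a (.l 0)
      (.l 0)) (.l 13)) (.b (.a (.l 0) (.l 0)) (.l 13))))) (.b (.a (.c (.b (.a (.l 0) (.l 0)) (.l
      13)) (.b (.a (.l 0) (.l 0)) (.l 13))) (.c (.b (.l 0) (.a (.l 0) (.l 0))) (.b (.l 0) (.a (.l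
      0) (.l 0))))) (.a (.l 13) (.c (.b (.a (.l 0) (.l 0)) (.l 13)) (.b (.a (.l 0) (.l 0)) (.l
      13)))))) (.c (.b (.a (.l 0) (.l 0)) (.a (.c (.b (.l 0) (.a (.l 0) (.l 0))) (.b (.l 0) (.a
      (.l 0) (.l 0)))) (.a (.l 0) (.l 0)))) (.a (.b (.l 0) (.c (.b (.l 0) (.a (.l 0) (.l 0))) (.b
      (.l 0) (.a (.l 0) (.l 0))))) (.b (.l 0) (.l 0)))))

theorem x_t2b_W_d_f_M_h28 : chk3 (onCell 0 8589934592 0 8589934592 0 34359739 T_t2b_W_d_f) x_t2b_W_d_f_M_t28 35 70 6 = true := by decide +kernel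

def x_t2b_W_d_f_M_t29 : T :=
  (.a (.l 19) (.b (.l 13) (.l 19)))

theorem x_t2b_W_d_f_M_h29 : chk3 (onCell 0 8589934592 0 8589934592 0 34359739 T_t2b_W_d_f) x_t2b_W_d_f_M_t29 70 71 6 = true := by decide +kernel

def x_t2b_W_d_f_M_t30 : T :=
  (.b (.a (.c (.b (.a (.l 13) (.c (.b (.l 0) (.l 0)) (.l 0))) (.l 13)) (.b (.a (.l 13) (.l 0))
      (.l 13))) (.c (.a (.b (.l 0) (.c (.b (.l 0) (.l 0)) (.b (.l 0) (.l 0)))) (.l 0)) (.a (.b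
      (.l 0) (.c (.b (.l 0) (.l 0)) (.b (.l 0) (.l 0)))) (.l 0)))) (.a (.l 13) (.c (.b (.a (.l
      13) (.c (.a (.l 0) (.l 0)) (.a (.l 0) (.l 0)))) (.l 15)) (.b (.a (.l 13) (.c (.a (.l 0) (.l
      0)) (.a (.l 0) (.l 0)))) (.l 15)))))

theorem x_t2b_W_d_f_M_h30 : chk3 (onCell 0 8589934592 0 8589934592 0 34359739 T_t2b_W_d_f) x_t2b_W_d_f_M_t30 71 71 12 = true := by decide +kernel

def x_t2b_W_d_f_M_t31 : T :=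
  (.b (.a (.c (.b (.a (.l 13) (.l 0)) (.l 13)) (.b (.a (.l 13) (.l 0)) (.l 13))) (.c (.a (.b (.l
      0) (.c (.b (.l 0) (.l 0)) (.b (.l 0) (.l 0)))) (.l 0)) (.a (.b (.l 0) (.c (.l 0) (.l 0)))
      (.l 0)))) (.a (.l 13) (.c (.b (.a (.l 13) (.c (.a (.l 0) (.l 0)) (.a (.l 0) (.l 0)))) (.l
      15)) (.b (.a (.l 13) (.c (.a (.l 0) (.l 0)) (.a (.l 0) (.l 0)))) (.l 15)))))

theorem x_t2b_W_d_f_M_h31 : chk3 (onCell 0 8589934592 0 8589934592 0 34359739 T_t2b_W_d_f) x_t2b_W_d_f_M_t31 71 71 13 = true := by decide +kernel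

end Pool.Agent.Strip051.LC.E0.Ch
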