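import Pool.Agent.Strip051.LC.E0.Ch.Te

/-! # Small rests: certificate X_t2b_W_u_f_M -/

set_option maxRecDepth 100000

namespace Pool.Agent.Strip051.LC.E0.Ch

open Pool.Agent.Strip051.PB

def x_t2b_W_u_f_M_t0 : T :=
  (.b (.c (.a (.b (.c (.a (.b (.c (.a (.l 131) (.l 0)) (.a (.l 131) (.l 0))) (.l 115)) (.b (.b
      (.l 0) (.l 115)) (.l 115))) (.a (.b (.c (.a (.l 131) (.l 0)) (.a (.l 131) (.l 0))) (.l
      115)) (.b (.b (.l 0) (.l 115)) (.l 115)))) (.l 115)) (.b (.b (.b (.c (.b (.a (.l 0) (.l 0))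
      (.l 115)) (.b (.a (.l 0) (.l 0)) (.l 115))) (.l 115)) (.l 115)) (.l 115))) (.a (.b (.c (.a
      (.b (.c (.a (.l 131) (.l 0)) (.a (.l 131) (.l 0))) (.l 115)) (.b (.b (.l 0) (.l 115)) (.l
      115))) (.a (.b (.c (.a (.l 131) (.l 1)) (.a (.l 131) (.l 1))) (.l 115)) (.b (.b (.l 0) (.l
      115)) (.l 115)))) (.l 115)) (.b (.b (.b (.c (.b (.a (.l 0) (.l 0)) (.l 115)) (.b (.a (.l 0)
      (.l 0)) (.l 115))) (.l 115)) (.l 115)) (.l 115)))) (.l 115))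

theorem x_t2b_W_u_f_M_h0 : chk3 (onCell 0 8589934592 0 8589934592 0 34359739 T_t2b_W_u_f) x_t2b_W_u_f_M_t0 16 8 1 = true := by decide +kernel

def x_t2b_W_u_f_M_t1 : T :=
  (.a (.b (.b (.b (.c (.b (.c (.b (.a (.l 0) (.l 10)) (.l 115)) (.b (.a (.l 0) (.l 10)) (.l
      115))) (.l 115)) (.b (.c (.b (.a (.l 0) (.l 10)) (.l 115)) (.b (.a (.c (.l 0) (.l 0)) (.l
      10)) (.l 115))) (.l 115))) (.l 115)) (.l 115)) (.l 115)) (.b (.b (.b (.c (.b (.c (.b (.a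
      (.l 10) (.l 12)) (.l 115)) (.b (.a (.l 10) (.l 12)) (.l 115))) (.l 115)) (.b (.c (.b (.a
      (.l 10) (.l 12)) (.l 0)) (.b (.a (.l 10) (.l 12)) (.l 0))) (.l 115))) (.l 115)) (.l 115))
      (.l 115)))

theorem x_t2b_W_u_f_M_h1 : chk3 (onCell 0 8589934592 0 8589934592 0 34359739 T_t2b_W_u_f) x_t2b_W_u_f_M_t1 17 8 1 = true := by decide +kernel

def x_t2b_W_u_f_M_t2 : T :=
  (.l 115)

theorem x_t2b_W_u_f_M_h2 : chk3 (onCell 0 8589934592 0 8589934592 0 34359739 T_t2b_W_u_f) x_t2b_W_u_f_M_t2 8 9 1 = true := by decide +kernel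

def x_t2b_W_u_f_M_t3 : T :=
  (.b (.a (.b (.a (.b (.b (.a (.b (.a (.b (.l 12) (.l 0)) (.b (.l 2) (.l 0))) (.a (.l 115) (.l
      0))) (.b (.a (.l 2) (.l 2)) (.l 2))) (.l 115)) (.l 115)) (.b (.a (.b (.l 2) (.l 115)) (.l
      2)) (.l 115))) (.l 115)) (.b (.a (.b (.l 2) (.l 115)) (.l 34)) (.l 115))) (.l 115))

theorem x_t2b_W_u_f_M_h3 : chk3 (onCell 0 8589934592 0 8589934592 0 34359739 T_t2b_W_u_f) x_t2b_W_u_f_M_t3 9 4 1 = true := by decide +kernel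

def x_t2b_W_u_f_M_t4 : T :=
  (.l 115)

theorem x_t2b_W_u_f_M_h4 : chk3 (onCell 0 8589934592 0 8589934592 0 34359739 T_t2b_W_u_f) x_t2b_W_u_f_M_t4 4 5 1 = true := by decide +kernel

def x_t2b_W_u_f_M_t5 : T :=
  (.b (.a (.b (.a (.b (.l 34) (.l 99)) (.l 99)) (.l 99)) (.l 99)) (.l 99))

theorem x_t2b_W_u_f_M_h5 : chk3 (onCell 0 8589934592 0 8589934592 0 34359739 T_t2b_W_u_f) x_t2b_W_u_f_M_t5 5 2 1 = true := by decide +kernel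

def x_t2b_W_u_f_M_t6 : T :=
  (.a (.l 99) (.b (.l 99) (.a (.l 99) (.l 83))))

theorem x_t2b_W_u_f_M_h6 : chk3 (onCell 0 8589934592 0 8589934592 0 34359739 T_t2b_W_u_f) x_t2b_W_u_f_M_t6 2 3 1 = true := by decide +kernel

def x_t2b_W_u_f_M_t7 : T :=
  (.b (.a (.l 99) (.b (.l 99) (.a (.l 99) (.l 83)))) (.a (.b (.a (.l 99) (.l 83)) (.l 83)) (.l
      83)))

theorem x_t2b_W_u_f_M_h7 : chk3 (onCell 0 8589934592 0 8589934592 0 34359739 T_t2b_W_u_f) x_t2b_W_u_f_M_t7 3 1 1 = true := by decide +kernel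

theorem x_t2b_W_u_f_M : Tree 0 8589934592 0 8589934592 0 34359739 T_t2b_W_u_f :=
  ⟨_, (chk3_a (chk3_b (chk3_a (chk3_b (chk3_a (chk3_b (chk3_a x_t2b_W_u_f_M_h0 x_t2b_W_u_f_M_h1)
      x_t2b_W_u_f_M_h2) x_t2b_W_u_f_M_h3) x_t2b_W_u_f_M_h4) x_t2b_W_u_f_M_h5) x_t2b_W_u_f_M_h6)
      x_t2b_W_u_f_M_h7)⟩

end Pool.Agent.Strip051.LC.E0.Ch
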