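import Pool.Agent.Strip051.LC.E0.Ch.Te

/-! # Small rests: certificate X_t2b_c1_du_n_C -/

set_option maxRecDepth 100000

namespace Pool.Agent.Strip051.LC.E0.Ch

open Pool.Agent.Strip051.PB

def x_t2b_c1_du_n_C_t0 : T :=
  (.b (.c (.l 32) (.l 32)) (.b (.l 32) (.b (.l 32) (.l 0))))

theorem x_t2b_c1_du_n_C_h0 : chk3 (onCell 0 268435456 0 1073741824 0 34359739 C_t2b_c1_du_n) x_t2b_c1_du_n_C_t0 1 1 1 = true := by decide +kernel

theorem x_t2b_c1_du_n_C : Tree 0 268435456 0 1073741824 0 34359739 C_t2b_c1_du_n :=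
  ⟨_, x_t2b_c1_du_n_C_h0⟩

end Pool.Agent.Strip051.LC.E0.Ch
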