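import Pool.Agent.Strip051.LC.E0.Ch.Te

/-! # Small rests: certificate X_t2b_c1_du_n_M -/

set_option maxRecDepth 100000

namespace Pool.Agent.Strip051.LC.E0.Ch

open Pool.Agent.Strip051.PB

def x_t2b_c1_du_n_M_t0 : T :=
  (.a (.b (.c (.a (.l 131) (.b (.b (.b (.a (.l 0) (.l 0)) (.l 32)) (.l 32)) (.a (.l 32) (.l
      32)))) (.a (.l 131) (.b (.b (.b (.a (.l 0) (.l 0)) (.l 32)) (.l 32)) (.a (.l 32) (.l
      32))))) (.b (.b (.a (.l 19) (.l 16)) (.l 19)) (.l 19))) (.b (.b (.b (.a (.c (.a (.l 32) (.l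
      32)) (.b (.l 32) (.l 32))) (.b (.c (.a (.l 16) (.l 16)) (.a (.l 16) (.l 16))) (.c (.a (.l
      16) (.l 16)) (.a (.l 16) (.l 16))))) (.c (.a (.l 32) (.a (.l 16) (.l 16))) (.a (.l 32) (.a
      (.l 16) (.l 16))))) (.b (.c (.a (.l 32) (.l 32)) (.a (.l 32) (.l 32))) (.a (.l 32) (.l
      16)))) (.b (.a (.l 32) (.l 32)) (.a (.l 16) (.l 32)))))

theorem x_t2b_c1_du_n_M_h0 : chk3 (onCell 0 6442450944 0 6442450944 0 34359739 T_t2b_c1_du_n) x_t2b_c1_du_n_M_t0 8 8 2 = true := by decide +kernel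

def x_t2b_c1_du_n_M_t1 : T :=
  (.a (.b (.c (.a (.l 131) (.b (.b (.b (.a (.l 0) (.l 32)) (.l 32)) (.l 32)) (.b (.l 32) (.l
      16)))) (.a (.l 131) (.b (.b (.b (.a (.l 0) (.l 32)) (.l 32)) (.l 32)) (.b (.l 32) (.l
      16))))) (.b (.b (.a (.l 19) (.l 16)) (.l 19)) (.l 19))) (.b (.b (.b (.a (.c (.b (.l 32) (.l
      32)) (.b (.l 32) (.l 32))) (.b (.c (.a (.l 16) (.l 16)) (.a (.l 16) (.l 16))) (.c (.a (.l
      16) (.l 16)) (.a (.l 16) (.l 16))))) (.c (.a (.l 32) (.a (.l 16) (.l 16))) (.a (.l 32) (.a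
      (.l 16) (.l 16))))) (.b (.c (.a (.l 32) (.l 16)) (.a (.l 16) (.l 16))) (.a (.l 32) (.l
      16)))) (.b (.b (.a (.l 16) (.l 16)) (.a (.l 16) (.l 16))) (.a (.l 16) (.l 32)))))

theorem x_t2b_c1_du_n_M_h1 : chk3 (onCell 0 6442450944 0 6442450944 0 34359739 T_t2b_c1_du_n) x_t2b_c1_du_n_M_t1 8 8 3 = true := by decide +kernel

def x_t2b_c1_du_n_M_t2 : T :=
  (.c (.a (.l 19) (.b (.b (.a (.l 19) (.l 16)) (.l 19)) (.l 19))) (.a (.l 19) (.b (.b (.a (.l 19)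
      (.l 16)) (.l 19)) (.l 19))))

theorem x_t2b_c1_du_n_M_h2 : chk3 (onCell 0 6442450944 0 6442450944 0 34359739 T_t2b_c1_du_n) x_t2b_c1_du_n_M_t2 8 9 1 = true := by decide +kernel

def x_t2b_c1_du_n_M_t3 : T :=
  (.b (.a (.b (.a (.b (.b (.l 10) (.c (.a (.l 16) (.l 16)) (.a (.l 16) (.l 16)))) (.b (.c (.a (.l
      16) (.l 16)) (.a (.l 16) (.l 16))) (.c (.l 16) (.l 16)))) (.b (.a (.b (.l 12) (.c (.c (.l
      16) (.l 16)) (.c (.l 16) (.b (.l 16) (.l 16))))) (.a (.b (.l 12) (.c (.a (.l 16) (.l 16))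
      (.a (.l 16) (.l 16)))) (.l 18))) (.a (.c (.l 16) (.l 16)) (.a (.l 16) (.l 18))))) (.b (.a
      (.c (.l 16) (.l 16)) (.a (.l 16) (.l 16))) (.a (.l 16) (.l 16)))) (.a (.a (.b (.a (.l 18)
      (.l 18)) (.l 18)) (.b (.l 18) (.l 18))) (.a (.l 18) (.l 18)))) (.a (.b (.b (.a (.l 32) (.l
      16)) (.a (.l 32) (.l 32))) (.a (.l 32) (.l 32))) (.a (.a (.a (.l 34) (.l 34)) (.l 34)) (.l
      34))))

theorem x_t2b_c1_du_n_M_h3 : chk3 (onCell 0 6442450944 0 6442450944 0 34359739 T_t2b_c1_du_n) x_t2b_c1_du_n_M_t3 9 8 2 = true := by decide +kernel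

def x_t2b_c1_du_n_M_t4 : T :=
  (.b (.a (.b (.a (.b (.b (.l 10) (.c (.a (.l 16) (.l 16)) (.a (.l 16) (.l 16)))) (.b (.c (.a (.l
      16) (.l 16)) (.a (.l 16) (.l 16))) (.c (.l 16) (.l 16)))) (.b (.a (.b (.l 12) (.c (.c (.b
      (.l 16) (.l 16)) (.b (.l 16) (.l 16))) (.c (.b (.l 16) (.l 16)) (.b (.l 16) (.l 16))))) (.a
      (.b (.l 12) (.c (.a (.l 16) (.l 16)) (.a (.l 16) (.l 16)))) (.l 18))) (.a (.c (.l 16) (.l
      16)) (.a (.l 16) (.l 18))))) (.b (.a (.c (.l 16) (.b (.l 16) (.l 16))) (.a (.l 16) (.l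
      16))) (.a (.l 16) (.a (.l 16) (.l 16))))) (.a (.a (.b (.a (.l 18) (.l 18)) (.l 18)) (.b (.l
      18) (.l 18))) (.a (.l 18) (.l 18)))) (.a (.b (.b (.a (.l 16) (.l 16)) (.a (.l 16) (.l 16)))
      (.a (.l 32) (.a (.l 16) (.l 32)))) (.a (.a (.a (.l 34) (.l 34)) (.l 34)) (.l 34))))

theorem x_t2b_c1_du_n_M_h4 : chk3 (onCell 0 6442450944 0 6442450944 0 34359739 T_t2b_c1_du_n) x_t2b_c1_du_n_M_t4 9 8 3 = true := by decide +kernel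

def x_t2b_c1_du_n_M_t5 : T :=
  (.a (.b (.b (.a (.l 32) (.a (.l 32) (.l 32))) (.a (.l 32) (.l 32))) (.b (.a (.l 19) (.a (.l 19)
      (.l 32))) (.l 19))) (.a (.a (.b (.a (.l 34) (.l 34)) (.a (.b (.l 32) (.l 19)) (.l 34))) (.b
      (.l 34) (.l 34))) (.a (.b (.l 34) (.l 34)) (.b (.l 34) (.l 34)))))

theorem x_t2b_c1_du_n_M_h5 : chk3 (onCell 0 6442450944 0 6442450944 0 34359739 T_t2b_c1_du_n) x_t2b_c1_du_n_M_t5 9 9 1 = true := by decide +kernel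

def x_t2b_c1_du_n_M_t6 : T :=
  (.a (.b (.a (.a (.b (.l 18) (.l 34)) (.b (.l 18) (.l 18))) (.b (.l 18) (.l 34))) (.a (.a (.b
      (.l 34) (.l 34)) (.l 34)) (.a (.l 34) (.l 34)))) (.b (.a (.l 34) (.l 34)) (.a (.l 34) (.l
      34))))

theorem x_t2b_c1_du_n_M_h6 : chk3 (onCell 0 6442450944 0 6442450944 0 34359739 T_t2b_c1_du_n) x_t2b_c1_du_n_M_t6 5 4 1 = true := by decide +kernel

def x_t2b_c1_du_n_M_t7 : T :=
  (.a (.a (.l 19) (.b (.a (.l 19) (.a (.l 19) (.a (.l 19) (.b (.l 2) (.l 19))))) (.l 19))) (.a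
      (.b (.a (.a (.a (.b (.l 2) (.l 19)) (.l 34)) (.l 34)) (.l 34)) (.a (.l 19) (.a (.l 19) (.l
      34)))) (.b (.a (.l 34) (.l 34)) (.a (.l 34) (.l 34)))))

theorem x_t2b_c1_du_n_M_h7 : chk3 (onCell 0 6442450944 0 6442450944 0 34359739 T_t2b_c1_du_n) x_t2b_c1_du_n_M_t7 2 5 1 = true := by decide +kernel

def x_t2b_c1_du_n_M_t8 : T :=
  (.a (.b (.a (.b (.a (.l 34) (.l 34)) (.a (.l 34) (.l 34))) (.b (.c (.l 2) (.l 34)) (.a (.l 34)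
      (.l 34)))) (.a (.b (.a (.l 34) (.l 34)) (.l 34)) (.b (.a (.l 34) (.l 34)) (.l 99)))) (.b
      (.a (.b (.c (.l 34) (.l 34)) (.c (.l 34) (.l 34))) (.b (.c (.l 34) (.l 34)) (.c (.l 34) (.l
      34)))) (.a (.b (.a (.l 34) (.l 34)) (.l 99)) (.b (.c (.l 99) (.l 99)) (.l 99)))))

theorem x_t2b_c1_du_n_M_h8 : chk3 (onCell 0 6442450944 0 6442450944 0 34359739 T_t2b_c1_du_n) x_t2b_c1_du_n_M_t8 3 2 1 = true := by decide +kernel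

def x_t2b_c1_du_n_M_t9 : T :=
  (.a (.l 19) (.b (.a (.l 19) (.b (.l 99) (.l 19))) (.l 19)))

theorem x_t2b_c1_du_n_M_h9 : chk3 (onCell 0 6442450944 0 6442450944 0 34359739 T_t2b_c1_du_n) x_t2b_c1_du_n_M_t9 2 3 1 = true := by decide +kernel

def x_t2b_c1_du_n_M_t10 : T :=
  (.b (.a (.b (.l 99) (.l 99)) (.b (.l 99) (.l 99))) (.a (.l 19) (.b (.c (.l 99) (.a (.l 19) (.b
      (.c (.l 99) (.a (.l 19) (.b (.l 99) (.l 19)))) (.l 19)))) (.l 19))))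

theorem x_t2b_c1_du_n_M_h10 : chk3 (onCell 0 6442450944 0 6442450944 0 34359739 T_t2b_c1_du_n) x_t2b_c1_du_n_M_t10 6 3 1 = true := by decide +kernel

def x_t2b_c1_du_n_M_t11 : T :=
  (.a (.b (.l 99) (.l 99)) (.b (.l 99) (.l 99)))

theorem x_t2b_c1_du_n_M_h11 : chk3 (onCell 0 6442450944 0 6442450944 0 34359739 T_t2b_c1_du_n) x_t2b_c1_du_n_M_t11 7 6 1 = true := by decide +kernel

def x_t2b_c1_du_n_M_t12 : T :=
  (.b (.c (.l 99) (.a (.b (.c (.l 99) (.a (.b (.l 99) (.c (.l 99) (.l 51))) (.b (.l 99) (.c (.l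
      99) (.l 51))))) (.c (.l 99) (.a (.l 19) (.b (.c (.l 99) (.l 51)) (.l 19))))) (.b (.c (.l
      99) (.a (.b (.l 99) (.c (.l 99) (.l 51))) (.b (.l 99) (.c (.l 99) (.l 51))))) (.c (.l 99)
      (.a (.b (.c (.l 99) (.l 51)) (.l 51)) (.b (.c (.l 99) (.l 51)) (.l 51))))))) (.c (.l 99)
      (.a (.l 19) (.b (.c (.l 99) (.l 51)) (.l 19)))))

theorem x_t2b_c1_du_n_M_h12 : chk3 (onCell 0 6442450944 0 6442450944 0 34359739 T_t2b_c1_du_n) x_t2b_c1_du_n_M_t12 14 7 1 = true := by decide +kernel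

def x_t2b_c1_du_n_M_t13 : T :=
  (.b (.c (.l 99) (.a (.b (.c (.l 99) (.a (.b (.l 99) (.c (.l 99) (.l 51))) (.b (.l 99) (.c (.l
      99) (.l 51))))) (.c (.l 99) (.a (.b (.c (.l 99) (.l 51)) (.l 51)) (.b (.c (.l 99) (.l 51))
      (.l 51))))) (.b (.c (.l 99) (.a (.b (.l 99) (.c (.l 99) (.l 51))) (.b (.l 99) (.c (.l 99)
      (.l 51))))) (.c (.l 99) (.a (.b (.c (.l 99) (.l 51)) (.l 51)) (.b (.c (.l 99) (.l 51)) (.l
      51))))))) (.c (.l 99) (.a (.b (.c (.l 99) (.l 51)) (.c (.l 99) (.l 51))) (.b (.c (.l 99)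
      (.l 51)) (.c (.l 99) (.l 51))))))

theorem x_t2b_c1_du_n_M_h13 : chk3 (onCell 0 6442450944 0 6442450944 0 34359739 T_t2b_c1_du_n) x_t2b_c1_du_n_M_t13 15 7 1 = true := by decide +kernel

theorem x_t2b_c1_du_n_M : Tree 0 6442450944 0 6442450944 0 34359739 T_t2b_c1_du_n :=
  ⟨_, (chk3_b (chk3_a (chk3_b (chk3_a (chk3_a (chk3_b (chk3_c x_t2b_c1_du_n_M_h0
      x_t2b_c1_du_n_M_h1) x_t2b_c1_du_n_M_h2) (chk3_b (chk3_c x_t2b_c1_du_n_M_h3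
      x_t2b_c1_du_n_M_h4) x_t2b_c1_du_n_M_h5)) x_t2b_c1_du_n_M_h6) x_t2b_c1_du_n_M_h7)
      x_t2b_c1_du_n_M_h8) (chk3_a x_t2b_c1_du_n_M_h9 (chk3_a x_t2b_c1_du_n_M_h10 (chk3_b
      x_t2b_c1_du_n_M_h11 (chk3_a x_t2b_c1_du_n_M_h12 x_t2b_c1_du_n_M_h13)))))⟩

end Pool.Agent.Strip051.LC.E0.Ch
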