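import Pool.Agent.Strip051.LC.E0.Ch.Te

/-! # Small rests: certificate X_t3a_c1_x_f_M_1 -/

set_option maxRecDepth 100000

namespace Pool.Agent.Strip051.LC.E0.Ch

open Pool.Agent.Strip051.PB

def x_t3a_c1_x_f_M_t0 : T :=
  (.a (.b (.a (.a (.a (.l 20) (.l 20)) (.a (.l 20) (.l 21))) (.a (.l 38) (.l 38))) (.a (.a (.c
      (.l 20) (.a (.l 20) (.l 20))) (.a (.l 20) (.l 22))) (.a (.l 38) (.b (.l 34) (.l 34))))) (.b
      (.a (.a (.a (.l 38) (.l 38)) (.a (.c (.l 38) (.l 38)) (.l 38))) (.a (.c (.l 22) (.a (.c (.l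
      22) (.a (.l 38) (.c (.l 22) (.l 51)))) (.c (.l 22) (.a (.c (.l 22) (.l 51)) (.c (.l 22) (.l
      51)))))) (.c (.l 38) (.a (.c (.l 38) (.l 51)) (.c (.l 38) (.l 51)))))) (.a (.a (.c (.l 34)
      (.l 38)) (.c (.l 34) (.b (.l 34) (.l 34)))) (.c (.l 38) (.a (.a (.c (.l 34) (.a (.c (.l 18)
      (.l 51)) (.c (.l 34) (.l 51)))) (.c (.l 34) (.a (.c (.l 34) (.l 51)) (.l 51)))) (.b (.c (.l
      34) (.l 51)) (.a (.c (.l 34) (.l 51)) (.c (.l 34) (.l 51)))))))))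

theorem x_t3a_c1_x_f_M_h0 : chk3 (onCell 0 4294967296 0 10737418240 0 34359739 T_t3a_c1_x_f) x_t3a_c1_x_f_M_t0 1 32 1 = true := by decide +kernel

def x_t3a_c1_x_f_M_t1 : T :=
  (.a (.a (.a (.b (.a (.l 20) (.l 20)) (.a (.a (.l 16) (.l 16)) (.l 16))) (.a (.b (.a (.l 16) (.l
      18)) (.a (.l 18) (.l 18))) (.l 38))) (.b (.a (.a (.l 34) (.l 34)) (.b (.l 34) (.l 34))) (.a
      (.l 34) (.l 34)))) (.a (.a (.b (.b (.c (.l 34) (.l 34)) (.c (.l 34) (.l 34))) (.c (.l 34)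
      (.l 34))) (.c (.l 34) (.a (.l 34) (.c (.l 34) (.b (.a (.l 34) (.c (.l 18) (.l 51))) (.a (.c
      (.l 18) (.l 51)) (.c (.l 18) (.l 51)))))))) (.a (.c (.l 34) (.a (.c (.l 34) (.b (.a (.c (.l
      34) (.l 51)) (.c (.l 34) (.l 51))) (.a (.c (.l 18) (.l 51)) (.l 51)))) (.c (.l 34) (.b (.l
      51) (.l 51))))) (.c (.l 34) (.a (.c (.l 34) (.l 51)) (.c (.b (.l 34) (.a (.l 34) (.c (.l
      18) (.l 51)))) (.l 51)))))))

theorem x_t3a_c1_x_f_M_h1 : chk3 (onCell 0 4294967296 0 10737418240 0 34359739 T_t3a_c1_x_f) x_t3a_c1_x_f_M_t1 1 33 1 = true := by decide +kernel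

def x_t3a_c1_x_f_M_t2 : T :=
  (.a (.b (.b (.a (.a (.l 16) (.l 16)) (.a (.l 18) (.l 34))) (.a (.a (.l 16) (.a (.l 18) (.l
      18))) (.a (.l 34) (.l 34)))) (.a (.a (.b (.a (.l 16) (.l 16)) (.a (.l 32) (.l 34))) (.b (.l
      34) (.l 34))) (.a (.l 34) (.l 34)))) (.a (.b (.b (.l 34) (.l 34)) (.l 34)) (.b (.b (.l 34)
      (.l 34)) (.l 34))))

theorem x_t3a_c1_x_f_M_h2 : chk3 (onCell 0 4294967296 0 10737418240 0 34359739 T_t3a_c1_x_f) x_t3a_c1_x_f_M_t2 2 17 1 = true := by decide +kernel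

def x_t3a_c1_x_f_M_t3 : T :=
  (.a (.c (.l 34) (.b (.l 34) (.a (.l 34) (.c (.l 34) (.b (.l 34) (.a (.l 34) (.c (.l 18) (.l
      51)))))))) (.c (.l 34) (.b (.a (.c (.l 34) (.b (.l 34) (.a (.l 34) (.c (.l 18) (.l 51)))))
      (.c (.l 34) (.b (.a (.c (.l 18) (.l 51)) (.c (.l 18) (.l 51))) (.a (.c (.l 18) (.l 51)) (.c
      (.l 18) (.l 51)))))) (.a (.c (.l 18) (.b (.a (.c (.l 18) (.l 51)) (.c (.l 18) (.l 51))) (.a
      (.c (.l 18) (.l 51)) (.c (.l 18) (.l 51))))) (.c (.l 18) (.b (.a (.c (.l 18) (.l 51)) (.l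
      51)) (.l 51)))))))

theorem x_t3a_c1_x_f_M_h3 : chk3 (onCell 0 4294967296 0 10737418240 0 34359739 T_t3a_c1_x_f) x_t3a_c1_x_f_M_t3 6 17 1 = true := by decide +kernel

def x_t3a_c1_x_f_M_t4 : T :=
  (.a (.c (.l 34) (.b (.a (.c (.l 34) (.b (.a (.c (.l 51) (.l 51)) (.l 51)) (.l 51))) (.c (.l 34)
      (.l 51))) (.a (.c (.l 18) (.l 51)) (.c (.l 34) (.l 51))))) (.c (.l 34) (.b (.a (.c (.b (.l
      34) (.a (.l 18) (.l 34))) (.l 51)) (.c (.b (.a (.c (.l 18) (.l 51)) (.c (.l 18) (.l 51)))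
      (.a (.c (.l 18) (.l 51)) (.c (.l 18) (.l 51)))) (.l 51))) (.a (.c (.b (.a (.l 34) (.c (.l
      18) (.l 51))) (.a (.c (.l 18) (.l 51)) (.c (.l 18) (.l 51)))) (.l 51)) (.c (.b (.a (.c (.l
      18) (.l 51)) (.c (.l 18) (.l 51))) (.a (.c (.l 18) (.l 51)) (.c (.l 18) (.l 51)))) (.l
      51))))))

theorem x_t3a_c1_x_f_M_h4 : chk3 (onCell 0 4294967296 0 10737418240 0 34359739 T_t3a_c1_x_f) x_t3a_c1_x_f_M_t4 7 17 1 = true := by decide +kernel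

def x_t3a_c1_x_f_M_t5 : T :=
  (.a (.b (.a (.b (.a (.b (.l 34) (.l 34)) (.l 34)) (.a (.l 34) (.l 34))) (.b (.l 34) (.l 34)))
      (.a (.b (.l 34) (.l 34)) (.b (.l 34) (.l 34)))) (.b (.a (.b (.l 34) (.l 34)) (.c (.l 34)
      (.b (.l 34) (.a (.l 34) (.c (.l 34) (.l 34)))))) (.a (.b (.b (.l 34) (.l 34)) (.b (.c (.l
      34) (.l 34)) (.c (.l 34) (.l 34)))) (.c (.l 34) (.b (.a (.l 34) (.c (.l 34) (.b (.a (.l 34)
      (.c (.l 18) (.l 51))) (.a (.c (.l 18) (.l 51)) (.c (.l 18) (.l 51)))))) (.a (.c (.l 34) (.b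
      (.a (.l 34) (.c (.l 18) (.l 51))) (.a (.c (.l 18) (.l 51)) (.c (.l 18) (.l 51))))) (.c (.l
      18) (.b (.a (.c (.l 18) (.l 51)) (.c (.l 18) (.l 51))) (.a (.c (.l 18) (.l 51)) (.l
      51))))))))))

theorem x_t3a_c1_x_f_M_h5 : chk3 (onCell 0 4294967296 0 10737418240 0 34359739 T_t3a_c1_x_f) x_t3a_c1_x_f_M_t5 2 9 1 = true := by decide +kernel

def x_t3a_c1_x_f_M_t6 : T :=
  (.a (.c (.l 34) (.b (.a (.c (.l 34) (.b (.l 34) (.a (.l 34) (.c (.l 18) (.l 51))))) (.c (.l 18)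
      (.b (.a (.c (.l 18) (.l 51)) (.c (.l 18) (.l 51))) (.a (.c (.l 18) (.l 51)) (.c (.l 18) (.l
      51)))))) (.a (.c (.l 34) (.b (.a (.c (.l 18) (.l 51)) (.c (.l 18) (.l 51))) (.a (.c (.l 18)
      (.l 51)) (.c (.l 18) (.l 51))))) (.c (.l 18) (.b (.a (.c (.l 18) (.l 51)) (.l 51)) (.a (.c
      (.l 51) (.l 51)) (.l 51))))))) (.c (.l 34) (.b (.a (.c (.l 18) (.b (.a (.c (.l 18) (.l 51))
      (.l 51)) (.l 51))) (.c (.l 18) (.l 51))) (.a (.c (.l 18) (.l 51)) (.c (.l 34) (.l 51))))))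

theorem x_t3a_c1_x_f_M_h6 : chk3 (onCell 0 4294967296 0 10737418240 0 34359739 T_t3a_c1_x_f) x_t3a_c1_x_f_M_t6 6 18 1 = true := by decide +kernel

def x_t3a_c1_x_f_M_t7 : T :=
  (.a (.c (.l 34) (.b (.a (.c (.l 18) (.b (.a (.c (.l 18) (.l 51)) (.c (.l 18) (.l 51))) (.a (.c
      (.l 18) (.l 51)) (.l 51)))) (.c (.l 18) (.l 51))) (.a (.c (.l 18) (.l 51)) (.c (.l 34) (.l
      51))))) (.c (.l 34) (.b (.a (.c (.l 34) (.l 51)) (.c (.b (.a (.l 18) (.c (.l 18) (.l 51)))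
      (.a (.l 34) (.c (.l 18) (.l 51)))) (.l 51))) (.a (.c (.b (.l 34) (.a (.l 34) (.c (.l 18)
      (.l 51)))) (.l 51)) (.c (.b (.a (.c (.l 18) (.l 51)) (.c (.l 18) (.l 51))) (.a (.c (.l 18)
      (.l 51)) (.c (.l 18) (.l 51)))) (.l 51))))))

theorem x_t3a_c1_x_f_M_h7 : chk3 (onCell 0 4294967296 0 10737418240 0 34359739 T_t3a_c1_x_f) x_t3a_c1_x_f_M_t7 6 19 1 = true := by decide +kernel

def x_t3a_c1_x_f_M_t8 : T :=
  (.c (.l 34) (.b (.a (.c (.l 34) (.l 51)) (.c (.b (.a (.l 34) (.c (.l 18) (.l 51))) (.a (.c (.l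
      18) (.l 51)) (.c (.l 18) (.l 51)))) (.l 51))) (.a (.c (.b (.a (.l 18) (.c (.l 18) (.l 51)))
      (.a (.c (.l 18) (.l 51)) (.c (.l 18) (.l 51)))) (.l 51)) (.c (.b (.a (.c (.l 18) (.l 51))
      (.c (.l 18) (.l 51))) (.a (.c (.l 18) (.l 51)) (.c (.l 18) (.l 51)))) (.l 51)))))

theorem x_t3a_c1_x_f_M_h8 : chk3 (onCell 0 4294967296 0 10737418240 0 34359739 T_t3a_c1_x_f) x_t3a_c1_x_f_M_t8 14 18 1 = true := by decide +kernel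

def x_t3a_c1_x_f_M_t9 : T :=
  (.c (.l 34) (.b (.a (.c (.b (.a (.c (.l 18) (.l 51)) (.c (.l 18) (.l 51))) (.a (.c (.l 18) (.l
      51)) (.c (.l 18) (.l 51)))) (.l 51)) (.c (.b (.a (.c (.l 18) (.l 51)) (.c (.l 18) (.l 51)))
      (.a (.c (.l 18) (.l 51)) (.c (.l 18) (.l 51)))) (.l 51))) (.a (.c (.b (.a (.c (.l 18) (.l
      51)) (.c (.l 18) (.l 51))) (.a (.c (.l 18) (.l 51)) (.c (.l 18) (.l 51)))) (.l 51)) (.c (.b
      (.a (.c (.l 18) (.l 51)) (.c (.l 34) (.l 51))) (.a (.c (.l 34) (.l 51)) (.c (.b (.l 34) (.a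
      (.l 34) (.l 51))) (.l 51)))) (.l 51)))))

theorem x_t3a_c1_x_f_M_h9 : chk3 (onCell 0 4294967296 0 10737418240 0 34359739 T_t3a_c1_x_f) x_t3a_c1_x_f_M_t9 15 18 1 = true := by decide +kernel

def x_t3a_c1_x_f_M_t10 : T :=
  (.c (.l 34) (.b (.a (.c (.b (.a (.c (.l 18) (.l 51)) (.c (.l 18) (.l 51))) (.a (.c (.l 18) (.l
      51)) (.c (.l 18) (.l 51)))) (.l 51)) (.c (.b (.a (.c (.l 18) (.l 51)) (.c (.l 18) (.l 51)))
      (.a (.c (.l 18) (.l 51)) (.c (.l 18) (.l 51)))) (.l 51))) (.a (.c (.b (.a (.c (.l 18) (.l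
      51)) (.c (.l 18) (.l 51))) (.a (.c (.l 18) (.l 51)) (.c (.l 18) (.l 51)))) (.l 51)) (.c (.b
      (.a (.c (.l 18) (.l 51)) (.c (.l 18) (.l 51))) (.a (.c (.l 18) (.l 51)) (.c (.l 34) (.l
      51)))) (.l 51)))))

theorem x_t3a_c1_x_f_M_h10 : chk3 (onCell 0 4294967296 0 10737418240 0 34359739 T_t3a_c1_x_f) x_t3a_c1_x_f_M_t10 14 19 1 = true := by decide +kernel

def x_t3a_c1_x_f_M_t11 : T :=
  (.c (.l 34) (.b (.a (.c (.b (.a (.c (.l 18) (.l 51)) (.c (.l 18) (.l 51))) (.a (.c (.l 18) (.l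
      51)) (.c (.l 34) (.l 51)))) (.l 51)) (.c (.b (.a (.c (.l 34) (.l 51)) (.l 51)) (.a (.c (.l
      51) (.l 51)) (.l 51))) (.l 51))) (.a (.c (.b (.a (.c (.l 34) (.l 51)) (.c (.l 51) (.l 51)))
      (.a (.c (.b (.a (.l 34) (.l 51)) (.l 51)) (.l 51)) (.l 51))) (.l 51)) (.c (.l 51) (.l
      51)))))

theorem x_t3a_c1_x_f_M_h11 : chk3 (onCell 0 4294967296 0 10737418240 0 34359739 T_t3a_c1_x_f) x_t3a_c1_x_f_M_t11 15 19 1 = true := by decide +kernel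

def x_t3a_c1_x_f_M_t12 : T :=
  (.b (.b (.a (.l 34) (.b (.l 34) (.l 34))) (.a (.l 34) (.b (.c (.l 34) (.l 34)) (.c (.l 34) (.l
      34))))) (.a (.b (.b (.l 34) (.l 99)) (.l 99)) (.c (.l 34) (.b (.a (.l 34) (.c (.l 99) (.l
      99))) (.l 99)))))

theorem x_t3a_c1_x_f_M_h12 : chk3 (onCell 0 4294967296 0 10737418240 0 34359739 T_t3a_c1_x_f) x_t3a_c1_x_f_M_t12 4 10 1 = true := by decide +kernel

def x_t3a_c1_x_f_M_t13 : T :=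
  (.b (.a (.c (.l 34) (.b (.a (.l 34) (.c (.l 34) (.b (.a (.l 34) (.c (.l 18) (.l 51))) (.a (.c
      (.l 18) (.l 51)) (.c (.l 18) (.l 51)))))) (.a (.c (.l 34) (.b (.l 34) (.a (.l 34) (.c (.l
      18) (.l 51))))) (.c (.l 34) (.b (.a (.c (.l 18) (.l 51)) (.c (.l 18) (.l 51))) (.a (.c (.l
      18) (.l 51)) (.c (.l 18) (.l 51)))))))) (.c (.l 34) (.b (.a (.c (.l 34) (.b (.a (.c (.l 18)
      (.l 51)) (.c (.l 18) (.l 51))) (.a (.c (.l 18) (.l 51)) (.l 51)))) (.c (.l 18) (.b (.l 51)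
      (.l 51)))) (.a (.c (.l 34) (.b (.a (.c (.l 51) (.l 51)) (.l 51)) (.l 51))) (.c (.l 34) (.l
      51)))))) (.a (.c (.l 34) (.b (.a (.c (.l 99) (.l 99)) (.c (.l 99) (.l 99))) (.l 99))) (.c
      (.l 34) (.b (.a (.c (.l 99) (.l 51)) (.c (.l 99) (.l 51))) (.l 99)))))

theorem x_t3a_c1_x_f_M_h13 : chk3 (onCell 0 4294967296 0 10737418240 0 34359739 T_t3a_c1_x_f) x_t3a_c1_x_f_M_t13 5 10 1 = true := by decide +kernel

def x_t3a_c1_x_f_M_t14 : T :=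
  (.b (.a (.l 99) (.c (.l 99) (.b (.l 99) (.a (.l 99) (.c (.l 99) (.l 51)))))) (.a (.c (.l 99)
      (.b (.a (.l 99) (.c (.l 99) (.b (.l 99) (.a (.c (.l 99) (.l 35)) (.l 51))))) (.a (.c (.l
      99) (.b (.a (.c (.l 99) (.l 35)) (.c (.l 99) (.l 35))) (.a (.c (.l 99) (.l 35)) (.c (.l 51)
      (.l 35))))) (.c (.l 99) (.b (.a (.l 51) (.l 51)) (.l 51)))))) (.c (.l 99) (.b (.a (.c (.l
      99) (.l 51)) (.c (.l 99) (.l 51))) (.a (.c (.l 99) (.l 51)) (.c (.l 99) (.l 51)))))))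

theorem x_t3a_c1_x_f_M_h14 : chk3 (onCell 0 4294967296 0 10737418240 0 34359739 T_t3a_c1_x_f) x_t3a_c1_x_f_M_t14 4 11 1 = true := by decide +kernel

def x_t3a_c1_x_f_M_t15 : T :=
  (.b (.a (.c (.l 99) (.b (.l 99) (.a (.c (.l 99) (.l 51)) (.c (.l 99) (.l 51))))) (.c (.l 99)
      (.b (.a (.c (.l 99) (.l 51)) (.c (.l 99) (.l 51))) (.a (.c (.l 99) (.l 51)) (.c (.l 99) (.l
      51)))))) (.a (.c (.l 99) (.b (.a (.c (.l 99) (.l 51)) (.c (.l 99) (.l 51))) (.a (.c (.l 99)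
      (.l 35)) (.c (.l 99) (.l 35))))) (.c (.l 99) (.b (.a (.c (.l 99) (.l 35)) (.c (.l 99) (.l
      35))) (.a (.c (.l 99) (.l 35)) (.c (.l 99) (.l 35)))))))

theorem x_t3a_c1_x_f_M_h15 : chk3 (onCell 0 4294967296 0 10737418240 0 34359739 T_t3a_c1_x_f) x_t3a_c1_x_f_M_t15 5 11 1 = true := by decide +kernel

def x_t3a_c1_x_f_M_t16 : T :=
  (.a (.c (.l 34) (.b (.a (.c (.l 34) (.l 51)) (.c (.b (.l 34) (.a (.l 18) (.c (.l 18) (.l 51))))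
      (.l 51))) (.a (.c (.b (.l 34) (.a (.l 18) (.c (.l 18) (.l 51)))) (.l 51)) (.c (.b (.a (.c
      (.l 18) (.l 51)) (.c (.l 18) (.l 51))) (.a (.c (.l 18) (.l 51)) (.c (.l 99) (.l 51)))) (.l
      51))))) (.c (.l 34) (.b (.a (.c (.b (.a (.c (.l 18) (.l 51)) (.c (.l 18) (.l 51))) (.a (.c
      (.l 18) (.l 51)) (.c (.l 18) (.l 51)))) (.l 51)) (.c (.b (.a (.c (.l 18) (.l 51)) (.c (.l
      18) (.l 51))) (.a (.c (.l 18) (.l 51)) (.c (.l 18) (.l 51)))) (.l 51))) (.a (.c (.b (.a (.c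
      (.l 18) (.l 51)) (.c (.l 18) (.l 51))) (.a (.c (.l 99) (.l 51)) (.l 99))) (.l 51)) (.c (.b
      (.a (.c (.l 18) (.l 51)) (.c (.l 18) (.l 51))) (.l 99)) (.l 51))))))

theorem x_t3a_c1_x_f_M_h16 : chk3 (onCell 0 4294967296 0 10737418240 0 34359739 T_t3a_c1_x_f) x_t3a_c1_x_f_M_t16 6 20 1 = true := by decide +kernel

def x_t3a_c1_x_f_M_t17 : T :=
  (.a (.c (.l 34) (.b (.a (.c (.l 99) (.l 51)) (.c (.l 99) (.l 51))) (.a (.l 99) (.c (.l 99) (.l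
      51))))) (.c (.l 34) (.b (.a (.c (.l 99) (.l 51)) (.c (.l 99) (.l 51))) (.a (.c (.l 99) (.l
      51)) (.c (.l 99) (.l 51))))))

theorem x_t3a_c1_x_f_M_h17 : chk3 (onCell 0 4294967296 0 10737418240 0 34359739 T_t3a_c1_x_f) x_t3a_c1_x_f_M_t17 6 21 1 = true := by decide +kernel

def x_t3a_c1_x_f_M_t18 : T :=
  (.b (.a (.c (.l 34) (.b (.a (.c (.b (.a (.c (.l 18) (.l 51)) (.c (.l 18) (.l 51))) (.a (.c (.l
      18) (.l 51)) (.c (.l 18) (.l 51)))) (.l 51)) (.c (.b (.a (.c (.l 18) (.l 51)) (.c (.b (.a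
      (.l 18) (.l 51)) (.l 51)) (.l 51))) (.a (.c (.b (.l 34) (.l 51)) (.l 51)) (.l 51))) (.l
      51))) (.a (.c (.b (.a (.c (.l 18) (.l 51)) (.c (.b (.l 34) (.a (.l 18) (.l 51))) (.l 51)))
      (.l 99)) (.l 51)) (.c (.b (.a (.l 51) (.l 51)) (.l 51)) (.l 51))))) (.c (.b (.l 34) (.l
      34)) (.b (.a (.c (.l 51) (.l 51)) (.l 51)) (.a (.l 51) (.l 51))))) (.a (.c (.b (.l 34) (.l
      99)) (.b (.a (.c (.l 99) (.l 51)) (.l 51)) (.a (.l 51) (.l 51)))) (.c (.b (.a (.l 34) (.c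
      (.l 18) (.l 99))) (.l 99)) (.l 51))))

theorem x_t3a_c1_x_f_M_h18 : chk3 (onCell 0 4294967296 0 10737418240 0 34359739 T_t3a_c1_x_f) x_t3a_c1_x_f_M_t18 7 10 1 = true := by decide +kernel

def x_t3a_c1_x_f_M_t19 : T :=
  (.a (.b (.a (.c (.l 99) (.b (.a (.c (.l 99) (.l 51)) (.c (.l 99) (.l 51))) (.a (.c (.l 99) (.l
      51)) (.c (.l 99) (.l 35))))) (.c (.l 99) (.b (.a (.c (.l 99) (.l 51)) (.c (.l 51) (.l 51)))
      (.a (.c (.l 51) (.l 35)) (.l 51))))) (.a (.c (.l 99) (.b (.a (.c (.l 99) (.l 35)) (.c (.l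
      51) (.l 35))) (.a (.c (.l 99) (.l 35)) (.l 51)))) (.c (.l 99) (.b (.l 51) (.l 51))))) (.b
      (.a (.c (.l 99) (.l 51)) (.c (.l 99) (.l 51))) (.a (.c (.l 99) (.l 51)) (.c (.l 99) (.l
      51)))))

theorem x_t3a_c1_x_f_M_h19 : chk3 (onCell 0 4294967296 0 10737418240 0 34359739 T_t3a_c1_x_f) x_t3a_c1_x_f_M_t19 3 11 1 = true := by decide +kernel

def x_t3a_c1_x_f_M_t20 : T :=
  (.b (.a (.c (.l 99) (.b (.a (.c (.l 99) (.b (.a (.c (.l 99) (.l 35)) (.l 35)) (.l 35))) (.c (.l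
      99) (.l 35))) (.a (.c (.l 99) (.l 35)) (.c (.l 99) (.l 35))))) (.c (.l 99) (.b (.a (.c (.l
      99) (.l 35)) (.c (.l 99) (.l 35))) (.a (.c (.l 99) (.l 35)) (.c (.l 99) (.l 35)))))) (.a
      (.c (.l 99) (.b (.a (.c (.l 99) (.l 35)) (.c (.l 99) (.l 35))) (.a (.c (.l 99) (.l 35)) (.c
      (.b (.l 99) (.a (.l 99) (.c (.l 99) (.l 35)))) (.l 35))))) (.c (.l 99) (.b (.a (.c (.l 99)
      (.l 35)) (.c (.l 99) (.l 35))) (.a (.c (.b (.a (.l 99) (.c (.l 99) (.l 35))) (.a (.c (.l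
      99) (.l 35)) (.c (.l 99) (.l 35)))) (.l 35)) (.c (.b (.a (.c (.l 99) (.l 35)) (.c (.l 99)
      (.l 35))) (.a (.c (.l 99) (.l 35)) (.c (.l 99) (.l 35)))) (.l 35)))))))

theorem x_t3a_c1_x_f_M_h20 : chk3 (onCell 0 4294967296 0 10737418240 0 34359739 T_t3a_c1_x_f) x_t3a_c1_x_f_M_t20 4 12 1 = true := by decide +kernel

def x_t3a_c1_x_f_M_t21 : T :=
  (.b (.a (.c (.l 99) (.b (.a (.c (.l 99) (.l 35)) (.c (.l 99) (.l 35))) (.a (.c (.l 99) (.l 35))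
      (.c (.l 99) (.l 35))))) (.c (.l 99) (.b (.a (.c (.l 99) (.l 35)) (.c (.l 99) (.l 35))) (.a
      (.c (.b (.l 99) (.l 51)) (.l 35)) (.l 51))))) (.a (.c (.l 99) (.b (.a (.c (.b (.l 99) (.a
      (.c (.l 99) (.l 35)) (.c (.l 99) (.l 35)))) (.l 35)) (.c (.b (.a (.c (.l 99) (.l 35)) (.l
      51)) (.l 51)) (.l 35))) (.a (.c (.b (.a (.c (.l 99) (.l 35)) (.l 51)) (.a (.l 51) (.l 51)))
      (.l 35)) (.c (.l 51) (.l 35))))) (.c (.l 99) (.b (.a (.l 51) (.l 51)) (.l 51)))))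

theorem x_t3a_c1_x_f_M_h21 : chk3 (onCell 0 4294967296 0 10737418240 0 34359739 T_t3a_c1_x_f) x_t3a_c1_x_f_M_t21 5 12 1 = true := by decide +kernel

def x_t3a_c1_x_f_M_t22 : T :=
  (.c (.l 99) (.b (.a (.c (.b (.a (.c (.l 99) (.l 35)) (.c (.l 99) (.l 35))) (.a (.c (.l 99) (.l
      35)) (.c (.l 99) (.l 35)))) (.l 35)) (.c (.b (.a (.c (.l 99) (.l 35)) (.c (.l 99) (.l 35)))
      (.a (.c (.l 99) (.l 35)) (.c (.l 99) (.l 35)))) (.l 35))) (.a (.c (.b (.a (.c (.l 99) (.l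
      35)) (.c (.l 99) (.l 35))) (.a (.c (.l 99) (.l 35)) (.c (.l 99) (.l 35)))) (.l 35)) (.c (.b
      (.a (.c (.l 99) (.l 35)) (.c (.l 99) (.l 35))) (.a (.c (.l 99) (.l 35)) (.c (.l 99) (.l
      35)))) (.l 35)))))

theorem x_t3a_c1_x_f_M_h22 : chk3 (onCell 0 4294967296 0 10737418240 0 34359739 T_t3a_c1_x_f) x_t3a_c1_x_f_M_t22 8 26 1 = true := by decide +kernel

def x_t3a_c1_x_f_M_t23 : T :=
  (.c (.l 99) (.b (.a (.c (.b (.a (.c (.l 99) (.l 35)) (.c (.l 99) (.l 35))) (.a (.c (.l 99) (.l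
      35)) (.c (.l 99) (.l 35)))) (.l 35)) (.c (.b (.a (.c (.l 99) (.l 35)) (.c (.l 51) (.l 35)))
      (.a (.c (.l 99) (.l 35)) (.l 51))) (.l 35))) (.a (.c (.b (.a (.c (.l 99) (.l 35)) (.c (.l
      99) (.l 35))) (.a (.c (.l 99) (.l 35)) (.l 51))) (.l 35)) (.c (.l 51) (.l 35)))))

theorem x_t3a_c1_x_f_M_h23 : chk3 (onCell 0 4294967296 0 10737418240 0 34359739 T_t3a_c1_x_f) x_t3a_c1_x_f_M_t23 9 26 1 = true := by decide +kernel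

def x_t3a_c1_x_f_M_t24 : T :=
  (.a (.c (.l 99) (.b (.a (.c (.b (.a (.c (.l 99) (.l 35)) (.c (.l 99) (.l 35))) (.a (.c (.l 99)
      (.l 35)) (.c (.l 99) (.l 35)))) (.l 35)) (.c (.b (.a (.c (.l 99) (.l 35)) (.c (.l 99) (.l
      35))) (.a (.c (.l 99) (.l 35)) (.l 51))) (.l 35))) (.a (.c (.b (.a (.c (.l 99) (.l 35)) (.c
      (.l 99) (.l 35))) (.a (.c (.l 99) (.l 35)) (.c (.l 99) (.l 35)))) (.l 35)) (.c (.b (.a (.c
      (.l 51) (.l 35)) (.l 51)) (.l 51)) (.l 35))))) (.c (.l 99) (.b (.a (.c (.b (.a (.l 51) (.l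
      51)) (.l 51)) (.l 35)) (.l 51)) (.a (.l 51) (.l 51)))))

theorem x_t3a_c1_x_f_M_h24 : chk3 (onCell 0 4294967296 0 10737418240 0 34359739 T_t3a_c1_x_f) x_t3a_c1_x_f_M_t24 4 27 1 = true := by decide +kernel

def x_t3a_c1_x_f_M_t25 : T :=
  (.b (.a (.c (.l 99) (.b (.a (.c (.l 51) (.l 35)) (.l 51)) (.l 51))) (.c (.l 99) (.l 51))) (.a
      (.c (.l 99) (.l 51)) (.c (.l 99) (.l 51))))

theorem x_t3a_c1_x_f_M_h25 : chk3 (onCell 0 4294967296 0 10737418240 0 34359739 T_t3a_c1_x_f) x_t3a_c1_x_f_M_t25 5 13 1 = true := by decide +kernel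

def x_t3a_c1_x_f_M_t26 : T :=
  (.b (.a (.b (.a (.c (.l 99) (.b (.a (.l 51) (.l 51)) (.l 51))) (.c (.l 99) (.l 51))) (.a (.c
      (.l 99) (.l 51)) (.c (.l 99) (.l 51)))) (.b (.a (.c (.l 99) (.l 51)) (.l 83)) (.a (.c (.l
      83) (.l 51)) (.l 83)))) (.a (.b (.a (.c (.l 99) (.l 51)) (.c (.l 99) (.l 51))) (.a (.c (.l
      99) (.l 51)) (.l 83))) (.l 83)))

theorem x_t3a_c1_x_f_M_h26 : chk3 (onCell 0 4294967296 0 10737418240 0 34359739 T_t3a_c1_x_f) x_t3a_c1_x_f_M_t26 3 6 1 = true := by decide +kernel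

def x_t3a_c1_x_f_M_t27 : T :=
  (.a (.b (.a (.c (.l 99) (.b (.a (.c (.b (.a (.c (.l 99) (.l 35)) (.l 35)) (.l 35)) (.l 35)) (.l
      51)) (.l 35))) (.c (.l 99) (.l 51))) (.a (.c (.l 99) (.l 35)) (.c (.l 99) (.l 35)))) (.b
      (.a (.c (.l 99) (.l 35)) (.c (.l 99) (.l 35))) (.a (.c (.l 99) (.l 35)) (.l 83))))

theorem x_t3a_c1_x_f_M_h27 : chk3 (onCell 0 4294967296 0 10737418240 0 34359739 T_t3a_c1_x_f) x_t3a_c1_x_f_M_t27 2 14 1 = true := by decide +kernel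

def x_t3a_c1_x_f_M_t28 : T :=
  (.a (.c (.l 99) (.l 35)) (.c (.b (.l 99) (.a (.c (.l 99) (.b (.l 99) (.a (.c (.l 99) (.b (.l
      99) (.l 51))) (.l 83)))) (.l 83))) (.l 35)))

theorem x_t3a_c1_x_f_M_h28 : chk3 (onCell 0 4294967296 0 10737418240 0 34359739 T_t3a_c1_x_f) x_t3a_c1_x_f_M_t28 4 30 1 = true := by decide +kernel

def x_t3a_c1_x_f_M_t29 : T :=
  (.a (.c (.l 99) (.b (.l 99) (.a (.c (.l 99) (.b (.a (.l 99) (.c (.l 99) (.l 35))) (.a (.c (.l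
      99) (.l 35)) (.c (.l 99) (.l 35))))) (.c (.l 99) (.b (.a (.c (.l 99) (.l 35)) (.c (.l 99)
      (.l 35))) (.a (.c (.l 99) (.l 35)) (.c (.l 99) (.l 35)))))))) (.c (.l 99) (.b (.a (.c (.l
      99) (.b (.l 99) (.a (.c (.l 99) (.l 35)) (.c (.l 99) (.l 35))))) (.c (.l 99) (.b (.a (.c
      (.l 99) (.l 35)) (.l 51)) (.l 83)))) (.a (.c (.l 99) (.b (.a (.c (.l 99) (.l 35)) (.c (.l
      99) (.l 35))) (.a (.c (.l 99) (.l 35)) (.l 51)))) (.l 83)))))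

theorem x_t3a_c1_x_f_M_h29 : chk3 (onCell 0 4294967296 0 10737418240 0 34359739 T_t3a_c1_x_f) x_t3a_c1_x_f_M_t29 8 62 2 = true := by decide +kernel

end Pool.Agent.Strip051.LC.E0.Ch
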