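import Pool.Agent.Strip051.LC.E0.Ch.Bt

/-! # Small rests: certificates of the functions of the lines -/

set_option maxRecDepth 100000

namespace Pool.Agent.Strip051.LC.E0.Ch

open Pool.Agent.Strip051.PB

def y_bi1f_t : T :=
  (.c (.c (.a (.c (.a (.l 1) (.l 0)) (.a (.l 1) (.l 0))) (.l 0)) (.a (.c (.a (.l 1) (.l 0)) (.a
      (.l 1) (.l 0))) (.l 0))) (.c (.a (.c (.a (.l 1) (.l 0)) (.a (.l 1) (.l 0))) (.l 0)) (.a (.c
      (.a (.l 1) (.l 0)) (.a (.l 1) (.l 0))) (.l 0))))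

theorem y_bi1f : Tree 644245094 429496730 0 0 0 34359739 (tI bi1f_vc) := ⟨y_bi1f_t, by decide +kernel⟩

def y_bo1f_t : T :=
  (.l 0)

theorem y_bo1f : Tree 1073741824 107374183 0 0 0 34359739 (tO bo1f_vc) := ⟨y_bo1f_t, by decide +kernel⟩

def y_bi3f_t : T :=
  (.l 0)

theorem y_bi3f : Tree 644245094 429496730 0 0 0 34359739 (tI bi3f_vc) := ⟨y_bi3f_t, by decide +kernel⟩

def y_bo3f_t : T :=
  (.l 0)

theorem y_bo3f : Tree 1073741824 107374183 0 0 0 34359739 (tO bo3f_vc) := ⟨y_bo3f_t, by decide +kernel⟩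

def y_bi1n_t : T :=
  (.c (.c (.a (.c (.a (.l 1) (.l 0)) (.a (.l 1) (.l 0))) (.l 0)) (.a (.c (.a (.l 1) (.l 0)) (.a
      (.l 1) (.l 0))) (.l 0))) (.c (.a (.c (.a (.l 1) (.l 0)) (.a (.l 1) (.l 0))) (.l 0)) (.a (.c
      (.a (.l 1) (.l 0)) (.a (.l 1) (.l 0))) (.l 0))))

theorem y_bi1n : Tree 644245094 429496730 0 0 0 34359739 (tI bi1n_vc) := ⟨y_bi1n_t, by decide +kernel⟩

def y_bo1n_t : T :=
  (.l 0)

theorem y_bo1n : Tree 1073741824 107374183 0 0 0 34359739 (tO bo1n_vc) := ⟨y_bo1n_t, by decide +kernel⟩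

def y_bi3n_t : T :=
  (.l 0)

theorem y_bi3n : Tree 644245094 429496730 0 0 0 34359739 (tI bi3n_vc) := ⟨y_bi3n_t, by decide +kernel⟩

def y_bo3n_t : T :=
  (.l 0)

theorem y_bo3n : Tree 1073741824 107374183 0 0 0 34359739 (tO bo3n_vc) := ⟨y_bo3n_t, by decide +kernel⟩

def y_bi5f_t : T :=
  (.c (.c (.a (.c (.l 1) (.l 1)) (.l 0)) (.a (.c (.a (.l 1) (.l 1)) (.a (.l 1) (.l 1))) (.l 0)))
      (.c (.a (.c (.a (.l 1) (.l 1)) (.a (.l 1) (.l 1))) (.a (.l 0) (.l 3))) (.a (.c (.a (.l 1)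
      (.l 1)) (.a (.l 1) (.a (.l 1) (.l 0)))) (.a (.l 0) (.l 3)))))

theorem y_bi5f : Tree 644245094 429496730 0 0 0 34359739 (tQ bi5f_vc) := ⟨y_bi5f_t, by decide +kernel⟩

def y_bi5fB_t : T :=
  (.a (.a (.a (.l 0) (.c (.l 0) (.a (.l 0) (.l 0)))) (.a (.c (.a (.l 0) (.l 0)) (.c (.l 0) (.a
      (.l 0) (.l 0)))) (.c (.a (.l 0) (.l 0)) (.a (.c (.l 0) (.l 0)) (.c (.l 0) (.l 0)))))) (.a
      (.a (.c (.a (.l 0) (.l 0)) (.a (.c (.l 0) (.l 0)) (.c (.l 0) (.l 0)))) (.c (.a (.l 0) (.l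
      0)) (.a (.a (.c (.l 0) (.l 0)) (.l 0)) (.a (.l 0) (.l 0))))) (.a (.a (.c (.l 0) (.a (.l 0)
      (.l 0))) (.c (.l 0) (.l 0))) (.a (.c (.l 0) (.l 0)) (.a (.c (.l 0) (.l 0)) (.c (.l 0) (.l
      0)))))))

theorem y_bi5fB : Tree 0 8589934592 0 0 0 34359739 (tB bi5f_vc) := ⟨y_bi5fB_t, by decide +kernel⟩

def y_bo5f_t : T :=
  (.l 0)

theorem y_bo5f : Tree 1073741824 107374183 0 0 0 34359739 (tO bo5f_vc) := ⟨y_bo5f_t, by decide +kernel⟩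

def y_bi8a_t : T :=
  (.c (.a (.c (.l 1) (.l 1)) (.l 0)) (.a (.c (.l 1) (.c (.l 1) (.a (.l 1) (.l 1)))) (.l 0)))

theorem y_bi8a : Tree 644245094 429496730 0 0 0 34359739 (tQ bi8a_vc) := ⟨y_bi8a_t, by decide +kernel⟩

def y_bi8aB_t : T :=
  (.a (.a (.a (.l 0) (.c (.l 0) (.l 0))) (.a (.c (.l 0) (.l 0)) (.c (.l 0) (.l 0)))) (.a (.a (.c
      (.l 0) (.l 0)) (.c (.l 0) (.l 0))) (.a (.c (.l 0) (.l 0)) (.c (.l 0) (.l 0)))))

theorem y_bi8aB : Tree 0 8589934592 0 0 0 34359739 (tB bi8a_vc) := ⟨y_bi8aB_t, by decide +kernel⟩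

def y_bo8a_t : T :=
  (.l 0)

theorem y_bo8a : Tree 1073741824 107374183 0 0 0 34359739 (tO bo8a_vc) := ⟨y_bo8a_t, by decide +kernel⟩

def y_bi8d_t : T :=
  (.c (.a (.l 1) (.l 0)) (.a (.c (.l 1) (.l 1)) (.l 0)))

theorem y_bi8d : Tree 644245094 429496730 0 0 0 34359739 (tI bi8d_vc) := ⟨y_bi8d_t, by decide +kernel⟩

def y_bo8d_t : T :=
  (.l 0)

theorem y_bo8d : Tree 1073741824 107374183 0 0 0 34359739 (tO bo8d_vc) := ⟨y_bo8d_t, by decide +kernel⟩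

def y_bi8u_t : T :=
  (.c (.a (.l 1) (.l 0)) (.a (.c (.l 1) (.l 1)) (.l 0)))

theorem y_bi8u : Tree 644245094 429496730 0 0 0 34359739 (tI bi8u_vc) := ⟨y_bi8u_t, by decide +kernel⟩

def y_bo8u_t : T :=
  (.l 0)

theorem y_bo8u : Tree 1073741824 107374183 0 0 0 34359739 (tO bo8u_vc) := ⟨y_bo8u_t, by decide +kernel⟩

def y_ex8d_t : T :=
  (.l 0)

theorem y_ex8d : Tree 1073741824 107374183 0 0 0 34359739 (tE ex8d 20) := ⟨y_ex8d_t, by decide +kernel⟩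

def y_ex8u_t : T :=
  (.l 0)

theorem y_ex8u : Tree 1073741824 107374183 0 0 0 34359739 (tE ex8u 100) := ⟨y_ex8u_t, by decide +kernel⟩

def y_bw1f_t : T :=
  (.l 0)

theorem y_bw1f : Tree 1073741824 4294968 0 0 0 34359739 (tD bw1f) := ⟨y_bw1f_t, by decide +kernel⟩

def y_bw1n_t : T :=
  (.l 0)

theorem y_bw1n : Tree 1073741824 4294968 0 0 0 34359739 (tD bw1n) := ⟨y_bw1n_t, by decide +kernel⟩

def y_bw3f_t : T :=
  (.l 0)

theorem y_bw3f : Tree 1073741824 4294968 0 0 0 34359739 (tD bw3f) := ⟨y_bw3f_t, by decide +kernel⟩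

def y_bw3n_t : T :=
  (.l 0)

theorem y_bw3n : Tree 1073741824 4294968 0 0 0 34359739 (tD bw3n) := ⟨y_bw3n_t, by decide +kernel⟩

def y_bw8a_t : T :=
  (.l 0)

theorem y_bw8a : Tree 1073741824 4294968 0 0 0 34359739 (tD bw8a) := ⟨y_bw8a_t, by decide +kernel⟩

def y_bw8d_t : T :=
  (.l 0)

theorem y_bw8d : Tree 1073741824 4294968 0 0 0 34359739 (tD bw8d) := ⟨y_bw8d_t, by decide +kernel⟩

end Pool.Agent.Strip051.LC.E0.Ch
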